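import Pool.Agent.TSR.Base

/-!
# TSR, module PFC: the facet side of an active edge
-/

set_option autoImplicit false

namespace Pool.Agent.TSR

open Set Filter Topology Pool.Agent.TSM Pool.Agent.TSC

namespace PFC_

theorem inn (a b : E3) : (inner ℝ a b : ℝ) = a 0 * b 0 + a 1 * b 1 + a 2 * b 2 := by
  simp [PiLp.inner_apply, Fin.sum_univ_three]
  ring

/-- expansion of `c` in the basis `a`, `b`, `crs a b` -/
theorem expand (a b c : E3) :
    (inner ℝ (crs a b) (crs a b) : ℝ) • c =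
      ((inner ℝ a c : ℝ) * inner ℝ b b - inner ℝ b c * inner ℝ a b) • a +
      ((inner ℝ b c : ℝ) * inner ℝ a a - inner ℝ a c * inner ℝ a b) • b +
      (det3 a b c) • crs a b := by
  apply e3ext <;>
    simp only [inn, crs0, crs1, crs2, PiLp.add_apply, PiLp.smul_apply, smul_eq_mul, det3] <;> ring

end PFC_

theorem PFC_proof (h1 : Stmt_TAI) : Stmt_PFC := by
  intro V _ _ K p Φ op hF hop v u w φ hφ hv hu hw hfl
  obtain ⟨-, -, -, hn⟩ := h1 V K p hF.emb v u w hfl.1
  have ha : (inner ℝ (p u - p v) φ.1 : ℝ) = 0 := by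
    rw [real_inner_comm, ← ev_sub, hv, hu, sub_zero]
  have hb : (inner ℝ (p w - p v) φ.1 : ℝ) = 0 := by
    rw [real_inner_comm, ← ev_sub, hv, hw, sub_zero]
  have hex := PFC_.expand (p u - p v) (p w - p v) φ.1
  have hnn : (inner ℝ (n0 p v u w) (n0 p v u w) : ℝ) ≠ 0 := by
    rw [Ne, inner_self_eq_zero]; exact hn
  rw [ha, hb] at hex
  simp only [zero_mul, sub_zero, zero_smul, zero_add] at hex
  change (inner ℝ (n0 p v u w) (n0 p v u w) : ℝ) • φ.1 = _ • n0 p v u w at hex
  obtain ⟨μ, hμ⟩ : ∃ μ : ℝ, φ.1 = μ • n0 p v u w := by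
    refine ⟨(inner ℝ (n0 p v u w) (n0 p v u w) : ℝ)⁻¹ * det3 (p u - p v) (p w - p v) φ.1, ?_⟩
    rw [mul_smul, ← hex, smul_smul, inv_mul_cancel₀ hnn, one_smul]
  have hev : ∀ y, ev φ y = μ * ev (P0 p v u w) y := by
    intro y
    rw [ev_P0, ← real_inner_smul_left, ← hμ, ← ev_sub, hv, sub_zero]
  have hop' : ev (P0 p v u w) (p (op v u w)) = Dl p v u w (op v u w) := by
    rw [ev_P0, inn_n0]
  have hle : ev φ (p (op v u w)) ≤ 0 := hF.mem _ φ hφ
  have hne : ev φ (p (op v u w)) ≠ 0 := fun h0 =>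
    hfl.2 ⟨⟨φ, hφ, hv, hu, hw⟩, ⟨φ, hφ, hv, hu, h0⟩⟩
  have hlt : μ * Dl p v u w (op v u w) < 0 := by
    rw [← hop', ← hev]; exact lt_of_le_of_ne hle hne
  have hμ0 : μ ≠ 0 := by rintro rfl; rw [zero_mul] at hlt; exact lt_irrefl _ hlt
  have hD0 : Dl p v u w (op v u w) ≠ 0 := by
    intro h0; rw [h0, mul_zero] at hlt; exact lt_irrefl _ hlt
  have hs : sg p op v u w * μ < 0 := by
    unfold sg
    rcases lt_or_gt_of_ne hD0 with hD | hD
    · rw [Real.sign_of_neg hD]
      have : 0 < μ := by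
        by_contra h; push Not at h
        have := mul_nonneg_of_nonpos_of_nonpos h hD.le
        linarith
      linarith
    · rw [Real.sign_of_pos hD]
      have : μ < 0 := by
        by_contra h; push Not at h
        have := mul_nonneg h hD.le
        linarith
      linarith
  refine ⟨-(sg p op v u w / μ), ?_, ?_⟩
  · have : sg p op v u w / μ < 0 := by
      have e : sg p op v u w / μ = (sg p op v u w * μ) / (μ * μ) := by field_simp
      rw [e]
      exact div_neg_of_neg_of_pos hs (mul_self_pos.2 hμ0)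
    linarith
  · intro y
    rw [ev_smul, hev]
    field_simp

end Pool.Agent.TSR
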