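import Pool.Agent.TSR.Base

/-!
# TSR, module TAI: triangles are not degenerate
-/

set_option autoImplicit false

namespace Pool.Agent.TSR

open Set Filter Topology Pool.Agent.TSM Pool.Agent.TSC

namespace TAI_

theorem dep {a b : E3} (h : crs a b = 0) : ∃ α β : ℝ, (α ≠ 0 ∨ β ≠ 0) ∧ α • a + β • b = 0 := by
  have h0 : a 1 * b 2 - a 2 * b 1 = 0 := by
    have := congrArg (fun z : E3 => z 0) h; simpa [crs0] using this
  have h1 : a 2 * b 0 - a 0 * b 2 = 0 := by
    have := congrArg (fun z : E3 => z 1) h; simpa [crs1] using this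
  have h2 : a 0 * b 1 - a 1 * b 0 = 0 := by
    have := congrArg (fun z : E3 => z 2) h; simpa [crs2] using this
  by_cases ha0 : a 0 = 0
  · by_cases ha1 : a 1 = 0
    · by_cases ha2 : a 2 = 0
      · refine ⟨1, 0, Or.inl one_ne_zero, ?_⟩
        apply e3ext <;> simp [ha0, ha1, ha2]
      · refine ⟨b 2, - a 2, Or.inr (neg_ne_zero.2 ha2), ?_⟩
        apply e3ext <;> simp <;> linarith
    · refine ⟨b 1, - a 1, Or.inr (neg_ne_zero.2 ha1), ?_⟩
      apply e3ext <;> simp <;> linarith
  · refine ⟨b 0, - a 0, Or.inr (neg_ne_zero.2 ha0), ?_⟩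
    apply e3ext <;> simp <;> linarith

variable {V : Type} [Fintype V] [DecidableEq V]

/-- the point with coordinates `s`, `t` -/
def pt (v u w : V) (s t : ℝ) : V → ℝ :=
  fun z => if z = v then 1 - s - t else if z = u then s else if z = w then t else 0

theorem pt_InT {v u w : V} (h1 : v ≠ u) (h2 : v ≠ w) (h3 : u ≠ w) {s t : ℝ} (hs : 0 ≤ s)
    (ht : 0 ≤ t) (hst : s + t ≤ 1) : InT v u w (pt v u w s t) := by
  have hz : ∀ y ∉ ({v, u, w} : Finset V), pt v u w s t y = 0 := by
    intro y hy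
    simp only [Finset.mem_insert, Finset.mem_singleton, not_or] at hy
    simp [pt, hy.1, hy.2.1, hy.2.2]
  refine ⟨?_, ?_, hz⟩
  · intro y
    unfold pt
    split_ifs <;> linarith
  · have e : ∑ y, pt v u w s t y = ∑ y ∈ ({v, u, w} : Finset V), pt v u w s t y := by
      symm
      apply Finset.sum_subset (Finset.subset_univ _)
      intro y _ hy; exact hz y hy
    rw [e, Finset.sum_insert (by simp [h1, h2]), Finset.sum_insert (by simp [h3]),
      Finset.sum_singleton]
    simp only [pt, if_true, if_neg h1.symm, if_neg h2.symm, if_neg h3.symm]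
    ring

end TAI_

open TAI_ in
theorem TAI_proof : Stmt_TAI := by
  intro V _ _ K p hE v u w ht
  obtain ⟨h1, h2, h3⟩ := tri_ne ht
  refine ⟨h1, h2, h3, ?_⟩
  intro h0
  obtain ⟨α, β, hne, hab⟩ := dep (a := p u - p v) (b := p w - p v) h0
  set ε : ℝ := 1 / (6 * (|α| + |β| + 1)) with hε
  have hpos : 0 < |α| + |β| + 1 := by positivity
  have hε0 : 0 < ε := by positivity
  have ha : |ε * α| ≤ 1 / 6 := by
    rw [abs_mul, abs_of_pos hε0, hε, div_mul_eq_mul_div, div_le_div_iff₀ (by positivity)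
      (by norm_num)]
    nlinarith [abs_nonneg α, abs_nonneg β]
  have hb : |ε * β| ≤ 1 / 6 := by
    rw [abs_mul, abs_of_pos hε0, hε, div_mul_eq_mul_div, div_le_div_iff₀ (by positivity)
      (by norm_num)]
    nlinarith [abs_nonneg α, abs_nonneg β]
  rw [abs_le] at ha hb
  have hx := pt_InT h1 h2 h3 (s := 1 / 3) (t := 1 / 3) (by norm_num) (by norm_num) (by norm_num)
  have hx' := pt_InT h1 h2 h3 (s := 1 / 3 + ε * α) (t := 1 / 3 + ε * β) (by linarith)
    (by linarith) (by linarith)
  have hu : ∀ s t : ℝ, pt v u w s t u = s := by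
    intro s t; simp [pt, h1.symm]
  have hw : ∀ s t : ℝ, pt v u w s t w = t := by
    intro s t; simp [pt, h2.symm, h3.symm]
  have hl : TSM.lin p (pt v u w (1 / 3) (1 / 3)) =
      TSM.lin p (pt v u w (1 / 3 + ε * α) (1 / 3 + ε * β)) := by
    rw [hx.lin h1 h2 h3, hx'.lin h1 h2 h3, hu, hw, hu, hw]
    have : ε • (α • (p u - p v) + β • (p w - p v)) = 0 := by rw [hab, smul_zero]
    have e : p v + (1 / 3 + ε * α) • (p u - p v) + (1 / 3 + ε * β) • (p w - p v) =
        p v + (1 / 3 : ℝ) • (p u - p v) + (1 / 3 : ℝ) • (p w - p v) +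
          ε • (α • (p u - p v) + β • (p w - p v)) := by module
    rw [e, this, add_zero]
  have heq := hE v (hx.star ht) (hx'.star ht) hl
  have e1 := congrFun heq u
  have e2 := congrFun heq w
  rw [hu, hu] at e1
  rw [hw, hw] at e2
  rcases hne with h | h
  · have : ε * α = 0 := by linarith
    rcases mul_eq_zero.1 this with h' | h'
    · exact hε0.ne' h'
    · exact h h'
  · have : ε * β = 0 := by linarith
    rcases mul_eq_zero.1 this with h' | h'
    · exact hε0.ne' h'
    · exact h h'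

end Pool.Agent.TSR
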