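import Pool.Agent.TSR.GDefs
import Pool.Agent.TSR.PFC
import Pool.Agent.TSR.TAI

/-!
# TSR, module POC: pocket edges
-/

set_option autoImplicit false

namespace Pool.Agent.TSR

open Set Filter Topology Pool.Agent.TSM Pool.Agent.TSC

theorem poc_of_tai (h1 : Stmt_TAI) : Stmt_POC := by
  intro V _ _ K p Φ op hF hop v u w hfl φ hφ hv hu
  have hpfc := PFC_proof h1 V K p Φ op hF hop
  obtain ⟨ho1, ho2, ho3, ho4, ho5⟩ := hop v u w hfl.1
  have hno : ¬ K.Outer p Φ v := by
    intro ho
    apply hfl.2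
    obtain ⟨ψ, hψ, h2⟩ := ho _ hfl.1 (by simp)
    obtain ⟨χ, hχ, h3⟩ := ho _ ho1 (by simp)
    exact ⟨⟨ψ, hψ, h2 v (by simp), h2 u (by simp), h2 w (by simp)⟩,
      ⟨χ, hχ, h3 v (by simp), h3 u (by simp), h3 _ (by simp)⟩⟩
  -- a triangle at the edge in the facet
  have key : ∃ x, ({v, u, x} : Finset V) ∈ K.tri ∧ ev φ (p x) = 0 := by
    rcases hF.kinds v with h | h | h
    · exact absurd h hno
    · have := h.1 φ hφ; rw [hv] at this; exact absurd this (lt_irrefl _)
    · obtain ⟨ψ, hψ, hψv, hψ2, n, c, m, hc, hm2, hmn, hz, hneg, -, -⟩ := h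
      have hφψ : φ = ψ := by
        by_contra hne
        have := hψ2 φ hφ hne
        rw [hv] at this; exact lt_irrefl _ this
      subst hφψ
      obtain ⟨hn3, hinj, hcv, hcyc⟩ := hc
      have : NeZero n := ⟨by omega⟩
      obtain ⟨i, hi⟩ := (hcyc {v, u, w}).1 ⟨hfl.1, by simp⟩
      have huv : u ≠ v := (tri_ne hfl.1).1.symm
      have hum : u ∈ ({v, c i, c (i + 1)} : Finset V) := by rw [← hi]; simp
      have huc : ∃ j : ZMod n, u = c j := by
        simp only [Finset.mem_insert, Finset.mem_singleton] at hum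
        rcases hum with h | h | h
        · exact absurd h huv
        · exact ⟨i, h⟩
        · exact ⟨i + 1, h⟩
      obtain ⟨j, hj⟩ := huc
      have hjv : ((j.val : ℕ) : ZMod n) = j := ZMod.natCast_zmod_val j
      have hjn : j.val < n := ZMod.val_lt j
      have hjm : j.val ≤ m := by
        by_contra hlt
        push Not at hlt
        have := hneg j.val hlt hjn
        rw [hjv, ← hj, hu] at this
        exact lt_irrefl _ this
      rcases Nat.eq_zero_or_pos j.val with h0 | h0
      · have hj0 : j = ((0 : ℕ) : ZMod n) := by rw [← hjv, h0]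
        refine ⟨c ((1 : ℕ) : ZMod n), ?_, hz 1 (by omega)⟩
        have := ((hcyc {v, c j, c (j + 1)}).2 ⟨j, rfl⟩).1
        rw [← hj, hj0] at this
        simpa using this
      · refine ⟨c ((j.val - 1 : ℕ) : ZMod n), ?_, hz _ (by omega)⟩
        have e : (((j.val - 1 : ℕ) : ZMod n)) + 1 = j := by
          have : ((j.val - 1 + 1 : ℕ) : ZMod n) = j := by
            rw [Nat.sub_add_cancel h0, hjv]
          refine Eq.trans ?_ this
          push_cast; rfl
        have := ((hcyc {v, c ((j.val - 1 : ℕ) : ZMod n), c (((j.val - 1 : ℕ) : ZMod n) + 1)}).2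
          ⟨_, rfl⟩).1
        rw [e, ← hj, Finset.pair_comm] at this
        exact this
  obtain ⟨x, hx, hxφ⟩ := key
  have fin : ∀ y, Flag K p Φ op v u y → ev φ (p y) = 0 → Ft K p Φ v u y ∧
      ∀ q : E3, 0 ≤ sg p op v u y * ev (P0 p v u y) q → ev φ q ≤ 0 := by
    intro y hy hyφ
    refine ⟨⟨hy.1, ⟨φ, hφ, hv, hu, hyφ⟩⟩, ?_⟩
    obtain ⟨t, ht, h2⟩ := hpfc v u y φ hφ hv hu hyφ hy
    intro q hq
    have h3 := h2 q
    rw [ev_smul] at h3
    rw [h3] at hq
    by_contra hlt
    push Not at hlt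
    have := mul_pos ht hlt
    linarith
  rcases ho5 x hx with h | h
  · left; exact fin w hfl (h ▸ hxφ)
  · right; exact fin _ (hfl.opp hop) (h ▸ hxφ)

theorem poc_proof : Stmt_POC := poc_of_tai TAI_proof

end Pool.Agent.TSR
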