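import Pool.Agent.TSR.HDefs
import Pool.Agent.TSM.Reduce

/-!
# TSR: R-GLUE, assembly: the choice of the constants and Stmt_R
-/

set_option autoImplicit false

namespace Pool.Agent.TSR

open Set Filter Topology Pool.Agent.TSM

namespace ASMR_

theorem ev_lt {a : ℝ} (ha : 0 < a) : ∀ᶠ t in 𝓝[>] (0 : ℝ), t < a := by
  filter_upwards [Ioo_mem_nhdsGT ha] with t ht
  exact ht.2

theorem ev_pos : ∀ᶠ t in 𝓝[>] (0 : ℝ), 0 < t := by
  filter_upwards [self_mem_nhdsWithin] with t ht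
  exact ht

theorem mul_le_of_lt_div {Q t a : ℝ} (hQ : 0 < Q) (h : t < a / Q) : Q * t < a := by
  rw [lt_div_iff₀ hQ] at h
  linarith

end ASMR_

open ASMR_

/-- the system exists -/
theorem sys_of (hOPP : Stmt_OPP) (hTAI : Stmt_TAI) (hFLG : Stmt_FLG) (hHUL : Stmt_HUL)
    (hLBX : Stmt_LBX) (hPLA : Stmt_PLA) (hSBD : Stmt_SBD) (hSSL : Stmt_SSL) (hSFC : Stmt_SFC)
    (hSAN : Stmt_SAN) (hSGM : Stmt_SGM) (hSEH : Stmt_SEH) (hSFA : Stmt_SFA) (hSCO : Stmt_SCO)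
    (V : Type) [Fintype V] [DecidableEq V] (K : Surf V) (p : V → E3) (Φ : Finset Aff)
    (hf : K.Framed p Φ) (ε : ℝ) (hε : 0 < ε) :
    ∃ (op : V → V → V → V) (d ρ : ℝ) (κ : V → Type) (X : (v : V) → V → Finset (κ v))
      (τ : V → V → ℝ) (P : V → V → V → Aff) (B : (v : V) → κ v → Aff) (G : V → E3 → E3),
      IsOpp K op ∧ Sys K p Φ op d ρ ε X τ P B G := by
  obtain ⟨op, hop⟩ := hOPP V K
  obtain ⟨hul1, δh, hδh, hulE, hulF⟩ := hHUL V K p Φ op hf hop
  obtain ⟨flg1, flg2⟩ := hFLG V K p Φ op hf hop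
  have hul1' : ∀ v, ∃ δ : ℝ, 0 < δ ∧ (¬ K.Outer p Φ v → ∀ q : E3, ‖q - p v‖ ≤ δ →
      (∀ φ ∈ Φ, ev φ (p v) = 0 → ev φ q ≤ 0) → q ∈ hull Φ ∧ OneF Φ q) := by
    intro v
    by_cases hv : K.Outer p Φ v
    · exact ⟨1, one_pos, fun h => absurd hv h⟩
    · obtain ⟨δ, h1, h2⟩ := hul1 v hv
      exact ⟨δ, h1, fun _ => h2⟩
  choose δ hδ0 hδ using hul1'
  obtain ⟨d, c, C, hd0, hd1, hc, hC, hLB⟩ := hLBX V K p Φ op hf hop
  obtain ⟨Q, hQ, hQ2⟩ := hSBD V K p Φ op hf hop d c C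
  -- choice of ε'
  obtain ⟨ε', ⟨κ, X, τ, N₀, o, oN, η, R, M, hL⟩, he0, he1, he2⟩ :=
    (hLB.and (ev_pos.and ((ev_lt (div_pos (half_pos hδh) hQ)).and
      (ev_lt (div_pos (half_pos hε) hQ))))).exists
  -- choice of ρ
  obtain ⟨ρ, hr0, hr1, hsan, hsco⟩ := (ev_pos.and ((ev_lt (by norm_num : (0 : ℝ) < 1 / 4)).and
    ((hSAN V K p Φ op hf hop d c C ε' κ X τ N₀ o oN η R M hL).and
      (hSCO V K p Φ op hf d ε δ R M hε hδ0 hL.R0)))).exists
  -- choice of η'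
  have hn0 : ∀ᶠ η' in 𝓝[>] (0 : ℝ), ∀ v u w, ({v, u, w} : Finset V) ∈ K.tri →
      η' < ‖n0 p v u w‖ := by
    rw [eventually_all]; intro v
    rw [eventually_all]; intro u
    rw [eventually_all]; intro w
    by_cases h : ({v, u, w} : Finset V) ∈ K.tri
    · have h1 := (hTAI V K p hf.emb v u w h).2.2.2
      filter_upwards [ev_lt (norm_pos_iff.2 h1)] with t ht _
      exact ht
    · exact Eventually.of_forall fun _ h' => absurd h' h
  obtain ⟨η', hη0, hη1, hη2, hn0', hsan', hssl, hsbd, hsfc, hsgm, hsfa⟩ :=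
    (ev_pos.and ((ev_lt (div_pos (mul_pos (half_pos hδh) (by linarith : 0 < ρ / 4)) hQ)).and
      ((ev_lt (div_pos (half_pos hε) hQ)).and (hn0.and (hsan.and
      ((hSSL V K p Φ op hf hop d c C ε' κ X τ N₀ o oN η R M hL).and
      ((hQ2 ε' κ X τ N₀ o oN η R M hL).and
      ((hSFC V K p Φ op hf hop d c C ε' κ X τ N₀ o oN η R M hL ρ hr0).and
      ((hSGM V K p Φ op hf hop d c C ε' κ X τ N₀ o oN η R M hL ρ hr0).and
      (hSFA V K p Φ op hf hop δh hδh hulF d ρ ε hd0 hd1 hr0 hr1 hε)))))))))).exists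
  -- choice of r and of the planes
  obtain ⟨r, hr, ⟨P, B, hPl, hNV⟩, hco⟩ := (ev_pos.and
    ((hPLA V K p Φ op hf hop d c C ε' κ X τ N₀ o oN η R M hL η' hη0).and hsco)).exists
  have hG' : ∀ v, ∃ G : E3 → E3, ¬ K.Outer p Φ v →
      CoreMap K p Φ op d v (X v) (τ v) (R v) (M v) r (P v) (B v) G := by
    intro v
    by_cases hv : K.Outer p Φ v
    · exact ⟨id, fun h => absurd hv h⟩
    · obtain ⟨G, hG⟩ := hL.core v hv r hr (P v) (B v) (hNV v hv)
      exact ⟨G, fun _ => hG⟩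
  choose G hG using hG'
  obtain ⟨fa1, fa2, fa3, fa4, fa5⟩ := hsfa P (fun v u w h => hPl.near v u w h.1)
  have hmin1 : ∀ (a b : V) (x : V → ℝ), (∀ y, x y ≤ 1) → min (x a) (x b) ≤ 1 :=
    fun a b x h => (min_le_left _ _).trans (h a)
  have hle1 : ∀ {v u w : V} {x : V → ℝ}, InT v u w x → ∀ y, x y ≤ 1 := by
    intro v u w x hx y
    rw [← hx.2.1]
    exact Finset.single_le_sum (fun z _ => hx.1 z) (Finset.mem_univ y)
  have hsmall : ∀ {v u w : V} {x : V → ℝ}, ({v, u, w} : Finset V) ∈ K.tri → InT v u w x →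
      1 - ρ ≤ x v → x u ≤ x v ∧ x w ≤ x v := by
    intro v u w x ht hx hv
    obtain ⟨h1, h2, h3⟩ := tri_ne ht
    have hs := hx.sum h1 h2 h3
    have := hx.1 u; have := hx.1 w
    constructor <;> linarith
  refine ⟨op, d, ρ, κ, X, τ, P, B, G, hop, ?_⟩
  refine
    { d0 := hd0, d1 := hd1, r0 := hr0, r1 := hr1, ee := hε, anti := hPl.anti, cyc := hPl.cyc,
      ft := hPl.ft, nz := ?_, cc := fun v hv => (hG v hv).cont, cg := fun v hv => (hG v hv).good,
      ch := ?_, ce := ?_, cf := ?_, ct := ?_, sl := ?_, fc := ?_, gm := ?_, eh := ?_,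
      fe := fa1, fu := fa2, fh := fa3, fi := fa4, fk := fa5 }
  · intro v u w ht h0
    have h1 := (hPl.near v u w ht).1
    rw [h0, zero_sub, norm_neg] at h1
    exact absurd h1 (not_le.2 (hn0' v u w ht))
  · intro v hv x hx hxv
    obtain ⟨h1, h2⟩ := (hco v (κ v) (X v) (τ v) (P v) (B v) (G v) (hG v hv)).1 x hx hxv
    obtain ⟨h3, h4⟩ := hδ v hv _ h1 (fun φ hφ h0 => (hG v hv).half φ hφ h0 x hx)
    exact ⟨h3, h4, h2⟩
  · intro v u w x hx hxv
    obtain ⟨hfl, hfar, hin, hle⟩ := hx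
    have hv := (flg2 v u w hfl).1
    have hst := hin.star hfl.1
    have hxu : x w ≤ d * x u :=
      hle.trans (mul_le_mul_of_nonneg_left (min_le_right _ _) hd0.le)
    have hR := (hco v (κ v) (X v) (τ v) (P v) (B v) (G v) (hG v hv)).2 x hst (hfar v hv)
    obtain ⟨s, e1, e2, e3, e4, e5⟩ := (hG v hv).edge u w hfl x hin (by linarith) hR hxu
    exact ⟨s, e1, hsan' P B hPl v u w hfl x hin hxv s _ e1 e2 e3 e4 e5⟩
  · intro v u w x hx hxv
    obtain ⟨hnf, hfar, hin, hl1, hl2, hl3⟩ := hx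
    have hv := (flg1 v u w hnf).1
    have hst := hin.star hnf.1
    have hR := (hco v (κ v) (X v) (τ v) (P v) (B v) (G v) (hG v hv)).2 x hst (hfar v hv)
    obtain ⟨s1, s2⟩ := hsmall hnf.1 hin hxv
    rw [min_eq_right s1] at hl1
    rw [min_eq_left s2] at hl3
    obtain ⟨⟨s, h1⟩, h2⟩ := (hG v hv).face u w hnf x hin (by linarith) hR hl1 hl3
    exact ⟨s, h1, h2⟩
  · intro v u w x hx hv hxv
    obtain ⟨hft, hfar, hin, hl1, hl2, hl3⟩ := hx
    have hst := hin.star hft.1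
    have hR := (hco v (κ v) (X v) (τ v) (P v) (B v) (G v) (hG v hv)).2 x hst (hfar v hv)
    obtain ⟨s1, s2⟩ := hsmall hft.1 hin hxv
    rw [min_eq_right s1] at hl1
    rw [min_eq_left s2] at hl3
    exact (hG v hv).fact u w hft x hin (by linarith) hR hl1 (fun h => hl3 (h.swap hop))
  · intro v u w h
    exact ⟨c / 2, hssl P B hPl v u w h⟩
  · exact hsfc P B hPl
  · exact hsgm P B hPl
  · intro v u w x hx s hs
    obtain ⟨hm, hh⟩ := hSEH V K p Φ op hf hop δh hδh hulE κ X τ P B d ρ hd0 hd1 hr0 hPl.ft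
      v u w x hx
    have hb := hsbd P B hPl v u w hx.1 x hx.2.2.1 s hs
    have hm1 : min (x v) (x u) ≤ 1 := hmin1 v u x (hle1 hx.2.2.1)
    have hm0 : 0 ≤ min (x v) (x u) := le_min (hx.2.2.1.1 v) (hx.2.2.1.1 u)
    have q1 := mul_le_of_lt_div hQ he1
    have q2 := mul_le_of_lt_div hQ he2
    have q3 := mul_le_of_lt_div hQ hη1
    have q4 := mul_le_of_lt_div hQ hη2
    have k1 : Q * ε' * min (x v) (x u) ≤ δh / 2 * min (x v) (x u) :=
      mul_le_mul_of_nonneg_right q1.le hm0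
    have k2 : Q * ε' * min (x v) (x u) ≤ Q * ε' := by
      have : 0 ≤ Q * ε' := (mul_pos hQ he0).le
      nlinarith
    have k3 : δh / 2 * (ρ / 4) ≤ δh / 2 * min (x v) (x u) :=
      mul_le_mul_of_nonneg_left hm (half_pos hδh).le
    obtain ⟨h1, h2⟩ := hh s hs (by nlinarith)
    exact ⟨h1, h2, by nlinarith⟩

/-- the pieces exist -/
theorem pcs_of (hEFU : Stmt_EFU) (hBTE : Stmt_BTE) (hSYE : Stmt_SYE) (hSYF : Stmt_SYF)
    {V : Type} [Fintype V] [DecidableEq V] {K : Surf V} {p : V → E3} {Φ : Finset Aff}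
    (hf : K.Framed p Φ) {op : V → V → V → V} (hop : IsOpp K op) {d ρ ε : ℝ} {κ : V → Type}
    {X : (v : V) → V → Finset (κ v)} {τ : V → V → ℝ} {P : V → V → V → Aff}
    {B : (v : V) → κ v → Aff} {G : V → E3 → E3} (hS : Sys K p Φ op d ρ ε X τ P B G) :
    ∃ (De Df : V → V → V → (V → ℝ) → E3),
      Pcs K p Φ op d ρ ε (fun v x => G v (lin p x)) De Df := by
  have hDe : ∀ v u w (x : V → ℝ), ∃ q : E3, x ∈ rEdge K p Φ op d ρ v u w → ∃ s : ℝ,
      q = lin p x - s • eE p v u w (op v u w) ∧ FEg p op X τ P B v u w q = 0 := by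
    intro v u w x
    by_cases h : x ∈ rEdge K p Φ op d ρ v u w
    · obtain ⟨c, hc⟩ := hS.sl v u w h.1
      obtain ⟨s, hs⟩ := (hEFU (κ v) (κ u) (AE p op P v u w) (AE p op P v u (op v u w)) (X v u)
        (fun n => τ v u • B v n) (X u v) (fun n => τ u v • B u n) (eE p v u w (op v u w)) c
        hc.c0 hc.ne hc.ne' hc.A hc.A' hc.hB hc.hB').2.1 (lin p x)
      exact ⟨_, fun _ => ⟨s, rfl, hs⟩⟩
    · exact ⟨0, fun h' => absurd h' h⟩
  have hDf : ∀ v u w (x : V → ℝ), ∃ q : E3, x ∈ rFace K p Φ d ρ v u w → ∃ s : ℝ,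
      q = lin p x - s • bT p op d v u w x ∧ ev (P v u w) q = 0 := by
    intro v u w x
    by_cases h : x ∈ rFace K p Φ d ρ v u w
    · obtain ⟨s, hs⟩ := hS.fe v u w x h
      exact ⟨_, fun _ => ⟨s, rfl, hs⟩⟩
    · exact ⟨0, fun h' => absurd h' h⟩
  choose De hDe using hDe
  choose Df hDf using hDf
  obtain ⟨e1, e2, e3, e4, e5, e6, e7, e8⟩ := hSYE V K p Φ op hf hop d ρ ε κ X τ P B G hS De hDe
  obtain ⟨f1, f2, f3, f4, f5, f6⟩ := hSYF V K p Φ op hf hop d ρ ε κ X τ P B G hS Df hDf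
  have hstar : ∀ v x, x ∈ rCore K p Φ ρ v → x ∈ K.star v := by
    rintro v x ⟨hv, ⟨h0, h1, t, ht, h2⟩, h3⟩
    refine ⟨h0, h1, t, ht, ?_, h2⟩
    by_contra hvt
    have := h2 v hvt
    have := hS.r1
    linarith
  refine ⟨De, Df,
    { d0 := hS.d0, d1 := hS.d1, r0 := hS.r0, r1 := hS.r1, ee := hS.ee,
      cc := ?_, ec := e1, fc := f1, es := e2, eo := e3, fs := f2, ce := e4, cf := f3, ct := hS.ct,
      ef := ?_, et := e5, cg := ?_, eg := e6, ei := e7, fg := f4, fi := f5, ch := ?_, eh := e8,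
      fh := f6 }⟩
  · intro v
    by_cases hv : K.Outer p Φ v
    · have : rCore K p Φ ρ v = ∅ := by
        ext x
        simp only [rCore, mem_ofPred_eq, mem_empty_iff_false, iff_false]
        exact fun h => h.1 hv
      rw [this]
      exact continuousOn_empty _
    · exact (hS.cc v hv).mono (fun x hx => hstar v x hx)
  · intro v u w x hx hx'
    obtain ⟨s, h1, h2⟩ := hDe v u w x hx
    obtain ⟨t, h3, h4⟩ := hDf v u w x hx'
    obtain ⟨hfl, hfar, hin, hle⟩ := hx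
    have hmp : 0 < min (x v) (x u) := by
      by_contra hn
      have h0 : min (x v) (x u) = 0 :=
        le_antisymm (not_lt.1 hn) (le_min (hin.1 v) (hin.1 u))
      have hw : x w = 0 := by
        rw [h0, mul_zero] at hle
        exact le_antisymm hle (hin.1 w)
      obtain ⟨n1, n2, n3⟩ := tri_ne hfl.1
      have hs := hin.sum n1 n2 n3
      obtain ⟨hnf, -⟩ := hx'
      have hno : ∀ z ∈ ({v, u, w} : Finset V), ¬ K.Outer p Φ z := by
        intro z hz hout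
        obtain ⟨φ, hφ, hφ2⟩ := hout _ hnf.1 hz
        exact hnf.2 ⟨φ, hφ, hφ2 v (by simp), hφ2 u (by simp), hφ2 w (by simp)⟩
      have a1 := hfar v (hno v (by simp))
      have a2 := hfar u (hno u (by simp))
      have hr := hS.r0
      rcases le_total (x v) (x u) with h | h
      · rw [min_eq_left h] at h0; linarith
      · rw [min_eq_right h] at h0; linarith
    have hv0 : 0 < x v := lt_of_lt_of_le hmp (min_le_left _ _)
    have hu0 : 0 < x u := lt_of_lt_of_le hmp (min_le_right _ _)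
    have hb := hBTE V p op d hS.d0 hS.d1.le v u w x hin.1 hv0 hu0
      (hle.trans (mul_le_mul_of_nonneg_left (min_le_left _ _) hS.d0.le))
      (hle.trans (mul_le_mul_of_nonneg_left (min_le_right _ _) hS.d0.le))
    have h5 : Df v u w x = lin p x - (t * sg p op v u w) • eE p v u w (op v u w) := by
      rw [h3, hb, smul_smul]
    have h6 : FEg p op X τ P B v u w (Df v u w x) = 0 := by
      rw [h5]
      apply hS.fc v u w x ⟨hfl, hfar, hin, hle⟩ hx'.2.2.2.1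
      rw [← h5]
      unfold AE
      rw [ev_smul, h4, mul_zero]
    obtain ⟨c, hc⟩ := hS.sl v u w hfl
    have hun := (hEFU (κ v) (κ u) (AE p op P v u w) (AE p op P v u (op v u w)) (X v u)
        (fun n => τ v u • B v n) (X u v) (fun n => τ u v • B u n) (eE p v u w (op v u w)) c
        hc.c0 hc.ne hc.ne' hc.A hc.A' hc.hB hc.hB').2.2.1 (lin p x) s (t * sg p op v u w)
        (by rw [← h1]; exact h2) (by rw [← h5]; exact h6)
    rw [h1, h5, hun]
  · intro v hv x hx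
    have := hS.r1
    exact hS.cg v hv x (by linarith)
  · intro v x hx
    exact hS.ch v hx.1 x (hstar v x hx) hx.2.2

/-- Part R from all its parts -/
theorem stmtR_of (hOPP : Stmt_OPP) (hTAI : Stmt_TAI) (hFLG : Stmt_FLG) (hHUL : Stmt_HUL)
    (hLBX : Stmt_LBX) (hPLA : Stmt_PLA) (hSBD : Stmt_SBD) (hSSL : Stmt_SSL) (hSFC : Stmt_SFC)
    (hSAN : Stmt_SAN) (hSGM : Stmt_SGM) (hSEH : Stmt_SEH) (hSFA : Stmt_SFA) (hSCO : Stmt_SCO)
    (hEFU : Stmt_EFU) (hBTE : Stmt_BTE) (hSYE : Stmt_SYE) (hSYF : Stmt_SYF) (hGLU : Stmt_GLU) :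
    Stmt_R := by
  intro V _ _ K p Φ hf ε hε
  obtain ⟨op, d, ρ, κ, X, τ, P, B, G, hop, hS⟩ := sys_of hOPP hTAI hFLG hHUL hLBX hPLA hSBD hSSL
    hSFC hSAN hSGM hSEH hSFA hSCO V K p Φ hf ε hε
  obtain ⟨De, Df, hP⟩ := pcs_of hEFU hBTE hSYE hSYF hf hop hS
  obtain ⟨D, h1, h2⟩ := hGLU V K p Φ op d ρ ε _ De Df hf hop hP
  exact ⟨Φ, D, h1, h2⟩

end Pool.Agent.TSR
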