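import Pool.Agent.TSR.TStmts

/-!
# TSR: elementary lemmas
-/

set_option autoImplicit false

namespace Pool.Agent.TSR

open Set Filter Topology Pool.Agent.TSM Pool.Agent.TSC

section
variable {V : Type}

/-! ### vectors and determinants -/

theorem inn_n0 (p : V → E3) (v u w w' : V) :
    (inner ℝ (n0 p v u w) (p w' - p v) : ℝ) = Dl p v u w w' := by
  unfold n0 Dl; rw [inner_crs]

theorem n0_anti (p : V → E3) (v u w : V) : n0 p v w u = - n0 p v u w := by
  unfold n0; rw [crs_anti]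

theorem n0_cyc (p : V → E3) (v u w : V) : n0 p u w v = n0 p v u w := by
  unfold n0
  apply e3ext <;> simp only [crs0, crs1, crs2, PiLp.sub_apply] <;> ring

theorem n0_swap (p : V → E3) (v u w : V) : n0 p u v w = - n0 p v u w := by
  rw [n0_anti, n0_cyc]

theorem inn_n0_u (p : V → E3) (v u w : V) : (inner ℝ (n0 p v u w) (p u - p v) : ℝ) = 0 := by
  rw [inn_n0]; unfold Dl; rw [det3_self13]

theorem inn_n0_w (p : V → E3) (v u w : V) : (inner ℝ (n0 p v u w) (p w - p v) : ℝ) = 0 := by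
  rw [inn_n0]; unfold Dl; rw [det3_self23]

theorem Dl_swap (p : V → E3) (v u w w' : V) : Dl p u v w w' = - Dl p v u w w' := by
  unfold Dl; simp only [det3, PiLp.sub_apply]; ring

theorem Dl_anti (p : V → E3) (v u w w' : V) : Dl p v u w' w = - Dl p v u w w' := by
  unfold Dl; simp only [det3, PiLp.sub_apply]; ring

theorem eE_swap (p : V → E3) (v u w w' : V) : eE p u v w w' = eE p v u w w' := by
  unfold eE; abel

theorem eE_anti (p : V → E3) (v u w w' : V) : eE p v u w' w = eE p v u w w' := by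
  unfold eE; abel

theorem eV_eq (p : V → E3) (v u w w' : V) : eV (p v) (p u) (p w) (p w') = eE p v u w w' := rfl

theorem inn_n0_eE (p : V → E3) (v u w w' : V) :
    (inner ℝ (n0 p v u w) (eE p v u w w') : ℝ) = Dl p v u w w' := by
  have h : eE p v u w w' = (p w - p v) + (p w' - p v) - (p u - p v) := by unfold eE; abel
  rw [h, inner_sub_right, inner_add_right, inn_n0_w, inn_n0_u, inn_n0]; ring

theorem ev_sub (Z : Aff) (x y : E3) : ev Z x - ev Z y = (inner ℝ Z.1 (x - y) : ℝ) := by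
  unfold ev; rw [inner_sub_right]; ring

theorem ev_add (Z : Aff) (x y : E3) : ev Z (x + y) = ev Z x + (inner ℝ Z.1 y : ℝ) := by
  unfold ev; rw [inner_add_right]; ring

theorem ev_sub_smul (Z : Aff) (x e : E3) (s : ℝ) :
    ev Z (x - s • e) = ev Z x - s * (inner ℝ Z.1 e : ℝ) := by
  unfold ev; rw [inner_sub_right, inner_smul_right]; ring

theorem ev_smul (t : ℝ) (Z : Aff) (x : E3) : ev (t • Z) x = t * ev Z x := by
  unfold ev
  simp only [Prod.smul_fst, Prod.smul_snd, smul_eq_mul]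
  rw [real_inner_smul_left]; ring

theorem ev_neg (Z : Aff) (x : E3) : ev (-Z) x = - ev Z x := by
  unfold ev
  simp only [Prod.fst_neg, Prod.snd_neg]
  rw [inner_neg_left]; ring

theorem ev_P0 (p : V → E3) (v u w : V) (y : E3) :
    ev (P0 p v u w) y = (inner ℝ (n0 p v u w) (y - p v) : ℝ) := by
  unfold ev P0; rw [inner_sub_right]

theorem P0_anti (p : V → E3) (v u w : V) : P0 p v w u = - P0 p v u w := by
  unfold P0; rw [n0_anti, inner_neg_left]; rfl

theorem P0_cyc (p : V → E3) (v u w : V) : P0 p u w v = P0 p v u w := by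
  unfold P0
  rw [n0_cyc]
  have := inn_n0_u p v u w
  rw [inner_sub_right] at this
  congr 1
  linarith

/-- the plane `un q r Z` in the coordinates `(y - q) / r` is `Z` -/
theorem ev_un (q : E3) (r : ℝ) (hr : r ≠ 0) (Z : Aff) (y : E3) :
    ev (un q r Z) y = r * ev Z (r⁻¹ • (y - q)) := by
  unfold ev un
  simp only
  rw [inner_smul_right, inner_sub_right]
  field_simp
  ring

end

section
variable {V : Type} [Fintype V] [DecidableEq V] {K : Surf V} {p : V → E3} {Φ : Finset Aff}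
  {op : V → V → V → V}

/-! ### permutations -/

theorem tri_swap {v u w : V} (h : ({v, u, w} : Finset V) ∈ K.tri) :
    ({u, v, w} : Finset V) ∈ K.tri := by
  rwa [Finset.insert_comm]

theorem tri_anti {v u w : V} (h : ({v, u, w} : Finset V) ∈ K.tri) :
    ({v, w, u} : Finset V) ∈ K.tri := by
  rwa [Finset.pair_comm w u]

theorem tri_cyc {v u w : V} (h : ({v, u, w} : Finset V) ∈ K.tri) :
    ({u, w, v} : Finset V) ∈ K.tri := tri_anti (tri_swap h)

theorem tri_ne {v u w : V} (h : ({v, u, w} : Finset V) ∈ K.tri) : v ≠ u ∧ v ≠ w ∧ u ≠ w := by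
  have h3 := K.card3 _ h
  refine ⟨?_, ?_, ?_⟩
  · rintro rfl
    have : ({v, v, w} : Finset V).card ≤ 2 := by
      rw [Finset.insert_eq_of_mem (Finset.mem_insert_self _ _)]; exact Finset.card_le_two
    omega
  · rintro rfl
    have : ({v, u, v} : Finset V).card ≤ 2 := by
      rw [Finset.pair_comm, Finset.insert_eq_of_mem (Finset.mem_insert_self _ _)]
      exact Finset.card_le_two
    omega
  · rintro rfl
    have : ({v, u, u} : Finset V).card ≤ 2 := by
      rw [Finset.pair_eq_singleton]; exact Finset.card_le_two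
    omega

omit [Fintype V] [DecidableEq V] in
theorem Fac.swap {v u w : V} (h : Fac p Φ v u w) : Fac p Φ u v w := by
  obtain ⟨φ, h0, h1, h2, h3⟩ := h; exact ⟨φ, h0, h2, h1, h3⟩

omit [Fintype V] [DecidableEq V] in
theorem Fac.anti {v u w : V} (h : Fac p Φ v u w) : Fac p Φ v w u := by
  obtain ⟨φ, h0, h1, h2, h3⟩ := h; exact ⟨φ, h0, h1, h3, h2⟩

omit [Fintype V] [DecidableEq V] in
theorem Fac.cyc {v u w : V} (h : Fac p Φ v u w) : Fac p Φ u w v := h.swap.anti

theorem Nf.swap {v u w : V} (h : Nf K p Φ v u w) : Nf K p Φ u v w :=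
  ⟨tri_swap h.1, fun h' => h.2 h'.swap⟩

theorem Nf.anti {v u w : V} (h : Nf K p Φ v u w) : Nf K p Φ v w u :=
  ⟨tri_anti h.1, fun h' => h.2 h'.anti⟩

theorem Nf.cyc {v u w : V} (h : Nf K p Φ v u w) : Nf K p Φ u w v := h.swap.anti

theorem Ft.swap {v u w : V} (h : Ft K p Φ v u w) : Ft K p Φ u v w :=
  ⟨tri_swap h.1, h.2.swap⟩

theorem Ft.anti {v u w : V} (h : Ft K p Φ v u w) : Ft K p Φ v w u :=
  ⟨tri_anti h.1, h.2.anti⟩

theorem Ft.cyc {v u w : V} (h : Ft K p Φ v u w) : Ft K p Φ u w v := h.swap.anti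

theorem nf_or_ft {v u w : V} (h : ({v, u, w} : Finset V) ∈ K.tri) :
    Nf K p Φ v u w ∨ Ft K p Φ v u w := by
  by_cases h' : Fac p Φ v u w
  · right; exact ⟨h, h'⟩
  · left; exact ⟨h, h'⟩

theorem Flag.swap (hop : IsOpp K op) {v u w : V} (h : Flag K p Φ op v u w) :
    Flag K p Φ op u v w := by
  obtain ⟨-, -, h3, -, -⟩ := hop v u w h.1
  refine ⟨tri_swap h.1, fun h' => h.2 ⟨h'.1.swap, ?_⟩⟩
  rw [← h3]; exact h'.2.swap

theorem Flag.opp (hop : IsOpp K op) {v u w : V} (h : Flag K p Φ op v u w) :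
    Flag K p Φ op v u (op v u w) := by
  obtain ⟨h1, -, -, h4, -⟩ := hop v u w h.1
  refine ⟨h1, fun h' => h.2 ⟨?_, h'.1⟩⟩
  rw [h4] at h'; exact h'.2

theorem Nf.flag {v u w : V} (h : Nf K p Φ v u w) : Flag K p Φ op v u w :=
  ⟨h.1, fun h' => h.2 h'.1⟩

theorem InT.swap {v u w : V} {x : V → ℝ} (h : InT v u w x) : InT u v w x := by
  obtain ⟨h1, h2, h3⟩ := h
  refine ⟨h1, h2, fun y hy => h3 y ?_⟩
  rwa [Finset.insert_comm]

theorem InT.anti {v u w : V} {x : V → ℝ} (h : InT v u w x) : InT v w u x := by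
  obtain ⟨h1, h2, h3⟩ := h
  refine ⟨h1, h2, fun y hy => h3 y ?_⟩
  rwa [Finset.pair_comm u w]

theorem InT.cyc {v u w : V} {x : V → ℝ} (h : InT v u w x) : InT u w v x := h.swap.anti

theorem InT.zero {v u w : V} {x : V → ℝ} (h : InT v u w x) {y : V} (h1 : y ≠ v) (h2 : y ≠ u)
    (h3 : y ≠ w) : x y = 0 := by
  apply h.2.2
  simp [h1, h2, h3]

theorem InT.sum {v u w : V} {x : V → ℝ} (h : InT v u w x) (h1 : v ≠ u) (h2 : v ≠ w)
    (h3 : u ≠ w) : x v + x u + x w = 1 := by
  have e : ∑ y, x y = ∑ y ∈ ({v, u, w} : Finset V), x y := by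
    symm
    apply Finset.sum_subset (Finset.subset_univ _)
    intro y _ hy; exact h.2.2 y hy
  rw [← h.2.1, e, Finset.sum_insert (by simp [h1, h2]), Finset.sum_insert (by simp [h3]),
    Finset.sum_singleton]
  ring

theorem InT.lin {v u w : V} {x : V → ℝ} (h : InT v u w x) (h1 : v ≠ u) (h2 : v ≠ w)
    (h3 : u ≠ w) : TSM.lin p x = p v + x u • (p u - p v) + x w • (p w - p v) := by
  have e : TSM.lin p x = ∑ y ∈ ({v, u, w} : Finset V), x y • p y := by
    unfold TSM.lin
    symm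
    apply Finset.sum_subset (Finset.subset_univ _)
    intro y _ hy
    rw [h.2.2 y hy, zero_smul]
  have hs := h.sum h1 h2 h3
  rw [e, Finset.sum_insert (by simp [h1, h2]), Finset.sum_insert (by simp [h3]),
    Finset.sum_singleton]
  have : x v = 1 - x u - x w := by linarith
  rw [this]
  module

theorem InT.star {v u w : V} {x : V → ℝ} (h : InT v u w x)
    (ht : ({v, u, w} : Finset V) ∈ K.tri) : x ∈ K.star v :=
  ⟨h.1, h.2.1, _, ht, by simp, h.2.2⟩

theorem InT.body {v u w : V} {x : V → ℝ} (h : InT v u w x)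
    (ht : ({v, u, w} : Finset V) ∈ K.tri) : x ∈ K.body :=
  ⟨h.1, h.2.1, _, ht, h.2.2⟩

/-- every point of the star of `v` is in a triangle `v u w` -/
theorem star_InT {v : V} {x : V → ℝ} (h : x ∈ K.star v) :
    ∃ u w, ({v, u, w} : Finset V) ∈ K.tri ∧ InT v u w x := by
  obtain ⟨h1, h2, t, ht, hv, h3⟩ := h
  have hc := K.card3 t ht
  obtain ⟨u, w, huw⟩ : ∃ u w, t = {v, u, w} := by
    have h4 : (t.erase v).card = 2 := by rw [Finset.card_erase_of_mem hv]; omega
    obtain ⟨u, w, -, h5⟩ := Finset.card_eq_two.1 h4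
    refine ⟨u, w, ?_⟩
    rw [← Finset.insert_erase hv, h5]
  subst huw
  exact ⟨u, w, ht, h1, h2, h3⟩

/-- every point of the body is in a triangle -/
theorem body_InT {x : V → ℝ} (h : x ∈ K.body) :
    ∃ v u w, ({v, u, w} : Finset V) ∈ K.tri ∧ InT v u w x := by
  obtain ⟨h1, h2, t, ht, h3⟩ := h
  have hc := K.card3 t ht
  obtain ⟨v, u, w, -, -, -, h5⟩ := Finset.card_eq_three.1 hc
  subst h5
  exact ⟨v, u, w, ht, h1, h2, h3⟩

theorem tri_cases {t : Finset V} (ht : t ∈ K.tri) {v : V} (hv : v ∈ t) : ∃ u w, t = {v, u, w} := by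
  have hc := K.card3 t ht
  have h4 : (t.erase v).card = 2 := by rw [Finset.card_erase_of_mem hv]; omega
  obtain ⟨u, w, -, h5⟩ := Finset.card_eq_two.1 h4
  exact ⟨u, w, by rw [← Finset.insert_erase hv, h5]⟩

end

theorem cutf_nonneg (d c a : ℝ) : 0 ≤ cutf d c a := le_max_left _ _

theorem cutf_le (d c a : ℝ) : cutf d c a ≤ 1 := max_le zero_le_one (min_le_left _ _)

theorem cutf_one {d c a : ℝ} (hd : 0 < d) (ha : 0 < a) (h : c ≤ d * a) : cutf d c a = 1 := by
  unfold cutf
  have h1 : 1 ≤ (2 * d * a - c) / (d * a) := by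
    rw [le_div_iff₀ (mul_pos hd ha)]; nlinarith
  rw [min_eq_left h1, max_eq_right zero_le_one]

theorem cutf_zero {d c a : ℝ} (hd : 0 ≤ d) (ha : 0 ≤ a) (h : 2 * d * a ≤ c) :
    cutf d c a = 0 := by
  unfold cutf
  have h1 : (2 * d * a - c) / (d * a) ≤ 0 :=
    div_nonpos_of_nonpos_of_nonneg (by linarith) (mul_nonneg hd ha)
  rw [max_eq_left]
  exact (min_le_right _ _).trans h1

end Pool.Agent.TSR
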