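import Pool.Agent.TSR.TStmts
import Pool.Agent.TSR.Base

/-!
# TSR, module BTE: the direction field near an edge
-/

set_option autoImplicit false

namespace Pool.Agent.TSR

open Set Filter Topology Pool.Agent.TSM

theorem bte_proof : Stmt_BTE := by
  intro V _ _ p op d hd hd4 v u w x hx hv hu hwv hwu
  have hw := hx w
  have h1 : cutf d (x w) (min (x v) (x u)) = 1 := by
    refine cutf_one hd (lt_min hv hu) ?_
    rcases le_total (x v) (x u) with h | h
    · rw [min_eq_left h]; exact hwv
    · rw [min_eq_right h]; exact hwu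
  have h2 : cutf d (x v) (min (x u) (x w)) = 0 := by
    refine cutf_zero hd.le (le_min hu.le hw) ?_
    calc 2 * d * min (x u) (x w) ≤ 2 * d * x w :=
          mul_le_mul_of_nonneg_left (min_le_right _ _) (by positivity)
      _ ≤ 2 * d * (d * x v) := mul_le_mul_of_nonneg_left hwv (by positivity)
      _ ≤ x v := by nlinarith [mul_le_mul hd4 hd4 hd.le (by norm_num : (0 : ℝ) ≤ 1 / 4)]
  have h3 : cutf d (x u) (min (x w) (x v)) = 0 := by
    refine cutf_zero hd.le (le_min hw hv.le) ?_
    calc 2 * d * min (x w) (x v) ≤ 2 * d * x w :=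
          mul_le_mul_of_nonneg_left (min_le_left _ _) (by positivity)
      _ ≤ 2 * d * (d * x u) := mul_le_mul_of_nonneg_left hwu (by positivity)
      _ ≤ x u := by nlinarith [mul_le_mul hd4 hd4 hd.le (by norm_num : (0 : ℝ) ≤ 1 / 4)]
  unfold bT
  rw [h1, h2, h3, one_smul, zero_smul, zero_smul, add_zero, add_zero, add_sub_cancel]

end Pool.Agent.TSR
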