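import Pool.Agent.TSR.Base

/-!
# TSR.BTL: Lipschitz bound of the direction field away from the vertices
-/

set_option autoImplicit false

namespace Pool.Agent.TSR

open Set Filter Topology Pool.Agent.TSM

namespace BTL_

theorem key {d g g' m m' : ℝ} (hd : 0 < d) (hg : 0 ≤ g) (hm : 0 ≤ m)
    (hm' : 0 ≤ m') (h : 0 < cutf d g' m') :
    0 < m' ∧ g' < 2 * d * m' ∧
      cutf d g' m' - cutf d g m ≤ (|g - g'| + 2 * d * |m - m'|) / (d * m') := by
  have hq : 0 < (2 * d * m' - g') / (d * m') := by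
    unfold cutf at h
    rcases lt_max_iff.1 h with h | h
    · exact absurd h (lt_irrefl _)
    · exact (lt_min_iff.1 h).2
  have hm0 : 0 < m' := by
    rcases hm'.lt_or_eq with h1 | h1
    · exact h1
    · rw [← h1] at hq; simp at hq
  have hdm : 0 < d * m' := mul_pos hd hm0
  have hlt : g' < 2 * d * m' := by
    have := (div_pos_iff_of_pos_right hdm).1 hq
    linarith
  refine ⟨hm0, hlt, ?_⟩
  have hX' : cutf d g' m' ≤ (2 * d * m' - g') / (d * m') := by
    unfold cutf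
    exact max_le hq.le (min_le_right _ _)
  have hX1 : cutf d g' m' ≤ 1 := cutf_le _ _ _
  have hR : 0 ≤ (|g - g'| + 2 * d * |m - m'|) / (d * m') := by positivity
  have a1 : g - g' ≤ |g - g'| := le_abs_self _
  have a2 : m' - m ≤ |m - m'| := by rw [abs_sub_comm]; exact le_abs_self _
  by_cases h1 : 1 ≤ (2 * d * m - g) / (d * m)
  · have : cutf d g m = 1 := by unfold cutf; rw [min_eq_left h1, max_eq_right zero_le_one]
    rw [this]; linarith
  push Not at h1
  by_cases h0 : (2 * d * m - g) / (d * m) ≤ 0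
  · have hc : cutf d g m = 0 := by
      unfold cutf; rw [min_eq_right h1.le, max_eq_left h0]
    have hmg : 2 * d * m ≤ g := by
      rcases hm.lt_or_eq with h2 | h2
      · have h3 : 0 < d * m := mul_pos hd h2
        by_contra h4
        push Not at h4
        have : 0 < (2 * d * m - g) / (d * m) := div_pos (by linarith) h3
        linarith
      · rw [← h2]; simpa using hg
    rw [hc, sub_zero]
    refine hX'.trans (div_le_div_of_nonneg_right ?_ hdm.le)
    nlinarith [mul_le_mul_of_nonneg_left a2 (by positivity : 0 ≤ 2 * d)]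
  · push Not at h0
    have hm1 : 0 < m := by
      rcases hm.lt_or_eq with h2 | h2
      · exact h2
      · rw [← h2] at h0; simp at h0
    have h3 : 0 < d * m := mul_pos hd hm1
    have hc : cutf d g m = (2 * d * m - g) / (d * m) := by
      unfold cutf; rw [min_eq_right h1.le, max_eq_right h0.le]
    rw [hc]
    have e1 : (2 * d * m - g) / (d * m) = 2 - g / (d * m) := by field_simp
    have e2 : (2 * d * m' - g') / (d * m') = 2 - g' / (d * m') := by field_simp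
    have hgd : g / (d * m) ≤ 2 := by rw [e1] at h0; linarith
    have hgd0 : 0 ≤ g / (d * m) := by positivity
    have e3 : g / (d * m) - g' / (d * m') =
        ((g - g') + g / (d * m) * (d * (m' - m))) / (d * m') := by
      field_simp
      ring
    have h5 : cutf d g' m' - (2 * d * m - g) / (d * m) ≤ g / (d * m) - g' / (d * m') := by
      rw [e1]; rw [e2] at hX'; linarith
    refine h5.trans ?_
    rw [e3]
    refine div_le_div_of_nonneg_right ?_ hdm.le
    have h6 : g / (d * m) * (d * (m' - m)) ≤ 2 * d * |m - m'| := by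
      calc g / (d * m) * (d * (m' - m)) ≤ g / (d * m) * (d * |m - m'|) := by
            apply mul_le_mul_of_nonneg_left _ hgd0
            exact mul_le_mul_of_nonneg_left a2 hd.le
        _ ≤ 2 * (d * |m - m'|) := by
            apply mul_le_mul_of_nonneg_right hgd; positivity
        _ = 2 * d * |m - m'| := by ring
    linarith

/-- one side of the Lipschitz bound -/
theorem half {d ρ a b c a' b' c' N : ℝ} (hd : 0 < d) (hd4 : d ≤ 1 / 4) (hρ : 0 < ρ)
    (ha : 0 ≤ a) (hb : 0 ≤ b) (hc : 0 ≤ c) (hb' : 0 ≤ b') (hc' : 0 ≤ c')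
    (hs' : a' + b' + c' = 1) (hbr : b' ≤ 1 - ρ) (hcr : c' ≤ 1 - ρ)
    (na : |a - a'| ≤ N) (nb : |b - b'| ≤ N) (nc : |c - c'| ≤ N) (hN : 0 ≤ N) :
    cutf d a' (min b' c') - cutf d a (min b c) ≤ 3 / (ρ * d) * N := by
  have hK : 0 ≤ 3 / (ρ * d) * N := by positivity
  rcases (cutf_nonneg d a' (min b' c')).lt_or_eq with h | h
  · obtain ⟨h1, h2, h3⟩ := key (g := a) (m := min b c) hd ha (le_min hb hc) (le_min hb' hc') h
    have h4 : min b' c' + a' ≥ ρ := by
      rcases min_cases b' c' with ⟨h, _⟩ | ⟨h, _⟩ <;> rw [h] <;> linarith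
    have h5 : a' ≤ min b' c' / 2 := by nlinarith
    have h6 : 2 * ρ / 3 ≤ min b' c' := by linarith
    refine h3.trans ?_
    have nm : |min b c - min b' c'| ≤ N := (abs_min_sub_min_le_max b c b' c').trans
      (max_le nb nc)
    have h7 : |a - a'| + 2 * d * |min b c - min b' c'| ≤ 2 * N := by
      nlinarith [mul_le_mul_of_nonneg_left nm (by positivity : 0 ≤ 2 * d)]
    rw [div_le_iff₀ (mul_pos hd h1)]
    calc |a - a'| + 2 * d * |min b c - min b' c'| ≤ 2 * N := h7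
      _ = 3 / (ρ * d) * N * (d * (2 * ρ / 3)) := by field_simp
      _ ≤ 3 / (ρ * d) * N * (d * min b' c') := by
          apply mul_le_mul_of_nonneg_left _ hK
          exact mul_le_mul_of_nonneg_left h6 hd.le
  · rw [← h]
    have := cutf_nonneg d a (min b c)
    linarith

theorem lip {d ρ a b c a' b' c' N : ℝ} (hd : 0 < d) (hd4 : d ≤ 1 / 4) (hρ : 0 < ρ)
    (ha : 0 ≤ a) (hb : 0 ≤ b) (hc : 0 ≤ c) (ha' : 0 ≤ a') (hb' : 0 ≤ b') (hc' : 0 ≤ c')
    (hs : a + b + c = 1) (hs' : a' + b' + c' = 1) (hbr : b ≤ 1 - ρ) (hcr : c ≤ 1 - ρ)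
    (hbr' : b' ≤ 1 - ρ) (hcr' : c' ≤ 1 - ρ)
    (na : |a - a'| ≤ N) (nb : |b - b'| ≤ N) (nc : |c - c'| ≤ N) (hN : 0 ≤ N) :
    |cutf d a (min b c) - cutf d a' (min b' c')| ≤ 3 / (ρ * d) * N := by
  rw [abs_le]
  have h1 := half hd hd4 hρ ha hb hc hb' hc' hs' hbr' hcr' na nb nc hN
  have h2 := half hd hd4 hρ ha' hb' hc' hb hc hs hbr hcr
    (by rwa [abs_sub_comm]) (by rwa [abs_sub_comm]) (by rwa [abs_sub_comm]) hN
  constructor <;> linarith

theorem bd {V : Type} [Fintype V] (W : V → V → V → E3) :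
    ∃ C : ℝ, 0 ≤ C ∧ ∀ v u w, ‖W v u w‖ ≤ C := by
  obtain ⟨C, hC⟩ := (Set.finite_range (fun q : V × V × V => ‖W q.1 q.2.1 q.2.2‖)).bddAbove
  exact ⟨max C 0, le_max_right _ _, fun v u w =>
    (hC (Set.mem_range_self (v, u, w))).trans (le_max_left _ _)⟩

theorem tri3 (a1 a2 a3 b1 b2 b3 K C : ℝ) (z0 z1 z2 z3 : E3) (hK : 0 ≤ K)
    (h1 : |a1 - b1| ≤ K) (h2 : |a2 - b2| ≤ K) (h3 : |a3 - b3| ≤ K)
    (k1 : ‖z1‖ ≤ C) (k2 : ‖z2‖ ≤ C) (k3 : ‖z3‖ ≤ C) :
    ‖(z0 + a1 • z1 + a2 • z2 + a3 • z3) - (z0 + b1 • z1 + b2 • z2 + b3 • z3)‖ ≤ 3 * (K * C) := by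
  have e : (z0 + a1 • z1 + a2 • z2 + a3 • z3) - (z0 + b1 • z1 + b2 • z2 + b3 • z3) =
      (a1 - b1) • z1 + (a2 - b2) • z2 + (a3 - b3) • z3 := by module
  have B : ∀ (t : ℝ) (z : E3), |t| ≤ K → ‖z‖ ≤ C → ‖t • z‖ ≤ K * C := fun t z ht hz => by
    rw [norm_smul, Real.norm_eq_abs]
    exact mul_le_mul ht hz (norm_nonneg _) hK
  rw [e]
  have q1 := norm_add_le ((a1 - b1) • z1 + (a2 - b2) • z2) ((a3 - b3) • z3)
  have q2 := norm_add_le ((a1 - b1) • z1) ((a2 - b2) • z2)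
  have q3 := B _ _ h1 k1
  have q4 := B _ _ h2 k2
  have q5 := B _ _ h3 k3
  linarith

end BTL_

open BTL_ in
theorem BTL_proof : Stmt_BTL := by
  intro V _ _ p op d ρ hd hd4 hρ
  obtain ⟨C, hC0, hWC⟩ := bd (fun v u w : V =>
    sg p op v u w • eE p v u w (op v u w) - n0 p v u w)
  have hL : 0 < 3 * (3 / (ρ * d)) * C + 1 := by positivity
  refine ⟨3 * (3 / (ρ * d)) * C + 1, hL, ?_⟩
  intro v u w x x' h1 h2 h3 hx hx' hr hr'
  have hN0 : 0 ≤ ‖x - x'‖ := norm_nonneg _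
  have hn : ∀ y, |x y - x' y| ≤ ‖x - x'‖ := fun y => norm_le_pi_norm (x - x') y
  have s := hx.sum h1 h2 h3
  have s' := hx'.sum h1 h2 h3
  have L1 := lip hd hd4 hρ (hx.1 w) (hx.1 v) (hx.1 u) (hx'.1 w) (hx'.1 v) (hx'.1 u)
    (by linarith) (by linarith) (hr v) (hr u) (hr' v) (hr' u) (hn w) (hn v) (hn u) hN0
  have L2 := lip hd hd4 hρ (hx.1 v) (hx.1 u) (hx.1 w) (hx'.1 v) (hx'.1 u) (hx'.1 w)
    (by linarith) (by linarith) (hr u) (hr w) (hr' u) (hr' w) (hn v) (hn u) (hn w) hN0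
  have L3 := lip hd hd4 hρ (hx.1 u) (hx.1 w) (hx.1 v) (hx'.1 u) (hx'.1 w) (hx'.1 v)
    (by linarith) (by linarith) (hr w) (hr v) (hr' w) (hr' v) (hn u) (hn w) (hn v) hN0
  have W1 := hWC v u w
  have W2 := hWC u w v
  have W3 := hWC w v u
  rw [n0_cyc p v u w] at W2
  rw [n0_cyc p u w v, n0_cyc p v u w] at W3
  have hK : 0 ≤ 3 / (ρ * d) * ‖x - x'‖ := by positivity
  have T := tri3 _ _ _ _ _ _ _ _ (n0 p v u w) _ _ _ hK L1 L2 L3 W1 W2 W3
  have e : 3 * (3 / (ρ * d) * ‖x - x'‖ * C) + ‖x - x'‖ =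
      (3 * (3 / (ρ * d)) * C + 1) * ‖x - x'‖ := by ring
  rw [← e]
  exact (show ‖bT p op d v u w x - bT p op d v u w x'‖ ≤ _ from T).trans (by linarith)

end Pool.Agent.TSR
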