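import Pool.Agent.TSR.Base

/-!
# TSR: module BTP, positivity of the direction field
-/

set_option autoImplicit false

namespace Pool.Agent.TSR

open Set Filter Topology Pool.Agent.TSM Pool.Agent.TSC

namespace BTP_

lemma sign_mul (D : ℝ) : Real.sign D * D = |D| := by
  rcases lt_trichotomy D 0 with h | h | h
  · rw [Real.sign_of_neg h, abs_of_neg h]; ring
  · rw [h]; simp
  · rw [Real.sign_of_pos h, abs_of_pos h]; ring

lemma abs_sign_le (D : ℝ) : |Real.sign D| ≤ 1 := by
  rcases lt_trichotomy D 0 with h | h | h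
  · rw [Real.sign_of_neg h]; simp
  · rw [h]; simp
  · rw [Real.sign_of_pos h]; simp

lemma cutf_pos {d c a : ℝ} (hd : 0 < d) (hd4 : d ≤ 1 / 4) (ha : 0 ≤ a) (h : cutf d c a ≠ 0) :
    2 * c < a := by
  by_contra hcon
  push Not at hcon
  apply h
  apply cutf_zero hd.le ha
  nlinarith

lemma exists_lower {T : Type} [Finite T] (g : T → ℝ) (hg : ∀ t, 0 < g t) :
    ∃ c : ℝ, 0 < c ∧ ∀ t, c ≤ g t := by
  rcases isEmpty_or_nonempty T with h | h
  · exact ⟨1, one_pos, fun t => (h.false t).elim⟩
  · obtain ⟨t0, h0⟩ := Finite.exists_min g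
    exact ⟨g t0, hg t0, h0⟩

/-- at most one of the three cut-offs is different from zero -/
lemma weights {d : ℝ} (hd : 0 < d) (hd4 : d ≤ 1 / 4) {a b e : ℝ} (ha : 0 ≤ a) (hb : 0 ≤ b)
    (he : 0 ≤ e) :
    cutf d e (min a b) + cutf d a (min b e) + cutf d b (min e a) ≤ 1 := by
  have h1 := cutf_le d e (min a b)
  have h2 := cutf_le d a (min b e)
  have h3 := cutf_le d b (min e a)
  by_cases z1 : cutf d e (min a b) = 0
  · by_cases z2 : cutf d a (min b e) = 0
    · rw [z1, z2]; linarith
    · have q2 := cutf_pos hd hd4 (le_min hb he) z2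
      by_cases z3 : cutf d b (min e a) = 0
      · rw [z1, z3]; linarith
      · exfalso
        have q3 := cutf_pos hd hd4 (le_min he ha) z3
        have r2 := lt_of_lt_of_le q2 (min_le_left _ _)
        have r3 := lt_of_lt_of_le q3 (min_le_right _ _)
        linarith
  · have q1 := cutf_pos hd hd4 (le_min ha hb) z1
    have z2 : cutf d a (min b e) = 0 := by
      by_contra z2
      have q2 := cutf_pos hd hd4 (le_min hb he) z2
      have r1 := lt_of_lt_of_le q1 (min_le_left _ _)
      have r2 := lt_of_lt_of_le q2 (min_le_right _ _)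
      linarith
    have z3 : cutf d b (min e a) = 0 := by
      by_contra z3
      have q3 := cutf_pos hd hd4 (le_min he ha) z3
      have r1 := lt_of_lt_of_le q1 (min_le_right _ _)
      have r3 := lt_of_lt_of_le q3 (min_le_left _ _)
      linarith
    rw [z2, z3]; linarith

lemma norm_piece {a s : ℝ} (ha : 0 ≤ a) (ha1 : a ≤ 1) (hs : |s| ≤ 1) (e n : E3) :
    ‖a • (s • e - n)‖ ≤ ‖e‖ + ‖n‖ := by
  rw [norm_smul, Real.norm_of_nonneg ha]
  have h1 : ‖s • e - n‖ ≤ ‖e‖ + ‖n‖ := by
    refine (norm_sub_le _ _).trans ?_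
    rw [norm_smul, Real.norm_eq_abs]
    have := mul_le_mul_of_nonneg_right hs (norm_nonneg e)
    linarith
  have h2 : 0 ≤ ‖s • e - n‖ := norm_nonneg _
  nlinarith

end BTP_

open BTP_ in
theorem btp_proof (h : Stmt_FLG) : Stmt_BTP := by
  intro V _ _ K p Φ op hF hop
  classical
  obtain ⟨hf1, hf2⟩ := h V K p Φ op hF hop
  -- the lower bound
  set g : V × V × V → ℝ := fun t => if Nf K p Φ t.1 t.2.1 t.2.2 then
    min (min (inner ℝ (n0 p t.1 t.2.1 t.2.2) (n0 p t.1 t.2.1 t.2.2) : ℝ)
      |Dl p t.1 t.2.1 t.2.2 (op t.1 t.2.1 t.2.2)|)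
      (min |Dl p t.2.1 t.2.2 t.1 (op t.2.1 t.2.2 t.1)| |Dl p t.2.2 t.1 t.2.1 (op t.2.2 t.1 t.2.1)|)
    else 1 with hg
  have hDl : ∀ v u w, Nf K p Φ v u w → Dl p v u w (op v u w) ≠ 0 := by
    intro v u w hN
    exact (hf2 v u w (hN.flag (op := op))).2.2.2
  have hgpos : ∀ t, 0 < g t := by
    rintro ⟨v, u, w⟩
    simp only [hg]
    split_ifs with hN
    · have d1 := hDl v u w hN
      have d2 := hDl u w v hN.cyc
      have d3 := hDl w v u hN.cyc.cyc
      have hn : n0 p v u w ≠ 0 := by
        intro hz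
        apply d1
        rw [← inn_n0, hz, inner_zero_left]
      exact lt_min (lt_min (real_inner_self_pos.2 hn) (abs_pos.2 d1))
        (lt_min (abs_pos.2 d2) (abs_pos.2 d3))
    · exact one_pos
  obtain ⟨c, hc, hcle⟩ := exists_lower g hgpos
  -- the upper bound
  set G : V × V × V → ℝ := fun t => 4 * ‖n0 p t.1 t.2.1 t.2.2‖ +
    ‖eE p t.1 t.2.1 t.2.2 (op t.1 t.2.1 t.2.2)‖ + ‖eE p t.2.1 t.2.2 t.1 (op t.2.1 t.2.2 t.1)‖ +
    ‖eE p t.2.2 t.1 t.2.1 (op t.2.2 t.1 t.2.1)‖ with hG
  have hG0 : ∀ t, 0 ≤ G t := by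
    intro t
    rw [hG]
    positivity
  have hGsum : ∀ t, G t ≤ ∑ t', G t' := fun t =>
    Finset.single_le_sum (f := G) (fun t' _ => hG0 t') (Finset.mem_univ t)
  refine ⟨c, 1 + ∑ t, G t, hc, ?_, ?_⟩
  · have : 0 ≤ ∑ t, G t := Finset.sum_nonneg fun t _ => hG0 t
    linarith
  intro d hd hd4 v u w hN x hx
  have ha := cutf_nonneg d (x w) (min (x v) (x u))
  have hb := cutf_nonneg d (x v) (min (x u) (x w))
  have he := cutf_nonneg d (x u) (min (x w) (x v))
  have ha1 := cutf_le d (x w) (min (x v) (x u))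
  have hb1 := cutf_le d (x v) (min (x u) (x w))
  have he1 := cutf_le d (x u) (min (x w) (x v))
  have hsum := weights hd hd4 (hx.1 v) (hx.1 u) (hx.1 w)
  set a := cutf d (x w) (min (x v) (x u)) with hadef
  set b := cutf d (x v) (min (x u) (x w)) with hbdef
  set e := cutf d (x u) (min (x w) (x v)) with hedef
  have hct := hcle (v, u, w)
  simp only [hg] at hct
  rw [if_pos hN] at hct
  have hc1 : c ≤ (inner ℝ (n0 p v u w) (n0 p v u w) : ℝ) :=
    hct.trans ((min_le_left _ _).trans (min_le_left _ _))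
  have hc2 : c ≤ |Dl p v u w (op v u w)| :=
    hct.trans ((min_le_left _ _).trans (min_le_right _ _))
  have hc3 : c ≤ |Dl p u w v (op u w v)| :=
    hct.trans ((min_le_right _ _).trans (min_le_left _ _))
  have hc4 : c ≤ |Dl p w v u (op w v u)| :=
    hct.trans ((min_le_right _ _).trans (min_le_right _ _))
  constructor
  · have e1 : (inner ℝ (n0 p v u w) (eE p v u w (op v u w)) : ℝ) = Dl p v u w (op v u w) :=
      inn_n0_eE _ _ _ _ _
    have e2 : (inner ℝ (n0 p v u w) (eE p u w v (op u w v)) : ℝ) = Dl p u w v (op u w v) := by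
      rw [← n0_cyc]; exact inn_n0_eE _ _ _ _ _
    have e3 : (inner ℝ (n0 p v u w) (eE p w v u (op w v u)) : ℝ) = Dl p w v u (op w v u) := by
      rw [← n0_cyc, ← n0_cyc]; exact inn_n0_eE _ _ _ _ _
    have hin : (inner ℝ (n0 p v u w) (bT p op d v u w x) : ℝ) =
        (1 - a - b - e) * (inner ℝ (n0 p v u w) (n0 p v u w) : ℝ) +
        a * |Dl p v u w (op v u w)| + b * |Dl p u w v (op u w v)| +
        e * |Dl p w v u (op w v u)| := by
      unfold bT sg
      rw [← hadef, ← hbdef, ← hedef, inner_add_right, inner_add_right, inner_add_right,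
        inner_smul_right, inner_smul_right, inner_smul_right, inner_sub_right, inner_sub_right,
        inner_sub_right, inner_smul_right, inner_smul_right, inner_smul_right, e1, e2, e3,
        sign_mul, sign_mul, sign_mul]
      ring
    rw [hin]
    have h0 : 0 ≤ 1 - a - b - e := by linarith
    have m1 := mul_le_mul_of_nonneg_left hc1 h0
    have m2 := mul_le_mul_of_nonneg_left hc2 ha
    have m3 := mul_le_mul_of_nonneg_left hc3 hb
    have m4 := mul_le_mul_of_nonneg_left hc4 he
    linarith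
  · have hle : ‖bT p op d v u w x‖ ≤ G (v, u, w) := by
      unfold bT
      rw [← hadef, ← hbdef, ← hedef]
      have p1 := norm_piece ha ha1 (abs_sign_le (Dl p v u w (op v u w)))
        (eE p v u w (op v u w)) (n0 p v u w)
      have p2 := norm_piece hb hb1 (abs_sign_le (Dl p u w v (op u w v)))
        (eE p u w v (op u w v)) (n0 p v u w)
      have p3 := norm_piece he he1 (abs_sign_le (Dl p w v u (op w v u)))
        (eE p w v u (op w v u)) (n0 p v u w)
      refine (norm_add_le _ _).trans ?_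
      refine (add_le_add_left (norm_add_le _ _) _).trans ?_
      refine (add_le_add_left (add_le_add_left (norm_add_le _ _) _) _).trans ?_
      simp only [hG]
      unfold sg
      linarith
    have := hGsum (v, u, w)
    linarith

end Pool.Agent.TSR
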