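import Pool.Agent.TSR.Base

/-!
# TSR: symmetries of the direction field
-/

set_option autoImplicit false

namespace Pool.Agent.TSR

open Set Filter Topology Pool.Agent.TSM Pool.Agent.TSC

namespace BTS_

variable {V : Type} [Fintype V] [DecidableEq V] {K : Surf V} {op : V → V → V → V}

theorem sg_swap (p : V → E3) (hop : IsOpp K op) {v u w : V}
    (h : ({v, u, w} : Finset V) ∈ K.tri) : sg p op u v w = - sg p op v u w := by
  have h1 : op u v w = op v u w := (hop v u w h).2.2.1
  unfold sg
  rw [h1, Dl_swap, Real.sign_neg]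

theorem eE_op (p : V → E3) (hop : IsOpp K op) {v u w : V}
    (h : ({v, u, w} : Finset V) ∈ K.tri) :
    eE p u v w (op u v w) = eE p v u w (op v u w) := by
  have h1 : op u v w = op v u w := (hop v u w h).2.2.1
  rw [h1, eE_swap]

theorem sgE_swap (p : V → E3) (hop : IsOpp K op) {v u w : V}
    (h : ({v, u, w} : Finset V) ∈ K.tri) :
    sg p op u v w • eE p u v w (op u v w) = - (sg p op v u w • eE p v u w (op v u w)) := by
  rw [sg_swap p hop h, eE_op p hop h, neg_smul]

end BTS_

open BTS_ in
theorem BTS_proof : Stmt_BTS := by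
  intro V _ _ K p op hop v u w h
  have hs := tri_swap h
  have ha := tri_anti h
  have hc := tri_cyc h
  have h1 : op u v w = op v u w := (hop v u w h).2.2.1
  have h2 : op v u (op v u w) = w := (hop v u w h).2.2.2.1
  refine ⟨fun d x => ⟨?_, ?_⟩, sg_swap p hop h, ?_, eE_op p hop h, eE_anti _ _ _ _ _⟩
  · -- edges of `v w u`: `v w`, `w u`, `u v`
    have e1 := sgE_swap p hop (v := w) (u := v) (w := u) (tri_cyc hc)
    have e2 := sgE_swap p hop (v := u) (u := w) (w := v) hc
    have e3 := sgE_swap p hop (v := v) (u := u) (w := w) h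
    unfold bT
    rw [e1, e2, e3, n0_anti]
    rw [min_comm (x v) (x w), min_comm (x w) (x u), min_comm (x u) (x v)]
    module
  · unfold bT
    rw [n0_cyc]
    module
  · unfold nE
    rw [sg_swap p hop h, n0_swap, neg_smul_neg]

end Pool.Agent.TSR
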