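import Pool.Agent.TSR.Base

/-!
# TSR: the direction field near a vertex
-/

set_option autoImplicit false

namespace Pool.Agent.TSR

open Set Filter Topology Pool.Agent.TSM Pool.Agent.TSC

theorem BTV_proof : Stmt_BTV := by
  intro V _ _ p op d hd hd4 v u w x h1 h2 h3 hx hv
  have hs := hx.sum h1 h2 h3
  have hu : 0 ≤ x u := hx.1 u
  have hw : 0 ≤ x w := hx.1 w
  have e1 : min (x v) (x u) = x u := min_eq_right (by linarith)
  have e2 : min (x w) (x v) = x w := min_eq_left (by linarith)
  have e3 : cutf d (x v) (min (x u) (x w)) = 0 := by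
    apply cutf_zero hd.le (le_min hu hw)
    have h4 : min (x u) (x w) ≤ x u := min_le_left _ _
    have h5 : min (x u) (x w) ≤ x w := min_le_right _ _
    have h6 : 0 ≤ min (x u) (x w) := le_min hu hw
    nlinarith
  unfold bT
  rw [e1, e2, e3, zero_smul, add_zero]

end Pool.Agent.TSR
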