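import Pool.Agent.TSC.Base

/-!
# TSR: Part R of the tight smoothing theorem (MP_89ee87_gt): definitions

From a framed map `f = K.map p` of a closed surface and the local resolutions of the vertex
polygons we build the global resolution `D`.
-/

set_option autoImplicit false

namespace Pool.Agent.TSR

open Set Filter Topology Pool.Agent.TSM

variable {V : Type} [Fintype V] [DecidableEq V]

/-- the points `p v`, `p u`, `p w` are in a common facet plane -/
def Fac (p : V → E3) (Φ : Finset Aff) (v u w : V) : Prop :=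
  ∃ φ ∈ Φ, ev φ (p v) = 0 ∧ ev φ (p u) = 0 ∧ ev φ (p w) = 0

/-- `op v u w` is the opposite vertex of the other triangle at the edge `v u` of the triangle
`v u w` -/
def IsOpp (K : Surf V) (op : V → V → V → V) : Prop :=
  ∀ v u w, ({v, u, w} : Finset V) ∈ K.tri →
    ({v, u, op v u w} : Finset V) ∈ K.tri ∧ op v u w ≠ w ∧ op u v w = op v u w ∧
      op v u (op v u w) = w ∧
      ∀ x, ({v, u, x} : Finset V) ∈ K.tri → x = w ∨ x = op v u w

/-- `v u w` is a triangle which is not in a facet plane -/
def Nf (K : Surf V) (p : V → E3) (Φ : Finset Aff) (v u w : V) : Prop :=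
  ({v, u, w} : Finset V) ∈ K.tri ∧ ¬ Fac p Φ v u w

/-- `v u w` is a triangle which is in a facet plane -/
def Ft (K : Surf V) (p : V → E3) (Φ : Finset Aff) (v u w : V) : Prop :=
  ({v, u, w} : Finset V) ∈ K.tri ∧ Fac p Φ v u w

/-- `v u w` is a triangle and its edge `v u` is active: not both triangles at this edge are in
facet planes -/
def Flag (K : Surf V) (p : V → E3) (Φ : Finset Aff) (op : V → V → V → V) (v u w : V) : Prop :=
  ({v, u, w} : Finset V) ∈ K.tri ∧ ¬ (Fac p Φ v u w ∧ Fac p Φ v u (op v u w))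

/-- normal of the oriented triangle `v u w` -/
noncomputable def n0 (p : V → E3) (v u w : V) : E3 := crs (p u - p v) (p w - p v)

/-- plane of the oriented triangle `v u w` -/
noncomputable def P0 (p : V → E3) (v u w : V) : Aff :=
  (n0 p v u w, (inner ℝ (n0 p v u w) (p v) : ℝ))

/-- the determinant of the tetrahedron `v u w w'` -/
noncomputable def Dl (p : V → E3) (v u w w' : V) : ℝ :=
  det3 (p u - p v) (p w - p v) (p w' - p v)

/-- direction of the projection near the edge `v u` with opposite vertices `w`, `w'` -/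
noncomputable def eE (p : V → E3) (v u w w' : V) : E3 := p w + p w' - p v - p u

/-- cut-off: `1` for `c ≤ d a`, `0` for `2 d a ≤ c` (`0` for `a = 0`) -/
noncomputable def cutf (d c a : ℝ) : ℝ := max 0 (min 1 ((2 * d * a - c) / (d * a)))

/-- the orientation of the edge `v u` with respect to the triangle `v u w` -/
noncomputable def sg (p : V → E3) (op : V → V → V → V) (v u w : V) : ℝ :=
  Real.sign (Dl p v u w (op v u w))

/-- the direction field on the oriented triangle `v u w` at the point with barycentric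
coordinates `x` -/
noncomputable def bT (p : V → E3) (op : V → V → V → V) (d : ℝ) (v u w : V) (x : V → ℝ) : E3 :=
  n0 p v u w +
    cutf d (x w) (min (x v) (x u)) • (sg p op v u w • eE p v u w (op v u w) - n0 p v u w) +
    cutf d (x v) (min (x u) (x w)) • (sg p op u w v • eE p u w v (op u w v) - n0 p v u w) +
    cutf d (x u) (min (x w) (x v)) • (sg p op w v u • eE p w v u (op w v u) - n0 p v u w)

/-- `x` is a point of the (closed) triangle `v u w` of the body -/
def InT (v u w : V) (x : V → ℝ) : Prop :=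
  (∀ y, 0 ≤ x y) ∧ ∑ y, x y = 1 ∧ ∀ y, y ∉ ({v, u, w} : Finset V) → x y = 0

/-- the plane of the triangle `v u w` with the orientation given by its edge `v u` (positive at
`op v u w`) -/
noncomputable def AE (p : V → E3) (op : V → V → V → V) (P : V → V → V → Aff) (v u w : V) : Aff :=
  sg p op v u w • P v u w

/-- minimum of finitely many planes -/
noncomputable def mn {ι : Type} (X : Finset ι) (B : ι → Aff) (y : E3) : ℝ :=
  if h : X.Nonempty then X.inf' h fun n => ev (B n) y else 0

/-- the function which defines the surface near an edge -/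
noncomputable def FE {ι ι' : Type} (A A' : Aff) (X : Finset ι) (B : ι → Aff) (X' : Finset ι')
    (B' : ι' → Aff) (y : E3) : ℝ :=
  min (min (ev A y) (ev A' y)) (max (mn X B y) (mn X' B' y))

/-- the plane `Z` in the coordinates `(y - q) / r` as a plane in the coordinates `y` -/
noncomputable def un (q : E3) (r : ℝ) (Z : Aff) : Aff := (Z.1, (inner ℝ Z.1 q : ℝ) + r * Z.2)

/-- side of the arm `some u` of the polygon `L` of the vertex `v`: the neighbour `j` of `some u`
belongs to the triangle `v u w` -/
def Side (K : Surf V) (p : V → E3) (Φ : Finset Aff) (L : Pg (Option V)) (v u w : V)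
    (j : Option V) : Prop :=
  (j = some w ∧ Nf K p Φ v u w) ∨
    (j = none ∧ Ft K p Φ v u w ∧ ∃ α β : ℝ, 0 < β ∧
      p w - p v = α • (p u - p v) + β • L.p none)

/-- `L` is the polygon of the vertex `v` -/
structure VP (K : Surf V) (p : V → E3) (Φ : Finset Aff) (op : V → V → V → V) (v : V)
    (L : Pg (Option V)) (pr : Option V → Option V) : Prop where
  ok : L.Ok
  ispr : Pool.Agent.TSC.IsPr L pr
  psome : ∀ u, some u ∈ L.S → L.p (some u) = p u - p v
  flag : ∀ u w, Flag K p Φ op v u w → some u ∈ L.S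
  arm : ∀ u, some u ∈ L.S → ∃ w, Flag K p Φ op v u w ∧ Side K p Φ L v u w (pr (some u)) ∧
    Side K p Φ L v u (op v u w) (L.s (some u))
  nf : ∀ u w, Nf K p Φ v u w → L.s (some u) = some w ∨ L.s (some w) = some u
  star : ∀ x ∈ K.star v, lin p x - p v ∈ L.cone
  inn : L.X = none → none ∉ L.S ∧ ∀ φ ∈ Φ, ev φ (p v) < 0
  cor : L.X ≠ none → L.X = some none ∧ ∃ φ ∈ Φ, ev φ (p v) = 0 ∧
    (∀ ψ ∈ Φ, ψ ≠ φ → ev ψ (p v) < 0) ∧ (inner ℝ φ.1 (L.p none) : ℝ) = 0 ∧
    (∀ i ∈ L.S, (inner ℝ φ.1 (L.p i) : ℝ) ≤ 0) ∧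
    (∀ u w, Ft K p Φ v u w → ∀ x, InT v u w x →
      lin p x - p v ∈ L.face none ∪ L.face (pr none)) ∧
    ∃ k : ℝ, 0 < k ∧ ∀ u, some u ∈ L.S → (L.s (some u) = none ∨ L.s none = some u) →
      ∀ a b, Ft K p Φ v a b → ∀ x, InT v a b x → ∀ c c' : ℝ, 0 ≤ c → 0 ≤ c' → c ≤ k * c' →
      lin p x - p v = c • L.p none + c' • L.p (some u) →
      ∃ w, ({v, a, b} : Finset V) = {v, u, w} ∧ k * (x w * c') ≤ c * x u

end Pool.Agent.TSR
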