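import Pool.Agent.TSR.EStmts

/-!
# TSR, EAN: near `a` the equation of the vertex `a` implies the equation of the edge
-/

set_option autoImplicit false

namespace Pool.Agent.TSR

open Set Filter Topology Pool.Agent.TSM

namespace EAN_

theorem near_inner {Z : Aff} {ν : E3} {η : ℝ} (h : ‖Z.1 - ν‖ ≤ η) (v : E3) :
    |(inner ℝ Z.1 v : ℝ) - inner ℝ ν v| ≤ η * ‖v‖ := by
  rw [← inner_sub_left]
  exact (abs_real_inner_le_norm _ _).trans (mul_le_mul_of_nonneg_right h (norm_nonneg _))

theorem ev_shift (Z : Aff) (a v : E3) : ev Z (a + v) = ev Z a + inner ℝ Z.1 v := by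
  unfold ev
  rw [inner_add_right]; ring

theorem norm_bd {Z : Aff} {ν : E3} {η C : ℝ} (h : ‖Z.1 - ν‖ ≤ η) (hν : ‖ν‖ ≤ C) (hη : η ≤ 1) :
    ‖Z.1‖ ≤ C + 1 := by
  have : Z.1 = (Z.1 - ν) + ν := by abel
  rw [this]
  exact (norm_add_le _ _).trans (by linarith)

theorem inner_bd {Z : Aff} {C M : ℝ} (h : ‖Z.1‖ ≤ C + 1) (hC : 0 ≤ C) {v : E3} (hv : ‖v‖ ≤ M) :
    |(inner ℝ Z.1 v : ℝ)| ≤ (C + 1) * M :=
  (abs_real_inner_le_norm _ _).trans (mul_le_mul h hv (norm_nonneg _) (by linarith))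

theorem eV_comm (a a' b b' : E3) : eV a' a b b' = eV a a' b b' := by
  unfold eV; abel

end EAN_

open EAN_

theorem EAN_proof : Stmt_EAN := by
  intro ι ι' a a' b b' ν ν' c C ε' X N X' N' hG _ hX hX'
  obtain ⟨n₀, hn₀⟩ := hX'.ne
  set e := eV a a' b b' with he
  set g := -(inner ℝ (N' n₀) (a - a') : ℝ) with hg
  have hg0 : 0 < g := by
    have := hX'.n1 n₀ hn₀
    rw [hg]; linarith
  have hC : 0 ≤ C := (norm_nonneg _).trans hG.nk
  have hc := hG.c0
  set M := 1 + ‖a' - a‖ + ‖b - a‖ + ‖e‖ with hM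
  have m1 : ‖a' - a‖ ≤ M := by
    have := norm_nonneg (b - a); have := norm_nonneg e; linarith
  have m2 : ‖b - a‖ ≤ M := by
    have := norm_nonneg (a' - a); have := norm_nonneg e; linarith
  have m3 : ‖e‖ ≤ M := by
    have := norm_nonneg (b - a); have := norm_nonneg (a' - a); linarith
  have m0 : 1 ≤ M := by
    have := norm_nonneg (b - a); have := norm_nonneg (a' - a); have := norm_nonneg e; linarith
  have m4 : ‖a - a'‖ ≤ M := by rw [norm_sub_rev]; exact m1
  set D := (C + 1) * M with hD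
  have hD0 : 0 < D := by positivity
  set P := 1 + M + 2 / c * D + D + 2 / c * D ^ 2 with hP
  have hP0 : 0 < P := by positivity
  refine ⟨g / (2 * P), min 1 (min (c / (2 * M)) (g / (2 * P))), by positivity, by positivity, ?_⟩
  intro η hη hη0 A A' B B' hN l m hl hm hlm s y hy hA hA' hB hz
  have h1 : η ≤ 1 := (hη0.trans_le (min_le_left _ _)).le
  have h2 : η * M ≤ c / 2 := by
    have h3 : η ≤ c / (2 * M) :=
      (hη0.trans_le ((min_le_right _ _).trans (min_le_left _ _))).le
    have h4 := mul_le_mul_of_nonneg_right h3 (by linarith : (0 : ℝ) ≤ M)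
    have h5 : c / (2 * M) * M = c / 2 := by field_simp
    rw [h5] at h4
    exact h4
  have h3 : η ≤ g / (2 * P) := (hη0.trans_le ((min_le_right _ _).trans (min_le_right _ _))).le
  have hmn : 0 ≤ mn X B y := by
    unfold mn
    rw [dif_pos hX.ne]
    exact Finset.le_inf' _ _ hB
  have hmin : 0 ≤ min (ev A y) (ev A' y) := le_min hA hA'
  have hmax : 0 ≤ max (mn X B y) (mn X' B' y) := hmn.trans (le_max_left _ _)
  have key : (min (ev A y) (ev A' y) = 0) ∨ (max (mn X B y) (mn X' B' y) = 0) → 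
      FE A A' X B X' B' y = 0 := by
    unfold FE
    rintro (h | h)
    · rw [h]; exact min_eq_left hmax
    · rw [h]; exact min_eq_right hmin
  apply key
  rcases hz with hz | hz | ⟨n, hn, hz⟩
  · left; rw [hz]; exact min_eq_left hA'
  · left; rw [hz]; exact min_eq_right hA
  right
  have hmn0 : mn X B y = 0 := by
    apply le_antisymm _ hmn
    unfold mn
    rw [dif_pos hX.ne]
    exact (Finset.inf'_le _ hn).trans hz.le
  rw [hmn0]
  apply max_eq_left
  -- the bound of `s`
  obtain ⟨hBn, hBa⟩ := hN.B n hn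
  obtain ⟨hn3, hn4⟩ := hX.n3 n hn
  rw [← he] at hn3
  have nB := norm_bd hBn hn4 h1
  have sl : c / 2 ≤ inner ℝ (B n).1 e := by
    have h4 := (abs_le.mp (near_inner hBn e)).1
    have h5 : η * ‖e‖ ≤ η * M := mul_le_mul_of_nonneg_left m3 hη.le
    linarith
  have i1 := abs_le.mp (inner_bd nB hC m1)
  have i2 := abs_le.mp (inner_bd nB hC m2)
  rw [← hD] at i1 i2
  have hyv : y = a + (l • (a' - a) + m • (b - a) - s • e) := by rw [hy]; abel
  have hev : ev (B n) y = ev (B n) a + (l * inner ℝ (B n).1 (a' - a) +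
      m * inner ℝ (B n).1 (b - a) - s * inner ℝ (B n).1 e) := by
    rw [hyv, ev_shift, inner_sub_right, inner_add_right, inner_smul_right, inner_smul_right,
      inner_smul_right]
  rw [hz] at hev
  have hBa' := abs_le.mp hBa
  have hs : |s| ≤ 2 / c * (η + D * (l + m)) := by
    have h6 : s * inner ℝ (B n).1 e = ev (B n) a + (l * inner ℝ (B n).1 (a' - a) +
      m * inner ℝ (B n).1 (b - a)) := by linarith
    have h7 : |s * inner ℝ (B n).1 e| ≤ η + D * (l + m) := by
      rw [h6, abs_le]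
      constructor
      · linarith [mul_le_mul_of_nonneg_left i1.1 hl, mul_le_mul_of_nonneg_left i2.1 hm]
      · linarith [mul_le_mul_of_nonneg_left i1.2 hl, mul_le_mul_of_nonneg_left i2.2 hm]
    rw [abs_mul, abs_of_pos (by linarith : (0 : ℝ) < inner ℝ (B n).1 e)] at h7
    have h8 : |s| * (c / 2) ≤ η + D * (l + m) :=
      (mul_le_mul_of_nonneg_left sl (abs_nonneg s)).trans h7
    have h9 : |s| = 2 / c * (|s| * (c / 2)) := by field_simp
    rw [h9]
    exact mul_le_mul_of_nonneg_left h8 (by positivity)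
  -- the plane `n₀` of `a'` is negative
  obtain ⟨hB'n, hB'a⟩ := hN.B' n₀ hn₀
  obtain ⟨-, hn5⟩ := hX'.n3 n₀ hn₀
  have nB' := norm_bd hB'n hn5 h1
  have j1 := abs_le.mp (inner_bd nB' hC m1)
  have j2 := abs_le.mp (inner_bd nB' hC m2)
  have j3 := inner_bd nB' hC m3
  rw [← hD] at j1 j2 j3
  have hyv' : y = a' + ((a - a') + (l • (a' - a) + m • (b - a) - s • e)) := by rw [hy]; abel
  have hev' : ev (B' n₀) y = ev (B' n₀) a' + (inner ℝ (B' n₀).1 (a - a') +
      (l * inner ℝ (B' n₀).1 (a' - a) +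
      m * inner ℝ (B' n₀).1 (b - a) - s * inner ℝ (B' n₀).1 e)) := by
    rw [hyv', ev_shift, inner_add_right,
      inner_sub_right (B' n₀).1 (l • (a' - a) + m • (b - a)) (s • e),
      inner_add_right (B' n₀).1 (l • (a' - a)) (m • (b - a)), inner_smul_right,
      inner_smul_right, inner_smul_right]
  have hB'a' := (abs_le.mp hB'a).2
  have k1 : (inner ℝ (B' n₀).1 (a - a') : ℝ) ≤ -g + η * M := by
    have h4 := (abs_le.mp (near_inner hB'n (a - a'))).2
    have h5 : η * ‖a - a'‖ ≤ η * M := mul_le_mul_of_nonneg_left m4 hη.le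
    rw [hg]; linarith
  have k2 : -(s * inner ℝ (B' n₀).1 e) ≤ |s| * D := by
    have h4 : -(s * inner ℝ (B' n₀).1 e) ≤ |s * inner ℝ (B' n₀).1 e| := neg_le_abs _
    rw [abs_mul] at h4
    exact h4.trans (mul_le_mul_of_nonneg_left j3 (abs_nonneg s))
  have k3 : l * inner ℝ (B' n₀).1 (a' - a) + m * inner ℝ (B' n₀).1 (b - a) ≤ D * (l + m) := by
    linarith [mul_le_mul_of_nonneg_left j1.2 hl, mul_le_mul_of_nonneg_left j2.2 hm]
  have k4 : |s| * D ≤ 2 / c * (η + D * (l + m)) * D := mul_le_mul_of_nonneg_right hs hD0.le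
  have hlm0 : 0 ≤ l + m := by linarith
  have hle : mn X' B' y ≤ ev (B' n₀) y := by
    unfold mn
    rw [dif_pos hX'.ne]
    exact Finset.inf'_le _ hn₀
  refine hle.trans ?_
  rw [hev']
  have k5 : η + η * M + D * (l + m) + 2 / c * (η + D * (l + m)) * D ≤ P * η + P * (l + m) := by
    have e1 : P * η + P * (l + m) - (η + η * M + D * (l + m) + 2 / c * (η + D * (l + m)) * D) =
        (D + 2 / c * D ^ 2) * η + (1 + M + 2 / c * D) * (l + m) := by
      rw [hP]; ring
    have e2 : 0 ≤ (D + 2 / c * D ^ 2) * η + (1 + M + 2 / c * D) * (l + m) := by positivity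
    linarith
  have k6 : P * η ≤ g / 2 := by
    have h4 := mul_le_mul_of_nonneg_left h3 hP0.le
    have h5 : P * (g / (2 * P)) = g / 2 := by field_simp
    rw [h5] at h4
    exact h4
  have k7 : P * (l + m) ≤ g / 2 := by
    have h4 := mul_le_mul_of_nonneg_left hlm hP0.le
    have h5 : P * (g / (2 * P)) = g / 2 := by field_simp
    rw [h5] at h4
    exact h4
  linarith

end Pool.Agent.TSR
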