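import Pool.Agent.TSR.EStmts

/-!
# TSR.EBD: bound of `FE` on the edge zone
-/

set_option autoImplicit false

namespace Pool.Agent.TSR

open Set Filter Topology Pool.Agent.TSM

namespace EBD_

theorem le_mn {ι : Type} {X : Finset ι} (hX : X.Nonempty) {B : ι → Aff} {y : E3} {s : ℝ}
    (h : ∀ n ∈ X, s ≤ ev (B n) y) : s ≤ mn X B y := by
  unfold mn
  rw [dif_pos hX]
  exact Finset.le_inf' _ _ h

theorem near {a ν : E3} {η : ℝ} {A : Aff} (h : NearP a ν η A) {D : ℝ} (y : E3) (hη : 0 ≤ η)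
    (hy : ‖y - a‖ ≤ D) : |ev A y - (inner ℝ ν (y - a) : ℝ)| ≤ η * (1 + D) := by
  have h1 : ev A y - (inner ℝ ν (y - a) : ℝ) = ev A a + (inner ℝ (A.1 - ν) (y - a) : ℝ) := by
    unfold ev
    rw [inner_sub_left, inner_sub_right A.1 y a]
    ring
  rw [h1]
  calc |ev A a + (inner ℝ (A.1 - ν) (y - a) : ℝ)|
      ≤ |ev A a| + |(inner ℝ (A.1 - ν) (y - a) : ℝ)| := abs_add_le _ _
    _ ≤ η + η * D := by
        apply add_le_add h.2
        exact (abs_real_inner_le_norm _ _).trans (mul_le_mul h.1 hy (norm_nonneg _) hη)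
    _ = _ := by ring

/-- lower bound for the chamfers of one end -/
theorem half {ι : Type} {a a' b b' ν ν' : E3} {ε' c C : ℝ} {X : Finset ι} {N : ι → E3}
    (h : EHalf a a' b b' ν ν' ε' c C X N) (hε : 0 < ε') {η D : ℝ} (hη : 0 ≤ η) {B : ι → Aff}
    (hB : ∀ n ∈ X, NearP a (N n) η (B n)) {y : E3} {l m : ℝ} (hl : 0 ≤ l) (hm : 0 ≤ m)
    (hy : y - a = l • (a' - a) + m • (b - a)) (hD : ‖y - a‖ ≤ D) (hb : ‖b - a‖ ≤ D)
    (hC : 0 ≤ C) : -(l * ε' * (C * D)) - η * (1 + D) ≤ mn X B y := by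
  refine le_mn h.ne fun n hn => ?_
  have h1 := near (hB n hn) y hη hD
  rw [hy, inner_add_right, inner_smul_right, inner_smul_right] at h1
  have h2 := (h.n2 n hn).1
  rw [inner_add_right, inner_smul_right] at h2
  have h3 := h.n1 n hn
  have h4 : 0 < (inner ℝ (N n) (b - a) : ℝ) := by
    by_contra hcon
    have : ε' * (inner ℝ (N n) (b - a) : ℝ) ≤ 0 :=
      mul_nonpos_of_nonneg_of_nonpos hε.le (not_lt.1 hcon)
    linarith
  have h5 : (inner ℝ (N n) (b - a) : ℝ) ≤ C * D :=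
    (le_abs_self _).trans ((abs_real_inner_le_norm _ _).trans
      (mul_le_mul (h.n3 n hn).2 hb (norm_nonneg _) hC))
  have h6 : 0 ≤ m * (inner ℝ (N n) (b - a) : ℝ) := mul_nonneg hm h4.le
  have h7 : -(ε' * (inner ℝ (N n) (b - a) : ℝ)) * l ≤ (inner ℝ (N n) (a' - a) : ℝ) * l :=
    mul_le_mul_of_nonneg_right (by linarith) hl
  have h8 : (ε' * l) * (inner ℝ (N n) (b - a) : ℝ) ≤ (ε' * l) * (C * D) :=
    mul_le_mul_of_nonneg_left h5 (mul_nonneg hε.le hl)
  have h9 := (abs_le.1 h1).1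
  have e1 : -(ε' * (inner ℝ (N n) (b - a) : ℝ)) * l = -((ε' * l) * (inner ℝ (N n) (b - a) : ℝ)) := by
    ring
  have e2 : l * ε' * (C * D) = (ε' * l) * (C * D) := by ring
  have e3 : (inner ℝ (N n) (a' - a) : ℝ) * l = l * (inner ℝ (N n) (a' - a) : ℝ) := mul_comm _ _
  rw [e2]
  rw [e1, e3] at h7
  linarith

end EBD_

open EBD_ in
theorem EBD_proof : Stmt_EBD := by
  intro a a' b b' ν ν' c C hG
  have hC : 0 ≤ C := (norm_nonneg _).trans hG.nk
  obtain ⟨D, hD⟩ : ∃ D, D = ‖a' - a‖ + ‖b - a‖ + ‖a - a'‖ + ‖b - a'‖ := ⟨_, rfl⟩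
  have n1 := norm_nonneg (a' - a)
  have n2 := norm_nonneg (b - a)
  have n3 := norm_nonneg (a - a')
  have n4 := norm_nonneg (b - a')
  have hD0 : 0 ≤ D := by linarith
  have hCD : 0 ≤ C * D := mul_nonneg hC hD0
  refine ⟨C * D + (1 + D), by linarith, ?_⟩
  intro ι ι' X N X' N' ε' hε' _ hX hX' η hη _ A A' B B' hN l m hl hm hlm
  set y := a + l • (a' - a) + m • (b - a) with hy
  have y1 : y - a = l • (a' - a) + m • (b - a) := by
    rw [hy]
    abel
  have y2 : y - a' = (1 - l - m) • (a - a') + m • (b - a') := by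
    rw [hy]
    module
  have d1 : ‖y - a‖ ≤ D := by
    rw [y1]
    refine (norm_add_le _ _).trans ?_
    rw [norm_smul, norm_smul, Real.norm_eq_abs, Real.norm_eq_abs, abs_of_nonneg hl,
      abs_of_nonneg hm]
    have k1 : l * ‖a' - a‖ ≤ 1 * ‖a' - a‖ := mul_le_mul_of_nonneg_right (by linarith) n1
    have k2 : m * ‖b - a‖ ≤ 1 * ‖b - a‖ := mul_le_mul_of_nonneg_right (by linarith) n2
    linarith
  have d2 : ‖y - a'‖ ≤ D := by
    rw [y2]
    refine (norm_add_le _ _).trans ?_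
    rw [norm_smul, norm_smul, Real.norm_eq_abs, Real.norm_eq_abs, abs_of_nonneg (by linarith),
      abs_of_nonneg hm]
    have k1 : (1 - l - m) * ‖a - a'‖ ≤ 1 * ‖a - a'‖ := mul_le_mul_of_nonneg_right (by linarith) n3
    have k2 : m * ‖b - a'‖ ≤ 1 * ‖b - a'‖ := mul_le_mul_of_nonneg_right (by linarith) n4
    linarith
  have p1 := near hN.A y hη.le d1
  have p2 := near hN.A' y hη.le d1
  rw [y1, inner_add_right, inner_smul_right, inner_smul_right, hG.ka, hG.kb] at p1
  rw [y1, inner_add_right, inner_smul_right, inner_smul_right, hG.la] at p2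
  simp only [mul_zero, add_zero, sub_zero, zero_add] at p1 p2
  obtain ⟨p3, p4⟩ := abs_le.1 p1
  obtain ⟨p5, -⟩ := abs_le.1 p2
  have p6 : 0 ≤ m * (inner ℝ ν' (b - a) : ℝ) := mul_nonneg hm hG.lb.le
  have q1 := half hX hε' hη.le hN.B hl hm y1 d1 (by linarith) hC
  have q2 := half hX' hε' hη.le hN.B' (by linarith : 0 ≤ 1 - l - m) hm y2 d2 (by linarith) hC
  have hmin0 : 0 ≤ min l (1 - l - m) := le_min hl (by linarith)
  have r0 : 0 ≤ ε' * min l (1 - l - m) := mul_nonneg hε'.le hmin0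
  have r1 : 0 ≤ (C * D + (1 + D)) * (ε' * min l (1 - l - m)) := mul_nonneg (by linarith) r0
  have r2 : 0 ≤ (C * D) * η := mul_nonneg hCD hη.le
  have r3 : 0 ≤ (1 + D) * (ε' * min l (1 - l - m)) := mul_nonneg (by linarith) r0
  have e0 : (C * D + (1 + D)) * (ε' * min l (1 - l - m) + η) =
      (C * D + (1 + D)) * (ε' * min l (1 - l - m)) + ((C * D) * η + η * (1 + D)) := by ring
  have e1 : (C * D + (1 + D)) * (ε' * min l (1 - l - m)) =
      min l (1 - l - m) * ε' * (C * D) + (1 + D) * (ε' * min l (1 - l - m)) := by ring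
  rw [abs_le]
  constructor
  · unfold FE
    refine le_min (le_min ?_ ?_) ?_
    · rw [e0]
      linarith
    · rw [e0]
      linarith
    · rcases le_total l (1 - l - m) with h | h
      · refine le_trans ?_ (q1.trans (le_max_left _ _))
        rw [min_eq_left h] at *
        rw [e0, e1]
        linarith
      · refine le_trans ?_ (q2.trans (le_max_right _ _))
        rw [min_eq_right h] at *
        rw [e0, e1]
        linarith
  · unfold FE
    refine (min_le_left _ _).trans ((min_le_left _ _).trans ?_)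
    rw [e0]
    linarith

end Pool.Agent.TSR
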