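import Pool.Agent.TSR.EStmts

/-!
# TSR.EFC: away from the edge the plane `A` is the active one
-/

set_option autoImplicit false

namespace Pool.Agent.TSR

open Set Filter Topology Pool.Agent.TSM

namespace EFC_

theorem le_mn {ι : Type} {X : Finset ι} (hX : X.Nonempty) {B : ι → Aff} {y : E3} {s : ℝ}
    (h : ∀ n ∈ X, s ≤ ev (B n) y) : s ≤ mn X B y := by
  unfold mn
  rw [dif_pos hX]
  exact Finset.le_inf' _ _ h

theorem near {a ν : E3} {η : ℝ} {A : Aff} (h : NearP a ν η A) {D : ℝ} (y : E3) (hη : 0 ≤ η)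
    (hy : ‖y - a‖ ≤ D) : |ev A y - (inner ℝ ν (y - a) : ℝ)| ≤ η * (1 + D) := by
  have h1 : ev A y - (inner ℝ ν (y - a) : ℝ) = ev A a + (inner ℝ (A.1 - ν) (y - a) : ℝ) := by
    unfold ev
    rw [inner_sub_left, inner_sub_right A.1 y a]
    ring
  rw [h1]
  calc |ev A a + (inner ℝ (A.1 - ν) (y - a) : ℝ)|
      ≤ |ev A a| + |(inner ℝ (A.1 - ν) (y - a) : ℝ)| := abs_add_le _ _
    _ ≤ η + η * D := by
        apply add_le_add h.2
        exact (abs_real_inner_le_norm _ _).trans (mul_le_mul h.1 hy (norm_nonneg _) hη)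
    _ = _ := by ring

/-- positivity of the chamfers of one end -/
theorem half {ι : Type} {a a' b b' ν ν' e : E3} {ε' c C : ℝ} {X : Finset ι} {N : ι → E3}
    (h : EHalf a a' b b' ν ν' ε' c C X N) {κ ρ g : ℝ} (hκ : ε' < κ) (hρ : 0 < ρ)
    (hg0 : 0 < g) (hg : ∀ n ∈ X, g ≤ (inner ℝ (N n) (b - a) : ℝ)) {η D : ℝ} (hη : 0 ≤ η)
    {B : ι → Aff} (hB : ∀ n ∈ X, NearP a (N n) η (B n)) {q : E3} {l m s : ℝ} (hl : ρ ≤ l)
    (hm : κ * l ≤ m) (hq : q - a = l • (a' - a) + m • (b - a) - s • e) (hD : ‖q - a‖ ≤ D)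
    (hs : |s| * (C * ‖e‖) + η * (1 + D) < (κ - ε') * ρ * g) :
    ∀ n ∈ X, 0 < ev (B n) q := by
  intro n hn
  have h1 := (abs_le.1 (near (hB n hn) q hη hD)).1
  rw [hq, inner_sub_right, inner_add_right, inner_smul_right, inner_smul_right,
    inner_smul_right] at h1
  have h2 := (h.n2 n hn).1
  rw [inner_add_right, inner_smul_right] at h2
  have h3 : s * (inner ℝ (N n) e : ℝ) ≤ |s| * (C * ‖e‖) := by
    refine (le_abs_self _).trans ?_
    rw [abs_mul]
    refine mul_le_mul_of_nonneg_left ?_ (abs_nonneg _)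
    exact (abs_real_inner_le_norm _ _).trans
      (mul_le_mul_of_nonneg_right (h.n3 n hn).2 (norm_nonneg _))
  have hl0 : 0 < l := hρ.trans_le hl
  have h4 : 0 ≤ l * ((inner ℝ (N n) (a' - a) : ℝ) + ε' * (inner ℝ (N n) (b - a) : ℝ)) :=
    mul_nonneg hl0.le h2.le
  have hN : 0 < (inner ℝ (N n) (b - a) : ℝ) := hg0.trans_le (hg n hn)
  have h5 : 0 ≤ (m - κ * l) * (inner ℝ (N n) (b - a) : ℝ) :=
    mul_nonneg (by linarith) hN.le
  have h6 : (κ - ε') * ρ * g ≤ (κ - ε') * l * (inner ℝ (N n) (b - a) : ℝ) := by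
    apply mul_le_mul _ (hg n hn) hg0.le (mul_nonneg (by linarith) hl0.le)
    exact mul_le_mul_of_nonneg_left hl (by linarith)
  nlinarith

theorem exg {ι : Type} {X : Finset ι} (hX : X.Nonempty) (f : ι → ℝ) (hf : ∀ n ∈ X, 0 < f n) :
    ∃ g : ℝ, 0 < g ∧ ∀ n ∈ X, g ≤ f n := by
  obtain ⟨n, hn, h⟩ := Finset.exists_min_image X f hX
  exact ⟨f n, hf n hn, h⟩

theorem posb {ι : Type} {a a' b b' ν ν' : E3} {ε' c C : ℝ} {X : Finset ι} {N : ι → E3}
    (h : EHalf a a' b b' ν ν' ε' c C X N) (hε : 0 < ε') :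
    ∀ n ∈ X, 0 < (inner ℝ (N n) (b - a) : ℝ) := by
  intro n hn
  have h2 := (h.n2 n hn).1
  rw [inner_add_right, inner_smul_right] at h2
  have h3 := h.n1 n hn
  by_contra hcon
  have : ε' * (inner ℝ (N n) (b - a) : ℝ) ≤ 0 :=
    mul_nonpos_of_nonneg_of_nonpos hε.le (not_lt.1 hcon)
  linarith

end EFC_

open EFC_ in
theorem EFC_proof : Stmt_EFC := by
  intro ι ι' a a' b b' ν ν' c C ε' X N X' N' hG hε hX hX' ρ κ hρ hκ
  have hC : 0 ≤ C := (norm_nonneg _).trans hG.nk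
  obtain ⟨g, hg0, hg⟩ := exg hX.ne _ (posb hX hε)
  obtain ⟨g', hg0', hg'⟩ := exg hX'.ne _ (posb hX' hε)
  obtain ⟨e, he⟩ : ∃ e, e = eV a a' b b' := ⟨_, rfl⟩
  obtain ⟨D, hD⟩ : ∃ D, D = ‖a' - a‖ + ‖b - a‖ + ‖a - a'‖ + ‖b - a'‖ := ⟨_, rfl⟩
  have n1 := norm_nonneg (a' - a)
  have n2 := norm_nonneg (b - a)
  have n3 := norm_nonneg (a - a')
  have n4 := norm_nonneg (b - a')
  have ne := norm_nonneg e
  have hc := hG.c0
  have hD0 : 0 ≤ D := by linarith
  obtain ⟨M, hM⟩ : ∃ M, M = 2 * (1 + D) / c := ⟨_, rfl⟩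
  have hM0 : 0 < M := by rw [hM]; positivity
  obtain ⟨D₂, hD₂⟩ : ∃ D₂, D₂ = D + M * ‖e‖ := ⟨_, rfl⟩
  have hD₂0 : 0 ≤ D₂ := by rw [hD₂]; positivity
  obtain ⟨K, hK⟩ : ∃ K, K = M * (C * ‖e‖) + (1 + D₂) := ⟨_, rfl⟩
  have hK0 : 0 < K := by rw [hK]; positivity
  have hlb := hG.lb
  have hκ0 : 0 < κ := hε.trans hκ
  have hκε : 0 < κ - ε' := by linarith
  obtain ⟨η₀, hη₀⟩ : ∃ η₀, η₀ = min (min 1 (c / (2 * (‖e‖ + 1))))
      (min (κ * ρ * (inner ℝ ν' (b - a) : ℝ) / K)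
        (min ((κ - ε') * ρ * g / K) ((κ - ε') * ρ * g' / K))) := ⟨_, rfl⟩
  refine ⟨η₀, ?_, ?_⟩
  · rw [hη₀]
    refine lt_min (lt_min one_pos (by positivity)) (lt_min (by positivity)
      (lt_min (by positivity) (by positivity)))
  intro η hη hηlt A A' B B' hN l m hl hm hlm hκm s hs
  rw [← he] at hs ⊢
  have t1 : η ≤ 1 := (hηlt.trans_le (hη₀ ▸ (min_le_left _ _).trans (min_le_left _ _))).le
  have t2 : η < c / (2 * (‖e‖ + 1)) :=
    hηlt.trans_le (hη₀ ▸ (min_le_left _ _).trans (min_le_right _ _))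
  have t3 : η < κ * ρ * (inner ℝ ν' (b - a) : ℝ) / K :=
    hηlt.trans_le (hη₀ ▸ (min_le_right _ _).trans (min_le_left _ _))
  have t4 : η < (κ - ε') * ρ * g / K :=
    hηlt.trans_le (hη₀ ▸ (min_le_right _ _).trans ((min_le_right _ _).trans (min_le_left _ _)))
  have t5 : η < (κ - ε') * ρ * g' / K :=
    hηlt.trans_le (hη₀ ▸ (min_le_right _ _).trans ((min_le_right _ _).trans (min_le_right _ _)))
  rw [lt_div_iff₀ (by positivity)] at t2
  rw [lt_div_iff₀ hK0] at t3 t4 t5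
  obtain ⟨y, hy⟩ : ∃ y, y = a + l • (a' - a) + m • (b - a) := ⟨_, rfl⟩
  obtain ⟨q, hq⟩ : ∃ q, q = y - s • e := ⟨_, rfl⟩
  rw [← hy, ← hq] at hs ⊢
  have hl0 : 0 < l := hρ.trans_le hl
  have y1 : y - a = l • (a' - a) + m • (b - a) := by
    rw [hy]
    abel
  have y2 : y - a' = (1 - l - m) • (a - a') + m • (b - a') := by
    rw [hy]
    module
  have d1 : ‖y - a‖ ≤ D := by
    rw [y1]
    refine (norm_add_le _ _).trans ?_
    rw [norm_smul, norm_smul, Real.norm_eq_abs, Real.norm_eq_abs, abs_of_nonneg hl0.le,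
      abs_of_nonneg hm]
    have k1 : l * ‖a' - a‖ ≤ 1 * ‖a' - a‖ := mul_le_mul_of_nonneg_right (by linarith) n1
    have k2 : m * ‖b - a‖ ≤ 1 * ‖b - a‖ := mul_le_mul_of_nonneg_right (by linarith) n2
    linarith
  have d2 : ‖y - a'‖ ≤ D := by
    rw [y2]
    refine (norm_add_le _ _).trans ?_
    rw [norm_smul, norm_smul, Real.norm_eq_abs, Real.norm_eq_abs, abs_of_nonneg (by linarith),
      abs_of_nonneg hm]
    have k1 : (1 - l - m) * ‖a - a'‖ ≤ 1 * ‖a - a'‖ := mul_le_mul_of_nonneg_right (by linarith) n3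
    have k2 : m * ‖b - a'‖ ≤ 1 * ‖b - a'‖ := mul_le_mul_of_nonneg_right (by linarith) n4
    linarith
  -- bound of `s`
  have p1 := near hN.A y hη.le d1
  rw [y1, inner_add_right, inner_smul_right, inner_smul_right, hG.ka, hG.kb] at p1
  simp only [mul_zero, add_zero, sub_zero] at p1
  have hAe : c / 2 ≤ (inner ℝ A.1 e : ℝ) := by
    have k1 : (inner ℝ A.1 e : ℝ) = (inner ℝ ν e : ℝ) + (inner ℝ (A.1 - ν) e : ℝ) := by
      rw [inner_sub_left]; ring
    have k2 : |(inner ℝ (A.1 - ν) e : ℝ)| ≤ η * ‖e‖ :=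
      (abs_real_inner_le_norm _ _).trans (mul_le_mul_of_nonneg_right hN.A.1 ne)
    have k3 := (abs_le.1 k2).1
    have k4 : c ≤ (inner ℝ ν e : ℝ) := by rw [he]; exact hG.ck
    nlinarith
  have hevq : ev A q = ev A y - s * (inner ℝ A.1 e : ℝ) := by
    unfold ev
    rw [hq, inner_sub_right, inner_smul_right]
    ring
  have hsb : |s| ≤ M * η := by
    have k1 : ev A y = s * (inner ℝ A.1 e : ℝ) := by linarith
    rw [k1, abs_mul, abs_of_nonneg (by linarith : 0 ≤ (inner ℝ A.1 e : ℝ))] at p1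
    have k2 : |s| * (c / 2) ≤ |s| * (inner ℝ A.1 e : ℝ) :=
      mul_le_mul_of_nonneg_left hAe (abs_nonneg _)
    have k3 : |s| * (c / 2) ≤ η * (1 + D) := k2.trans p1
    rw [hM, div_mul_eq_mul_div, le_div_iff₀ hc]
    linarith
  have hsb1 : |s| ≤ M := hsb.trans (by nlinarith)
  have hse : ‖s • e‖ ≤ M * ‖e‖ := by
    rw [norm_smul, Real.norm_eq_abs]
    exact mul_le_mul_of_nonneg_right hsb1 ne
  have q1 : q - a = l • (a' - a) + m • (b - a) - s • e := by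
    rw [hq, ← y1]; abel
  have q2 : q - a' = (1 - l - m) • (a - a') + m • (b - a') - s • e := by
    rw [hq, ← y2]; abel
  have dq1 : ‖q - a‖ ≤ D₂ := by
    have : q - a = (y - a) - s • e := by rw [hq]; abel
    rw [this, hD₂]
    exact (norm_sub_le _ _).trans (add_le_add d1 hse)
  have dq2 : ‖q - a'‖ ≤ D₂ := by
    have : q - a' = (y - a') - s • e := by rw [hq]; abel
    rw [this, hD₂]
    exact (norm_sub_le _ _).trans (add_le_add d2 hse)
  have hCe : 0 ≤ C * ‖e‖ := mul_nonneg hC ne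
  have hbig : |s| * (C * ‖e‖) + η * (1 + D₂) ≤ η * K := by
    have k1 : |s| * (C * ‖e‖) ≤ M * η * (C * ‖e‖) := mul_le_mul_of_nonneg_right hsb hCe
    rw [hK]
    nlinarith
  -- the plane `A'`
  have hA' : 0 ≤ ev A' q := by
    have k1 := (abs_le.1 (near hN.A' q hη.le dq1)).1
    rw [q1, inner_sub_right, inner_add_right, inner_smul_right, inner_smul_right,
      inner_smul_right, hG.la] at k1
    have k2 : s * (inner ℝ ν' e : ℝ) ≤ |s| * (C * ‖e‖) := by
      refine (le_abs_self _).trans ?_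
      rw [abs_mul]
      refine mul_le_mul_of_nonneg_left ?_ (abs_nonneg _)
      exact (abs_real_inner_le_norm _ _).trans (mul_le_mul_of_nonneg_right hG.nl ne)
    have k3 : κ * ρ ≤ m := by
      refine le_trans ?_ hκm
      exact mul_le_mul_of_nonneg_left (le_min hl hlm) hκ0.le
    have k4 : κ * ρ * (inner ℝ ν' (b - a) : ℝ) ≤ m * (inner ℝ ν' (b - a) : ℝ) :=
      mul_le_mul_of_nonneg_right k3 hlb.le
    linarith
  -- the chamfers
  have hmax : 0 ≤ max (mn X B q) (mn X' B' q) := by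
    rcases le_total l (1 - l - m) with hll | hll
    · refine le_max_of_le_left (le_mn hX.ne fun n hn => (half hX hκ hρ hg0 hg hη.le hN.B hl ?_ q1
        dq1 (by linarith) n hn).le)
      rwa [min_eq_left hll] at hκm
    · refine le_max_of_le_right (le_mn hX'.ne fun n hn => (half hX' hκ hρ hg0' hg' hη.le hN.B' hlm
        ?_ q2 dq2 (by linarith) n hn).le)
      rwa [min_eq_right hll] at hκm
  unfold FE
  rw [hs, min_eq_left hA', min_eq_left hmax]

end Pool.Agent.TSR
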