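import Pool.Agent.TSR.EStmts

/-!
# TSR, EFU: the function `FE` is strictly monotone along `e`
-/

set_option autoImplicit false

namespace Pool.Agent.TSR

open Set Filter Topology Pool.Agent.TSM

namespace EFU_

/-- monotone along `e` with slope at least `c` -/
def Mo (e : E3) (c : ℝ) (f : E3 → ℝ) : Prop :=
  ∀ (y : E3) (s t : ℝ), s ≤ t → c * (t - s) ≤ f (y - s • e) - f (y - t • e)

theorem mo_ev {e : E3} {c : ℝ} {Z : Aff} (h : c ≤ (inner ℝ Z.1 e : ℝ)) :
    Mo e c (fun y => ev Z y) := by
  intro y s t hst
  have h1 : ev Z (y - s • e) - ev Z (y - t • e) = (t - s) * inner ℝ Z.1 e := by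
    unfold ev
    rw [inner_sub_right, inner_sub_right, inner_smul_right, inner_smul_right]
    ring
  change c * (t - s) ≤ ev Z (y - s • e) - ev Z (y - t • e)
  rw [h1, mul_comm]
  exact mul_le_mul_of_nonneg_left h (by linarith)

theorem mo_min {e : E3} {c : ℝ} {f g : E3 → ℝ} (hf : Mo e c f) (hg : Mo e c g) :
    Mo e c (fun y => min (f y) (g y)) := by
  intro y s t hst
  have h1 := hf y s t hst
  have h2 := hg y s t hst
  have h3 := min_le_left (f (y - t • e)) (g (y - t • e))
  have h4 := min_le_right (f (y - t • e)) (g (y - t • e))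
  have h5 : min (f (y - t • e)) (g (y - t • e)) + c * (t - s) ≤
      min (f (y - s • e)) (g (y - s • e)) := le_min (by linarith) (by linarith)
  change c * (t - s) ≤ min (f (y - s • e)) (g (y - s • e)) - min (f (y - t • e)) (g (y - t • e))
  linarith

theorem mo_max {e : E3} {c : ℝ} {f g : E3 → ℝ} (hf : Mo e c f) (hg : Mo e c g) :
    Mo e c (fun y => max (f y) (g y)) := by
  intro y s t hst
  have h1 := hf y s t hst
  have h2 := hg y s t hst
  have h3 := le_max_left (f (y - s • e)) (g (y - s • e))
  have h4 := le_max_right (f (y - s • e)) (g (y - s • e))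
  have h5 : max (f (y - t • e)) (g (y - t • e)) ≤
      max (f (y - s • e)) (g (y - s • e)) - c * (t - s) := max_le (by linarith) (by linarith)
  change c * (t - s) ≤ max (f (y - s • e)) (g (y - s • e)) - max (f (y - t • e)) (g (y - t • e))
  linarith

theorem mo_mn {ι : Type} {e : E3} {c : ℝ} {X : Finset ι} {B : ι → Aff} (hX : X.Nonempty)
    (h : ∀ n ∈ X, c ≤ (inner ℝ (B n).1 e : ℝ)) : Mo e c (mn X B) := by
  intro y s t hst
  unfold mn
  rw [dif_pos hX, dif_pos hX]
  have h5 : X.inf' hX (fun n => ev (B n) (y - t • e)) + c * (t - s) ≤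
      X.inf' hX (fun n => ev (B n) (y - s • e)) := by
    apply Finset.le_inf'
    intro n hn
    have h1 := mo_ev (h n hn) y s t hst
    have h2 : X.inf' hX (fun n => ev (B n) (y - t • e)) ≤ ev (B n) (y - t • e) :=
      Finset.inf'_le _ hn
    change c * (t - s) ≤ ev (B n) (y - s • e) - ev (B n) (y - t • e) at h1
    linarith
  linarith

theorem cont_ev (Z : Aff) : Continuous (fun y => ev Z y) := by
  unfold ev
  fun_prop

theorem cont_mn {ι : Type} {X : Finset ι} {B : ι → Aff} (hX : X.Nonempty) :
    Continuous (mn X B) := by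
  have h1 : mn X B = fun y => X.inf' hX fun n => ev (B n) y := by
    funext y
    unfold mn
    rw [dif_pos hX]
  rw [h1]
  exact Continuous.finset_inf'_apply hX fun n _ => cont_ev (B n)

end EFU_

open EFU_ in
theorem EFU_proof : Stmt_EFU := by
  intro ι ι' A A' X B X' B' e c hc hX hX' hA hA' hB hB'
  have hmo : Mo e c (FE A A' X B X' B') :=
    mo_min (mo_min (mo_ev hA) (mo_ev hA')) (mo_max (mo_mn hX hB) (mo_mn hX' hB'))
  have hcont : Continuous (FE A A' X B X' B') :=
    ((cont_ev A).min (cont_ev A')).min ((cont_mn hX).max (cont_mn hX'))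
  set F := FE A A' X B X' B' with hF
  have hbd : ∀ (y : E3) (s : ℝ), F (y - s • e) = 0 → c * |s| ≤ |F y| := by
    intro y s hs
    rcases le_total 0 s with h | h
    · have h1 := hmo y 0 s h
      rw [zero_smul, sub_zero, sub_zero, hs, sub_zero] at h1
      rw [abs_of_nonneg h]
      exact h1.trans (le_abs_self _)
    · have h1 := hmo y s 0 h
      rw [zero_smul, sub_zero, hs, zero_sub, zero_sub] at h1
      rw [abs_of_nonpos h]
      exact h1.trans (neg_le_abs _)
  refine ⟨hmo, ?_, ?_, hbd, hcont, ?_⟩
  · intro y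
    set R : ℝ := |F y| / c with hR
    have hR0 : 0 ≤ R := by positivity
    have hcR : c * R = |F y| := by rw [hR]; field_simp
    have hφ : ContinuousOn (fun s : ℝ => F (y - s • e)) (Icc (-R) R) := by
      apply Continuous.continuousOn
      exact hcont.comp (by fun_prop)
    have h1 : F (y - R • e) ≤ 0 := by
      have h2 := hmo y 0 R hR0
      rw [zero_smul, sub_zero, sub_zero, hcR] at h2
      linarith [le_abs_self (F y)]
    have h2 : 0 ≤ F (y - (-R) • e) := by
      have h3 := hmo y (-R) 0 (by linarith)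
      rw [zero_smul, sub_zero, zero_sub, neg_neg, hcR] at h3
      linarith [neg_abs_le (F y)]
    obtain ⟨s, -, hs⟩ := intermediate_value_Icc' (by linarith) hφ ⟨h1, h2⟩
    exact ⟨s, hs⟩
  · intro y s t hs ht
    rcases le_total s t with h | h
    · have h1 := hmo y s t h
      rw [hs, ht, sub_zero] at h1
      nlinarith
    · have h1 := hmo y t s h
      rw [hs, ht, sub_zero] at h1
      nlinarith
  · intro T _ S g s hg hs x₀ hx₀
    rw [ContinuousWithinAt, tendsto_iff_dist_tendsto_zero]
    have h1 : ∀ x ∈ S, dist (s x) (s x₀) ≤ |F (g x - s x₀ • e)| / c := by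
      intro x hx
      rw [Real.dist_eq, le_div_iff₀ hc, mul_comm]
      apply hbd
      have h2 : g x - s x₀ • e - (s x - s x₀) • e = g x - s x • e := by module
      rw [h2]
      exact hs x hx
    have h3 : Tendsto (fun x => |F (g x - s x₀ • e)| / c) (𝓝[S] x₀) (𝓝 0) := by
      have h4 : ContinuousWithinAt (fun x => |F (g x - s x₀ • e)| / c) S x₀ := by
        have h5 : ContinuousWithinAt (fun x => F (g x - s x₀ • e)) S x₀ :=
          hcont.continuousAt.comp_continuousWithinAt ((hg x₀ hx₀).sub continuousWithinAt_const)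
        exact h5.abs.div_const c
      have h6 : |F (g x₀ - s x₀ • e)| / c = 0 := by
        rw [hs x₀ hx₀, abs_zero, zero_div]
      have h7 := h4.tendsto
      rwa [h6] at h7
    refine squeeze_zero' ?_ ?_ h3
    · exact Eventually.of_forall fun x => dist_nonneg
    · filter_upwards [self_mem_nhdsWithin] with x hx
      exact h1 x hx

end Pool.Agent.TSR
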