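import Pool.Agent.TSR.Base

/-!
# TSR: geometry of the flags, uniform constants (module EGE)
-/

set_option autoImplicit false

namespace Pool.Agent.TSR

open Set Filter Topology Pool.Agent.TSM Pool.Agent.TSC

namespace EGE_

theorem low {α : Type} (s : Finset α) (f : α → ℝ) (h : ∀ i ∈ s, 0 < f i) :
    ∃ c : ℝ, 0 < c ∧ ∀ i ∈ s, c ≤ f i := by
  classical
  induction s using Finset.induction_on with
  | empty => exact ⟨1, one_pos, fun i hi => absurd hi (Finset.notMem_empty i)⟩
  | insert a s ha ih =>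
    obtain ⟨c, hc, h1⟩ := ih fun i hi => h i (Finset.mem_insert_of_mem hi)
    refine ⟨min c (f a), lt_min hc (h a (Finset.mem_insert_self _ _)), fun i hi => ?_⟩
    rcases Finset.mem_insert.1 hi with rfl | hi
    · exact min_le_right _ _
    · exact (min_le_left _ _).trans (h1 i hi)

theorem sign_mul (t : ℝ) : Real.sign t * t = |t| := by
  rcases lt_trichotomy t 0 with h | h | h
  · rw [Real.sign_of_neg h, abs_of_neg h]; ring
  · rw [h]; simp
  · rw [Real.sign_of_pos h, abs_of_pos h]; ring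

theorem le_sum3 {V : Type} [Fintype V] (f : V → V → V → ℝ) (h : ∀ v u w, 0 ≤ f v u w)
    (v u w : V) : f v u w ≤ ∑ q : V × V × V, f q.1 q.2.1 q.2.2 := by
  have h1 := Finset.single_le_sum (f := fun q : V × V × V => f q.1 q.2.1 q.2.2)
    (s := Finset.univ) (fun q _ => h q.1 q.2.1 q.2.2) (Finset.mem_univ ((v, u, w) : V × V × V))
  exact h1

theorem low3 {V : Type} [Fintype V] (P : V → V → V → Prop) (f : V → V → V → ℝ)
    (h : ∀ v u w, P v u w → 0 < f v u w) :
    ∃ c : ℝ, 0 < c ∧ ∀ v u w, P v u w → c ≤ f v u w := by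
  classical
  obtain ⟨c, hc, hl⟩ := low ((Finset.univ : Finset (V × V × V)).filter
    fun q => P q.1 q.2.1 q.2.2) (fun q => f q.1 q.2.1 q.2.2)
    (fun q hq => h _ _ _ (Finset.mem_filter.1 hq).2)
  exact ⟨c, hc, fun v u w hv => hl (v, u, w) (Finset.mem_filter.2 ⟨Finset.mem_univ _, hv⟩)⟩

end EGE_

/-- `EGeo` for all flags, with uniform constants -/
theorem EGE_proof (hF : Stmt_FLG) : Stmt_EGE := by
  intro V _ _ K p Φ op hK hop
  have hflag := (hF V K p Φ op hK hop).2
  obtain ⟨c, hc, hlow⟩ := EGE_.low3 (fun v u w => Flag K p Φ op v u w)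
    (fun v u w => |Dl p v u w (op v u w)|)
    (fun v u w hq => abs_pos.2 (hflag v u w hq).2.2.2)
  obtain ⟨C, hC⟩ : ∃ C : ℝ, ∀ v u w, ‖nE p op v u w‖ ≤ C :=
    ⟨_, EGE_.le_sum3 (fun v u w => ‖nE p op v u w‖) (fun v u w => norm_nonneg _)⟩
  refine ⟨c, C, hc, ?_⟩
  intro v u w h
  obtain ⟨-, -, -, hD⟩ := hflag v u w h
  obtain ⟨-, -, -, h4, -⟩ := hop v u w h.1
  have hcD : c ≤ |Dl p v u w (op v u w)| := hlow v u w h
  have hpos : 0 < |Dl p v u w (op v u w)| := abs_pos.2 hD
  have e1 : sg p op v u w * Dl p v u w (op v u w) = |Dl p v u w (op v u w)| :=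
    EGE_.sign_mul _
  have e2 : sg p op v u (op v u w) * Dl p v u (op v u w) w = |Dl p v u w (op v u w)| := by
    unfold sg
    rw [h4, EGE_.sign_mul, Dl_anti, abs_neg]
  refine
    { ind := hD
      ka := ?_
      kb := ?_
      kb' := ?_
      la := ?_
      lb' := ?_
      lb := ?_
      c0 := hc
      ck := ?_
      cl := ?_
      nk := hC _ _ _
      nl := hC _ _ _ }
  · unfold nE
    rw [real_inner_smul_left, inn_n0_u, mul_zero]
  · unfold nE
    rw [real_inner_smul_left, inn_n0_w, mul_zero]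
  · unfold nE
    rw [real_inner_smul_left, inn_n0, e1]
    exact hpos
  · unfold nE
    rw [real_inner_smul_left, inn_n0_u, mul_zero]
  · unfold nE
    rw [real_inner_smul_left, inn_n0_w, mul_zero]
  · unfold nE
    rw [real_inner_smul_left, inn_n0, e2]
    exact hpos
  · rw [eV_eq]
    unfold nE
    rw [real_inner_smul_left, inn_n0_eE, e1]
    exact hcD
  · rw [eV_eq, ← eE_anti]
    unfold nE
    rw [real_inner_smul_left, inn_n0_eE, e2]
    exact hcD

end Pool.Agent.TSR
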