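import Pool.Agent.TSR.EStmts

/-!
# TSR: EGM, germs along an edge, away from its end points
-/

set_option autoImplicit false

namespace Pool.Agent.TSR

open Set Filter Topology Pool.Agent.TSM Pool.Agent.TSC

namespace EGM_

/-! ### algebra -/

theorem det3_zero1 (a b : E3) : det3 0 a b = 0 := by simp only [det3, PiLp.zero_apply]; ring
theorem det3_zero2 (a b : E3) : det3 a 0 b = 0 := by simp only [det3, PiLp.zero_apply]; ring
theorem det3_zero3 (a b : E3) : det3 a b 0 = 0 := by simp only [det3, PiLp.zero_apply]; ring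

theorem indep3 (a b c : E3) (h : det3 a b c ≠ 0) {l m k : ℝ}
    (he : l • a + m • b + k • c = 0) : l = 0 ∧ m = 0 ∧ k = 0 := by
  refine ⟨?_, ?_, ?_⟩
  · have h1 : det3 (l • a + m • b + k • c) b c = l * det3 a b c := by
      simp only [det3, PiLp.add_apply, PiLp.smul_apply, smul_eq_mul]; ring
    rw [he, det3_zero1] at h1
    rcases mul_eq_zero.1 h1.symm with h2 | h2
    · exact h2
    · exact absurd h2 h
  · have h1 : det3 a (l • a + m • b + k • c) c = m * det3 a b c := by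
      simp only [det3, PiLp.add_apply, PiLp.smul_apply, smul_eq_mul]; ring
    rw [he, det3_zero2] at h1
    rcases mul_eq_zero.1 h1.symm with h2 | h2
    · exact h2
    · exact absurd h2 h
  · have h1 : det3 a b (l • a + m • b + k • c) = k * det3 a b c := by
      simp only [det3, PiLp.add_apply, PiLp.smul_apply, smul_eq_mul]; ring
    rw [he, det3_zero3] at h1
    rcases mul_eq_zero.1 h1.symm with h2 | h2
    · exact h2
    · exact absurd h2 h

theorem indep_of_det (a b c : Aff) (h : det3 a.1 b.1 c.1 ≠ 0) : Indep a b c := by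
  unfold Indep
  rw [Fintype.linearIndependent_iff]
  intro g hg
  have h3 : g 0 • a.1 + g 1 • b.1 + g 2 • c.1 = 0 := by
    have h4 := hg
    rw [Fin.sum_univ_three] at h4
    exact h4
  obtain ⟨h0, h1, h2⟩ := indep3 a.1 b.1 c.1 h h3
  intro i
  fin_cases i
  · exact h0
  · exact h1
  · exact h2

theorem ev_cont (Z : Aff) : Continuous (ev Z) := by
  unfold ev
  fun_prop

theorem ev_sub (Z : Aff) (a y : E3) : ev Z y = ev Z a + inner ℝ Z.1 (y - a) := by
  unfold ev
  rw [inner_sub_right]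
  ring

theorem ev_neg (Z : Aff) (y : E3) : ev (-Z) y = -ev Z y := by
  unfold ev
  rw [Prod.fst_neg, Prod.snd_neg, inner_neg_left]
  ring

theorem ev_mk (w y : E3) (t : ℝ) : ev ((w, inner ℝ w y - t) : Aff) y = t := by
  unfold ev
  simp

/-! ### auxiliary planes -/

theorem plane2 (f g : Aff) (h : crs f.1 g.1 ≠ 0) (y : E3) :
    ∃ k : Aff, Indep f g k ∧ ev k y = -1 := by
  refine ⟨(crs f.1 g.1, inner ℝ (crs f.1 g.1) y - (-1)), indep_of_det _ _ _ ?_, ev_mk _ _ _⟩
  change det3 f.1 g.1 (crs f.1 g.1) ≠ 0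
  rw [← inner_crs]
  exact fun h0 => h (inner_self_eq_zero.1 h0)

theorem exists_crs (u : E3) (h : u ≠ 0) : ∃ w : E3, crs u w ≠ 0 := by
  by_contra hcon
  push Not at hcon
  apply h
  have a1 := congrArg (fun v : E3 => v 1) (hcon !₂[1, 0, 0])
  have a2 := congrArg (fun v : E3 => v 2) (hcon !₂[1, 0, 0])
  have a3 := congrArg (fun v : E3 => v 2) (hcon !₂[0, 1, 0])
  simp only [crs1, crs2] at a1 a2 a3
  apply e3ext
  · simpa using a3
  · simpa using a2
  · simpa using a1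

theorem plane1 (f : Aff) (h : f.1 ≠ 0) (y : E3) :
    ∃ g k : Aff, Indep f g k ∧ ev g y = 1 ∧ ev k y = -1 := by
  obtain ⟨w, hw⟩ := exists_crs f.1 h
  obtain ⟨k, hk, hk'⟩ := plane2 f (w, inner ℝ w y - 1) hw y
  exact ⟨_, k, hk, ev_mk _ _ _, hk'⟩

theorem evt_pos {Z : Aff} {y : E3} (h : 0 < ev Z y) : ∀ᶠ z in 𝓝 y, 0 < ev Z z :=
  (ev_cont Z).continuousAt.eventually (lt_mem_nhds h)

theorem evt_neg {Z : Aff} {y : E3} (h : ev Z y < 0) : ∀ᶠ z in 𝓝 y, ev Z z < 0 :=
  (ev_cont Z).continuousAt.eventually (gt_mem_nhds h)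

theorem evt_all (S : Finset Aff) (y : E3) :
    ∀ᶠ z in 𝓝 y, ∀ Z ∈ S, 0 < ev Z y → 0 < ev Z z := by
  rw [Filter.eventually_all_finset]
  intro Z _
  by_cases h : 0 < ev Z y
  · exact (evt_pos h).mono fun z hz _ => hz
  · exact Filter.Eventually.of_forall fun z h' => absurd h' h

theorem germ_min (S : Finset Aff) (y : E3) (hne : ∃ Z ∈ S, ev Z y = 0)
    (hpos : ∀ Z ∈ S, 0 ≤ ev Z y) (h1 : ∀ Z ∈ S, Z.1 ≠ 0)
    (h2 : ∀ Z ∈ S, ∀ W ∈ S, Z ≠ W → ev Z y = 0 → ev W y = 0 → crs Z.1 W.1 ≠ 0)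
    (h3 : ∀ Z ∈ S, ∀ W ∈ S, ∀ T ∈ S, Z ≠ W → Z ≠ T → W ≠ T → ev Z y = 0 → ev W y = 0 →
      ev T y = 0 → False) :
    ∃ f g h : Aff, Indep f g h ∧ ∀ᶠ z in 𝓝 y, (∀ Z ∈ S, 0 ≤ ev Z z) → (∃ Z ∈ S, ev Z z = 0) →
      G3 f g h z = 0 := by
  obtain ⟨Z0, hZ0, hZy⟩ := hne
  by_cases hW : ∃ W ∈ S, W ≠ Z0 ∧ ev W y = 0
  · obtain ⟨W, hWS, hWZ, hWy⟩ := hW
    obtain ⟨k, hk, hk'⟩ := plane2 Z0 W (h2 Z0 hZ0 W hWS hWZ.symm hZy hWy) y
    refine ⟨Z0, W, k, hk, ?_⟩
    filter_upwards [evt_all S y, evt_neg (Z := k) (y := y) (by rw [hk']; norm_num)]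
      with z hz1 hz2 hz3 ⟨T, hT, hTz⟩
    have hTy : ev T y = 0 := by
      by_contra h0
      have h4 : 0 < ev T y := lt_of_le_of_ne (hpos T hT) (Ne.symm h0)
      have := hz1 T hT h4
      linarith
    have hTT : T = Z0 ∨ T = W := by
      by_contra hcon
      push Not at hcon
      exact h3 Z0 hZ0 W hWS T hT hWZ.symm hcon.1.symm hcon.2.symm hZy hWy hTy
    have hmin : min (ev Z0 z) (ev W z) = 0 := by
      apply le_antisymm
      · rcases hTT with rfl | rfl
        · exact (min_le_left _ _).trans hTz.le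
        · exact (min_le_right _ _).trans hTz.le
      · exact le_min (hz3 Z0 hZ0) (hz3 W hWS)
    unfold G3
    rw [hmin]
    exact max_eq_left hz2.le
  · push Not at hW
    obtain ⟨g, k, hk, hg', hk'⟩ := plane1 Z0 (h1 Z0 hZ0) y
    refine ⟨Z0, g, k, hk, ?_⟩
    filter_upwards [evt_all S y, evt_neg (Z := k) (y := y) (by rw [hk']; norm_num),
      evt_pos (Z := g) (y := y) (by rw [hg']; norm_num)] with z hz1 hz2 hz4 hz3 ⟨T, hT, hTz⟩
    have hTy : ev T y = 0 := by
      by_contra h0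
      have h4 : 0 < ev T y := lt_of_le_of_ne (hpos T hT) (Ne.symm h0)
      have := hz1 T hT h4
      linarith
    have hTT : T = Z0 := by
      by_contra hcon
      exact hW T hT hcon hTy
    subst hTT
    unfold G3
    rw [hTz, min_eq_left hz4.le]
    exact max_eq_left hz2.le

/-! ### minima of planes -/

variable {ι ι' : Type}

theorem mn_le {X : Finset ι} (B : ι → Aff) (y : E3) {n : ι} (hn : n ∈ X) :
    mn X B y ≤ ev (B n) y := by
  unfold mn
  rw [dif_pos ⟨n, hn⟩]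
  exact Finset.inf'_le (fun n => ev (B n) y) hn

theorem mn_att {X : Finset ι} (hX : X.Nonempty) (B : ι → Aff) (y : E3) :
    ∃ n ∈ X, mn X B y = ev (B n) y := by
  unfold mn
  rw [dif_pos hX]
  exact Finset.exists_mem_eq_inf' hX (fun n => ev (B n) y)

theorem evt_allB (X : Finset ι) (B : ι → Aff) (y : E3) :
    ∀ᶠ z in 𝓝 y, ∀ n ∈ X, 0 < ev (B n) y → 0 < ev (B n) z := by
  rw [Filter.eventually_all_finset]
  intro n _
  by_cases h : 0 < ev (B n) y
  · exact (evt_pos h).mono fun z hz _ => hz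
  · exact Filter.Eventually.of_forall fun z h' => absurd h' h

/-- near `y` a nonpositive minimum is attained by an active plane -/
theorem mn_act {X : Finset ι} (hX : X.Nonempty) (B : ι → Aff) (y : E3)
    (hpos : ∀ n ∈ X, 0 ≤ ev (B n) y) {n0 m0 : ι} (hn0 : n0 ∈ X) (hm0 : m0 ∈ X)
    (hact : ∀ n ∈ X, ev (B n) y = 0 → n = n0 ∨ n = m0) :
    ∀ᶠ z in 𝓝 y, mn X B z ≤ 0 → min (ev (B n0) z) (ev (B m0) z) = mn X B z := by
  filter_upwards [evt_allB X B y] with z hz hz0
  apply le_antisymm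
  · obtain ⟨n, hn, hnz⟩ := mn_att hX B z
    have hny : ev (B n) y = 0 := by
      by_contra h0
      have := hz n hn (lt_of_le_of_ne (hpos n hn) (Ne.symm h0))
      rw [hnz] at hz0
      linarith
    rw [hnz]
    rcases hact n hn hny with rfl | rfl
    · exact min_le_left _ _
    · exact min_le_right _ _
  · exact le_min (mn_le B z hn0) (mn_le B z hm0)

/-! ### the combinatorial part -/

/-- the conditions at `y` coming from one end of the edge -/
structure Side (A A' : Aff) (X : Finset ι) (B : ι → Aff) (y : E3) : Prop where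
  n1 : A.1 ≠ 0
  n1' : A'.1 ≠ 0
  nB : ∀ n ∈ X, (B n).1 ≠ 0
  pA : ∀ n ∈ X, crs A.1 (B n).1 ≠ 0
  pA' : ∀ n ∈ X, crs A'.1 (B n).1 ≠ 0
  pB : ∀ n ∈ X, ∀ m ∈ X, n ≠ m → crs (B n).1 (B m).1 ≠ 0
  aa : ev A y = 0 → ev A' y = 0 → ∀ n ∈ X, ev (B n) y < 0
  tA : ∀ n ∈ X, ∀ m ∈ X, n ≠ m → ev A y = 0 → ev (B n) y = 0 → ev (B m) y = 0 → False
  tA' : ∀ n ∈ X, ∀ m ∈ X, n ≠ m → ev A' y = 0 → ev (B n) y = 0 → ev (B m) y = 0 → False
  tB : ∀ n ∈ X, ∀ m ∈ X, ∀ k ∈ X, n ≠ m → n ≠ k → m ≠ k → ev (B n) y = 0 → ev (B m) y = 0 →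
    ev (B k) y = 0 → False

theorem crs_ne_symm {u v : E3} (h : crs u v ≠ 0) : crs v u ≠ 0 := by
  rw [crs_anti]
  exact fun h0 => h (neg_eq_zero.1 h0)

/-- one end dominates -/
theorem comb_one {A A' : Aff} {X : Finset ι} {B : ι → Aff} {X' : Finset ι'} {B' : ι' → Aff}
    {y : E3} (hX : X.Nonempty) (hX' : X'.Nonempty) (S : Side A A' X B y)
    (hA : 0 ≤ ev A y) (hA' : 0 ≤ ev A' y) (naa : ¬ (ev A y = 0 ∧ ev A' y = 0))
    (h0 : mn X B y = 0) (h0' : mn X' B' y < 0) :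
    ∃ f g h : Aff, Indep f g h ∧ ∀ᶠ z in 𝓝 y, FE A A' X B X' B' z = 0 → G3 f g h z = 0 := by
  classical
  set T : Finset Aff := insert A (insert A' (X.image B)) with hT
  have hmemA : A ∈ T := Finset.mem_insert_self _ _
  have hmemA' : A' ∈ T := Finset.mem_insert_of_mem (Finset.mem_insert_self _ _)
  have hmemB : ∀ n ∈ X, B n ∈ T := fun n hn =>
    Finset.mem_insert_of_mem (Finset.mem_insert_of_mem (Finset.mem_image_of_mem B hn))
  have hcases : ∀ Z ∈ T, Z = A ∨ Z = A' ∨ ∃ n ∈ X, Z = B n := by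
    intro Z hZ
    rcases Finset.mem_insert.1 hZ with h | h
    · exact Or.inl h
    · rcases Finset.mem_insert.1 h with h | h
      · exact Or.inr (Or.inl h)
      · obtain ⟨n, hn, h⟩ := Finset.mem_image.1 h
        exact Or.inr (Or.inr ⟨n, hn, h.symm⟩)
  have hposB : ∀ n ∈ X, 0 ≤ ev (B n) y := fun n hn => h0 ▸ mn_le B y hn
  obtain ⟨n0, hn0, hn0y⟩ := mn_att hX B y
  rw [h0] at hn0y
  have hE := germ_min T y ⟨B n0, hmemB n0 hn0, hn0y.symm⟩ ?_ ?_ ?_ ?_
  · obtain ⟨f, g, h, hI, hev⟩ := hE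
    refine ⟨f, g, h, hI, ?_⟩
    obtain ⟨m0, hm0, hm0y⟩ := mn_att hX' B' y
    rw [hm0y] at h0'
    filter_upwards [hev, evt_neg h0'] with z hz1 hz2 hFE
    have hm' : mn X' B' z < 0 := lt_of_le_of_lt (mn_le B' z hm0) hz2
    unfold FE at hFE
    have hle1 : 0 ≤ min (ev A z) (ev A' z) := hFE ▸ min_le_left _ _
    have hle2 : 0 ≤ max (mn X B z) (mn X' B' z) := hFE ▸ min_le_right _ _
    have hmx : 0 ≤ mn X B z := by
      rcases le_max_iff.1 hle2 with h | h
      · exact h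
      · linarith
    have hmax : max (mn X B z) (mn X' B' z) = mn X B z := max_eq_left (by linarith)
    rw [hmax] at hFE
    apply hz1
    · intro Z hZ
      rcases hcases Z hZ with rfl | rfl | ⟨n, hn, rfl⟩
      · exact hle1.trans (min_le_left _ _)
      · exact hle1.trans (min_le_right _ _)
      · exact hmx.trans (mn_le B z hn)
    · rcases min_choice (min (ev A z) (ev A' z)) (mn X B z) with h | h
      · rw [h] at hFE
        rcases min_choice (ev A z) (ev A' z) with h' | h'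
        · exact ⟨A, hmemA, by rw [← h', hFE]⟩
        · exact ⟨A', hmemA', by rw [← h', hFE]⟩
      · rw [h] at hFE
        obtain ⟨n, hn, hnz⟩ := mn_att hX B z
        exact ⟨B n, hmemB n hn, by rw [← hnz, hFE]⟩
  · intro Z hZ
    rcases hcases Z hZ with rfl | rfl | ⟨n, hn, rfl⟩
    · exact hA
    · exact hA'
    · exact hposB n hn
  · intro Z hZ
    rcases hcases Z hZ with rfl | rfl | ⟨n, hn, rfl⟩
    · exact S.n1
    · exact S.n1'
    · exact S.nB n hn
  · intro Z hZ W hW hne hZy hWy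
    rcases hcases Z hZ with rfl | rfl | ⟨n, hn, rfl⟩
    · rcases hcases W hW with rfl | rfl | ⟨m, hm, rfl⟩
      · exact absurd rfl hne
      · exact absurd ⟨hZy, hWy⟩ naa
      · exact S.pA m hm
    · rcases hcases W hW with rfl | rfl | ⟨m, hm, rfl⟩
      · exact absurd ⟨hWy, hZy⟩ naa
      · exact absurd rfl hne
      · exact S.pA' m hm
    · rcases hcases W hW with rfl | rfl | ⟨m, hm, rfl⟩
      · exact crs_ne_symm (S.pA n hn)
      · exact crs_ne_symm (S.pA' n hn)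
      · exact S.pB n hn m hm fun h => hne (by rw [h])
  · -- three active planes
    have key : ∀ Z ∈ T, ∀ W ∈ T, ∀ m ∈ X, Z ≠ W → Z ≠ B m → W ≠ B m → ev Z y = 0 → ev W y = 0 →
        ev (B m) y = 0 → False := by
      intro Z hZ W hW m hm hne h1 h2 hZy hWy hmy
      rcases hcases Z hZ with rfl | rfl | ⟨n, hn, rfl⟩
      · rcases hcases W hW with rfl | rfl | ⟨k, hk, rfl⟩
        · exact hne rfl
        · exact naa ⟨hZy, hWy⟩
        · exact S.tA k hk m hm (fun h => h2 (by rw [h])) hZy hWy hmy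
      · rcases hcases W hW with rfl | rfl | ⟨k, hk, rfl⟩
        · exact naa ⟨hWy, hZy⟩
        · exact hne rfl
        · exact S.tA' k hk m hm (fun h => h2 (by rw [h])) hZy hWy hmy
      · rcases hcases W hW with rfl | rfl | ⟨k, hk, rfl⟩
        · exact S.tA n hn m hm (fun h => h1 (by rw [h])) hWy hZy hmy
        · exact S.tA' n hn m hm (fun h => h1 (by rw [h])) hWy hZy hmy
        · exact S.tB n hn k hk m hm (fun h => hne (by rw [h])) (fun h => h1 (by rw [h]))
            (fun h => h2 (by rw [h])) hZy hWy hmy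
    intro Z hZ W hW U hU hZW hZU hWU hZy hWy hUy
    rcases hcases U hU with rfl | rfl | ⟨m, hm, rfl⟩
    · rcases hcases W hW with rfl | rfl | ⟨m, hm, rfl⟩
      · exact hWU rfl
      · exact naa ⟨hUy, hWy⟩
      · exact key Z hZ _ hU m hm hZU hZW hWU.symm hZy hUy hWy
    · rcases hcases W hW with rfl | rfl | ⟨m, hm, rfl⟩
      · exact naa ⟨hWy, hUy⟩
      · exact hWU rfl
      · exact key Z hZ _ hU m hm hZU hZW hWU.symm hZy hUy hWy
    · exact key Z hZ W hW m hm hZW hZU hWU hZy hWy hUy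

theorem FE_swap (A A' : Aff) (X : Finset ι) (B : ι → Aff) (X' : Finset ι') (B' : ι' → Aff)
    (y : E3) : FE A A' X' B' X B y = FE A A' X B X' B' y := by
  unfold FE
  rw [max_comm]

/-- both ends, one of the two faces is active -/
theorem comb_A {A A' : Aff} {X : Finset ι} {B : ι → Aff} {X' : Finset ι'} {B' : ι' → Aff}
    {y : E3} (hX : X.Nonempty) (hX' : X'.Nonempty) {n0 : ι} {n0' : ι'} (hn0 : n0 ∈ X)
    (hn0' : n0' ∈ X') (hpos : ∀ n ∈ X, 0 ≤ ev (B n) y) (hpos' : ∀ n ∈ X', 0 ≤ ev (B' n) y)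
    (hact : ∀ n ∈ X, ev (B n) y = 0 → n = n0) (hact' : ∀ n ∈ X', ev (B' n) y = 0 → n = n0')
    (hd : det3 A.1 (B n0).1 (B' n0').1 ≠ 0) (hA' : 0 < ev A' y) :
    ∃ f g h : Aff, Indep f g h ∧ ∀ᶠ z in 𝓝 y, FE A A' X B X' B' z = 0 → G3 f g h z = 0 := by
  refine ⟨-(B n0), -(B' n0'), -A, indep_of_det _ _ _ ?_, ?_⟩
  · intro h0
    apply hd
    have : det3 (-(B n0)).1 (-(B' n0')).1 (-A).1 = -det3 A.1 (B n0).1 (B' n0').1 := by
      simp only [det3, Prod.fst_neg, PiLp.neg_apply]; ring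
    rw [this] at h0
    linarith
  · filter_upwards [evt_pos hA', mn_act hX B y hpos hn0 hn0 (fun n hn h => Or.inl (hact n hn h)),
      mn_act hX' B' y hpos' hn0' hn0' (fun n hn h => Or.inl (hact' n hn h))] with z hz1 hz2 hz3 hFE
    rw [min_self] at hz2 hz3
    unfold FE at hFE
    have hle1 : 0 ≤ min (ev A z) (ev A' z) := hFE ▸ min_le_left _ _
    have hle2 : 0 ≤ max (mn X B z) (mn X' B' z) := hFE ▸ min_le_right _ _
    have hAz : 0 ≤ ev A z := hle1.trans (min_le_left _ _)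
    have hB : 0 ≤ max (ev (B n0) z) (ev (B' n0') z) :=
      hle2.trans (max_le_max (mn_le B z hn0) (mn_le B' z hn0'))
    have hmin : min (ev A z) (max (ev (B n0) z) (ev (B' n0') z)) = 0 := by
      apply le_antisymm _ (le_min hAz hB)
      rcases eq_or_lt_of_le hAz with h | h
      · exact (min_le_left _ _).trans h.symm.le
      · have hpm : 0 < min (ev A z) (ev A' z) := lt_min h hz1
        have hM : max (mn X B z) (mn X' B' z) = 0 := by
          rcases min_choice (min (ev A z) (ev A' z)) (max (mn X B z) (mn X' B' z)) with h' | h'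
          · rw [h'] at hFE; linarith
          · rw [h'] at hFE; exact hFE
        have e1 := hz2 (hM ▸ le_max_left _ _)
        have e2 := hz3 (hM ▸ le_max_right _ _)
        rw [e1, e2, hM]
        exact min_le_right _ _
    unfold G3
    rw [ev_neg, ev_neg, ev_neg]
    have h5 : min (-ev (B n0) z) (-ev (B' n0') z) = -max (ev (B n0) z) (ev (B' n0') z) :=
      min_neg_neg _ _
    rw [h5, max_neg_neg, min_comm, hmin, neg_zero]

/-- both ends, no face is active -/
theorem comb_B {A A' : Aff} {X : Finset ι} {B : ι → Aff} {X' : Finset ι'} {B' : ι' → Aff}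
    {y : E3} (hX : X.Nonempty) (hX' : X'.Nonempty) {n0 m0 : ι} {n0' : ι'} (hn0 : n0 ∈ X)
    (hm0 : m0 ∈ X) (hn0' : n0' ∈ X') (hpos : ∀ n ∈ X, 0 ≤ ev (B n) y)
    (hpos' : ∀ n ∈ X', 0 ≤ ev (B' n) y)
    (hact : ∀ n ∈ X, ev (B n) y = 0 → n = n0 ∨ n = m0)
    (hact' : ∀ n ∈ X', ev (B' n) y = 0 → n = n0')
    (hd : n0 ≠ m0 → det3 (B n0).1 (B m0).1 (B' n0').1 ≠ 0)
    (hd1 : det3 A.1 (B n0).1 (B' n0').1 ≠ 0) (hA : 0 < ev A y) (hA' : 0 < ev A' y) :
    ∃ f g h : Aff, Indep f g h ∧ ∀ᶠ z in 𝓝 y, FE A A' X B X' B' z = 0 → G3 f g h z = 0 := by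
  have hM : ∀ᶠ z in 𝓝 y, FE A A' X B X' B' z = 0 →
      max (min (ev (B n0) z) (ev (B m0) z)) (ev (B' n0') z) = 0 ∧ ev (B' n0') z ≤ 0 ∧
      min (ev (B n0) z) (ev (B m0) z) ≤ 0 := by
    filter_upwards [evt_pos hA, evt_pos hA', mn_act hX B y hpos hn0 hm0 hact,
      mn_act hX' B' y hpos' hn0' hn0' (fun n hn h => Or.inl (hact' n hn h))]
      with z hz0 hz1 hz2 hz3 hFE
    rw [min_self] at hz3
    unfold FE at hFE
    have hpm : 0 < min (ev A z) (ev A' z) := lt_min hz0 hz1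
    have hM : max (mn X B z) (mn X' B' z) = 0 := by
      rcases min_choice (min (ev A z) (ev A' z)) (max (mn X B z) (mn X' B' z)) with h' | h'
      · rw [h'] at hFE; linarith
      · rw [h'] at hFE; exact hFE
    have e1 := hz2 (hM ▸ le_max_left _ _)
    have e2 := hz3 (hM ▸ le_max_right _ _)
    refine ⟨by rw [e1, e2, hM], ?_, ?_⟩
    · rw [e2]; exact hM ▸ le_max_right _ _
    · rw [e1]; exact hM ▸ le_max_left _ _
  by_cases hne : n0 = m0
  · subst hne
    refine ⟨B n0, (A.1, inner ℝ A.1 y - 1), B' n0', indep_of_det _ _ _ ?_, ?_⟩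
    · change det3 (B n0).1 A.1 (B' n0').1 ≠ 0
      rw [Pool.Agent.TSC.det3_swap]
      exact neg_ne_zero.2 hd1
    · filter_upwards [hM, evt_pos (Z := (A.1, inner ℝ A.1 y - 1)) (y := y)
        (by rw [ev_mk]; norm_num)] with z hz1 hz2 hFE
      obtain ⟨h1, h2, h3⟩ := hz1 hFE
      rw [min_self] at h1 h3
      unfold G3
      rw [min_eq_left (h3.trans hz2.le), h1]
  · refine ⟨B n0, B m0, B' n0', indep_of_det _ _ _ (hd hne), ?_⟩
    filter_upwards [hM] with z hz1 hFE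
    exact (hz1 hFE).1

theorem comb {A A' : Aff} {X : Finset ι} {B : ι → Aff} {X' : Finset ι'} {B' : ι' → Aff}
    {y : E3} (hX : X.Nonempty) (hX' : X'.Nonempty) (S : Side A A' X B y)
    (S' : Side A A' X' B' y) (hG : EGen A A' X B X' B') (hFE : FE A A' X B X' B' y = 0) :
    ∃ f g h : Aff, Indep f g h ∧ ∀ᶠ z in 𝓝 y, FE A A' X B X' B' z = 0 → G3 f g h z = 0 := by
  classical
  have hF := hFE
  unfold FE at hF
  have hle1 : 0 ≤ min (ev A y) (ev A' y) := hF ▸ min_le_left _ _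
  have hle2 : 0 ≤ max (mn X B y) (mn X' B' y) := hF ▸ min_le_right _ _
  have hA : 0 ≤ ev A y := hle1.trans (min_le_left _ _)
  have hA' : 0 ≤ ev A' y := hle1.trans (min_le_right _ _)
  obtain ⟨n0, hn0, hn0y⟩ := mn_att hX B y
  obtain ⟨n0', hn0', hn0y'⟩ := mn_att hX' B' y
  have naa : ¬ (ev A y = 0 ∧ ev A' y = 0) := by
    rintro ⟨h1, h2⟩
    have h3 := S.aa h1 h2 n0 hn0
    have h4 := S'.aa h1 h2 n0' hn0'
    rw [← hn0y] at h3
    rw [← hn0y'] at h4
    exact absurd hle2 (not_le.2 (max_lt h3 h4))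
  rcases eq_or_lt_of_le hle2 with hM | hM
  · -- the maximum vanishes
    have hP : mn X B y ≤ 0 := hM ▸ le_max_left _ _
    have hP' : mn X' B' y ≤ 0 := hM ▸ le_max_right _ _
    rcases eq_or_lt_of_le hP with h1 | h1
    · rcases eq_or_lt_of_le hP' with h2 | h2
      · -- both ends
        rw [h1] at hn0y
        rw [h2] at hn0y'
        have hpos : ∀ n ∈ X, 0 ≤ ev (B n) y := fun n hn => h1 ▸ mn_le B y hn
        have hpos' : ∀ n ∈ X', 0 ≤ ev (B' n) y := fun n hn => h2 ▸ mn_le B' y hn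
        by_cases hAy : ev A y = 0
        · have hA'p : 0 < ev A' y := lt_of_le_of_ne hA' fun h => naa ⟨hAy, h.symm⟩
          refine comb_A hX hX' hn0 hn0' hpos hpos' ?_ ?_ (hG.t1 n0 hn0 n0' hn0').1 hA'p
          · intro n hn hny
            by_contra hne
            exact S.tA n hn n0 hn0 hne hAy hny hn0y.symm
          · intro n hn hny
            by_contra hne
            exact S'.tA n hn n0' hn0' hne hAy hny hn0y'.symm
        · have hAp : 0 < ev A y := lt_of_le_of_ne hA (Ne.symm hAy)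
          by_cases hAy' : ev A' y = 0
          · obtain ⟨f, g, h, hI, hev⟩ := comb_A (A := A') (A' := A) hX hX' hn0 hn0' hpos hpos'
              (by
                intro n hn hny
                by_contra hne
                exact S.tA' n hn n0 hn0 hne hAy' hny hn0y.symm)
              (by
                intro n hn hny
                by_contra hne
                exact S'.tA' n hn n0' hn0' hne hAy' hny hn0y'.symm)
              (hG.t1 n0 hn0 n0' hn0').2 hAp
            refine ⟨f, g, h, hI, hev.mono fun z hz hz' => hz ?_⟩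
            unfold FE at hz' ⊢
            rw [min_comm (ev A' z)]
            exact hz'
          · have hAp' : 0 < ev A' y := lt_of_le_of_ne hA' (Ne.symm hAy')
            by_cases h2X : ∃ m ∈ X, m ≠ n0 ∧ ev (B m) y = 0
            · obtain ⟨m0, hm0, hmn, hm0y⟩ := h2X
              refine comb_B hX hX' hn0 hm0 hn0' hpos hpos' ?_ ?_
                (fun h => hG.t2 n0 hn0 m0 hm0 h n0' hn0') (hG.t1 n0 hn0 n0' hn0').1 hAp hAp'
              · intro n hn hny
                by_contra hcon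
                push Not at hcon
                exact S.tB n hn n0 hn0 m0 hm0 hcon.1 hcon.2 hmn.symm hny hn0y.symm hm0y
              · intro n hn hny
                by_contra hcon
                exact hG.q3 n0 hn0 m0 hm0 hmn.symm n hn n0' hn0' hcon y hn0y.symm hm0y hny
                  hn0y'.symm
            · push Not at h2X
              by_cases h2X' : ∃ m ∈ X', m ≠ n0' ∧ ev (B' m) y = 0
              · obtain ⟨m0, hm0, hmn, hm0y⟩ := h2X'
                obtain ⟨f, g, h, hI, hev⟩ := comb_B (A := A) (A' := A') hX' hX hn0' hm0 hn0 hpos'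
                  hpos
                  (by
                    intro n hn hny
                    by_contra hcon
                    push Not at hcon
                    exact S'.tB n hn n0' hn0' m0 hm0 hcon.1 hcon.2 hmn.symm hny hn0y'.symm hm0y)
                  (by
                    intro n hn hny
                    by_contra hcon
                    exact h2X n hn hcon hny)
                  (fun h => by
                    have h5 := hG.t3 n0 hn0 n0' hn0' m0 hm0 h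
                    rw [Pool.Agent.TSC.det3_rot] at h5
                    exact h5)
                  (by
                    have h5 := (hG.t1 n0 hn0 n0' hn0').1
                    rw [Pool.Agent.TSC.det3_swap'] at h5
                    exact neg_ne_zero.1 h5) hAp hAp'
                exact ⟨f, g, h, hI, hev.mono fun z hz hz' => hz (by rw [FE_swap]; exact hz')⟩
              · push Not at h2X'
                refine comb_B hX hX' hn0 hn0 hn0' hpos hpos' ?_ ?_
                  (fun h => absurd rfl h) (hG.t1 n0 hn0 n0' hn0').1 hAp hAp'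
                · intro n hn hny
                  by_contra hcon
                  push Not at hcon
                  exact h2X n hn hcon.1 hny
                · intro n hn hny
                  by_contra hcon
                  exact h2X' n hn hcon hny
      · exact comb_one hX hX' S hA hA' naa h1 h2
    · have h2 : mn X' B' y = 0 := by
        rcases max_choice (mn X B y) (mn X' B' y) with h | h
        · rw [h] at hM; linarith
        · rw [h] at hM; exact hM.symm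
      obtain ⟨f, g, h, hI, hev⟩ := comb_one (A := A) (A' := A') hX' hX S' hA hA' naa h2 h1
      exact ⟨f, g, h, hI, hev.mono fun z hz hz' => hz (by rw [FE_swap]; exact hz')⟩
  · -- the maximum is positive
    have hmin : min (ev A y) (ev A' y) = 0 := by
      rcases min_choice (min (ev A y) (ev A' y)) (max (mn X B y) (mn X' B' y)) with h | h
      · rw [h] at hF; exact hF
      · rw [h] at hF; linarith
    have hev : ∀ᶠ z in 𝓝 y, 0 < max (mn X B z) (mn X' B' z) := by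
      rcases lt_max_iff.1 hM with h | h
      · filter_upwards [evt_allB X B y] with z hz
        obtain ⟨n, hn, hnz⟩ := mn_att hX B z
        rw [lt_max_iff, hnz]
        exact Or.inl (hz n hn (lt_of_lt_of_le h (mn_le B y hn)))
      · filter_upwards [evt_allB X' B' y] with z hz
        obtain ⟨n, hn, hnz⟩ := mn_att hX' B' z
        rw [lt_max_iff, hnz]
        exact Or.inr (hz n hn (lt_of_lt_of_le h (mn_le B' y hn)))
    have hE := germ_min {A, A'} y ?_ ?_ ?_ ?_ ?_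
    · obtain ⟨f, g, h, hI, hev2⟩ := hE
      refine ⟨f, g, h, hI, ?_⟩
      filter_upwards [hev, hev2] with z hz1 hz2 hz3
      unfold FE at hz3
      have hm : min (ev A z) (ev A' z) = 0 := by
        rcases min_choice (min (ev A z) (ev A' z)) (max (mn X B z) (mn X' B' z)) with h | h
        · rw [h] at hz3; exact hz3
        · rw [h] at hz3; linarith
      apply hz2
      · intro Z hZ
        rcases Finset.mem_insert.1 hZ with rfl | hZ
        · exact hm ▸ min_le_left _ _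
        · rw [Finset.mem_singleton.1 hZ]
          exact hm ▸ min_le_right _ _
      · rcases min_choice (ev A z) (ev A' z) with h' | h'
        · exact ⟨A, Finset.mem_insert_self _ _, by rw [← h', hm]⟩
        · exact ⟨A', Finset.mem_insert_of_mem (Finset.mem_singleton_self _), by rw [← h', hm]⟩
    · rcases min_choice (ev A y) (ev A' y) with h' | h'
      · exact ⟨A, Finset.mem_insert_self _ _, by rw [← h', hmin]⟩
      · exact ⟨A', Finset.mem_insert_of_mem (Finset.mem_singleton_self _), by rw [← h', hmin]⟩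
    · intro Z hZ
      rcases Finset.mem_insert.1 hZ with rfl | hZ
      · exact hA
      · rw [Finset.mem_singleton.1 hZ]; exact hA'
    · intro Z hZ
      rcases Finset.mem_insert.1 hZ with rfl | hZ
      · exact S.n1
      · rw [Finset.mem_singleton.1 hZ]; exact S.n1'
    · intro Z hZ W hW hne hZy hWy
      exfalso
      have c1 : Z = A ∨ Z = A' := by simpa using hZ
      have c2 : W = A ∨ W = A' := by simpa using hW
      rcases c1 with c1 | c1 <;> rcases c2 with c2 | c2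
      · exact hne (c1.trans c2.symm)
      · exact naa ⟨c1 ▸ hZy, c2 ▸ hWy⟩
      · exact naa ⟨c2 ▸ hWy, c1 ▸ hZy⟩
      · exact hne (c1.trans c2.symm)
    · intro Z hZ W hW U hU h1 h2 h3 hZy hWy hUy
      have c1 : Z = A ∨ Z = A' := by simpa using hZ
      have c2 : W = A ∨ W = A' := by simpa using hW
      rcases c1 with c1 | c1 <;> rcases c2 with c2 | c2
      · exact h1 (c1.trans c2.symm)
      · exact naa ⟨c1 ▸ hZy, c2 ▸ hWy⟩
      · exact naa ⟨c2 ▸ hWy, c1 ▸ hZy⟩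
      · exact h1 (c1.trans c2.symm)

/-! ### estimates -/

theorem fin_min {κ : Type} (J : Finset κ) (P : κ → ℝ → Prop)
    (mono : ∀ i η η', η' ≤ η → P i η → P i η') (h : ∀ i ∈ J, ∃ η, 0 < η ∧ P i η) :
    ∃ η, 0 < η ∧ ∀ i ∈ J, P i η := by
  classical
  induction J using Finset.induction_on with
  | empty => exact ⟨1, one_pos, by simp⟩
  | insert a s ha ih =>
    obtain ⟨η1, h1, h2⟩ := ih fun i hi => h i (Finset.mem_insert_of_mem hi)
    obtain ⟨η2, h3, h4⟩ := h a (Finset.mem_insert_self a s)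
    refine ⟨min η1 η2, lt_min h1 h3, fun i hi => ?_⟩
    rcases Finset.mem_insert.1 hi with rfl | hi
    · exact mono _ _ _ (min_le_right _ _) h4
    · exact mono _ _ _ (min_le_left _ _) (h2 i hi)

/-- the common zero of three independent planes near `a` is near `a` -/
theorem tri (M1 M2 M3 a : E3) (hd : det3 M1 M2 M3 ≠ 0) (r : ℝ) (hr : 0 < r) :
    ∃ η₀ : ℝ, 0 < η₀ ∧ ∀ η : ℝ, 0 < η → η < η₀ → ∀ Z1 Z2 Z3 : Aff, NearP a M1 η Z1 →
      NearP a M2 η Z2 → NearP a M3 η Z3 → ∀ y : E3, ev Z1 y = 0 → ev Z2 y = 0 → ev Z3 y = 0 →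
      ‖y - a‖ < r := by
  set Q : ℝ := ‖crs M2 M3‖ + ‖crs M3 M1‖ + ‖crs M1 M2‖ with hQ
  set D : ℝ := |det3 M1 M2 M3| with hD
  have hD0 : 0 < D := abs_pos.2 hd
  have hQ0 : 0 ≤ Q := by positivity
  refine ⟨min (D / (2 * (Q + 1))) (D * r / (2 * (Q + 1))), lt_min (by positivity) (by positivity),
    ?_⟩
  intro η hη hη0 Z1 Z2 Z3 h1 h2 h3 y z1 z2 z3
  have e1 : η * (2 * (Q + 1)) < D := by
    have := lt_of_lt_of_le hη0 (min_le_left _ _)
    rwa [lt_div_iff₀ (by positivity)] at this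
  have e2 : η * (2 * (Q + 1)) < D * r := by
    have := lt_of_lt_of_le hη0 (min_le_right _ _)
    rwa [lt_div_iff₀ (by positivity)] at this
  set v : E3 := y - a with hv
  have key : ∀ (M : E3) (Z : Aff), NearP a M η Z → ev Z y = 0 →
      |(inner ℝ M v : ℝ)| ≤ η * (1 + ‖v‖) := by
    intro M Z hZ hz
    rw [ev_sub Z a y, ← hv] at hz
    have h4 : (inner ℝ M v : ℝ) = -(ev Z a) - inner ℝ (Z.1 - M) v := by
      rw [inner_sub_left]; linarith
    rw [h4]
    calc |-(ev Z a) - (inner ℝ (Z.1 - M) v : ℝ)| ≤ |-(ev Z a)| + |(inner ℝ (Z.1 - M) v : ℝ)| :=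
          abs_sub _ _
      _ ≤ η + η * ‖v‖ := by
        rw [abs_neg]
        exact add_le_add hZ.2 ((abs_real_inner_le_norm _ _).trans
          (mul_le_mul_of_nonneg_right hZ.1 (norm_nonneg _)))
      _ = η * (1 + ‖v‖) := by ring
  have cramer : det3 M1 M2 M3 • v = (inner ℝ M1 v : ℝ) • crs M2 M3 +
      (inner ℝ M2 v : ℝ) • crs M3 M1 + (inner ℝ M3 v : ℝ) • crs M1 M2 := by
    rw [inn3, inn3, inn3]
    apply e3ext <;>
      simp only [PiLp.add_apply, PiLp.smul_apply, smul_eq_mul, crs0, crs1, crs2, det3] <;> ring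
  have hn : D * ‖v‖ ≤ η * (1 + ‖v‖) * Q := by
    have h5 : D * ‖v‖ = ‖det3 M1 M2 M3 • v‖ := by rw [norm_smul, Real.norm_eq_abs]
    rw [h5, cramer]
    refine (norm_add₃_le).trans ?_
    rw [norm_smul, norm_smul, norm_smul, Real.norm_eq_abs, Real.norm_eq_abs, Real.norm_eq_abs]
    have a1 := mul_le_mul_of_nonneg_right (key M1 Z1 h1 z1) (norm_nonneg (crs M2 M3))
    have a2 := mul_le_mul_of_nonneg_right (key M2 Z2 h2 z2) (norm_nonneg (crs M3 M1))
    have a3 := mul_le_mul_of_nonneg_right (key M3 Z3 h3 z3) (norm_nonneg (crs M1 M2))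
    calc _ ≤ η * (1 + ‖v‖) * ‖crs M2 M3‖ + η * (1 + ‖v‖) * ‖crs M3 M1‖ +
          η * (1 + ‖v‖) * ‖crs M1 M2‖ := by linarith
      _ = η * (1 + ‖v‖) * Q := by rw [hQ]; ring
  by_contra hcon
  push Not at hcon
  have hv0 := norm_nonneg v
  -- D ‖v‖ ≤ η Q + η Q ‖v‖ < D r / 2 + D ‖v‖ / 2
  have f1 : η * Q ≤ η * (Q + 1) := by nlinarith
  have f2 : η * Q * ‖v‖ ≤ D / 2 * ‖v‖ := by
    apply mul_le_mul_of_nonneg_right _ hv0
    linarith
  have f3 : D * r ≤ D * ‖v‖ := mul_le_mul_of_nonneg_left hcon hD0.le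
  nlinarith

/-- independence of two normals is stable -/
theorem pairc (M1 M2 : E3) (h : crs M1 M2 ≠ 0) :
    ∃ η₀ : ℝ, 0 < η₀ ∧ ∀ η : ℝ, 0 < η → η < η₀ → ∀ u v : E3, ‖u - M1‖ ≤ η → ‖v - M2‖ ≤ η →
      crs u v ≠ 0 := by
  set w : E3 := crs M1 M2 with hw
  have hc : Continuous fun q : E3 × E3 => det3 q.1 q.2 w := by
    unfold det3
    fun_prop
  have h0 : det3 M1 M2 w ≠ 0 := by
    rw [← inner_crs, ← hw]
    exact fun h0 => h (inner_self_eq_zero.1 h0)
  have hev := hc.continuousAt (x := ((M1, M2) : E3 × E3)) |>.eventually (isOpen_ne.mem_nhds h0)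
  rw [Metric.eventually_nhds_iff] at hev
  obtain ⟨η₀, hη₀, hE⟩ := hev
  refine ⟨η₀, hη₀, fun η hη hlt u v hu hv => ?_⟩
  have h1 := hE (y := ((u, v) : E3 × E3)) (by
    rw [Prod.dist_eq, max_lt_iff, dist_eq_norm, dist_eq_norm]
    exact ⟨lt_of_le_of_lt hu hlt, lt_of_le_of_lt hv hlt⟩)
  intro h2
  apply h1
  change det3 u v w = 0
  rw [← inner_crs, h2, inner_zero_left]

section edge

variable {a a' b b' ν ν' : E3} {c C : ℝ}

theorem EGeo_symm (h : EGeo a a' b b' ν ν' c C) : EGeo a' a b b' ν ν' c C := by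
  have h1 : a - a' = -(a' - a) := by abel
  have h2 : b - a' = (b - a) - (a' - a) := by abel
  have h3 : b' - a' = (b' - a) - (a' - a) := by abel
  have he : eV a' a b b' = eV a a' b b' := by unfold eV; abel
  constructor
  · rw [h1, h2, h3]
    have : det3 (-(a' - a)) ((b - a) - (a' - a)) ((b' - a) - (a' - a)) =
        -det3 (a' - a) (b - a) (b' - a) := by
      simp only [det3, PiLp.neg_apply, PiLp.sub_apply]; ring
    rw [this]
    exact neg_ne_zero.2 h.ind
  · rw [h1, inner_neg_right, h.ka, neg_zero]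
  · rw [h2, inner_sub_right, h.kb, h.ka, sub_zero]
  · rw [h3, inner_sub_right, h.ka, sub_zero]; exact h.kb'
  · rw [h1, inner_neg_right, h.la, neg_zero]
  · rw [h3, inner_sub_right, h.lb', h.la, sub_zero]
  · rw [h2, inner_sub_right, h.la, sub_zero]; exact h.lb
  · exact h.c0
  · rw [he]; exact h.ck
  · rw [he]; exact h.cl
  · exact h.nk
  · exact h.nl

theorem y_sub (a a' b b' : E3) (l m s : ℝ) :
    a + l • (a' - a) + m • (b - a) - s • eV a a' b b' - a =
      (l + s) • (a' - a) + (m - s) • (b - a) + (-s) • (b' - a) := by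
  unfold eV
  module

/-- distance from the end point -/
theorem dist_a (h : EGeo a a' b b' ν ν' c C) (ρ : ℝ) (hρ : 0 < ρ) :
    ∃ r : ℝ, 0 < r ∧ ∀ l m s : ℝ, ρ ≤ l → ∀ y : E3,
      y = a + l • (a' - a) + m • (b - a) - s • eV a a' b b' → r ≤ ‖y - a‖ := by
  set u : E3 := a' - a with hu
  set v : E3 := b - a with hv
  set w : E3 := b' - a with hw
  set D : ℝ := det3 u v w with hD
  have hD0 : 0 < |D| := abs_pos.2 h.ind
  set Q : ℝ := ‖crs v w‖ + ‖crs u v‖ with hQ
  have hQ0 : 0 ≤ Q := by positivity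
  refine ⟨ρ * |D| / (Q + 1), by positivity, fun l m s hl y hy => ?_⟩
  have hy' : y - a = (l + s) • u + (m - s) • v + (-s) • w := by
    rw [hy]; exact y_sub a a' b b' l m s
  have e1 : (inner ℝ (crs v w) (y - a) : ℝ) = (l + s) * D := by
    rw [inner_crs, hy', hD]
    simp only [det3, PiLp.add_apply, PiLp.smul_apply, smul_eq_mul]; ring
  have e2 : (inner ℝ (crs u v) (y - a) : ℝ) = (-s) * D := by
    rw [inner_crs, hy', hD]
    simp only [det3, PiLp.add_apply, PiLp.smul_apply, smul_eq_mul]; ring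
  have e3 : l * D = inner ℝ (crs v w) (y - a) + inner ℝ (crs u v) (y - a) := by
    rw [e1, e2]; ring
  have e4 : l * |D| ≤ Q * ‖y - a‖ := by
    have hl0 : 0 ≤ l := hρ.le.trans hl
    have : |l * D| ≤ Q * ‖y - a‖ := by
      rw [e3]
      refine (abs_add_le _ _).trans ?_
      rw [hQ, add_mul]
      exact add_le_add (abs_real_inner_le_norm _ _) (abs_real_inner_le_norm _ _)
    rwa [abs_mul, abs_of_nonneg hl0] at this
  rw [div_le_iff₀ (by positivity)]
  have e5 : ρ * |D| ≤ l * |D| := mul_le_mul_of_nonneg_right hl hD0.le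
  have := norm_nonneg (y - a)
  nlinarith

/-- both faces active: every chamfer is negative -/
theorem both (h : EGeo a a' b b' ν ν' c C) (M : E3) (hM : (inner ℝ M (a' - a) : ℝ) < 0)
    (hMC : ‖M‖ ≤ C) (ρ : ℝ) (hρ : 0 < ρ) :
    ∃ η₀ : ℝ, 0 < η₀ ∧ ∀ η : ℝ, 0 < η → η < η₀ → ∀ A A' Z : Aff, NearP a ν η A →
      NearP a ν' η A' → NearP a M η Z → ∀ l m s : ℝ, ρ ≤ l → 0 ≤ m → l + m ≤ 1 → ∀ y : E3,
      y = a + l • (a' - a) + m • (b - a) - s • eV a a' b b' → ev A y = 0 → ev A' y = 0 →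
      ev Z y < 0 := by
  set u : E3 := a' - a with hu
  set v : E3 := b - a with hv
  set e : E3 := eV a a' b b' with he
  set E : ℝ := ‖e‖ with hE
  have hE0 : 0 ≤ E := norm_nonneg _
  have hc := h.c0
  have hC0 : 0 ≤ C := (norm_nonneg _).trans h.nk
  set L0 : ℝ := ‖u‖ + ‖v‖ with hL0
  have hL00 : 0 ≤ L0 := by positivity
  set K1 : ℝ := 2 * (1 + L0) / c with hK1
  have hK10 : 0 ≤ K1 := by positivity
  set R0 : ℝ := L0 + K1 * E with hR0
  have hR00 : 0 ≤ R0 := by positivity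
  set β : ℝ := inner ℝ ν' v with hβ
  have hβ0 : 0 < β := h.lb
  set K2 : ℝ := K1 * (C * E) + 1 + R0 with hK2
  have hK20 : 0 ≤ K2 := by positivity
  set g : ℝ := -(inner ℝ M u : ℝ) with hg
  have hg0 : 0 < g := by rw [hg]; linarith
  set K3 : ℝ := 1 + R0 + K2 / β * (C * ‖v‖) + K1 * (C * E) with hK3
  have hK30 : 0 < K3 := by positivity
  refine ⟨min 1 (min (c / (2 * (E + 1))) (ρ * g / K3)),
    lt_min one_pos (lt_min (by positivity) (by positivity)), ?_⟩
  intro η hη hη0 A A' Z hA hA' hZ l m s hl hm hlm y hy hAy hA'y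
  have c1 : η < 1 := lt_of_lt_of_le hη0 (min_le_left _ _)
  have c2 : η * (2 * (E + 1)) < c := by
    have := lt_of_lt_of_le hη0 ((min_le_right _ _).trans (min_le_left _ _))
    rwa [lt_div_iff₀ (by positivity)] at this
  have c3 : η * K3 < ρ * g := by
    have := lt_of_lt_of_le hη0 ((min_le_right _ _).trans (min_le_right _ _))
    rwa [lt_div_iff₀ hK30] at this
  have hl0 : 0 ≤ l := hρ.le.trans hl
  have hya : y - a = l • u + m • v - s • e := by rw [hy]; abel
  have hs0 := abs_nonneg s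
  have hR : ‖y - a‖ ≤ L0 + |s| * E := by
    rw [hya]
    calc ‖l • u + m • v - s • e‖ ≤ ‖l • u‖ + ‖m • v‖ + ‖s • e‖ :=
          (norm_sub_le _ _).trans (add_le_add (norm_add_le _ _) le_rfl)
      _ = l * ‖u‖ + m * ‖v‖ + |s| * E := by
        rw [norm_smul, norm_smul, norm_smul, Real.norm_of_nonneg hl0, Real.norm_of_nonneg hm,
          Real.norm_eq_abs]
      _ ≤ L0 + |s| * E := by
        have h1 : l * ‖u‖ ≤ 1 * ‖u‖ := mul_le_mul_of_nonneg_right (by linarith) (norm_nonneg _)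
        have h2 : m * ‖v‖ ≤ 1 * ‖v‖ := mul_le_mul_of_nonneg_right (by linarith) (norm_nonneg _)
        rw [hL0]; linarith
  have key : ∀ (M' : E3) (W : Aff), NearP a M' η W →
      |ev W y - inner ℝ M' (y - a)| ≤ η * (1 + ‖y - a‖) := by
    intro M' W hW
    rw [ev_sub W a y]
    have h4 : ev W a + inner ℝ W.1 (y - a) - inner ℝ M' (y - a) =
        ev W a + inner ℝ (W.1 - M') (y - a) := by
      rw [inner_sub_left]; ring
    rw [h4]
    calc |ev W a + (inner ℝ (W.1 - M') (y - a) : ℝ)| ≤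
          |ev W a| + |(inner ℝ (W.1 - M') (y - a) : ℝ)| := abs_add_le _ _
      _ ≤ η + η * ‖y - a‖ := add_le_add hW.2 ((abs_real_inner_le_norm _ _).trans
          (mul_le_mul_of_nonneg_right hW.1 (norm_nonneg _)))
      _ = η * (1 + ‖y - a‖) := by ring
  have inn : ∀ M' : E3, (inner ℝ M' (y - a) : ℝ) =
      l * inner ℝ M' u + m * inner ℝ M' v - s * inner ℝ M' e := by
    intro M'
    rw [hya, inner_sub_right, inner_add_right, inner_smul_right, inner_smul_right,
      inner_smul_right]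
  -- the bound of s
  have s1 : |s| * c ≤ η * (1 + ‖y - a‖) := by
    have h1 := key ν A hA
    rw [hAy, inn ν, h.ka, h.kb, mul_zero, mul_zero, add_zero, zero_sub, zero_sub, neg_neg,
      abs_mul] at h1
    have h2 : |s| * c ≤ |s| * |(inner ℝ ν e : ℝ)| :=
      mul_le_mul_of_nonneg_left (h.ck.trans (le_abs_self _)) hs0
    linarith
  have s2 : |s| ≤ K1 * η := by
    have h1 : η * (1 + ‖y - a‖) ≤ η * (1 + (L0 + |s| * E)) :=
      mul_le_mul_of_nonneg_left (by linarith) hη.le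
    have h2 : η * E * |s| ≤ c / 2 * |s| := by
      apply mul_le_mul_of_nonneg_right _ hs0
      nlinarith
    have h3 : |s| * c ≤ 2 * (η * (1 + L0)) := by nlinarith
    rw [hK1, div_mul_eq_mul_div, le_div_iff₀ hc]
    linarith
  have r1 : ‖y - a‖ ≤ R0 := by
    have h1 : |s| * E ≤ K1 * 1 * E := by
      apply mul_le_mul_of_nonneg_right _ hE0
      exact s2.trans (mul_le_mul_of_nonneg_left c1.le hK10)
    rw [hR0]; linarith
  have nrm : ∀ M' : E3, ‖M'‖ ≤ C → |s * (inner ℝ M' e : ℝ)| ≤ K1 * (C * E) * η := by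
    intro M' hM'
    rw [abs_mul]
    have h1 : |(inner ℝ M' e : ℝ)| ≤ C * E :=
      (abs_real_inner_le_norm _ _).trans (mul_le_mul_of_nonneg_right hM' hE0)
    calc |s| * |(inner ℝ M' e : ℝ)| ≤ (K1 * η) * (C * E) :=
          mul_le_mul s2 h1 (abs_nonneg _) (by positivity)
      _ = K1 * (C * E) * η := by ring
  have r2 : η * (1 + ‖y - a‖) ≤ η * (1 + R0) := mul_le_mul_of_nonneg_left (by linarith) hη.le
  -- the bound of m
  have m1 : m * β ≤ K2 * η := by
    have h1 := key ν' A' hA'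
    rw [hA'y, inn ν', h.la, mul_zero, zero_add] at h1
    have h2 := (abs_le.1 h1).1
    have h3 := (abs_le.1 (nrm ν' h.nl)).2
    rw [← hβ] at h2
    rw [hK2]
    nlinarith
  have m2 : m ≤ K2 / β * η := by
    rw [div_mul_eq_mul_div, le_div_iff₀ hβ0]
    exact m1
  -- conclusion
  have z1 := (abs_le.1 (key M Z hZ)).2
  have z2 := (abs_le.1 (nrm M hMC)).1
  rw [inn M] at z1
  have z3 : m * (inner ℝ M v : ℝ) ≤ K2 / β * (C * ‖v‖) * η := by
    have h1 : (inner ℝ M v : ℝ) ≤ C * ‖v‖ :=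
      (real_inner_le_norm _ _).trans (mul_le_mul_of_nonneg_right hMC (norm_nonneg _))
    calc m * (inner ℝ M v : ℝ) ≤ m * (C * ‖v‖) := mul_le_mul_of_nonneg_left h1 hm
      _ ≤ (K2 / β * η) * (C * ‖v‖) := mul_le_mul_of_nonneg_right m2 (by positivity)
      _ = K2 / β * (C * ‖v‖) * η := by ring
  have z4 : l * (inner ℝ M u : ℝ) ≤ -(ρ * g) := by
    have h1 : (inner ℝ M u : ℝ) = -g := by rw [hg, neg_neg]
    rw [h1]
    nlinarith
  have z5 : η * K3 = η * (1 + R0) + K2 / β * (C * ‖v‖) * η + K1 * (C * E) * η := by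
    rw [hK3]; ring
  linarith

/-- `P η` holds for all small `η > 0` -/
def Sm (P : ℝ → Prop) : Prop := ∃ η₀ : ℝ, 0 < η₀ ∧ ∀ η : ℝ, 0 < η → η < η₀ → P η

theorem Sm.and {P Q : ℝ → Prop} (h1 : Sm P) (h2 : Sm Q) : Sm fun η => P η ∧ Q η := by
  obtain ⟨a1, ha, h1⟩ := h1
  obtain ⟨a2, hb, h2⟩ := h2
  exact ⟨min a1 a2, lt_min ha hb, fun η hη hlt =>
    ⟨h1 η hη (lt_of_lt_of_le hlt (min_le_left _ _)), h2 η hη (lt_of_lt_of_le hlt (min_le_right _ _))⟩⟩

theorem Sm.mono {P Q : ℝ → Prop} (h1 : Sm P) (h : ∀ η, 0 < η → P η → Q η) : Sm Q := by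
  obtain ⟨a1, ha, h1⟩ := h1
  exact ⟨a1, ha, fun η hη hlt => h η hη (h1 η hη hlt)⟩

theorem Sm.fin {κ : Type} (J : Finset κ) {P : κ → ℝ → Prop} (h : ∀ i ∈ J, Sm (P i)) :
    Sm fun η => ∀ i ∈ J, P i η := by
  obtain ⟨η, hη, H⟩ := fin_min J (fun i η₀ => ∀ η : ℝ, 0 < η → η < η₀ → P i η)
    (fun i η η' hle hh x hx hx' => hh x hx (lt_of_lt_of_le hx' hle)) h
  exact ⟨η, hη, fun x hx hx' i hi => H i hi x hx hx'⟩

theorem Sm.of_true {P : ℝ → Prop} (h : ∀ η, P η) : Sm P := ⟨1, one_pos, fun η _ _ => h η⟩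

theorem crs_ne_of (h : EGeo a a' b b' ν ν' c C) {M μ : E3} (hM : (inner ℝ M (a' - a) : ℝ) < 0)
    (h1 : (inner ℝ μ (a' - a) : ℝ) = 0) (h2 : c ≤ (inner ℝ μ (eV a a' b b') : ℝ)) :
    crs μ M ≠ 0 := by
  intro h0
  have h3 := crs_crs' (a' - a) μ M
  have h4 : crs (a' - a) (0 : E3) = 0 := by
    apply e3ext <;> simp only [PiLp.zero_apply, crs0, crs1, crs2] <;> ring
  rw [h0, h4, real_inner_comm, real_inner_comm μ, h1, zero_smul, sub_zero] at h3
  rcases smul_eq_zero.1 h3.symm with h5 | h5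
  · linarith
  · rw [h5, inner_zero_left] at h2
    linarith [h.c0]

theorem side (h : EGeo a a' b b' ν ν' c C) {ε' : ℝ} {X : Finset ι} {N : ι → E3}
    (H : EHalf a a' b b' ν ν' ε' c C X N) (ρ : ℝ) (hρ : 0 < ρ) :
    Sm fun η => ∀ (A A' : Aff) (B : ι → Aff), NearP a ν η A → NearP a ν' η A' →
      (∀ n ∈ X, NearP a (N n) η (B n)) → ∀ l m s : ℝ, ρ ≤ l → 0 ≤ m → l + m ≤ 1 → ∀ y : E3,
      y = a + l • (a' - a) + m • (b - a) - s • eV a a' b b' → Side A A' X B y := by
  classical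
  obtain ⟨r, hr, hdist⟩ := dist_a h ρ hρ
  -- one chamfer
  have S1 : Sm fun η => ∀ n ∈ X, (∀ (A : Aff) (Z : Aff), NearP a ν η A → NearP a (N n) η Z →
      crs A.1 Z.1 ≠ 0) := by
    refine Sm.fin X fun n hn => ?_
    obtain ⟨η₀, h0, h1⟩ := pairc ν (N n) (crs_ne_of h (H.n1 n hn) h.ka h.ck)
    exact ⟨η₀, h0, fun η hη hlt A Z hA hZ => h1 η hη hlt A.1 Z.1 hA.1 hZ.1⟩
  have S2 : Sm fun η => ∀ n ∈ X, (∀ (A : Aff) (Z : Aff), NearP a ν' η A → NearP a (N n) η Z →
      crs A.1 Z.1 ≠ 0) := by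
    refine Sm.fin X fun n hn => ?_
    obtain ⟨η₀, h0, h1⟩ := pairc ν' (N n) (crs_ne_of h (H.n1 n hn) h.la h.cl)
    exact ⟨η₀, h0, fun η hη hlt A Z hA hZ => h1 η hη hlt A.1 Z.1 hA.1 hZ.1⟩
  have S3 : Sm fun η => ∀ n ∈ X, (∀ A A' Z : Aff, NearP a ν η A →
      NearP a ν' η A' → NearP a (N n) η Z → ∀ l m s : ℝ, ρ ≤ l → 0 ≤ m → l + m ≤ 1 → ∀ y : E3,
      y = a + l • (a' - a) + m • (b - a) - s • eV a a' b b' → ev A y = 0 → ev A' y = 0 →
      ev Z y < 0) := by
    refine Sm.fin X fun n hn => ?_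
    exact both h (N n) (H.n1 n hn) (H.n3 n hn).2 ρ hρ
  -- two chamfers
  have S4 : Sm fun η => ∀ q ∈ X ×ˢ X, q.1 ≠ q.2 →
      (∀ (A : Aff) (Z : Aff), NearP a (N q.1) η A → NearP a (N q.2) η Z → crs A.1 Z.1 ≠ 0) ∧
      (∀ A Z W : Aff, NearP a ν η A → NearP a (N q.1) η Z → NearP a (N q.2) η W → ∀ y : E3,
        ev A y = 0 → ev Z y = 0 → ev W y = 0 → ‖y - a‖ < r) ∧
      (∀ A Z W : Aff, NearP a ν' η A → NearP a (N q.1) η Z → NearP a (N q.2) η W → ∀ y : E3,
        ev A y = 0 → ev Z y = 0 → ev W y = 0 → ‖y - a‖ < r) := by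
    refine Sm.fin (X ×ˢ X) fun q hq => ?_
    obtain ⟨hq1, hq2⟩ := Finset.mem_product.1 hq
    by_cases hne : q.1 = q.2
    · exact Sm.of_true fun η h' => absurd hne h'
    · obtain ⟨d1, d2, -⟩ := H.n4 q.1 hq1 q.2 hq2 hne
      have hc : crs (N q.1) (N q.2) ≠ 0 := by
        intro h0
        apply d1
        rw [← inner_crs', h0, inner_zero_right]
      have T1 : Sm fun η => (∀ (A : Aff) (Z : Aff), NearP a (N q.1) η A →
          NearP a (N q.2) η Z → crs A.1 Z.1 ≠ 0) := by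
        obtain ⟨η₀, h0, h1⟩ := pairc _ _ hc
        exact ⟨η₀, h0, fun η hη hlt A Z hA hZ => h1 η hη hlt A.1 Z.1 hA.1 hZ.1⟩
      have T2 : Sm fun η => (∀ A Z W : Aff, NearP a ν η A → NearP a (N q.1) η Z →
          NearP a (N q.2) η W → ∀ y : E3, ev A y = 0 → ev Z y = 0 → ev W y = 0 →
          ‖y - a‖ < r) := tri _ _ _ a d1 r hr
      have T3 : Sm fun η => (∀ A Z W : Aff, NearP a ν' η A → NearP a (N q.1) η Z →
          NearP a (N q.2) η W → ∀ y : E3, ev A y = 0 → ev Z y = 0 → ev W y = 0 →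
          ‖y - a‖ < r) := tri _ _ _ a d2 r hr
      exact (T1.and (T2.and T3)).mono fun η _ hh _ => hh
  -- three chamfers
  have S5 : Sm fun η => ∀ q ∈ X ×ˢ (X ×ˢ X), q.1 ≠ q.2.1 → q.1 ≠ q.2.2 → q.2.1 ≠ q.2.2 →
      (∀ A Z W : Aff, NearP a (N q.1) η A → NearP a (N q.2.1) η Z → NearP a (N q.2.2) η W →
        ∀ y : E3, ev A y = 0 → ev Z y = 0 → ev W y = 0 → ‖y - a‖ < r) := by
    refine Sm.fin (X ×ˢ (X ×ˢ X)) fun q hq => ?_
    obtain ⟨hq1, hq2⟩ := Finset.mem_product.1 hq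
    obtain ⟨hq2, hq3⟩ := Finset.mem_product.1 hq2
    by_cases hne : q.1 ≠ q.2.1 ∧ q.1 ≠ q.2.2 ∧ q.2.1 ≠ q.2.2
    · obtain ⟨n1, n2, n3⟩ := hne
      have d := (H.n4 q.1 hq1 q.2.1 hq2 n1).2.2 q.2.2 hq3 n2.symm n3.symm
      have T : Sm fun η => (∀ A Z W : Aff, NearP a (N q.1) η A → NearP a (N q.2.1) η Z →
        NearP a (N q.2.2) η W → ∀ y : E3, ev A y = 0 → ev Z y = 0 → ev W y = 0 →
        ‖y - a‖ < r) := tri _ _ _ a d r hr
      exact T.mono fun η _ hh _ _ _ => hh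
    · exact Sm.of_true fun η h1 h2 h3 => absurd ⟨h1, h2, h3⟩ hne
  obtain ⟨η₀, hη₀, hall⟩ := S1.and (S2.and (S3.and (S4.and S5)))
  refine ⟨η₀, hη₀, fun η hη hlt A A' B hA hA' hB l m s hl hm hlm y hy => ?_⟩
  obtain ⟨U1, U2, U3, U4, U5⟩ := hall η hη hlt
  have hdy := hdist l m s hl y hy
  obtain ⟨n0, hn0⟩ := H.ne
  have zcl : ∀ v : E3, crs (0 : E3) v = 0 := by
    intro v
    apply e3ext <;> simp only [PiLp.zero_apply, crs0, crs1, crs2] <;> ring
  have zcr : ∀ v : E3, crs v (0 : E3) = 0 := by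
    intro v
    apply e3ext <;> simp only [PiLp.zero_apply, crs0, crs1, crs2] <;> ring
  refine ⟨?_, ?_, ?_, ?_, ?_, ?_, ?_, ?_, ?_, ?_⟩
  · intro h0
    apply U1 n0 hn0 A (B n0) hA (hB n0 hn0)
    rw [h0, zcl]
  · intro h0
    apply U2 n0 hn0 A' (B n0) hA' (hB n0 hn0)
    rw [h0, zcl]
  · intro n hn h0
    apply U1 n hn A (B n) hA (hB n hn)
    rw [h0, zcr]
  · intro n hn
    exact U1 n hn A (B n) hA (hB n hn)
  · intro n hn
    exact U2 n hn A' (B n) hA' (hB n hn)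
  · intro n hn k hk hne
    exact (U4 (n, k) (Finset.mem_product.2 ⟨hn, hk⟩) hne).1 (B n) (B k) (hB n hn) (hB k hk)
  · intro hAy hA'y n hn
    exact U3 n hn A A' (B n) hA hA' (hB n hn) l m s hl hm hlm y hy hAy hA'y
  · intro n hn k hk hne h1 h2 h3
    have := (U4 (n, k) (Finset.mem_product.2 ⟨hn, hk⟩) hne).2.1 A (B n) (B k) hA (hB n hn)
      (hB k hk) y h1 h2 h3
    linarith
  · intro n hn k hk hne h1 h2 h3
    have := (U4 (n, k) (Finset.mem_product.2 ⟨hn, hk⟩) hne).2.2 A' (B n) (B k) hA' (hB n hn)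
      (hB k hk) y h1 h2 h3
    linarith
  · intro n hn k hk j hj n1 n2 n3 h1 h2 h3
    have := U5 (n, k, j) (Finset.mem_product.2 ⟨hn, Finset.mem_product.2 ⟨hk, hj⟩⟩) n1 n2 n3
      (B n) (B k) (B j) (hB n hn) (hB k hk) (hB j hj) y h1 h2 h3
    linarith

theorem main (h : EGeo a a' b b' ν ν' c C) {ε' : ℝ} {X : Finset ι} {N : ι → E3}
    {X' : Finset ι'} {N' : ι' → E3}
    (H : EHalf a a' b b' ν ν' ε' c C X N) (H' : EHalf a' a b b' ν ν' ε' c C X' N')
    (ρ : ℝ) (hρ : 0 < ρ) : ∃ η₀ : ℝ, 0 < η₀ ∧ ∀ η : ℝ, 0 < η → η < η₀ →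
  ∀ (A A' : Aff) (B : ι → Aff) (B' : ι' → Aff),
  ENear a a' ν ν' η A A' X N B X' N' B' → EGen A A' X B X' B' →
  ∀ l m s : ℝ, ρ ≤ l → 0 ≤ m → ρ ≤ 1 - l - m →
  ∀ y : E3, y = a + l • (a' - a) + m • (b - a) - s • eV a a' b b' →
  FE A A' X B X' B' y = 0 →
  ∃ f g h : Aff, Indep f g h ∧ ∃ r > 0, ∀ z ∈ Metric.ball y r,
    FE A A' X B X' B' z = 0 → G3 f g h z = 0 := by
  obtain ⟨η1, h1, S1⟩ := side h H ρ hρ
  obtain ⟨η2, h2, S2⟩ := side (EGeo_symm h) H' ρ hρ
  have hu0 : 0 < 1 + ‖a' - a‖ := by positivity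
  refine ⟨min η1 (η2 / (1 + ‖a' - a‖)), lt_min h1 (by positivity), ?_⟩
  intro η hη hlt A A' B B' hN hG l m s hl hm hlm y hy hFE
  have e1 : η < η1 := lt_of_lt_of_le hlt (min_le_left _ _)
  have e2 : η * (1 + ‖a' - a‖) < η2 := by
    have := lt_of_lt_of_le hlt (min_le_right _ _)
    rwa [lt_div_iff₀ hu0] at this
  have e3 : η ≤ η * (1 + ‖a' - a‖) := by
    have := norm_nonneg (a' - a)
    nlinarith
  have near : ∀ (μ : E3) (W : Aff), (inner ℝ μ (a' - a) : ℝ) = 0 → NearP a μ η W →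
      NearP a' μ (η * (1 + ‖a' - a‖)) W := by
    intro μ W hμ hW
    refine ⟨hW.1.trans e3, ?_⟩
    have h3 : ev W a' = ev W a + inner ℝ (W.1 - μ) (a' - a) := by
      rw [ev_sub W a a', inner_sub_left, hμ, sub_zero]
    rw [h3]
    calc |ev W a + (inner ℝ (W.1 - μ) (a' - a) : ℝ)| ≤
          |ev W a| + |(inner ℝ (W.1 - μ) (a' - a) : ℝ)| := abs_add_le _ _
      _ ≤ η + η * ‖a' - a‖ := add_le_add hW.2 ((abs_real_inner_le_norm _ _).trans
          (mul_le_mul_of_nonneg_right hW.1 (norm_nonneg _)))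
      _ = η * (1 + ‖a' - a‖) := by ring
  have T1 : Side A A' X B y := S1 η hη e1 A A' B hN.A hN.A' hN.B l m s hl hm (by linarith) y hy
  have T2 : Side A A' X' B' y := by
    refine S2 (η * (1 + ‖a' - a‖)) (by positivity) e2 A A' B' (near ν A h.ka hN.A)
      (near ν' A' h.la hN.A') (fun n hn => ⟨(hN.B' n hn).1.trans e3, (hN.B' n hn).2.trans e3⟩)
      (1 - l - m) m s hlm hm (by linarith) y ?_
    rw [hy]
    have he : eV a' a b b' = eV a a' b b' := by unfold eV; abel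
    rw [he]
    module
  obtain ⟨f, g, k, hI, hev⟩ := comb H.ne H'.ne T1 T2 hG hFE
  rw [Metric.eventually_nhds_iff_ball] at hev
  exact ⟨f, g, k, hI, hev⟩

end edge

end EGM_

theorem EGM_proof : Stmt_EGM := by
  intro ι ι' a a' b b' ν ν' c C ε' X N X' N' h _ H H' ρ hρ
  exact EGM_.main h H H' ρ hρ

end Pool.Agent.TSR
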