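import Pool.Agent.TSR.Base

/-!
# TSR, module EIJ: the projection along the direction of an edge is injective on its two
triangles (helper81)
-/

set_option autoImplicit false

namespace Pool.Agent.TSR

open Set Filter Topology Pool.Agent.TSM Pool.Agent.TSC

namespace EIJ_

variable {V : Type}

/-- independence of the three edge vectors of a tetrahedron -/
theorem indep (p : V → E3) {v u w w' : V} (hD : Dl p v u w w' ≠ 0) {α β γ : ℝ}
    (h : α • (p u - p v) + β • (p w - p v) + γ • (p w' - p v) = 0) : α = 0 ∧ β = 0 ∧ γ = 0 := by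
  have h1 : (inner ℝ (n0 p v u w)
      (α • (p u - p v) + β • (p w - p v) + γ • (p w' - p v)) : ℝ) = γ * Dl p v u w w' := by
    rw [inner_add_right, inner_add_right, inner_smul_right, inner_smul_right, inner_smul_right,
      inn_n0_u, inn_n0_w, inn_n0]
    ring
  have h2 : (inner ℝ (n0 p v u w')
      (α • (p u - p v) + β • (p w - p v) + γ • (p w' - p v)) : ℝ) = - β * Dl p v u w w' := by
    rw [inner_add_right, inner_add_right, inner_smul_right, inner_smul_right, inner_smul_right,
      inn_n0_u, inn_n0_w, inn_n0, Dl_anti p v u w w']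
    ring
  have h3 : (inner ℝ (n0 p v w w')
      (α • (p u - p v) + β • (p w - p v) + γ • (p w' - p v)) : ℝ) = α * Dl p v u w w' := by
    rw [inner_add_right, inner_add_right, inner_smul_right, inner_smul_right, inner_smul_right,
      inn_n0_u, inn_n0_w, inn_n0]
    have : Dl p v w w' u = Dl p v u w w' := by
      unfold Dl; simp only [det3, PiLp.sub_apply]; ring
    rw [this]
    ring
  rw [h, inner_zero_right] at h1 h2 h3
  refine ⟨?_, ?_, ?_⟩
  · rcases mul_eq_zero.1 h3.symm with h4 | h4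
    · exact h4
    · exact absurd h4 hD
  · rcases mul_eq_zero.1 h2.symm with h4 | h4
    · linarith
    · exact absurd h4 hD
  · rcases mul_eq_zero.1 h1.symm with h4 | h4
    · exact h4
    · exact absurd h4 hD

theorem coords [Fintype V] [DecidableEq V] (p : V → E3) {v u w w' : V} (h1 : v ≠ u) (h2 : v ≠ w)
    (h3 : u ≠ w) (h4 : v ≠ w') (h5 : u ≠ w') (h6 : w' ≠ w) {x : V → ℝ}
    (hx : InT v u w x ∨ InT v u w' x) :
    (∀ y, 0 ≤ x y) ∧ lin p x = p v + x u • (p u - p v) + x w • (p w - p v) +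
      x w' • (p w' - p v) ∧ (x w = 0 ∨ x w' = 0) ∧ x v = 1 - x u - x w - x w' ∧
      ∀ y, y ≠ v → y ≠ u → y ≠ w → y ≠ w' → x y = 0 := by
  rcases hx with hx | hx
  · have hz : x w' = 0 := hx.zero (Ne.symm h4) (Ne.symm h5) h6
    have hs := hx.sum h1 h2 h3
    refine ⟨hx.1, ?_, Or.inr hz, by linarith, fun y a b c _ => hx.zero a b c⟩
    rw [hx.lin (p := p) h1 h2 h3, hz, zero_smul, add_zero]
  · have hz : x w = 0 := hx.zero (Ne.symm h2) (Ne.symm h3) (Ne.symm h6)
    have hs := hx.sum h1 h4 h5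
    refine ⟨hx.1, ?_, Or.inl hz, by linarith, fun y a b _ d => hx.zero a b d⟩
    rw [hx.lin (p := p) h1 h4 h5, hz, zero_smul, add_zero]

end EIJ_

open EIJ_ in
theorem eij_proof (hF : Stmt_FLG) : Stmt_EIJ := by
  intro V _ _ K p Φ op hK hop v u w hfl x x' hx hx' s s' he
  obtain ⟨-, hg⟩ := hF V K p Φ op hK hop
  obtain ⟨-, hfl', -, hD⟩ := hg v u w hfl
  obtain ⟨n1, n2, n3⟩ := tri_ne hfl.1
  obtain ⟨-, n4, n5⟩ := tri_ne hfl'.1
  have n6 : op v u w ≠ w := (hop v u w hfl.1).2.1
  obtain ⟨a1, a2, a3, a4, a5⟩ := coords p n1 n2 n3 n4 n5 n6 hx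
  obtain ⟨b1, b2, b3, b4, b5⟩ := coords p n1 n2 n3 n4 n5 n6 hx'
  have key : (x u + s - x' u - s') • (p u - p v) + (x w - s - x' w + s') • (p w - p v) +
      (x (op v u w) - s - x' (op v u w) + s') • (p (op v u w) - p v) = 0 := by
    have hE : eE p v u w (op v u w) = (p w - p v) + (p (op v u w) - p v) - (p u - p v) := by
      unfold eE; abel
    rw [a2, b2, hE] at he
    have h0 := sub_eq_zero.2 he
    rw [← h0]
    module
  obtain ⟨k1, k2, k3⟩ := indep p hD key
  have hδ : s = s' := by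
    have c1 := a1 w
    have c2 := a1 (op v u w)
    have c3 := b1 w
    have c4 := b1 (op v u w)
    rcases a3 with a3 | a3 <;> rcases b3 with b3 | b3 <;> linarith
  subst hδ
  have e1 : x u = x' u := by linarith
  have e2 : x w = x' w := by linarith
  have e3 : x (op v u w) = x' (op v u w) := by linarith
  have e4 : x v = x' v := by rw [a4, b4, e1, e2, e3]
  funext y
  by_cases y1 : y = v
  · rw [y1]; exact e4
  by_cases y2 : y = u
  · rw [y2]; exact e1
  by_cases y3 : y = w
  · rw [y3]; exact e2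
  by_cases y4 : y = op v u w
  · rw [y4]; exact e3
  rw [a5 y y1 y2 y3 y4, b5 y y1 y2 y3 y4]

end Pool.Agent.TSR
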