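import Pool.Agent.TSR.Defs

/-!
# TSR: R-FAR, exact statements: edges (independent of the surface)

`a a'` end points of the edge, `b b'` opposite vertices, `ν ν'` normals of the two triangles
(positive at the opposite vertex of the other triangle), `N` limit normals of the chamfers of `a`
along the edge, `N'` of the chamfers of `a'`.
-/

set_option autoImplicit false

namespace Pool.Agent.TSR

open Set Filter Topology Pool.Agent.TSM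

/-- direction of the projection near the edge -/
noncomputable def eV (a a' b b' : E3) : E3 := b + b' - a - a'

structure EGeo (a a' b b' ν ν' : E3) (c C : ℝ) : Prop where
  ind : det3 (a' - a) (b - a) (b' - a) ≠ 0
  ka : (inner ℝ ν (a' - a) : ℝ) = 0
  kb : (inner ℝ ν (b - a) : ℝ) = 0
  kb' : 0 < (inner ℝ ν (b' - a) : ℝ)
  la : (inner ℝ ν' (a' - a) : ℝ) = 0
  lb' : (inner ℝ ν' (b' - a) : ℝ) = 0
  lb : 0 < (inner ℝ ν' (b - a) : ℝ)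
  c0 : 0 < c
  ck : c ≤ (inner ℝ ν (eV a a' b b') : ℝ)
  cl : c ≤ (inner ℝ ν' (eV a a' b b') : ℝ)
  nk : ‖ν‖ ≤ C
  nl : ‖ν'‖ ≤ C

/-- the limit chamfers at the end `a` of the edge -/
structure EHalf {ι : Type} (a a' b b' ν ν' : E3) (ε' c C : ℝ) (X : Finset ι) (N : ι → E3) :
    Prop where
  ne : X.Nonempty
  n1 : ∀ n ∈ X, (inner ℝ (N n) (a' - a) : ℝ) < 0
  n2 : ∀ n ∈ X, 0 < (inner ℝ (N n) ((a' - a) + ε' • (b - a)) : ℝ) ∧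
    0 < (inner ℝ (N n) ((a' - a) + ε' • (b' - a)) : ℝ)
  n3 : ∀ n ∈ X, c ≤ (inner ℝ (N n) (eV a a' b b') : ℝ) ∧ ‖N n‖ ≤ C
  n4 : ∀ n ∈ X, ∀ n' ∈ X, n ≠ n' → det3 ν (N n) (N n') ≠ 0 ∧ det3 ν' (N n) (N n') ≠ 0 ∧
    ∀ n'' ∈ X, n'' ≠ n → n'' ≠ n' → det3 (N n) (N n') (N n'') ≠ 0

/-- a plane is near to the plane through `a` with normal `ν` -/
def NearP (a ν : E3) (η : ℝ) (A : Aff) : Prop := ‖A.1 - ν‖ ≤ η ∧ |ev A a| ≤ η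

structure ENear {ι ι' : Type} (a a' ν ν' : E3) (η : ℝ) (A A' : Aff) (X : Finset ι) (N : ι → E3)
    (B : ι → Aff) (X' : Finset ι') (N' : ι' → E3) (B' : ι' → Aff) : Prop where
  A : NearP a ν η A
  A' : NearP a ν' η A'
  B : ∀ n ∈ X, NearP a (N n) η (B n)
  B' : ∀ n ∈ X', NearP a' (N' n) η (B' n)

/-- generic position of the planes at an edge -/
structure EGen {ι ι' : Type} (A A' : Aff) (X : Finset ι) (B : ι → Aff) (X' : Finset ι')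
    (B' : ι' → Aff) : Prop where
  t1 : ∀ n ∈ X, ∀ n' ∈ X', det3 A.1 (B n).1 (B' n').1 ≠ 0 ∧ det3 A'.1 (B n).1 (B' n').1 ≠ 0
  t2 : ∀ n ∈ X, ∀ m ∈ X, n ≠ m → ∀ n' ∈ X', det3 (B n).1 (B m).1 (B' n').1 ≠ 0
  t3 : ∀ n ∈ X, ∀ n' ∈ X', ∀ m' ∈ X', n' ≠ m' → det3 (B n).1 (B' n').1 (B' m').1 ≠ 0
  q1 : ∀ n ∈ X, ∀ m ∈ X, n ≠ m → ∀ n' ∈ X', ∀ y : E3, ev (B n) y = 0 → ev (B m) y = 0 →
    ev (B' n') y = 0 → ev A y ≠ 0 ∧ ev A' y ≠ 0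
  q2 : ∀ n ∈ X, ∀ n' ∈ X', ∀ m' ∈ X', n' ≠ m' → ∀ y : E3, ev (B n) y = 0 → ev (B' n') y = 0 →
    ev (B' m') y = 0 → ev A y ≠ 0 ∧ ev A' y ≠ 0
  q3 : ∀ n ∈ X, ∀ m ∈ X, n ≠ m → ∀ n' ∈ X', ∀ m' ∈ X', n' ≠ m' → ∀ y : E3, ev (B n) y = 0 →
    ev (B m) y = 0 → ev (B' n') y = 0 → ev (B' m') y ≠ 0

/-- EFU: the function `FE` is strictly monotone along `e`; unique zero, bound, continuity. -/
def Stmt_EFU : Prop := ∀ (ι ι' : Type) (A A' : Aff) (X : Finset ι) (B : ι → Aff)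
  (X' : Finset ι') (B' : ι' → Aff) (e : E3) (c : ℝ), 0 < c → X.Nonempty → X'.Nonempty →
  c ≤ (inner ℝ A.1 e : ℝ) → c ≤ (inner ℝ A'.1 e : ℝ) →
  (∀ n ∈ X, c ≤ (inner ℝ (B n).1 e : ℝ)) → (∀ n ∈ X', c ≤ (inner ℝ (B' n).1 e : ℝ)) →
  (∀ (y : E3) (s t : ℝ), s ≤ t →
    c * (t - s) ≤ FE A A' X B X' B' (y - s • e) - FE A A' X B X' B' (y - t • e)) ∧
  (∀ y : E3, ∃ s : ℝ, FE A A' X B X' B' (y - s • e) = 0) ∧
  (∀ (y : E3) (s t : ℝ), FE A A' X B X' B' (y - s • e) = 0 →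
    FE A A' X B X' B' (y - t • e) = 0 → s = t) ∧
  (∀ (y : E3) (s : ℝ), FE A A' X B X' B' (y - s • e) = 0 → c * |s| ≤ |FE A A' X B X' B' y|) ∧
  Continuous (FE A A' X B X' B') ∧
  ∀ (T : Type) [TopologicalSpace T] (S : Set T) (g : T → E3) (s : T → ℝ), ContinuousOn g S →
    (∀ x ∈ S, FE A A' X B X' B' (g x - s x • e) = 0) → ContinuousOn s S

/-- EBD: bound of `FE` on the edge zone (`K` does not depend on `ε'`). -/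
def Stmt_EBD : Prop := ∀ (a a' b b' ν ν' : E3) (c C : ℝ), EGeo a a' b b' ν ν' c C →
  ∃ K : ℝ, 0 < K ∧ ∀ (ι ι' : Type) (X : Finset ι) (N : ι → E3) (X' : Finset ι') (N' : ι' → E3)
  (ε' : ℝ), 0 < ε' → ε' ≤ 1 → EHalf a a' b b' ν ν' ε' c C X N → EHalf a' a b b' ν ν' ε' c C X' N' →
  ∀ (η : ℝ), 0 < η → η ≤ 1 → ∀ (A A' : Aff) (B : ι → Aff) (B' : ι' → Aff),
  ENear a a' ν ν' η A A' X N B X' N' B' → ∀ l m : ℝ, 0 ≤ l → 0 ≤ m → l + m ≤ 1 →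
  |FE A A' X B X' B' (a + l • (a' - a) + m • (b - a))| ≤ K * (ε' * min l (1 - l - m) + η)

/-- EFC: away from the edge the plane `A` is the active one. -/
def Stmt_EFC : Prop := ∀ (ι ι' : Type) (a a' b b' ν ν' : E3) (c C ε' : ℝ) (X : Finset ι)
  (N : ι → E3) (X' : Finset ι') (N' : ι' → E3), EGeo a a' b b' ν ν' c C → 0 < ε' →
  EHalf a a' b b' ν ν' ε' c C X N → EHalf a' a b b' ν ν' ε' c C X' N' →
  ∀ ρ κ : ℝ, 0 < ρ → ε' < κ → ∃ η₀ : ℝ, 0 < η₀ ∧ ∀ η : ℝ, 0 < η → η < η₀ →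
  ∀ (A A' : Aff) (B : ι → Aff) (B' : ι' → Aff),
  ENear a a' ν ν' η A A' X N B X' N' B' → ∀ l m : ℝ, ρ ≤ l → 0 ≤ m → ρ ≤ 1 - l - m →
  κ * min l (1 - l - m) ≤ m → ∀ s : ℝ,
  ev A (a + l • (a' - a) + m • (b - a) - s • eV a a' b b') = 0 →
  FE A A' X B X' B' (a + l • (a' - a) + m • (b - a) - s • eV a a' b b') = 0

/-- EAN: near `a` the equation of the vertex `a` implies the equation of the edge. -/
def Stmt_EAN : Prop := ∀ (ι ι' : Type) (a a' b b' ν ν' : E3) (c C ε' : ℝ) (X : Finset ι)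
  (N : ι → E3) (X' : Finset ι') (N' : ι' → E3), EGeo a a' b b' ν ν' c C → 0 < ε' →
  EHalf a a' b b' ν ν' ε' c C X N → EHalf a' a b b' ν ν' ε' c C X' N' →
  ∃ ρ₁ η₀ : ℝ, 0 < ρ₁ ∧ 0 < η₀ ∧ ∀ η : ℝ, 0 < η → η < η₀ →
  ∀ (A A' : Aff) (B : ι → Aff) (B' : ι' → Aff),
  ENear a a' ν ν' η A A' X N B X' N' B' → ∀ l m : ℝ, 0 ≤ l → 0 ≤ m → l + m ≤ ρ₁ → ∀ s : ℝ,
  (∀ y : E3, y = a + l • (a' - a) + m • (b - a) - s • eV a a' b b' →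
    0 ≤ ev A y → 0 ≤ ev A' y → (∀ n ∈ X, 0 ≤ ev (B n) y) →
    (ev A y = 0 ∨ ev A' y = 0 ∨ ∃ n ∈ X, ev (B n) y = 0) →
    FE A A' X B X' B' y = 0)

/-- EGM: germs along the edge, away from its end points. -/
def Stmt_EGM : Prop := ∀ (ι ι' : Type) (a a' b b' ν ν' : E3) (c C ε' : ℝ) (X : Finset ι)
  (N : ι → E3) (X' : Finset ι') (N' : ι' → E3), EGeo a a' b b' ν ν' c C → 0 < ε' →
  EHalf a a' b b' ν ν' ε' c C X N → EHalf a' a b b' ν ν' ε' c C X' N' →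
  ∀ ρ : ℝ, 0 < ρ → ∃ η₀ : ℝ, 0 < η₀ ∧ ∀ η : ℝ, 0 < η → η < η₀ →
  ∀ (A A' : Aff) (B : ι → Aff) (B' : ι' → Aff),
  ENear a a' ν ν' η A A' X N B X' N' B' → EGen A A' X B X' B' →
  ∀ l m s : ℝ, ρ ≤ l → 0 ≤ m → ρ ≤ 1 - l - m →
  ∀ y : E3, y = a + l • (a' - a) + m • (b - a) - s • eV a a' b b' →
  FE A A' X B X' B' y = 0 →
  ∃ f g h : Aff, Indep f g h ∧ ∃ r > 0, ∀ z ∈ Metric.ball y r,
    FE A A' X B X' B' z = 0 → G3 f g h z = 0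

/-- GEN: generic perturbation of finitely many planes. -/
def Stmt_GEN : Prop := ∀ (I : Type) (S : Finset I) (𝒜 : Finset Aff), (∀ A ∈ 𝒜, A.1 ≠ 0) →
  ∀ (Z₀ : I → Aff) (δ : ℝ), 0 < δ → ∃ Z : I → Aff,
    (∀ i, ‖(Z i).1 - (Z₀ i).1‖ < δ ∧ |(Z i).2 - (Z₀ i).2| < δ) ∧
    (∀ i ∈ S, ∀ j ∈ S, i ≠ j → ∀ A ∈ 𝒜, det3 A.1 (Z i).1 (Z j).1 ≠ 0) ∧
    (∀ i ∈ S, ∀ j ∈ S, ∀ k ∈ S, i ≠ j → i ≠ k → j ≠ k → det3 (Z i).1 (Z j).1 (Z k).1 ≠ 0 ∧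
      (∀ y : E3, ev (Z i) y = 0 → ev (Z j) y = 0 → ev (Z k) y = 0 → ∀ A ∈ 𝒜, ev A y ≠ 0) ∧
      ∀ l ∈ S, l ≠ i → l ≠ j → l ≠ k → ∀ y : E3, ev (Z i) y = 0 → ev (Z j) y = 0 →
        ev (Z k) y = 0 → ev (Z l) y ≠ 0)

end Pool.Agent.TSR
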