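import Pool.Agent.TSR.Base

/-!
# TSR: FCE, the face equation
-/

set_option autoImplicit false

namespace Pool.Agent.TSR

open Set Filter Topology Pool.Agent.TSM Pool.Agent.TSC

namespace FCE_

theorem crs_norm (a b : E3) : ‖crs a b‖ ≤ ‖a‖ * ‖b‖ := by
  have h1 : ‖crs a b‖ ^ 2 ≤ (‖a‖ * ‖b‖) ^ 2 := by
    rw [mul_pow, ← real_inner_self_eq_norm_sq, ← real_inner_self_eq_norm_sq,
      ← real_inner_self_eq_norm_sq, inn3, inn3, inn3, crs0, crs1, crs2]
    nlinarith [sq_nonneg (a 0 * b 0 + a 1 * b 1 + a 2 * b 2)]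
  exact (pow_le_pow_iff_left₀ (norm_nonneg _) (by positivity) two_ne_zero).1 h1

theorem inner_le_norm (a b : E3) : |(inner ℝ a b : ℝ)| ≤ ‖a‖ * ‖b‖ := abs_real_inner_le_norm a b

/-- nondegeneracy of a triangle -/
theorem nondeg (e f : E3) (a b : ℝ) :
    (|a| + |b|) * ‖crs e f‖ ≤ (‖e‖ + ‖f‖) * ‖a • e + b • f‖ := by
  have h1 : |b| * ‖crs e f‖ ≤ ‖e‖ * ‖a • e + b • f‖ := by
    have h2 : b • crs e f = crs e (a • e + b • f) := by
      rw [crs_add_right, crs_smul_right, crs_smul_right, crs_self, smul_zero, zero_add]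
    calc |b| * ‖crs e f‖ = ‖b • crs e f‖ := by rw [norm_smul, Real.norm_eq_abs]
      _ = ‖crs e (a • e + b • f)‖ := by rw [h2]
      _ ≤ _ := crs_norm _ _
  have h3 : |a| * ‖crs e f‖ ≤ ‖f‖ * ‖a • e + b • f‖ := by
    have h2 : a • crs e f = crs (a • e + b • f) f := by
      rw [crs_add_left, crs_smul_left, crs_smul_left, crs_self, smul_zero, add_zero]
    calc |a| * ‖crs e f‖ = ‖a • crs e f‖ := by rw [norm_smul, Real.norm_eq_abs]
      _ = ‖crs (a • e + b • f) f‖ := by rw [h2]
      _ ≤ ‖a • e + b • f‖ * ‖f‖ := crs_norm _ _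
      _ = _ := mul_comm _ _
  nlinarith

section
variable {V : Type} [Fintype V] [DecidableEq V] {p : V → E3}

theorem cont_lin (p : V → E3) : Continuous (fun x : V → ℝ => TSM.lin p x) := by
  unfold TSM.lin
  fun_prop

/-- all constants of the vertices -/
noncomputable def D0 (p : V → E3) : ℝ := 4 * ∑ v, ‖p v‖

omit [DecidableEq V] in
theorem D0_nonneg : 0 ≤ D0 p := by
  unfold D0
  have : 0 ≤ ∑ v, ‖p v‖ := Finset.sum_nonneg fun v _ => norm_nonneg _
  linarith

omit [DecidableEq V] in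
theorem le_D0 (v u w : V) : ‖p u - p v‖ + ‖p w - p v‖ ≤ D0 p := by
  unfold D0
  have h : ∀ z, ‖p z‖ ≤ ∑ v, ‖p v‖ := fun z =>
    Finset.single_le_sum (f := fun v => ‖p v‖) (fun v _ => norm_nonneg _) (Finset.mem_univ z)
  have h1 := norm_sub_le (p u) (p v)
  have h2 := norm_sub_le (p w) (p v)
  linarith [h u, h v, h w]

noncomputable def N0 (p : V → E3) : ℝ := ∑ q : V × V × V, ‖n0 p q.1 q.2.1 q.2.2‖

noncomputable def M0 (p : V → E3) : ℝ := 1 + ∑ q : V × V × V, ‖n0 p q.1 q.2.1 q.2.2‖⁻¹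

omit [DecidableEq V] in
theorem le_N0 (v u w : V) : ‖n0 p v u w‖ ≤ N0 p := by
  have := Finset.single_le_sum (f := fun q : V × V × V => ‖n0 p q.1 q.2.1 q.2.2‖)
    (fun q _ => norm_nonneg _) (Finset.mem_univ (v, u, w))
  simp only at this
  exact this

omit [DecidableEq V] in
theorem N0_nonneg : 0 ≤ N0 p := Finset.sum_nonneg fun q _ => norm_nonneg _

omit [DecidableEq V] in
theorem M0_pos : 0 < M0 p := by
  unfold M0
  have : 0 ≤ ∑ q : V × V × V, ‖n0 p q.1 q.2.1 q.2.2‖⁻¹ :=
    Finset.sum_nonneg fun q _ => inv_nonneg.2 (norm_nonneg _)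
  linarith

omit [DecidableEq V] in
theorem le_M0 (v u w : V) (h : n0 p v u w ≠ 0) : 1 ≤ M0 p * ‖n0 p v u w‖ := by
  have h1 : ‖n0 p v u w‖⁻¹ ≤ M0 p := by
    unfold M0
    have := Finset.single_le_sum (f := fun q : V × V × V => ‖n0 p q.1 q.2.1 q.2.2‖⁻¹)
      (fun q _ => inv_nonneg.2 (norm_nonneg _)) (Finset.mem_univ (v, u, w))
    simp only at this
    linarith
  have h2 : 0 < ‖n0 p v u w‖ := norm_pos_iff.2 h
  calc (1 : ℝ) = ‖n0 p v u w‖⁻¹ * ‖n0 p v u w‖ := (inv_mul_cancel₀ h2.ne').symm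
    _ ≤ _ := mul_le_mul_of_nonneg_right h1 h2.le

theorem InT.le_one {v u w : V} {x : V → ℝ} (h : InT v u w x) (y : V) : x y ≤ 1 := by
  rw [← h.2.1]
  exact Finset.single_le_sum (f := x) (fun y _ => h.1 y) (Finset.mem_univ y)

/-- distance in a triangle -/
theorem dist_le {v u w : V} {x x' : V → ℝ} (hvu : v ≠ u) (hvw : v ≠ w) (huw : u ≠ w)
    (hx : InT v u w x) (hx' : InT v u w x') :
    ‖x - x'‖ ≤ |x u - x' u| + |x w - x' w| := by
  refine (pi_norm_le_iff_of_nonneg (by positivity)).2 fun y => ?_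
  rw [Pi.sub_apply, Real.norm_eq_abs]
  have h1 := abs_nonneg (x u - x' u)
  have h2 := abs_nonneg (x w - x' w)
  by_cases hu : y = u
  · subst hu; linarith
  by_cases hw : y = w
  · subst hw; linarith
  by_cases hv : y = v
  · subst hv
    have s1 := hx.sum hvu hvw huw
    have s2 := hx'.sum hvu hvw huw
    have : x y - x' y = -(x u - x' u) - (x w - x' w) := by linarith
    rw [this]
    calc |-(x u - x' u) - (x w - x' w)| ≤ |-(x u - x' u)| + |x w - x' w| := abs_sub _ _
      _ = _ := by rw [abs_neg]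
  · rw [hx.zero hv hu hw, hx'.zero hv hu hw]
    simp only [sub_self, abs_zero]
    positivity

theorem coord_le {x x' : V → ℝ} (y : V) : |x y - x' y| ≤ ‖x - x'‖ := by
  have := norm_le_pi_norm (x - x') y
  rwa [Pi.sub_apply, Real.norm_eq_abs] at this

end

end FCE_

open FCE_ in
theorem FCE_proof (hTAI : Stmt_TAI) (hBTP : Stmt_BTP) (hBTL : Stmt_BTL) : Stmt_FCE := by
  intro V _ _ K p Φ op hK hop d ρ hd hd4 hρ
  obtain ⟨c, C, hc, hC, hb⟩ := hBTP V K p Φ op hK hop
  obtain ⟨L, hL, hlip⟩ := hBTL V p op d ρ hd hd4 hρ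
  have hD0 : 0 ≤ D0 p := D0_nonneg
  have hN0 : 0 ≤ N0 p := N0_nonneg
  have hM0 : 0 < M0 p := M0_pos
  set Dm := D0 p with hDm
  set N := N0 p with hN
  set M := M0 p with hM
  obtain ⟨Q, hQ⟩ : ∃ Q : ℝ, Q = 2 * (1 + Dm) / c := ⟨_, rfl⟩
  have hQ0 : 0 < Q := by rw [hQ]; positivity
  obtain ⟨K1, hK1⟩ : ∃ K1 : ℝ, K1 = Q * L + C * (2 / c * (Dm + Q * ((N + 1) * L))) := ⟨_, rfl⟩
  have hK10 : 0 < K1 := by rw [hK1]; positivity
  refine ⟨Q, min (min 1 (c / (2 * C))) (1 / (M * ((Dm + 1) * K1))), hQ0, ?_, ?_⟩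
  · refine lt_min (lt_min one_pos (by positivity)) (by positivity)
  intro v u w hnf P η hη hη0 hP
  have hη1 : η < 1 := hη0.trans_le ((min_le_left _ _).trans (min_le_left _ _))
  have hη2 : η < c / (2 * C) := hη0.trans_le ((min_le_left _ _).trans (min_le_right _ _))
  have hη3 : η < 1 / (M * ((Dm + 1) * K1)) := hη0.trans_le (min_le_right _ _)
  rw [lt_div_iff₀ (by positivity)] at hη2 hη3
  obtain ⟨hvu, hvw, huw, hn⟩ := hTAI V K p hK.emb v u w hnf.1
  obtain ⟨hP1, hP2⟩ := hP
  -- the slope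
  have hslope : ∀ x, InT v u w x → c / 2 ≤ (inner ℝ P.1 (bT p op d v u w x) : ℝ) := by
    intro x hx
    obtain ⟨h1, h2⟩ := hb d hd hd4 v u w hnf x hx
    have h3 : (inner ℝ P.1 (bT p op d v u w x) : ℝ) = inner ℝ (n0 p v u w) (bT p op d v u w x) +
        inner ℝ (P.1 - n0 p v u w) (bT p op d v u w x) := by
      rw [inner_sub_left]; ring
    have h4 := inner_le_norm (P.1 - n0 p v u w) (bT p op d v u w x)
    have h5 : ‖P.1 - n0 p v u w‖ * ‖bT p op d v u w x‖ ≤ η * C :=
      mul_le_mul hP1 h2 (norm_nonneg _) hη.le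
    have h6 := (abs_le.1 (h4.trans h5)).1
    rw [h3]
    nlinarith
  -- the value on the triangle
  have hval : ∀ x, InT v u w x → |ev P (TSM.lin p x)| ≤ η * (1 + Dm) := by
    intro x hx
    have h1 := hx.lin (p := p) hvu hvw huw
    have h2 : ev P (TSM.lin p x) = ev P (p v) + inner ℝ (P.1 - n0 p v u w)
        (x u • (p u - p v) + x w • (p w - p v)) := by
      rw [h1, add_assoc, ev_add, inner_sub_left]
      have h3 : (inner ℝ (n0 p v u w) (x u • (p u - p v) + x w • (p w - p v)) : ℝ) = 0 := by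
        rw [inner_add_right, inner_smul_right, inner_smul_right, inn_n0_u, inn_n0_w]; ring
      rw [h3]; ring
    have h4 := inner_le_norm (P.1 - n0 p v u w) (x u • (p u - p v) + x w • (p w - p v))
    have h5 : ‖x u • (p u - p v) + x w • (p w - p v)‖ ≤ Dm := by
      refine (norm_add_le _ _).trans ?_
      rw [norm_smul, norm_smul, Real.norm_eq_abs, Real.norm_eq_abs, abs_of_nonneg (hx.1 u),
        abs_of_nonneg (hx.1 w)]
      have h6 := le_D0 (p := p) v u w
      have h7 := mul_le_mul_of_nonneg_right (InT.le_one hx u) (norm_nonneg (p u - p v))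
      have h8 := mul_le_mul_of_nonneg_right (InT.le_one hx w) (norm_nonneg (p w - p v))
      linarith
    have h6 : |(inner ℝ (P.1 - n0 p v u w) (x u • (p u - p v) + x w • (p w - p v)) : ℝ)| ≤
        η * Dm := h4.trans (mul_le_mul hP1 h5 (norm_nonneg _) hη.le)
    rw [h2]
    calc _ ≤ |ev P (p v)| + _ := abs_add_le _ _
      _ ≤ η + η * Dm := add_le_add hP2 h6
      _ = _ := by ring
  have hpos : ∀ x, InT v u w x → 0 < (inner ℝ P.1 (bT p op d v u w x) : ℝ) := fun x hx =>
    lt_of_lt_of_le (by positivity) (hslope x hx)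
  -- formula for the zero
  have hform : ∀ x, InT v u w x → ∀ s : ℝ, ev P (TSM.lin p x - s • bT p op d v u w x) = 0 →
      s = ev P (TSM.lin p x) / inner ℝ P.1 (bT p op d v u w x) := by
    intro x hx s hs
    rw [ev_sub_smul] at hs
    rw [eq_div_iff (hpos x hx).ne']
    linarith
  have hbd : ∀ x, InT v u w x → ∀ s : ℝ, ev P (TSM.lin p x - s • bT p op d v u w x) = 0 →
      |s| ≤ Q * η := by
    intro x hx s hs
    have h1 := hform x hx s hs
    have h2 := hval x hx
    have h3 := hslope x hx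
    have h4 := hpos x hx
    rw [h1, abs_div, abs_of_pos h4, div_le_iff₀ h4]
    calc _ ≤ η * (1 + Dm) := h2
      _ = Q * η * (c / 2) := by rw [hQ]; field_simp
      _ ≤ _ := mul_le_mul_of_nonneg_left h3 (by positivity)
  have hPn : ‖P.1‖ ≤ N + 1 := by
    have h1 : P.1 = n0 p v u w + (P.1 - n0 p v u w) := by abel
    rw [h1]
    refine (norm_add_le _ _).trans ?_
    have := le_N0 (p := p) v u w
    linarith
  refine ⟨hpos, ?_, ?_, hbd, ?_, ?_⟩
  · intro x hx
    refine ⟨ev P (TSM.lin p x) / inner ℝ P.1 (bT p op d v u w x), ?_⟩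
    rw [ev_sub_smul, div_mul_cancel₀ _ (hpos x hx).ne']
    ring
  · intro x hx s t hs ht
    rw [hform x hx s hs, hform x hx t ht]
  · intro x x' hx hx' hxr hxr' s s' hs hs' he
    have hΔ : TSM.lin p x - TSM.lin p x' = (x u - x' u) • (p u - p v) +
        (x w - x' w) • (p w - p v) := by
      rw [hx.lin (p := p) hvu hvw huw, hx'.lin (p := p) hvu hvw huw]; module
    obtain ⟨t, ht⟩ : ∃ t : ℝ, t = ‖x - x'‖ := ⟨_, rfl⟩
    have ht0 : 0 ≤ t := by rw [ht]; exact norm_nonneg _
    have hbl : ‖bT p op d v u w x - bT p op d v u w x'‖ ≤ L * t := by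
      rw [ht]; exact hlip v u w x x' hvu hvw huw hx hx' hxr hxr'
    have hΔn : ‖TSM.lin p x - TSM.lin p x'‖ ≤ Dm * t := by
      rw [hΔ]
      refine (norm_add_le _ _).trans ?_
      rw [norm_smul, norm_smul, Real.norm_eq_abs, Real.norm_eq_abs]
      have h6 := le_D0 (p := p) v u w
      have h7 := mul_le_mul_of_nonneg_right (coord_le (x := x) (x' := x') u)
        (norm_nonneg (p u - p v))
      have h8 := mul_le_mul_of_nonneg_right (coord_le (x := x) (x' := x') w)
        (norm_nonneg (p w - p v))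
      rw [← ht] at h7 h8
      nlinarith
    have hsb := hbd x hx s hs
    have hCb := (hb d hd hd4 v u w hnf x' hx').2
    -- difference of the zeros
    have h1 : (s - s') * (inner ℝ P.1 (bT p op d v u w x') : ℝ) =
        inner ℝ (P.1 - n0 p v u w) (TSM.lin p x - TSM.lin p x') -
        s * inner ℝ P.1 (bT p op d v u w x - bT p op d v u w x') := by
      have e1 : (inner ℝ (n0 p v u w) (TSM.lin p x - TSM.lin p x') : ℝ) = 0 := by
        rw [hΔ, inner_add_right, inner_smul_right, inner_smul_right, inn_n0_u, inn_n0_w]; ring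
      rw [inner_sub_left, e1]
      rw [ev_sub_smul] at hs hs'
      have e2 := ev_sub P (TSM.lin p x) (TSM.lin p x')
      rw [← e2, inner_sub_right]
      linarith
    have h2 : |s - s'| * (c / 2) ≤ η * (Dm * t) + Q * η * ((N + 1) * (L * t)) := by
      calc |s - s'| * (c / 2) ≤ |s - s'| * (inner ℝ P.1 (bT p op d v u w x') : ℝ) :=
            mul_le_mul_of_nonneg_left (hslope x' hx') (abs_nonneg _)
        _ = |(s - s') * (inner ℝ P.1 (bT p op d v u w x') : ℝ)| := by
            rw [abs_mul, abs_of_pos (hpos x' hx')]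
        _ ≤ |(inner ℝ (P.1 - n0 p v u w) (TSM.lin p x - TSM.lin p x') : ℝ)| +
            |s * inner ℝ P.1 (bT p op d v u w x - bT p op d v u w x')| := by
            rw [h1]; exact abs_sub _ _
        _ ≤ η * (Dm * t) + Q * η * ((N + 1) * (L * t)) := by
            apply add_le_add
            · exact (inner_le_norm _ _).trans (mul_le_mul hP1 hΔn (norm_nonneg _) hη.le)
            · rw [abs_mul]
              refine mul_le_mul hsb ?_ (abs_nonneg _) (by positivity)
              exact (inner_le_norm _ _).trans (mul_le_mul hPn hbl (norm_nonneg _) (by positivity))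
    have h3 : |s - s'| ≤ 2 / c * (Dm + Q * ((N + 1) * L)) * (η * t) := by
      have e1 : |s - s'| = |s - s'| * (c / 2) * (2 / c) := by field_simp
      rw [e1]
      calc _ ≤ (η * (Dm * t) + Q * η * ((N + 1) * (L * t))) * (2 / c) :=
            mul_le_mul_of_nonneg_right h2 (by positivity)
        _ = _ := by ring
    have h4 : TSM.lin p x - TSM.lin p x' = s • (bT p op d v u w x - bT p op d v u w x') +
        (s - s') • bT p op d v u w x' := by
      have e1 : TSM.lin p x = TSM.lin p x' - s' • bT p op d v u w x' + s • bT p op d v u w x := by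
        rw [← he]; abel
      rw [e1]; module
    have h5 : ‖TSM.lin p x - TSM.lin p x'‖ ≤ K1 * (η * t) := by
      rw [h4]
      calc _ ≤ ‖s • (bT p op d v u w x - bT p op d v u w x')‖ +
            ‖(s - s') • bT p op d v u w x'‖ := norm_add_le _ _
        _ ≤ Q * η * (L * t) + 2 / c * (Dm + Q * ((N + 1) * L)) * (η * t) * C := by
            rw [norm_smul, norm_smul, Real.norm_eq_abs, Real.norm_eq_abs]
            apply add_le_add
            · exact mul_le_mul hsb hbl (norm_nonneg _) (by positivity)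
            · exact mul_le_mul h3 hCb (norm_nonneg _) (by positivity)
        _ = _ := by rw [hK1]; ring
    have h6 := nondeg (p u - p v) (p w - p v) (x u - x' u) (x w - x' w)
    rw [← hΔ] at h6
    change _ * ‖n0 p v u w‖ ≤ _ at h6
    have h7 := dist_le hvu hvw huw hx hx'
    rw [← ht] at h7
    have h8 := le_M0 (p := p) v u w hn
    have h9 : t ≤ M * ((Dm + 1) * K1) * η * t := by
      have a1 : t ≤ M * ‖n0 p v u w‖ * t := by
        nlinarith
      have a2 : ‖n0 p v u w‖ * t ≤ Dm * (K1 * (η * t)) := by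
        calc ‖n0 p v u w‖ * t ≤ (|x u - x' u| + |x w - x' w|) * ‖n0 p v u w‖ := by
              rw [mul_comm]; exact mul_le_mul_of_nonneg_right h7 (norm_nonneg _)
          _ ≤ _ := h6
          _ ≤ Dm * (K1 * (η * t)) :=
              mul_le_mul (le_D0 v u w) h5 (norm_nonneg _) hD0
      calc t ≤ M * (‖n0 p v u w‖ * t) := by rw [← mul_assoc]; exact a1
        _ ≤ M * (Dm * (K1 * (η * t))) := mul_le_mul_of_nonneg_left a2 hM0.le
        _ ≤ M * ((Dm + 1) * (K1 * (η * t))) := by
            apply mul_le_mul_of_nonneg_left _ hM0.le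
            apply mul_le_mul_of_nonneg_right (by linarith) (by positivity)
        _ = _ := by ring
    have h10 : t = 0 := by
      by_contra h11
      have h12 : 0 < t := lt_of_le_of_ne ht0 (Ne.symm h11)
      nlinarith
    rw [ht] at h10
    exact sub_eq_zero.1 (norm_eq_zero.1 h10)
  · intro D hD
    have hbc : ContinuousOn (fun x => bT p op d v u w x) {x | InT v u w x ∧ ∀ y, x y ≤ 1 - ρ} := by
      have : LipschitzOnWith ⟨L, hL.le⟩ (fun x => bT p op d v u w x)
          {x | InT v u w x ∧ ∀ y, x y ≤ 1 - ρ} := by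
        apply LipschitzOnWith.of_dist_le_mul
        intro x hx x' hx'
        rw [dist_eq_norm, dist_eq_norm]
        exact hlip v u w x x' hvu hvw huw hx.1 hx'.1 hx.2 hx'.2
      exact this.continuousOn
    have hlc : ContinuousOn (fun x : V → ℝ => TSM.lin p x)
        {x | InT v u w x ∧ ∀ y, x y ≤ 1 - ρ} := (cont_lin p).continuousOn
    have hev : Continuous (fun y : E3 => ev P y) := by
      unfold ev
      fun_prop
    have h1 : ContinuousOn (fun x => TSM.lin p x - (ev P (TSM.lin p x) /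
        (inner ℝ P.1 (bT p op d v u w x) : ℝ)) • bT p op d v u w x)
        {x | InT v u w x ∧ ∀ y, x y ≤ 1 - ρ} := by
      have h2 : ContinuousOn (fun x => ev P (TSM.lin p x) /
          (inner ℝ P.1 (bT p op d v u w x) : ℝ)) {x | InT v u w x ∧ ∀ y, x y ≤ 1 - ρ} := by
        have h3 : ContinuousOn (fun x => ev P (TSM.lin p x))
            {x | InT v u w x ∧ ∀ y, x y ≤ 1 - ρ} := hev.comp_continuousOn hlc
        have h4 : ContinuousOn (fun x => (inner ℝ P.1 (bT p op d v u w x) : ℝ))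
            {x | InT v u w x ∧ ∀ y, x y ≤ 1 - ρ} := ContinuousOn.inner (𝕜 := ℝ) continuousOn_const hbc
        exact h3.div h4 fun x hx => (hpos x hx.1).ne'
      exact hlc.sub (h2.smul hbc)
    refine h1.congr fun x hx => ?_
    obtain ⟨s, h2, h3⟩ := hD x hx.1 hx.2
    rw [h2] at h3
    rw [h2, hform x hx.1 s h3]

end Pool.Agent.TSR
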