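import Pool.Agent.TSR.Base

/-!
# TSR module FLG: geometry of the flags
-/

set_option autoImplicit false

namespace Pool.Agent.TSR

open Set Filter Topology Pool.Agent.TSM Pool.Agent.TSC

namespace FLG_

theorem inn (a b : E3) : (inner ℝ a b : ℝ) = a 0 * b 0 + a 1 * b 1 + a 2 * b 2 := by
  simp [PiLp.inner_apply, Fin.sum_univ_three]
  ring

/-- expansion of `c` in the basis `a`, `b`, `crs a b` -/
theorem expand (a b c : E3) :
    (inner ℝ (crs a b) (crs a b) : ℝ) • c =
      ((inner ℝ a c : ℝ) * inner ℝ b b - inner ℝ b c * inner ℝ a b) • a +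
      ((inner ℝ b c : ℝ) * inner ℝ a a - inner ℝ a c * inner ℝ a b) • b +
      (det3 a b c) • crs a b := by
  apply e3ext <;>
    simp only [inn, crs0, crs1, crs2, PiLp.add_apply, PiLp.smul_apply, smul_eq_mul, det3] <;> ring

theorem crs_ne {a b : E3} (h : crs a b ≠ 0) : (inner ℝ (crs a b) (crs a b) : ℝ) ≠ 0 := by
  rw [Ne, inner_self_eq_zero]; exact h

/-- a vector with vanishing determinant is orthogonal to everything orthogonal to `a`, `b` -/
theorem perp {a b c f : E3} (h : crs a b ≠ 0) (hd : det3 a b c = 0)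
    (ha : (inner ℝ f a : ℝ) = 0) (hb : (inner ℝ f b : ℝ) = 0) : (inner ℝ f c : ℝ) = 0 := by
  have h1 := congrArg (fun y => (inner ℝ f y : ℝ)) (expand a b c)
  simp only [inner_add_right, inner_smul_right, hd, ha, hb, zero_mul, mul_zero, add_zero] at h1
  exact (mul_eq_zero.1 h1).resolve_left (crs_ne h)

end FLG_

theorem FLG_proof (h1 : Stmt_TAI) : Stmt_FLG := by
  intro V _ _ K p Φ op hF hop
  have nout : ∀ v u w, Nf K p Φ v u w → ¬ K.Outer p Φ v := by
    intro v u w h ho
    obtain ⟨φ, hφ, h2⟩ := ho _ h.1 (by simp)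
    exact h.2 ⟨φ, hφ, h2 v (by simp), h2 u (by simp), h2 w (by simp)⟩
  have tai := h1 V K p hF.emb
  -- one triangle on a facet
  have one : ∀ v u x y, ({v, u, x} : Finset V) ∈ K.tri → Fac p Φ v u x → ¬ Fac p Φ v u y →
      Dl p v u x y ≠ 0 := by
    intro v u x y ht hf hn hd
    obtain ⟨φ, hφ, h2, h3, h4⟩ := hf
    apply hn
    refine ⟨φ, hφ, h2, h3, ?_⟩
    have h5 := (tai v u x ht).2.2.2
    unfold n0 at h5
    have h6 : (inner ℝ φ.1 (p u - p v) : ℝ) = 0 := by rw [← ev_sub, h2, h3, sub_zero]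
    have h7 : (inner ℝ φ.1 (p x - p v) : ℝ) = 0 := by rw [← ev_sub, h2, h4, sub_zero]
    have h8 := FLG_.perp h5 hd h6 h7
    rw [← ev_sub, h2, sub_zero] at h8
    exact h8
  refine ⟨fun v u w h => ⟨nout v u w h, h.flag⟩, ?_⟩
  intro v u w h
  have hopp := h.opp hop
  have hsw := h.swap hop
  obtain ⟨k1, k2, k3, k4, k5⟩ := hop v u w h.1
  have hno : ¬ K.Outer p Φ v := by
    by_cases hf : Fac p Φ v u w
    · have hf2 : ¬ Fac p Φ v u (op v u w) := fun h' => h.2 ⟨hf, h'⟩
      exact nout v u _ ⟨k1, hf2⟩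
    · exact nout v u w ⟨h.1, hf⟩
  refine ⟨hno, hopp, hsw, ?_⟩
  by_cases hf : Fac p Φ v u w
  · exact one v u w _ h.1 hf fun h' => h.2 ⟨hf, h'⟩
  · by_cases hf2 : Fac p Φ v u (op v u w)
    · have := one v u (op v u w) w k1 hf2 hf
      rw [Dl_anti] at this
      exact fun h' => this (by rw [h', neg_zero])
    · intro hd
      have hN1 : Nf K p Φ v u w := ⟨h.1, hf⟩
      have hN2 : Nf K p Φ v u (op v u w) := ⟨k1, hf2⟩
      obtain ⟨n1, n2, n3⟩ := tri_ne h.1
      obtain ⟨-, n4, n5⟩ := tri_ne k1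
      have hgen := hF.gen4 v u w (op v u w) (nout _ _ _ hN1) (nout _ _ _ hN1.swap)
        (nout _ _ _ hN1.cyc.cyc) (nout _ _ _ hN2.cyc.cyc) n1 n2 n4 n3 n5 k2.symm (by
          rintro ⟨φ, hφ, h2, h3, h4, -⟩
          exact hf ⟨φ, hφ, h2, h3, h4⟩)
      rw [affineIndependent_iff] at hgen
      have h5 := (tai v u w h.1).2.2.2
      unfold n0 at h5
      have h6 := FLG_.expand (p u - p v) (p w - p v) (p (op v u w) - p v)
      have hd' : det3 (p u - p v) (p w - p v) (p (op v u w) - p v) = 0 := hd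
      rw [hd', zero_smul, add_zero] at h6
      set X : ℝ := (inner ℝ (p u - p v) (p (op v u w) - p v) : ℝ) *
        inner ℝ (p w - p v) (p w - p v) -
        inner ℝ (p w - p v) (p (op v u w) - p v) * inner ℝ (p u - p v) (p w - p v) with hX
      set Y : ℝ := (inner ℝ (p w - p v) (p (op v u w) - p v) : ℝ) *
        inner ℝ (p u - p v) (p u - p v) -
        inner ℝ (p u - p v) (p (op v u w) - p v) * inner ℝ (p u - p v) (p w - p v) with hY
      set N : ℝ := (inner ℝ (crs (p u - p v) (p w - p v)) (crs (p u - p v) (p w - p v)) : ℝ)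
        with hN
      have h7 := hgen Finset.univ ![N - X - Y, X, Y, -N] (by
        simp only [Fin.sum_univ_four, Matrix.cons_val_zero, Matrix.cons_val_one, Matrix.cons_val]
        ring) (by
        simp only [Fin.sum_univ_four, Matrix.cons_val_zero, Matrix.cons_val_one, Matrix.cons_val]
        have : N • (p (op v u w) - p v) - (X • (p u - p v) + Y • (p w - p v)) = 0 := by
          rw [h6, sub_self]
        rw [← neg_eq_zero, ← this]
        module) 3 (Finset.mem_univ _)
      have h8 : N = 0 := by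
        have : -N = 0 := h7
        linarith
      exact FLG_.crs_ne h5 h8

end Pool.Agent.TSR
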