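import Pool.Agent.TSR.GDefs

/-!
# TSR, module GCON: the resolution is continuous
-/

set_option autoImplicit false

namespace Pool.Agent.TSR

open Set Filter Topology Pool.Agent.TSM

namespace GCON_

variable {V : Type} [Fintype V] [DecidableEq V]

theorem cl_const {X : Type} [TopologicalSpace X] (P : Prop) : IsClosed {_x : X | P} :=
  isClosed_const

theorem cl_imp {X : Type} [TopologicalSpace X] (P : Prop) (Q : X → Prop)
    (h : IsClosed {x | Q x}) : IsClosed {x | P → Q x} := by
  by_cases hP : P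
  · simpa [hP] using h
  · simp [hP]

theorem cl_InT (K : Surf V) (v u w : V) : IsClosed {x : K.body | InT v u w x.1} := by
  unfold InT
  have hc : ∀ y : V, Continuous (fun x : K.body => x.1 y) := fun y =>
    (continuous_apply y).comp continuous_subtype_val
  apply IsClosed.and
  · simp only [ofPred_forall]
    exact isClosed_iInter (fun y => isClosed_le continuous_const (hc y))
  apply IsClosed.and
  · exact isClosed_eq (continuous_finsetSum _ (fun y _ => hc y)) continuous_const
  · simp only [ofPred_forall]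
    apply isClosed_iInter
    intro y
    apply isClosed_iInter
    intro _
    exact isClosed_eq (hc y) continuous_const

theorem cl_Farr (K : Surf V) (p : V → E3) (Φ : Finset Aff) (ρ : ℝ) :
    IsClosed {x : K.body | Farr K p Φ ρ x.1} := by
  unfold Farr
  have hc : ∀ y : V, Continuous (fun x : K.body => x.1 y) := fun y =>
    (continuous_apply y).comp continuous_subtype_val
  simp only [ofPred_forall]
  apply isClosed_iInter
  intro y
  apply isClosed_iInter
  intro _
  exact isClosed_le (hc y) continuous_const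

theorem cl_core (K : Surf V) (p : V → E3) (Φ : Finset Aff) (ρ : ℝ) (v : V) :
    IsClosed {x : K.body | x.1 ∈ rCore K p Φ ρ v} := by
  have hc : ∀ y : V, Continuous (fun x : K.body => x.1 y) := fun y =>
    (continuous_apply y).comp continuous_subtype_val
  have e : {x : K.body | x.1 ∈ rCore K p Φ ρ v} =
      {x : K.body | ¬ K.Outer p Φ v ∧ 1 - ρ ≤ x.1 v} := by
    ext x
    constructor
    · rintro ⟨h1, _, h2⟩
      exact ⟨h1, h2⟩
    · rintro ⟨h1, h2⟩
      exact ⟨h1, x.2, h2⟩
  rw [e]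
  exact (cl_const _).and (isClosed_le continuous_const (hc v))

theorem cl_edge (K : Surf V) (p : V → E3) (Φ : Finset Aff) (op : V → V → V → V) (d ρ : ℝ)
    (v u w : V) : IsClosed {x : K.body | x.1 ∈ rEdge K p Φ op d ρ v u w} := by
  have hc : ∀ y : V, Continuous (fun x : K.body => x.1 y) := fun y =>
    (continuous_apply y).comp continuous_subtype_val
  have e : {x : K.body | x.1 ∈ rEdge K p Φ op d ρ v u w} =
      {x : K.body | Flag K p Φ op v u w ∧ Farr K p Φ ρ x.1 ∧ InT v u w x.1 ∧
        x.1 w ≤ d * min (x.1 v) (x.1 u)} := rfl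
  rw [e]
  refine (cl_const _).and ((cl_Farr K p Φ ρ).and ((cl_InT K v u w).and ?_))
  exact isClosed_le (hc w) (continuous_const.mul ((hc v).min (hc u)))

theorem cl_face (K : Surf V) (p : V → E3) (Φ : Finset Aff) (d ρ : ℝ)
    (v u w : V) : IsClosed {x : K.body | x.1 ∈ rFace K p Φ d ρ v u w} := by
  have hc : ∀ y : V, Continuous (fun x : K.body => x.1 y) := fun y =>
    (continuous_apply y).comp continuous_subtype_val
  have e : {x : K.body | x.1 ∈ rFace K p Φ d ρ v u w} =
      {x : K.body | Nf K p Φ v u w ∧ Farr K p Φ ρ x.1 ∧ InT v u w x.1 ∧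
        d / 2 * min (x.1 v) (x.1 u) ≤ x.1 w ∧ d / 2 * min (x.1 u) (x.1 w) ≤ x.1 v ∧
        d / 2 * min (x.1 w) (x.1 v) ≤ x.1 u} := rfl
  rw [e]
  refine (cl_const _).and ((cl_Farr K p Φ ρ).and ((cl_InT K v u w).and ?_))
  refine (isClosed_le (continuous_const.mul ((hc v).min (hc u))) (hc w)).and
    ((isClosed_le (continuous_const.mul ((hc u).min (hc w))) (hc v)).and
      (isClosed_le (continuous_const.mul ((hc w).min (hc v))) (hc u)))

theorem cl_fact (K : Surf V) (p : V → E3) (Φ : Finset Aff) (op : V → V → V → V) (d ρ : ℝ)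
    (v u w : V) : IsClosed {x : K.body | x.1 ∈ rFact K p Φ op d ρ v u w} := by
  have hc : ∀ y : V, Continuous (fun x : K.body => x.1 y) := fun y =>
    (continuous_apply y).comp continuous_subtype_val
  have e : {x : K.body | x.1 ∈ rFact K p Φ op d ρ v u w} =
      {x : K.body | Ft K p Φ v u w ∧ Farr K p Φ ρ x.1 ∧ InT v u w x.1 ∧
        (Flag K p Φ op v u w → d / 2 * min (x.1 v) (x.1 u) ≤ x.1 w) ∧
        (Flag K p Φ op u w v → d / 2 * min (x.1 u) (x.1 w) ≤ x.1 v) ∧
        (Flag K p Φ op w v u → d / 2 * min (x.1 w) (x.1 v) ≤ x.1 u)} := rfl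
  rw [e]
  refine (cl_const _).and ((cl_Farr K p Φ ρ).and ((cl_InT K v u w).and ?_))
  refine IsClosed.and (cl_imp _ _ ?_) (IsClosed.and (cl_imp _ _ ?_) (cl_imp _ _ ?_))
  · exact isClosed_le (continuous_const.mul ((hc v).min (hc u))) (hc w)
  · exact isClosed_le (continuous_const.mul ((hc u).min (hc w))) (hc v)
  · exact isClosed_le (continuous_const.mul ((hc w).min (hc v))) (hc u)

/-- the closed regions, indexed by a finite type -/
def reg (K : Surf V) (p : V → E3) (Φ : Finset Aff) (op : V → V → V → V) (d ρ : ℝ) :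
    V ⊕ (V × V × V) ⊕ (V × V × V) ⊕ (V × V × V) → Set K.body
  | Sum.inl v => {x | x.1 ∈ rCore K p Φ ρ v}
  | Sum.inr (Sum.inl t) => {x | x.1 ∈ rEdge K p Φ op d ρ t.1 t.2.1 t.2.2}
  | Sum.inr (Sum.inr (Sum.inl t)) => {x | x.1 ∈ rFace K p Φ d ρ t.1 t.2.1 t.2.2}
  | Sum.inr (Sum.inr (Sum.inr t)) => {x | x.1 ∈ rFact K p Φ op d ρ t.1 t.2.1 t.2.2}

theorem cont_lin (K : Surf V) (p : V → E3) : Continuous (fun x : K.body => lin p x.1) := by
  unfold lin
  refine continuous_finsetSum _ (fun y _ => ?_)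
  exact ((continuous_apply y).comp continuous_subtype_val).smul continuous_const

end GCON_

open GCON_ in
theorem gcon_proof (h : Stmt_GCOV) : Stmt_GCON := by
  intro V _ _ K p Φ op d ρ ε Dc De Df hop hP D hR
  have hval : Continuous (fun x : K.body => x.1) := continuous_subtype_val
  refine LocallyFinite.continuous (f := reg K p Φ op d ρ) (locallyFinite_of_finite _) ?_ ?_ ?_
  · rw [eq_univ_iff_forall]
    intro x
    rw [mem_iUnion]
    rcases h V K p Φ op d ρ hop hP.d0 hP.r0 x.1 x.2 with ⟨v, hv⟩ | ⟨v, u, w, hv⟩ | ⟨v, u, w, hv⟩ |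
      ⟨v, u, w, hv⟩
    · exact ⟨Sum.inl v, hv⟩
    · exact ⟨Sum.inr (Sum.inl (v, u, w)), hv⟩
    · exact ⟨Sum.inr (Sum.inr (Sum.inl (v, u, w))), hv⟩
    · exact ⟨Sum.inr (Sum.inr (Sum.inr (v, u, w))), hv⟩
  · rintro (v | t | t | t)
    · exact cl_core K p Φ ρ v
    · exact cl_edge K p Φ op d ρ _ _ _
    · exact cl_face K p Φ d ρ _ _ _
    · exact cl_fact K p Φ op d ρ _ _ _
  · rintro (v | t | t | t)
    · have h1 : ContinuousOn (fun x : K.body => Dc v x.1) {x | x.1 ∈ rCore K p Φ ρ v} :=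
        (hP.cc v).comp hval.continuousOn (fun x hx => hx)
      exact h1.congr (fun x hx => (hR x).1 v hx)
    · have h1 : ContinuousOn (fun x : K.body => De t.1 t.2.1 t.2.2 x.1)
          {x | x.1 ∈ rEdge K p Φ op d ρ t.1 t.2.1 t.2.2} :=
        (hP.ec t.1 t.2.1 t.2.2).comp hval.continuousOn (fun x hx => hx)
      exact h1.congr (fun x hx => (hR x).2.1 _ _ _ hx)
    · have h1 : ContinuousOn (fun x : K.body => Df t.1 t.2.1 t.2.2 x.1)
          {x | x.1 ∈ rFace K p Φ d ρ t.1 t.2.1 t.2.2} :=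
        (hP.fc t.1 t.2.1 t.2.2).comp hval.continuousOn (fun x hx => hx)
      exact h1.congr (fun x hx => (hR x).2.2.1 _ _ _ hx)
    · exact (cont_lin K p).continuousOn.congr (fun x hx => (hR x).2.2.2 _ _ _ hx)

end Pool.Agent.TSR
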