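import Pool.Agent.TSR.GDefs
import Pool.Agent.TSR.Base

/-!
# TSR: GCOV, the regions cover the body
-/

set_option autoImplicit false

namespace Pool.Agent.TSR

open Set Filter Topology Pool.Agent.TSM

theorem gcov_proof : Stmt_GCOV := by
  intro V _ _ K p Φ op d ρ hop hd hρ x hx
  by_cases hc : ∃ v, ¬ K.Outer p Φ v ∧ 1 - ρ ≤ x v
  · obtain ⟨v, hv, hxv⟩ := hc
    exact Or.inl ⟨v, hv, hx, hxv⟩
  · right
    have hF : Farr K p Φ ρ x := by
      intro v hv
      by_contra h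
      exact hc ⟨v, hv, by linarith [not_le.1 h]⟩
    obtain ⟨v, u, w, ht, hI⟩ := body_InT hx
    have nn : ∀ y, 0 ≤ x y := hI.1
    have key : ∀ a b c : V, ¬ x c ≤ d * min (x a) (x b) → d / 2 * min (x a) (x b) ≤ x c := by
      intro a b c h
      have h0 : 0 ≤ min (x a) (x b) := le_min (nn a) (nn b)
      have h1 : d / 2 * min (x a) (x b) ≤ d * min (x a) (x b) :=
        mul_le_mul_of_nonneg_right (by linarith) h0
      linarith [not_le.1 h]
    rcases nf_or_ft (p := p) (Φ := Φ) ht with hn | hf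
    · by_cases h1 : x w ≤ d * min (x v) (x u)
      · exact Or.inl ⟨v, u, w, hn.flag, hF, hI, h1⟩
      by_cases h2 : x v ≤ d * min (x u) (x w)
      · exact Or.inl ⟨u, w, v, hn.cyc.flag, hF, hI.cyc, h2⟩
      by_cases h3 : x u ≤ d * min (x w) (x v)
      · exact Or.inl ⟨w, v, u, hn.cyc.cyc.flag, hF, hI.cyc.cyc, h3⟩
      · exact Or.inr (Or.inl ⟨v, u, w, hn, hF, hI, key _ _ _ h1, key _ _ _ h2, key _ _ _ h3⟩)
    · by_cases h1 : Flag K p Φ op v u w ∧ x w ≤ d * min (x v) (x u)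
      · exact Or.inl ⟨v, u, w, h1.1, hF, hI, h1.2⟩
      by_cases h2 : Flag K p Φ op u w v ∧ x v ≤ d * min (x u) (x w)
      · exact Or.inl ⟨u, w, v, h2.1, hF, hI.cyc, h2.2⟩
      by_cases h3 : Flag K p Φ op w v u ∧ x u ≤ d * min (x w) (x v)
      · exact Or.inl ⟨w, v, u, h3.1, hF, hI.cyc.cyc, h3.2⟩
      · exact Or.inr (Or.inr ⟨v, u, w, hf, hF, hI, fun h => key _ _ _ fun h' => h1 ⟨h, h'⟩,
          fun h => key _ _ _ fun h' => h2 ⟨h, h'⟩, fun h => key _ _ _ fun h' => h3 ⟨h, h'⟩⟩)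

end Pool.Agent.TSR
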