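import Pool.Agent.TSR.VStmt

/-!
# TSR: R-GLUE, definitions: the closed regions and the pieces of the global resolution
-/

set_option autoImplicit false

namespace Pool.Agent.TSR

open Set Filter Topology Pool.Agent.TSM

variable {V : Type} [Fintype V] [DecidableEq V]

/-- not too close to a non-outer vertex -/
def Farr (K : Surf V) (p : V → E3) (Φ : Finset Aff) (ρ : ℝ) (x : V → ℝ) : Prop :=
  ∀ v, ¬ K.Outer p Φ v → x v ≤ 1 - ρ / 2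

/-- core of the non-outer vertex `v` -/
def rCore (K : Surf V) (p : V → E3) (Φ : Finset Aff) (ρ : ℝ) (v : V) : Set (V → ℝ) :=
  {x | ¬ K.Outer p Φ v ∧ x ∈ K.body ∧ 1 - ρ ≤ x v}

/-- the part of the triangle `v u w` near its active edge `v u` -/
def rEdge (K : Surf V) (p : V → E3) (Φ : Finset Aff) (op : V → V → V → V) (d ρ : ℝ)
    (v u w : V) : Set (V → ℝ) :=
  {x | Flag K p Φ op v u w ∧ Farr K p Φ ρ x ∧ InT v u w x ∧ x w ≤ d * min (x v) (x u)}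

/-- the middle part of the triangle `v u w` (not in a facet plane) -/
def rFace (K : Surf V) (p : V → E3) (Φ : Finset Aff) (d ρ : ℝ) (v u w : V) : Set (V → ℝ) :=
  {x | Nf K p Φ v u w ∧ Farr K p Φ ρ x ∧ InT v u w x ∧ d / 2 * min (x v) (x u) ≤ x w ∧
    d / 2 * min (x u) (x w) ≤ x v ∧ d / 2 * min (x w) (x v) ≤ x u}

/-- the part of the facet triangle `v u w` away from its active edges -/
def rFact (K : Surf V) (p : V → E3) (Φ : Finset Aff) (op : V → V → V → V) (d ρ : ℝ)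
    (v u w : V) : Set (V → ℝ) :=
  {x | Ft K p Φ v u w ∧ Farr K p Φ ρ x ∧ InT v u w x ∧
    (Flag K p Φ op v u w → d / 2 * min (x v) (x u) ≤ x w) ∧
    (Flag K p Φ op u w v → d / 2 * min (x u) (x w) ≤ x v) ∧
    (Flag K p Φ op w v u → d / 2 * min (x w) (x v) ≤ x u)}

/-- at most one facet plane contains `q` -/
def OneF (Φ : Finset Aff) (q : E3) : Prop :=
  ∀ φ ∈ Φ, ∀ ψ ∈ Φ, ev φ q = 0 → ev ψ q = 0 → φ = ψ

/-- the pieces of the global resolution: core maps `Dc v`, edge maps `De v u w`,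
face maps `Df v u w` -/
structure Pcs (K : Surf V) (p : V → E3) (Φ : Finset Aff) (op : V → V → V → V) (d ρ ε : ℝ)
    (Dc : V → (V → ℝ) → E3) (De Df : V → V → V → (V → ℝ) → E3) : Prop where
  d0 : 0 < d
  d1 : d < 1 / 4
  r0 : 0 < ρ
  r1 : ρ < 1 / 4
  ee : 0 < ε
  /-- continuity -/
  cc : ∀ v, ContinuousOn (Dc v) (rCore K p Φ ρ v)
  ec : ∀ v u w, ContinuousOn (De v u w) (rEdge K p Φ op d ρ v u w)
  fc : ∀ v u w, ContinuousOn (Df v u w) (rFace K p Φ d ρ v u w)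
  /-- symmetry -/
  es : ∀ v u w, ∀ x ∈ rEdge K p Φ op d ρ v u w, De u v w x = De v u w x
  eo : ∀ v u w, ∀ x ∈ rEdge K p Φ op d ρ v u w, x w = 0 → De v u (op v u w) x = De v u w x
  fs : ∀ v u w, ∀ x ∈ rFace K p Φ d ρ v u w, Df u v w x = Df v u w x ∧ Df u w v x = Df v u w x
  /-- compatibility -/
  ce : ∀ v u w, ∀ x ∈ rEdge K p Φ op d ρ v u w, 1 - ρ ≤ x v → De v u w x = Dc v x
  cf : ∀ v u w, ∀ x ∈ rFace K p Φ d ρ v u w, 1 - ρ ≤ x v → Df v u w x = Dc v x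
  ct : ∀ v u w, ∀ x ∈ rFact K p Φ op d ρ v u w, ¬ K.Outer p Φ v → 1 - ρ ≤ x v →
    Dc v x = lin p x
  ef : ∀ v u w, ∀ x ∈ rEdge K p Φ op d ρ v u w, x ∈ rFace K p Φ d ρ v u w →
    De v u w x = Df v u w x
  et : ∀ v u w, ∀ x ∈ rEdge K p Φ op d ρ v u w, x ∈ rFact K p Φ op d ρ v u w →
    De v u w x = lin p x
  /-- germs and injectivity -/
  cg : ∀ v, ¬ K.Outer p Φ v → ∀ x : K.body, 1 - ρ < x.1 v →
    Good (fun x' : K.body => Dc v x'.1) x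
  eg : ∀ v u w, ∀ x ∈ rEdge K p Φ op d ρ v u w, ∃ a b c : Aff, Indep a b c ∧
    ∀ᶠ y in 𝓝 x, (y ∈ rEdge K p Φ op d ρ v u w → G3 a b c (De v u w y) = 0) ∧
      (y ∈ rEdge K p Φ op d ρ v u (op v u w) → G3 a b c (De v u (op v u w) y) = 0)
  ei : ∀ v u w, ∀ x ∈ rEdge K p Φ op d ρ v u w,
    (∀ y ∈ rEdge K p Φ op d ρ v u w, De v u w x = De v u w y → x = y) ∧
    (∀ y ∈ rEdge K p Φ op d ρ v u (op v u w), De v u w x = De v u (op v u w) y → x = y)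
  fg : ∀ v u w, ∀ x ∈ rFace K p Φ d ρ v u w, ∃ a b c : Aff, Indep a b c ∧
    ∀ᶠ y in 𝓝 x, y ∈ rFace K p Φ d ρ v u w → G3 a b c (Df v u w y) = 0
  fi : ∀ v u w, ∀ x ∈ rFace K p Φ d ρ v u w, ∀ y ∈ rFace K p Φ d ρ v u w,
    Df v u w x = Df v u w y → x = y
  /-- values in the hull, at most one active facet, closeness -/
  ch : ∀ v, ∀ x ∈ rCore K p Φ ρ v, Dc v x ∈ hull Φ ∧ OneF Φ (Dc v x) ∧ ‖Dc v x - lin p x‖ < ε
  eh : ∀ v u w, ∀ x ∈ rEdge K p Φ op d ρ v u w,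
    De v u w x ∈ hull Φ ∧ OneF Φ (De v u w x) ∧ ‖De v u w x - lin p x‖ < ε
  fh : ∀ v u w, ∀ x ∈ rFace K p Φ d ρ v u w,
    Df v u w x ∈ hull Φ ∧ OneF Φ (Df v u w x) ∧ ‖Df v u w x - lin p x‖ < ε

/-- `q` is the value given by all regions which contain `x` -/
def Rel (K : Surf V) (p : V → E3) (Φ : Finset Aff) (op : V → V → V → V) (d ρ : ℝ)
    (Dc : V → (V → ℝ) → E3) (De Df : V → V → V → (V → ℝ) → E3) (x : V → ℝ) (q : E3) : Prop :=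
  (∀ v, x ∈ rCore K p Φ ρ v → q = Dc v x) ∧
  (∀ v u w, x ∈ rEdge K p Φ op d ρ v u w → q = De v u w x) ∧
  (∀ v u w, x ∈ rFace K p Φ d ρ v u w → q = Df v u w x) ∧
  (∀ v u w, x ∈ rFact K p Φ op d ρ v u w → q = lin p x)

/-! ### statements -/

/-- GCOV: the regions cover the body. -/
def Stmt_GCOV : Prop := ∀ (V : Type) [Fintype V] [DecidableEq V] (K : Surf V) (p : V → E3)
  (Φ : Finset Aff) (op : V → V → V → V) (d ρ : ℝ), IsOpp K op → 0 < d → 0 < ρ →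
  ∀ x ∈ K.body, (∃ v, x ∈ rCore K p Φ ρ v) ∨ (∃ v u w, x ∈ rEdge K p Φ op d ρ v u w) ∨
    (∃ v u w, x ∈ rFace K p Φ d ρ v u w) ∨ ∃ v u w, x ∈ rFact K p Φ op d ρ v u w

/-- GREL: the pieces are compatible. -/
def Stmt_GREL : Prop := ∀ (V : Type) [Fintype V] [DecidableEq V] (K : Surf V) (p : V → E3)
  (Φ : Finset Aff) (op : V → V → V → V) (d ρ ε : ℝ) (Dc : V → (V → ℝ) → E3)
  (De Df : V → V → V → (V → ℝ) → E3), IsOpp K op → Pcs K p Φ op d ρ ε Dc De Df →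
  ∀ x ∈ K.body, ∃ q, Rel K p Φ op d ρ Dc De Df x q

/-- GCON (uses GCOV): the resolution is continuous. -/
def Stmt_GCON : Prop := ∀ (V : Type) [Fintype V] [DecidableEq V] (K : Surf V) (p : V → E3)
  (Φ : Finset Aff) (op : V → V → V → V) (d ρ ε : ℝ) (Dc : V → (V → ℝ) → E3)
  (De Df : V → V → V → (V → ℝ) → E3), IsOpp K op → Pcs K p Φ op d ρ ε Dc De Df →
  ∀ D : K.body → E3, (∀ x : K.body, Rel K p Φ op d ρ Dc De Df x.1 (D x)) → Continuous D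

/-- GPOS: the possible positions of a point. -/
def Stmt_GPOS : Prop := ∀ (V : Type) [Fintype V] [DecidableEq V] (K : Surf V) (p : V → E3)
  (Φ : Finset Aff) (op : V → V → V → V) (d ρ : ℝ), IsOpp K op → 0 < d → d < 1 / 4 → 0 < ρ →
  ρ < 1 / 4 → ∀ x : K.body,
  (∃ v, ¬ K.Outer p Φ v ∧ 1 - ρ < x.1 v) ∨
  (∃ v u w, x.1 ∈ rEdge K p Φ op d ρ v u w ∧ ∀ᶠ y : K.body in 𝓝 x,
    y.1 ∈ rEdge K p Φ op d ρ v u w ∨ y.1 ∈ rEdge K p Φ op d ρ v u (op v u w)) ∨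
  (∃ v u w, x.1 ∈ rFace K p Φ d ρ v u w ∧ ∀ᶠ y : K.body in 𝓝 x,
    y.1 ∈ rFace K p Φ d ρ v u w) ∨
  (∀ᶠ y : K.body in 𝓝 x, ∃ v u w, y.1 ∈ rFact K p Φ op d ρ v u w ∧ InT v u w x.1)

/-- GGA (uses GPOS): points with at least two active facets are far from cores, edges, faces;
the resolution is `OutGood` there; the other points are good. -/
def Stmt_GGA : Prop := ∀ (V : Type) [Fintype V] [DecidableEq V] (K : Surf V) (p : V → E3)
  (Φ : Finset Aff) (op : V → V → V → V) (d ρ ε : ℝ) (Dc : V → (V → ℝ) → E3)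
  (De Df : V → V → V → (V → ℝ) → E3), K.Framed p Φ → IsOpp K op →
  Pcs K p Φ op d ρ ε Dc De Df →
  ∀ D : K.body → E3, (∀ x : K.body, Rel K p Φ op d ρ Dc De Df x.1 (D x)) → ∀ x : K.body,
  ((∃ v, ¬ K.Outer p Φ v ∧ 1 - ρ < x.1 v) ∨
  (∃ v u w, x.1 ∈ rEdge K p Φ op d ρ v u w ∧ ∀ᶠ y : K.body in 𝓝 x,
    y.1 ∈ rEdge K p Φ op d ρ v u w ∨ y.1 ∈ rEdge K p Φ op d ρ v u (op v u w)) ∨
  (∃ v u w, x.1 ∈ rFace K p Φ d ρ v u w ∧ ∀ᶠ y : K.body in 𝓝 x,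
    y.1 ∈ rFace K p Φ d ρ v u w)) → Good D x ∧ OneF Φ (D x)

/-- GGB: goodness where `D` is the given map. -/
def Stmt_GGB : Prop := ∀ (V : Type) [Fintype V] [DecidableEq V] (K : Surf V) (p : V → E3)
  (Φ : Finset Aff), K.Framed p Φ → ∀ (D : K.body → E3) (x : K.body),
  (∀ᶠ y : K.body in 𝓝 x, D y = lin p y.1 ∧ ∃ v u w, Ft K p Φ v u w ∧ InT v u w y.1 ∧
    InT v u w x.1) →
  (OneF Φ (D x) → Good D x) ∧ OutGood Φ D x

/-- GEX: extreme points. -/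
def Stmt_GEX : Prop := ∀ (V : Type) [Fintype V] [DecidableEq V] (K : Surf V) (p : V → E3)
  (Φ : Finset Aff), K.Framed p Φ →
  (∀ q : E3, OneF Φ q → q ∉ extremePoints ℝ (hull Φ)) ∧
  ∀ x y : V → ℝ, x ∈ K.body → y ∈ K.body → lin p x = lin p y →
    lin p x ∈ extremePoints ℝ (hull Φ) → x = y

/-- HUL: margins of the facet planes near the non-outer vertices, active edges and triangles
not in facet planes. -/
def Stmt_HUL : Prop := ∀ (V : Type) [Fintype V] [DecidableEq V] (K : Surf V) (p : V → E3)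
  (Φ : Finset Aff) (op : V → V → V → V), K.Framed p Φ → IsOpp K op →
  (∀ v, ¬ K.Outer p Φ v → ∃ δ : ℝ, 0 < δ ∧ ∀ q : E3, ‖q - p v‖ ≤ δ →
    (∀ φ ∈ Φ, ev φ (p v) = 0 → ev φ q ≤ 0) → q ∈ hull Φ ∧ OneF Φ q) ∧
  ∃ c : ℝ, 0 < c ∧
    (∀ v u w, Flag K p Φ op v u w → ∀ x, InT v u w x → 0 < min (x v) (x u) →
      ∀ q : E3, ‖q - lin p x‖ ≤ c * min (x v) (x u) →
      (∀ φ ∈ Φ, ev φ (p v) = 0 → ev φ (p u) = 0 → ev φ q ≤ 0) → q ∈ hull Φ ∧ OneF Φ q) ∧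
    (∀ v u w, Nf K p Φ v u w → ∀ x, InT v u w x → 0 < min (x v) (min (x u) (x w)) →
      ∀ q : E3, ‖q - lin p x‖ ≤ c * min (x v) (min (x u) (x w)) → q ∈ hull Φ ∧ OneF Φ q)

/-- POC: pocket edges. -/
def Stmt_POC : Prop := ∀ (V : Type) [Fintype V] [DecidableEq V] (K : Surf V) (p : V → E3)
  (Φ : Finset Aff) (op : V → V → V → V), K.Framed p Φ → IsOpp K op →
  ∀ v u w, Flag K p Φ op v u w → ∀ φ ∈ Φ, ev φ (p v) = 0 → ev φ (p u) = 0 →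
    (Ft K p Φ v u w ∧
      ∀ q : E3, 0 ≤ sg p op v u w * ev (P0 p v u w) q → ev φ q ≤ 0) ∨
    (Ft K p Φ v u (op v u w) ∧
      ∀ q : E3, 0 ≤ sg p op v u (op v u w) * ev (P0 p v u (op v u w)) q → ev φ q ≤ 0)

/-- GLU (uses GCOV, GREL, GCON, GPOS, GGA, GGB, GEX): the gluing theorem. -/
def Stmt_GLU : Prop := ∀ (V : Type) [Fintype V] [DecidableEq V] (K : Surf V) (p : V → E3)
  (Φ : Finset Aff) (op : V → V → V → V) (d ρ ε : ℝ) (Dc : V → (V → ℝ) → E3)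
  (De Df : V → V → V → (V → ℝ) → E3), K.Framed p Φ → IsOpp K op →
  Pcs K p Φ op d ρ ε Dc De Df →
  ∃ D : K.body → E3, PreSmooth Φ D ∧ ∀ x, ‖D x - K.map p x‖ < ε

end Pool.Agent.TSR
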