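import Pool.Agent.TSR.EStmts

/-!
# TSR, module GEN: generic perturbation of finitely many planes

Every condition is the non-vanishing of a function which is a polynomial along lines of the space
of all families of planes; such functions are closed under products.
-/

set_option autoImplicit false

namespace Pool.Agent.TSR

open Set Filter Topology Pool.Agent.TSM

namespace GEN_

variable {I : Type}

/-- the line through two families -/
noncomputable def ln (Z W : I → Aff) (t : ℝ) (i : I) : Aff := Z i + t • (W i - Z i)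

/-- polynomial along lines -/
def PP (f : (I → Aff) → ℝ) : Prop :=
  ∀ Z W : I → Aff, ∃ p : Polynomial ℝ, ∀ t : ℝ, p.eval t = f (ln Z W t)

theorem PP.const (c : ℝ) : PP (fun _ : I → Aff => c) :=
  fun _ _ => ⟨Polynomial.C c, fun t => by simp⟩

theorem PP.add {f g : (I → Aff) → ℝ} (hf : PP f) (hg : PP g) : PP (fun Z => f Z + g Z) := by
  intro Z W
  obtain ⟨p, hp⟩ := hf Z W
  obtain ⟨q, hq⟩ := hg Z W
  exact ⟨p + q, fun t => by rw [Polynomial.eval_add, hp, hq]⟩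

theorem PP.sub {f g : (I → Aff) → ℝ} (hf : PP f) (hg : PP g) : PP (fun Z => f Z - g Z) := by
  intro Z W
  obtain ⟨p, hp⟩ := hf Z W
  obtain ⟨q, hq⟩ := hg Z W
  exact ⟨p - q, fun t => by rw [Polynomial.eval_sub, hp, hq]⟩

theorem PP.mul {f g : (I → Aff) → ℝ} (hf : PP f) (hg : PP g) : PP (fun Z => f Z * g Z) := by
  intro Z W
  obtain ⟨p, hp⟩ := hf Z W
  obtain ⟨q, hq⟩ := hg Z W
  exact ⟨p * q, fun t => by rw [Polynomial.eval_mul, hp, hq]⟩

theorem PP.coord (i : I) (a : Fin 3) : PP (fun Z : I → Aff => (Z i).1 a) := by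
  intro Z W
  refine ⟨Polynomial.C ((Z i).1 a) + Polynomial.X * Polynomial.C ((W i).1 a - (Z i).1 a),
    fun t => ?_⟩
  simp [ln]

theorem PP.off (i : I) : PP (fun Z : I → Aff => (Z i).2) := by
  intro Z W
  refine ⟨Polynomial.C ((Z i).2) + Polynomial.X * Polynomial.C ((W i).2 - (Z i).2),
    fun t => ?_⟩
  simp [ln]

/-- a vector depending on the family with polynomial coordinates -/
def PV (v : (I → Aff) → E3) : Prop := ∀ a : Fin 3, PP (fun Z => v Z a)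

theorem PV.const (c : E3) : PV (fun _ : I → Aff => c) := fun a => PP.const (c a)

theorem PV.coord (i : I) : PV (fun Z : I → Aff => (Z i).1) := fun a => PP.coord i a

theorem PP.det3 {u v w : (I → Aff) → E3} (hu : PV u) (hv : PV v) (hw : PV w) :
    PP (fun Z => det3 (u Z) (v Z) (w Z)) := by
  unfold TSM.det3
  exact (((hu 0).mul (((hv 1).mul (hw 2)).sub ((hv 2).mul (hw 1)))).sub
    ((hu 1).mul (((hv 0).mul (hw 2)).sub ((hv 2).mul (hw 0))))).add
    ((hu 2).mul (((hv 0).mul (hw 1)).sub ((hv 1).mul (hw 0))))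

/-- the four by four determinant -/
noncomputable def D4 (P Q R T : Aff) : ℝ :=
  P.2 * det3 Q.1 R.1 T.1 - Q.2 * det3 P.1 R.1 T.1 + R.2 * det3 P.1 Q.1 T.1 - T.2 * det3 P.1 Q.1 R.1

theorem D4_zero {P Q R T : Aff} {y : E3} (h1 : ev P y = 0) (h2 : ev Q y = 0) (h3 : ev R y = 0)
    (h4 : ev T y = 0) : D4 P Q R T = 0 := by
  have inn : ∀ a b : E3, (inner ℝ a b : ℝ) = a 0 * b 0 + a 1 * b 1 + a 2 * b 2 := by
    intro a b
    simp [PiLp.inner_apply, Fin.sum_univ_three, mul_comm]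
  unfold ev at h1 h2 h3 h4
  rw [inn] at h1 h2 h3 h4
  have e1 : P.2 = P.1 0 * y 0 + P.1 1 * y 1 + P.1 2 * y 2 := by linarith
  have e2 : Q.2 = Q.1 0 * y 0 + Q.1 1 * y 1 + Q.1 2 * y 2 := by linarith
  have e3 : R.2 = R.1 0 * y 0 + R.1 1 * y 1 + R.1 2 * y 2 := by linarith
  have e4 : T.2 = T.1 0 * y 0 + T.1 1 * y 1 + T.1 2 * y 2 := by linarith
  unfold D4
  rw [e1, e2, e3, e4]
  simp only [det3]
  ring

/-- the good functions -/
def GF (f : (I → Aff) → ℝ) : Prop := PP f ∧ ∃ W, f W ≠ 0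

theorem ln_zero (Z W : I → Aff) : ln Z W 0 = Z := by
  funext i
  simp [ln]

theorem ln_one (Z W : I → Aff) : ln Z W 1 = W := by
  funext i
  simp [ln]

theorem GF.mul {f g : (I → Aff) → ℝ} (hf : GF f) (hg : GF g) : GF (fun Z => f Z * g Z) := by
  refine ⟨hf.1.mul hg.1, ?_⟩
  obtain ⟨W, hW⟩ := hf.2
  obtain ⟨W', hW'⟩ := hg.2
  obtain ⟨p, hp⟩ := hf.1 W W'
  obtain ⟨q, hq⟩ := hg.1 W W'
  have hp0 : p ≠ 0 := by
    rintro rfl
    have := hp 0
    rw [ln_zero, Polynomial.eval_zero] at this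
    exact hW this.symm
  have hq0 : q ≠ 0 := by
    rintro rfl
    have := hq 1
    rw [ln_one, Polynomial.eval_zero] at this
    exact hW' this.symm
  obtain ⟨t, ht⟩ := Set.infinite_univ.exists_notMem_finset (p * q).roots.toFinset
  rw [Multiset.mem_toFinset, Polynomial.mem_roots (mul_ne_zero hp0 hq0), Polynomial.IsRoot,
    Polynomial.eval_mul, hp, hq] at ht
  exact ⟨ln W W' t, ht.2⟩

theorem GF.prod {K : Type} (s : Finset K) (f : K → (I → Aff) → ℝ) (h : ∀ k ∈ s, GF (f k)) :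
    GF (fun Z => ∏ k ∈ s, f k Z) := by
  classical
  induction s using Finset.induction_on with
  | empty =>
    refine ⟨?_, ⟨fun _ => 0, ?_⟩⟩
    · simpa using PP.const (I := I) 1
    · simp
  | insert a s ha ih =>
    have h1 := ih fun k hk => h k (Finset.mem_insert_of_mem hk)
    have h2 := (h a (Finset.mem_insert_self a s)).mul h1
    simpa only [Finset.prod_insert ha] using h2

/-- good functions are non-zero near every family -/
theorem GF.near {f : (I → Aff) → ℝ} (hf : GF f) (Z₀ : I → Aff) :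
    ∃ W : I → Aff, ∀ τ : ℝ, 0 < τ → ∃ t : ℝ, 0 < t ∧ t < τ ∧ f (ln Z₀ W t) ≠ 0 := by
  obtain ⟨W, hW⟩ := hf.2
  refine ⟨W, ?_⟩
  intro τ hτ
  obtain ⟨p, hp⟩ := hf.1 Z₀ W
  have hp0 : p ≠ 0 := by
    rintro rfl
    have := hp 1
    rw [ln_one, Polynomial.eval_zero] at this
    exact hW this.symm
  obtain ⟨t, ht1, ht2⟩ := (Set.Ioo_infinite hτ).exists_notMem_finset p.roots.toFinset
  refine ⟨t, ht1.1, ht1.2, ?_⟩
  rw [← hp]
  intro h0
  exact ht2 (by rw [Multiset.mem_toFinset, Polynomial.mem_roots hp0]; exact h0)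

/-! ### the four conditions -/

/-- basis vectors -/
noncomputable def e (a : Fin 3) : E3 := EuclideanSpace.single a 1

theorem det_e : det3 (e 0) (e 1) (e 2) = 1 := by
  simp [det3, e]

theorem exists_compl {A : E3} (hA : A ≠ 0) : ∃ b c : E3, det3 A b c ≠ 0 := by
  by_contra hc
  push Not at hc
  apply hA
  have h0 := hc (e 1) (e 2)
  have h1 := hc (e 0) (e 2)
  have h2 := hc (e 0) (e 1)
  simp [det3, e] at h0 h1 h2
  ext i
  fin_cases i
  · simpa using h0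
  · simpa using h1
  · simpa using h2

theorem gf_a {A : Aff} (hA : A.1 ≠ 0) {i j : I} (hij : i ≠ j) :
    GF (fun Z : I → Aff => det3 A.1 (Z i).1 (Z j).1) := by
  classical
  refine ⟨PP.det3 (PV.const _) (PV.coord i) (PV.coord j), ?_⟩
  obtain ⟨b, c, h⟩ := exists_compl hA
  refine ⟨fun l => if l = i then (b, 0) else (c, 0), ?_⟩
  simp only [if_true, if_neg hij.symm]
  exact h

theorem gf_b {i j k : I} (hij : i ≠ j) (hik : i ≠ k) (hjk : j ≠ k) :
    GF (fun Z : I → Aff => det3 (Z i).1 (Z j).1 (Z k).1) := by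
  classical
  refine ⟨PP.det3 (PV.coord i) (PV.coord j) (PV.coord k), ?_⟩
  refine ⟨fun l => if l = i then (e 0, 0) else if l = j then (e 1, 0) else (e 2, 0), ?_⟩
  simp only [if_true, if_neg hij.symm, if_neg hik.symm, if_neg hjk.symm]
  rw [det_e]
  exact one_ne_zero

theorem gf_c {A : Aff} (hA : A.1 ≠ 0) {i j k : I} (hij : i ≠ j) (hik : i ≠ k) (hjk : j ≠ k) :
    GF (fun Z : I → Aff => D4 A (Z i) (Z j) (Z k)) := by
  classical
  constructor
  · unfold D4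
    exact ((((PP.const A.2).mul (PP.det3 (PV.coord i) (PV.coord j) (PV.coord k))).sub
      ((PP.off i).mul (PP.det3 (PV.const _) (PV.coord j) (PV.coord k)))).add
      ((PP.off j).mul (PP.det3 (PV.const _) (PV.coord i) (PV.coord k)))).sub
      ((PP.off k).mul (PP.det3 (PV.const _) (PV.coord i) (PV.coord j)))
  · obtain ⟨b, c, h⟩ := exists_compl hA
    refine ⟨fun l => if l = i then (b, 0) else if l = j then (c, 0) else (0, 1), ?_⟩
    simp only [if_true, if_neg hij.symm, if_neg hik.symm, if_neg hjk.symm]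
    unfold D4
    have e1 : det3 b c (0 : E3) = 0 := by simp [det3]
    simp only [e1]
    simpa using h

theorem gf_d {i j k l : I} (hij : i ≠ j) (hik : i ≠ k) (hjk : j ≠ k) (hli : l ≠ i) (hlj : l ≠ j)
    (hlk : l ≠ k) : GF (fun Z : I → Aff => D4 (Z i) (Z j) (Z k) (Z l)) := by
  classical
  constructor
  · unfold D4
    exact ((((PP.off i).mul (PP.det3 (PV.coord j) (PV.coord k) (PV.coord l))).sub
      ((PP.off j).mul (PP.det3 (PV.coord i) (PV.coord k) (PV.coord l)))).add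
      ((PP.off k).mul (PP.det3 (PV.coord i) (PV.coord j) (PV.coord l)))).sub
      ((PP.off l).mul (PP.det3 (PV.coord i) (PV.coord j) (PV.coord k)))
  · refine ⟨fun q => if q = i then (e 0, 0) else if q = j then (e 1, 0) else
      if q = k then (e 2, 0) else (0, 1), ?_⟩
    simp only [if_true, if_neg hij.symm, if_neg hik.symm, if_neg hjk.symm, if_neg hli,
      if_neg hlj, if_neg hlk]
    unfold D4
    simp only [det_e]
    norm_num

end GEN_

open GEN_ in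
theorem GEN_proof : Stmt_GEN := by
  classical
  intro I S 𝒜 h𝒜 Z₀ δ hδ
  -- the four products
  set Fa : (I → Aff) → ℝ := fun Z => ∏ q ∈ (S ×ˢ S ×ˢ 𝒜).filter (fun q => q.1 ≠ q.2.1),
    det3 q.2.2.1 (Z q.1).1 (Z q.2.1).1 with hFa
  set Fb : (I → Aff) → ℝ := fun Z => ∏ q ∈ (S ×ˢ S ×ˢ S).filter
    (fun q => q.1 ≠ q.2.1 ∧ q.1 ≠ q.2.2 ∧ q.2.1 ≠ q.2.2),
    det3 (Z q.1).1 (Z q.2.1).1 (Z q.2.2).1 with hFb
  set Fc : (I → Aff) → ℝ := fun Z => ∏ q ∈ (𝒜 ×ˢ S ×ˢ S ×ˢ S).filter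
    (fun q => q.2.1 ≠ q.2.2.1 ∧ q.2.1 ≠ q.2.2.2 ∧ q.2.2.1 ≠ q.2.2.2),
    D4 q.1 (Z q.2.1) (Z q.2.2.1) (Z q.2.2.2) with hFc
  set Fd : (I → Aff) → ℝ := fun Z => ∏ q ∈ (S ×ˢ S ×ˢ S ×ˢ S).filter
    (fun q => q.2.1 ≠ q.2.2.1 ∧ q.2.1 ≠ q.2.2.2 ∧ q.2.2.1 ≠ q.2.2.2 ∧ q.1 ≠ q.2.1 ∧
      q.1 ≠ q.2.2.1 ∧ q.1 ≠ q.2.2.2),
    D4 (Z q.2.1) (Z q.2.2.1) (Z q.2.2.2) (Z q.1) with hFd
  have ga : GF Fa := GF.prod _ _ (by
    rintro ⟨i, j, A⟩ hq
    simp only [Finset.mem_filter, Finset.mem_product] at hq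
    exact gf_a (h𝒜 A hq.1.2.2) hq.2)
  have gb : GF Fb := GF.prod _ _ (by
    rintro ⟨i, j, k⟩ hq
    simp only [Finset.mem_filter, Finset.mem_product] at hq
    exact gf_b hq.2.1 hq.2.2.1 hq.2.2.2)
  have gc : GF Fc := GF.prod _ _ (by
    rintro ⟨A, i, j, k⟩ hq
    simp only [Finset.mem_filter, Finset.mem_product] at hq
    exact gf_c (h𝒜 A hq.1.1) hq.2.1 hq.2.2.1 hq.2.2.2)
  have gd : GF Fd := GF.prod _ _ (by
    rintro ⟨l, i, j, k⟩ hq
    simp only [Finset.mem_filter, Finset.mem_product] at hq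
    exact gf_d hq.2.1 hq.2.2.1 hq.2.2.2.1 hq.2.2.2.2.1 hq.2.2.2.2.2.1 hq.2.2.2.2.2.2)
  obtain ⟨W, hW⟩ := (((ga.mul gb).mul gc).mul gd).near Z₀
  set M : ℝ := ∑ i ∈ S, (‖(W i).1 - (Z₀ i).1‖ + |(W i).2 - (Z₀ i).2|) + 1 with hM
  have hM0 : 0 < M := by
    have : 0 ≤ ∑ i ∈ S, (‖(W i).1 - (Z₀ i).1‖ + |(W i).2 - (Z₀ i).2|) :=
      Finset.sum_nonneg fun i _ => by positivity
    linarith
  obtain ⟨t, ht0, ht1, ht2⟩ := hW (δ / M) (by positivity)
  have htM : t * M < δ := by rwa [lt_div_iff₀ hM0] at ht1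
  have hbd : ∀ i ∈ S, ‖(W i).1 - (Z₀ i).1‖ + |(W i).2 - (Z₀ i).2| < M := by
    intro i hi
    have := Finset.single_le_sum (f := fun i => ‖(W i).1 - (Z₀ i).1‖ + |(W i).2 - (Z₀ i).2|)
      (fun i _ => by positivity) hi
    linarith
  set Z : I → Aff := fun i => if i ∈ S then ln Z₀ W t i else Z₀ i with hZ
  have hZS : ∀ i ∈ S, Z i = ln Z₀ W t i := fun i hi => if_pos hi
  obtain ⟨⟨⟨k1, k2⟩, k3⟩, k4⟩ : ((Fa (ln Z₀ W t) ≠ 0 ∧ Fb (ln Z₀ W t) ≠ 0) ∧
      Fc (ln Z₀ W t) ≠ 0) ∧ Fd (ln Z₀ W t) ≠ 0 := by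
    refine ⟨⟨⟨?_, ?_⟩, ?_⟩, ?_⟩ <;> intro h0 <;> apply ht2 <;> simp only [h0] <;> ring
  rw [hFa] at k1
  rw [hFb] at k2
  rw [hFc] at k3
  rw [hFd] at k4
  rw [Finset.prod_ne_zero_iff] at k1 k2 k3 k4
  refine ⟨Z, ?_, ?_, ?_⟩
  · intro i
    by_cases hi : i ∈ S
    · rw [hZS i hi]
      have e1 : (ln Z₀ W t i).1 - (Z₀ i).1 = t • ((W i).1 - (Z₀ i).1) := by
        simp [ln]
      have e2 : (ln Z₀ W t i).2 - (Z₀ i).2 = t * ((W i).2 - (Z₀ i).2) := by
        simp [ln]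
      rw [e1, e2, norm_smul, abs_mul, Real.norm_of_nonneg ht0.le, abs_of_pos ht0]
      have h1 := hbd i hi
      have h2 := norm_nonneg ((W i).1 - (Z₀ i).1)
      have h3 := abs_nonneg ((W i).2 - (Z₀ i).2)
      constructor <;> nlinarith
    · have : Z i = Z₀ i := if_neg hi
      rw [this]
      simp [hδ]
  · intro i hi j hj hij A hA
    rw [hZS i hi, hZS j hj]
    exact k1 (i, j, A) (by simp [hi, hj, hA, hij])
  · intro i hi j hj k hk hij hik hjk
    refine ⟨?_, ?_, ?_⟩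
    · rw [hZS i hi, hZS j hj, hZS k hk]
      exact k2 (i, j, k) (by simp [hi, hj, hk, hij, hik, hjk])
    · intro y h1 h2 h3 A hA h4
      rw [hZS i hi] at h1
      rw [hZS j hj] at h2
      rw [hZS k hk] at h3
      exact k3 (A, i, j, k) (by simp [hi, hj, hk, hij, hik, hjk, hA]) (D4_zero h4 h1 h2 h3)
    · intro l hl hli hlj hlk y h1 h2 h3 h4
      rw [hZS i hi] at h1
      rw [hZS j hj] at h2
      rw [hZS k hk] at h3
      rw [hZS l hl] at h4
      exact k4 (l, i, j, k) (by simp [hi, hj, hk, hl, hij, hik, hjk, hli, hlj, hlk])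
        (D4_zero h1 h2 h3 h4)

end Pool.Agent.TSR
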