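import Pool.Agent.TSR.GDefs

/-!
# TSR, module GEX: extreme points
-/

set_option autoImplicit false

namespace Pool.Agent.TSR

open Set Filter Topology Pool.Agent.TSM
open scoped RealInnerProductSpace

namespace GEX_

theorem exists_perp (n : E3) : ∃ t : E3, t ≠ 0 ∧ (inner ℝ n t : ℝ) = 0 := by
  by_cases h : n 0 = 0 ∧ n 1 = 0
  · refine ⟨!₂[1, 0, 0], ?_, ?_⟩
    · intro h0
      have := congrArg (fun v : E3 => v 0) h0
      simp at this
    · simp [PiLp.inner_apply, Fin.sum_univ_three, h.1]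
  · refine ⟨!₂[-(n 1), n 0, 0], ?_, ?_⟩
    · intro h0
      apply h
      have h1 := congrArg (fun v : E3 => v 0) h0
      have h2 := congrArg (fun v : E3 => v 1) h0
      simp at h1 h2
      exact ⟨h2, h1⟩
    · simp [PiLp.inner_apply, Fin.sum_univ_three]
      ring

theorem ev_add (φ : E3 × ℝ) (q t : E3) (s : ℝ) :
    ev φ (q + s • t) = ev φ q + s * (inner ℝ φ.1 t : ℝ) := by
  simp only [ev, inner_add_right, inner_smul_right]
  ring

theorem part1 (Φ : Finset Aff) (q : E3) (h1 : OneF Φ q) : q ∉ extremePoints ℝ (hull Φ) := by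
  intro hq
  have hqm : q ∈ hull Φ := hq.1
  -- the direction
  have ht : ∃ t : E3, t ≠ 0 ∧ ∀ φ ∈ Φ, ev φ q = 0 → (inner ℝ φ.1 t : ℝ) = 0 := by
    by_cases hex : ∃ φ ∈ Φ, ev φ q = 0
    · obtain ⟨φ, hφ, hφ0⟩ := hex
      obtain ⟨t, ht0, ht1⟩ := exists_perp φ.1
      refine ⟨t, ht0, ?_⟩
      intro ψ hψ hψ0
      rw [h1 ψ hψ φ hφ hψ0 hφ0]
      exact ht1
    · push Not at hex
      obtain ⟨t, ht0, -⟩ := exists_perp 0
      exact ⟨t, ht0, fun φ hφ h0 => absurd h0 (hex φ hφ)⟩
  obtain ⟨t, ht0, ht⟩ := ht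
  -- the size
  have hs : ∀ S : Finset Aff, S ⊆ Φ → ∃ s : ℝ, 0 < s ∧ ∀ φ ∈ S, ∀ r : ℝ, |r| ≤ s →
      ev φ (q + r • t) ≤ 0 := by
    intro S
    induction S using Finset.induction_on with
    | empty =>
      intro _
      exact ⟨1, one_pos, by simp⟩
    | insert φ S hφ ih =>
      intro hS
      obtain ⟨s, hs, hs1⟩ := ih (fun x hx => hS (Finset.mem_insert_of_mem hx))
      have hφΦ : φ ∈ Φ := hS (Finset.mem_insert_self _ _)
      have hle : ev φ q ≤ 0 := hqm φ hφΦ
      rcases lt_or_eq_of_le hle with hlt | heq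
      · refine ⟨min s (-(ev φ q) / (|(inner ℝ φ.1 t : ℝ)| + 1)), ?_, ?_⟩
        · apply lt_min hs
          apply div_pos (by linarith) (by positivity)
        · intro ψ hψ r hr
          rcases Finset.mem_insert.1 hψ with rfl | hψS
          · rw [ev_add]
            have h2 : |r| ≤ -(ev ψ q) / (|(inner ℝ ψ.1 t : ℝ)| + 1) := hr.trans (min_le_right _ _)
            rw [le_div_iff₀ (by positivity)] at h2
            have h3 : r * (inner ℝ ψ.1 t : ℝ) ≤ |r| * |(inner ℝ ψ.1 t : ℝ)| := by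
              rw [← abs_mul]
              exact le_abs_self _
            nlinarith [abs_nonneg r]
          · exact hs1 ψ hψS r (hr.trans (min_le_left _ _))
      · refine ⟨s, hs, ?_⟩
        intro ψ hψ r hr
        rcases Finset.mem_insert.1 hψ with rfl | hψS
        · rw [ev_add, ht ψ hφΦ heq, heq]
          simp
        · exact hs1 ψ hψS r hr
  obtain ⟨s, hs, hs1⟩ := hs Φ (Finset.Subset.refl _)
  have hp : q + s • t ∈ hull Φ := fun φ hφ => hs1 φ hφ s (by rw [abs_of_pos hs])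
  have hm : q + (-s) • t ∈ hull Φ := fun φ hφ => hs1 φ hφ (-s) (by rw [abs_neg, abs_of_pos hs])
  have hseg : q ∈ openSegment ℝ (q + s • t) (q + (-s) • t) := by
    refine ⟨1 / 2, 1 / 2, by norm_num, by norm_num, by norm_num, ?_⟩
    module
  have := (mem_extremePoints.1 hq).2 _ hp _ hm hseg
  have h3 : s • t = 0 := by
    have h4 := this.1
    simpa using h4
  rcases smul_eq_zero.1 h3 with h | h
  · exact hs.ne' h
  · exact ht0 h

variable {V : Type} [Fintype V] [DecidableEq V]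

theorem ev_lin (p : V → E3) (φ : E3 × ℝ) (x : V → ℝ) (hx : ∑ v, x v = 1) :
    ev φ (lin p x) = ∑ v, x v * ev φ (p v) := by
  unfold ev lin
  rw [inner_sum]
  have h1 : φ.2 = ∑ v, x v * φ.2 := by rw [← Finset.sum_mul, hx, one_mul]
  conv_lhs => rw [h1]
  rw [← Finset.sum_sub_distrib]
  apply Finset.sum_congr rfl
  intro v _
  rw [inner_smul_right]
  ring

theorem vert (K : Surf V) (p : V → E3) (Φ : Finset Aff) (hF : K.Framed p Φ) (x : V → ℝ)
    (hx : x ∈ K.body) (he : lin p x ∈ extremePoints ℝ (hull Φ)) (v : V) (hv : 0 < x v) :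
    p v = lin p x := by
  obtain ⟨hx0, hx1, -⟩ := hx
  set L := lin p x with hL
  have hy : L + x v • (L - p v) ∈ hull Φ := by
    intro φ hφ
    rw [ev_add]
    have e1 : ev φ L = ∑ u, x u * ev φ (p u) := ev_lin p φ x hx1
    have e2 : ev φ L ≤ x v * ev φ (p v) := by
      rw [e1, ← Finset.add_sum_erase Finset.univ _ (Finset.mem_univ v)]
      have : ∑ u ∈ Finset.univ.erase v, x u * ev φ (p u) ≤ 0 := by
        apply Finset.sum_nonpos
        intro u _
        exact mul_nonpos_of_nonneg_of_nonpos (hx0 u) (hF.mem u φ hφ)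
      linarith
    have e3 : (inner ℝ φ.1 (L - p v) : ℝ) = ev φ L - ev φ (p v) := by
      rw [inner_sub_right]
      unfold ev
      ring
    have e4 : ev φ (p v) ≤ 0 := hF.mem v φ hφ
    rw [e3]
    nlinarith [mul_nonneg hv.le hv.le]
  have hseg : L ∈ openSegment ℝ (p v) (L + x v • (L - p v)) := by
    refine ⟨x v / (1 + x v), 1 / (1 + x v), by positivity, by positivity, ?_, ?_⟩
    · field_simp
      ring
    · have hne : (1 + x v) ≠ 0 := by positivity
      have : (x v / (1 + x v)) • p v + (1 / (1 + x v)) • (L + x v • (L - p v)) =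
          ((1 + x v) / (1 + x v)) • L := by
        module
      rw [this, div_self hne, one_smul]
  exact ((mem_extremePoints.1 he).2 _ (hF.mem v) _ hy hseg).1

theorem part2 (K : Surf V) (p : V → E3) (Φ : Finset Aff) (hF : K.Framed p Φ) (x y : V → ℝ)
    (hx : x ∈ K.body) (hy : y ∈ K.body) (hxy : lin p x = lin p y)
    (he : lin p x ∈ extremePoints ℝ (hull Φ)) : x = y := by
  obtain ⟨v0, hv0, huniq⟩ := hF.ext _ he
  have key : ∀ z : V → ℝ, z ∈ K.body → lin p z = lin p x →
      (∀ u, u ≠ v0 → z u = 0) ∧ z v0 = 1 := by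
    intro z hz hzx
    have h1 : ∀ u, u ≠ v0 → z u = 0 := by
      intro u hu
      by_contra hne
      have hpos : 0 < z u := lt_of_le_of_ne (hz.1 u) (Ne.symm hne)
      have h2 := vert K p Φ hF z hz (by rw [hzx]; exact he) u hpos
      exact hu (huniq u (by simp only; rw [h2, hzx]))
    refine ⟨h1, ?_⟩
    have h2 := hz.2.1
    rw [Finset.sum_eq_single v0 (fun u _ hu => h1 u hu)
      (fun h => absurd (Finset.mem_univ _) h)] at h2
    exact h2
  obtain ⟨a1, a2⟩ := key x hx rfl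
  obtain ⟨b1, b2⟩ := key y hy hxy.symm
  ext u
  by_cases hu : u = v0
  · rw [hu, a2, b2]
  · rw [a1 u hu, b1 u hu]

end GEX_

theorem gex_proof : Stmt_GEX := by
  intro V _ _ K p Φ hF
  exact ⟨fun q hq => GEX_.part1 Φ q hq,
    fun x y hx hy hxy he => GEX_.part2 K p Φ hF x y hx hy hxy he⟩

end Pool.Agent.TSR
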