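import Pool.Agent.TSR.GDefs

/-!
# TSR: GGA, goodness of the global resolution at cores, edges and faces
-/

set_option autoImplicit false

namespace Pool.Agent.TSR

open Set Filter Topology Pool.Agent.TSM

namespace GGA_

theorem good_congr {M : Type} [TopologicalSpace M] {D D' : M → E3} {x : M}
    (h : ∀ᶠ y in 𝓝 x, D y = D' y) (hg : Good D' x) : Good D x := by
  obtain ⟨U, hU, hinj, a, b, c, hi, hz⟩ := hg
  refine ⟨U ∩ {y | D y = D' y}, Filter.inter_mem hU h, ?_, a, b, c, hi, ?_⟩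
  · rintro y ⟨hy, hy'⟩ z ⟨hz1, hz2⟩ hyz
    have e1 : D y = D' y := hy'
    have e2 : D z = D' z := hz2
    exact hinj hy hz1 (by rw [← e1, ← e2, hyz])
  · rintro y ⟨hy, hy'⟩
    have e1 : D y = D' y := hy'
    rw [e1]
    exact hz y hy

end GGA_

open GGA_

theorem gga_proof : Stmt_GGA := by
  intro V _ _ K p Φ op d ρ ε Dc De Df hf hop hP D hD x hx
  rcases hx with ⟨v, hv, hxv⟩ | ⟨v, u, w, hxe, hev⟩ | ⟨v, u, w, hxe, hev⟩
  · -- core
    have hc : ∀ᶠ y : K.body in 𝓝 x, 1 - ρ < y.1 v := by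
      have hcont : Continuous fun y : K.body => y.1 v :=
        (continuous_apply v).comp continuous_subtype_val
      exact hcont.continuousAt.eventually (lt_mem_nhds hxv)
    have hDc : ∀ y : K.body, 1 - ρ < y.1 v → D y = Dc v y.1 := fun y hy =>
      (hD y).1 v ⟨hv, y.2, hy.le⟩
    refine ⟨good_congr (D' := fun y : K.body => Dc v y.1) ?_ (hP.cg v hv x hxv), ?_⟩
    · filter_upwards [hc] with y hy
      exact hDc y hy
    · rw [hDc x hxv]
      exact (hP.ch v x.1 ⟨hv, x.2, hxv.le⟩).2.1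
  · -- edge
    have hww : op v u (op v u w) = w := (hop v u w hxe.1.1).2.2.2.1
    have hDe : ∀ (y : K.body) (z : V), y.1 ∈ rEdge K p Φ op d ρ v u z → D y = De v u z y.1 :=
      fun y z hy => (hD y).2.1 v u z hy
    refine ⟨?_, ?_⟩
    · obtain ⟨a, b, c, hi, hg⟩ := hP.eg v u w x.1 hxe
      have hg' : ∀ᶠ y : K.body in 𝓝 x,
          (y.1 ∈ rEdge K p Φ op d ρ v u w → G3 a b c (De v u w y.1) = 0) ∧
          (y.1 ∈ rEdge K p Φ op d ρ v u (op v u w) →
            G3 a b c (De v u (op v u w) y.1) = 0) :=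
        (continuous_subtype_val.continuousAt (x := x)).eventually hg
      refine ⟨{y | (y.1 ∈ rEdge K p Φ op d ρ v u w ∨
        y.1 ∈ rEdge K p Φ op d ρ v u (op v u w)) ∧ 
          ((y.1 ∈ rEdge K p Φ op d ρ v u w → G3 a b c (De v u w y.1) = 0) ∧
          (y.1 ∈ rEdge K p Φ op d ρ v u (op v u w) →
            G3 a b c (De v u (op v u w) y.1) = 0))}, hev.and hg', ?_, a, b, c, hi, ?_⟩
      · rintro y ⟨hy, -⟩ z ⟨hz, -⟩ hyz
        apply Subtype.ext
        rcases hy with hy | hy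
        · rcases hz with hz | hz
          · exact (hP.ei v u w y.1 hy).1 z.1 hz (by rw [← hDe y w hy, ← hDe z w hz, hyz])
          · exact (hP.ei v u w y.1 hy).2 z.1 hz (by
              rw [← hDe y w hy, ← hDe z (op v u w) hz, hyz])
        · rcases hz with hz | hz
          · refine (hP.ei v u (op v u w) y.1 hy).2 z.1 (by rw [hww]; exact hz) ?_
            rw [hww, ← hDe y (op v u w) hy, ← hDe z w hz, hyz]
          · exact (hP.ei v u (op v u w) y.1 hy).1 z.1 hz (by
              rw [← hDe y (op v u w) hy, ← hDe z (op v u w) hz, hyz])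
      · rintro y ⟨hy, h1, h2⟩
        rcases hy with hy | hy
        · rw [hDe y w hy]; exact h1 hy
        · rw [hDe y (op v u w) hy]; exact h2 hy
    · rw [hDe x w hxe]
      exact (hP.eh v u w x.1 hxe).2.1
  · -- face
    have hDf : ∀ y : K.body, y.1 ∈ rFace K p Φ d ρ v u w → D y = Df v u w y.1 :=
      fun y hy => (hD y).2.2.1 v u w hy
    refine ⟨?_, ?_⟩
    · obtain ⟨a, b, c, hi, hg⟩ := hP.fg v u w x.1 hxe
      have hg' : ∀ᶠ y : K.body in 𝓝 x,
          y.1 ∈ rFace K p Φ d ρ v u w → G3 a b c (Df v u w y.1) = 0 :=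
        (continuous_subtype_val.continuousAt (x := x)).eventually hg
      refine ⟨{y | y.1 ∈ rFace K p Φ d ρ v u w ∧
        (y.1 ∈ rFace K p Φ d ρ v u w → G3 a b c (Df v u w y.1) = 0)}, hev.and hg', ?_,
        a, b, c, hi, ?_⟩
      · rintro y ⟨hy, -⟩ z ⟨hz, -⟩ hyz
        apply Subtype.ext
        exact hP.fi v u w y.1 hy z.1 hz (by rw [← hDf y hy, ← hDf z hz, hyz])
      · rintro y ⟨hy, h1⟩
        rw [hDf y hy]
        exact h1 hy
    · rw [hDf x hxe]
      exact (hP.fh v u w x.1 hxe).2.1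

end Pool.Agent.TSR
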