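import Pool.Agent.TSR.GDefs
import Pool.Agent.TSR.Base
import Pool.Agent.TSM.VStmts

/-!
# TSR: module GGB: goodness where the resolution is the given map
-/

set_option autoImplicit false

namespace Pool.Agent.TSR

open Set Filter Topology Metric Pool.Agent.TSM

namespace GGB_

variable {V : Type} [Fintype V] [DecidableEq V]

theorem ev_lin {v u w : V} {x : V → ℝ} (p : V → E3) (φ : Aff) (h : InT v u w x) (h1 : v ≠ u)
    (h2 : v ≠ w) (h3 : u ≠ w) :
    ev φ (lin p x) = x v * ev φ (p v) + x u * ev φ (p u) + x w * ev φ (p w) := by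
  rw [h.lin h1 h2 h3]
  have hs := h.sum h1 h2 h3
  unfold ev
  rw [inner_add_right, inner_add_right, inner_smul_right, inner_smul_right, inner_sub_right,
    inner_sub_right]
  have : x v = 1 - x u - x w := by linarith
  rw [this]
  ring

theorem lin_cont (p : V → E3) : Continuous (lin p) := by
  unfold lin
  exact continuous_finset_sum _ fun v _ => (continuous_apply v).smul continuous_const

end GGB_

open GGB_ in
theorem ggb_proof (hger : Stmt_FGer) : Stmt_GGB := by
  intro V _ _ K p Φ hF D x h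
  -- a vertex with positive coordinate
  obtain ⟨v, hv⟩ : ∃ v, 0 < x.1 v := by
    obtain ⟨h1, h2, -⟩ := x.2
    by_contra hne
    push Not at hne
    have : ∑ v, x.1 v = 0 := Finset.sum_eq_zero fun v _ => le_antisymm (hne v) (h1 v)
    linarith
  have hcv : Continuous (fun y : K.body => y.1 v) :=
    (continuous_apply v).comp continuous_subtype_val
  have hpos : ∀ᶠ y : K.body in 𝓝 x, 0 < y.1 v :=
    hcv.continuousAt.eventually (lt_mem_nhds hv)
  have hstar : ∀ y : K.body, 0 < y.1 v → y.1 ∈ K.star v := by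
    intro y hy
    obtain ⟨h1, h2, t, ht, h3⟩ := y.2
    refine ⟨h1, h2, t, ht, ?_, h3⟩
    by_contra hvt
    have := h3 v hvt
    linarith
  have hinj : InjOn D {y : K.body | (D y = lin p y.1 ∧ ∃ v u w, Ft K p Φ v u w ∧ InT v u w y.1 ∧
      InT v u w x.1) ∧ 0 < y.1 v} := by
    intro y hy z hz hyz
    rw [hy.1.1, hz.1.1] at hyz
    exact Subtype.ext (hF.emb v (hstar y hy.2) (hstar z hz.2) hyz)
  refine ⟨fun hone => ?_, ?_⟩
  · -- the facet of `D x`
    obtain ⟨hDx, a, b, c, habc, hx1, -⟩ := h.self_of_nhds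
    obtain ⟨φ, hφ, e1, e2, e3⟩ := habc.2
    obtain ⟨n1, n2, n3⟩ := tri_ne habc.1
    have hφx : ev φ (D x) = 0 := by
      rw [hDx, ev_lin p φ hx1 n1 n2 n3, e1, e2, e3]; ring
    have hall : ∀ y : K.body, (D y = lin p y.1 ∧ ∃ v u w, Ft K p Φ v u w ∧ InT v u w y.1 ∧
        InT v u w x.1) → ev φ (D y) = 0 := by
      rintro y ⟨hDy, a', b', c', habc', hy1, hx2⟩
      obtain ⟨ψ, hψ, e1', e2', e3'⟩ := habc'.2
      obtain ⟨n1', n2', n3'⟩ := tri_ne habc'.1
      have hψx : ev ψ (D x) = 0 := by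
        rw [hDx, ev_lin p ψ hx2 n1' n2' n3', e1', e2', e3']; ring
      have := hone ψ hψ φ hφ hψx hφx
      rw [← this, hDy, ev_lin p ψ hy1 n1' n2' n3', e1', e2', e3']; ring
    have hφ0 : φ.1 ≠ 0 := by
      intro h0
      have := hF.unit φ hφ
      rw [h0, norm_zero] at this
      exact zero_ne_one this
    obtain ⟨a', b', c', hind, r, hr, hball⟩ := hger.2 φ (D x) hφ0 hφx
    have hct : Continuous (fun y : K.body => lin p y.1) :=
      (lin_cont p).comp continuous_subtype_val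
    have hnear : ∀ᶠ y : K.body in 𝓝 x, lin p y.1 ∈ ball (D x) r := by
      apply hct.continuousAt.eventually
      rw [hDx]
      exact ball_mem_nhds _ hr
    refine ⟨{y : K.body | ((D y = lin p y.1 ∧ ∃ v u w, Ft K p Φ v u w ∧ InT v u w y.1 ∧
      InT v u w x.1) ∧ 0 < y.1 v) ∧ lin p y.1 ∈ ball (D x) r}, (h.and hpos).and hnear, ?_,
      a', b', c', hind, ?_⟩
    · exact hinj.mono fun y hy => hy.1
    · rintro y ⟨⟨hy, -⟩, hyb⟩
      apply hball _ _ (hall y hy)
      rw [hy.1]; exact hyb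
  · refine ⟨_, h.and hpos, hinj, ?_⟩
    rintro y ⟨⟨hDy, a, b, c, habc, hy1, -⟩, -⟩
    obtain ⟨φ, hφ, e1, e2, e3⟩ := habc.2
    obtain ⟨n1, n2, n3⟩ := tri_ne habc.1
    exact ⟨φ, hφ, by rw [hDy, ev_lin p φ hy1 n1 n2 n3, e1, e2, e3]; ring⟩

end Pool.Agent.TSR
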