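import Pool.Agent.TSR.GDefs

set_option autoImplicit false

namespace Pool.Agent.TSR

open Set Filter Topology Pool.Agent.TSM

namespace GLU_

theorem ev_neg_of_interior {Φ : Finset Aff} {o : E3} (ho : o ∈ interior (hull Φ))
    {φ : Aff} (hφ : φ ∈ Φ) (hu : ‖φ.1‖ = 1) : ev φ o < 0 := by
  rw [mem_interior_iff_mem_nhds, Metric.mem_nhds_iff] at ho
  obtain ⟨r, hr, hb⟩ := ho
  have h1 : o + (r / 2) • φ.1 ∈ Metric.ball o r := by
    rw [Metric.mem_ball, dist_eq_norm, add_sub_cancel_left, norm_smul, hu, mul_one,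
      Real.norm_eq_abs, abs_of_pos (by linarith)]
    linarith
  have h2 := hb h1 φ hφ
  unfold ev at h2 ⊢
  rw [inner_add_right, inner_smul_right, real_inner_self_eq_norm_sq, hu] at h2
  linarith

theorem poly_of_framed {V : Type} [Fintype V] [DecidableEq V] {K : Surf V} {p : V → E3}
    {Φ : Finset Aff} (h : K.Framed p Φ) : Pool.Agent.TSM.Poly Φ := by
  obtain ⟨o, ho⟩ := h.int
  exact ⟨h.unit, h.normals, h.bdd, o, fun φ hφ => ev_neg_of_interior ho hφ (h.unit φ hφ)⟩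

theorem lin_mem_hull {V : Type} [Fintype V] [DecidableEq V] {K : Surf V} {p : V → E3}
    {Φ : Finset Aff} (h : K.Framed p Φ) {x : V → ℝ} (hx : x ∈ K.body) : lin p x ∈ hull Φ := by
  intro φ hφ
  obtain ⟨h0, h1, -⟩ := hx
  have h2 : ev φ (lin p x) = ∑ v, x v * ev φ (p v) := by
    unfold ev lin
    rw [inner_sum]
    simp only [mul_sub, Finset.sum_sub_distrib, inner_smul_right]
    rw [← Finset.sum_mul, h1, one_mul]
  rw [h2]
  apply Finset.sum_nonpos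
  intro v _
  exact mul_nonpos_of_nonneg_of_nonpos (h0 v) (h.mem v φ hφ)

end GLU_

open GLU_

theorem glu_proof (hcov : Stmt_GCOV) (hrel : Stmt_GREL) (hcon : Stmt_GCON) (hpos : Stmt_GPOS)
    (hga : Stmt_GGA) (hgb : Stmt_GGB) (hex : Stmt_GEX) : Stmt_GLU := by
  intro V _ _ K p Φ op d ρ ε Dc De Df hf hop hP
  choose D hD using fun x : K.body => hrel V K p Φ op d ρ ε Dc De Df hop hP x.1 x.2
  have hcase : ∀ x : K.body, (D x ∈ hull Φ ∧ ‖D x - K.map p x‖ < ε) ∧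
      (OneF Φ (D x) ∨ D x = lin p x.1) := by
    intro x
    obtain ⟨r1, r2, r3, r4⟩ := hD x
    rcases hcov V K p Φ op d ρ hop hP.d0 hP.r0 x.1 x.2 with ⟨v, h⟩ | ⟨v, u, w, h⟩ | ⟨v, u, w, h⟩ |
      ⟨v, u, w, h⟩
    · rw [r1 v h]
      obtain ⟨h1, h2, h3⟩ := hP.ch v x.1 h
      exact ⟨⟨h1, h3⟩, Or.inl h2⟩
    · rw [r2 v u w h]
      obtain ⟨h1, h2, h3⟩ := hP.eh v u w x.1 h
      exact ⟨⟨h1, h3⟩, Or.inl h2⟩
    · rw [r3 v u w h]
      obtain ⟨h1, h2, h3⟩ := hP.fh v u w x.1 h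
      exact ⟨⟨h1, h3⟩, Or.inl h2⟩
    · rw [r4 v u w h]
      refine ⟨⟨lin_mem_hull hf x.2, ?_⟩, Or.inr rfl⟩
      unfold Surf.map
      rw [sub_self, norm_zero]
      exact hP.ee
  obtain ⟨hex1, hex2⟩ := hex V K p Φ hf
  have hga' := hga V K p Φ op d ρ ε Dc De Df hf hop hP D hD
  have hP4 : ∀ x : K.body, (∀ᶠ y : K.body in 𝓝 x, ∃ v u w,
      y.1 ∈ rFact K p Φ op d ρ v u w ∧ InT v u w x.1) →
      ∀ᶠ y : K.body in 𝓝 x, D y = lin p y.1 ∧ ∃ v u w, Ft K p Φ v u w ∧ InT v u w y.1 ∧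
        InT v u w x.1 := by
    intro x h
    filter_upwards [h] with y hy
    obtain ⟨v, u, w, h1, h2⟩ := hy
    exact ⟨(hD y).2.2.2 v u w h1, v, u, w, h1.1, h1.2.2.1, h2⟩
  refine ⟨D, ⟨poly_of_framed hf, hcon V K p Φ op d ρ ε Dc De Df hop hP D hD,
    fun x => (hcase x).1.1, ?_, ?_, ?_⟩, fun x => (hcase x).1.2⟩
  · intro x hone
    rcases hpos V K p Φ op d ρ hop hP.d0 hP.d1 hP.r0 hP.r1 x with h | h | h | h
    · exact (hga' x (Or.inl h)).1
    · exact (hga' x (Or.inr (Or.inl h))).1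
    · exact (hga' x (Or.inr (Or.inr h))).1
    · exact (hgb V K p Φ hf D x (hP4 x h)).1 hone
  · rintro x ⟨φ, hφ, ψ, hψ, hne, h1, h2⟩
    rcases hpos V K p Φ op d ρ hop hP.d0 hP.d1 hP.r0 hP.r1 x with h | h | h | h
    · exact absurd ((hga' x (Or.inl h)).2 φ hφ ψ hψ h1 h2) hne
    · exact absurd ((hga' x (Or.inr (Or.inl h))).2 φ hφ ψ hψ h1 h2) hne
    · exact absurd ((hga' x (Or.inr (Or.inr h))).2 φ hφ ψ hψ h1 h2) hne
    · exact (hgb V K p Φ hf D x (hP4 x h)).2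
  · intro x y hxy hext
    have hx : D x = lin p x.1 := by
      rcases (hcase x).2 with h | h
      · exact absurd hext (hex1 _ h)
      · exact h
    have hy : D y = lin p y.1 := by
      rcases (hcase y).2 with h | h
      · rw [hxy] at hext; exact absurd hext (hex1 _ h)
      · exact h
    apply Subtype.ext
    refine hex2 x.1 y.1 x.2 y.2 (by rw [← hx, ← hy, hxy]) (by rw [← hx]; exact hext)

end Pool.Agent.TSR
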