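import Pool.Agent.TSR.GDefs
import Pool.Agent.TSR.Base

/-!
# TSR: GPOS, the possible positions of a point
-/

set_option autoImplicit false

namespace Pool.Agent.TSR

open Set Filter Topology Pool.Agent.TSM

namespace GPOS_

variable {V : Type} [Fintype V] [DecidableEq V] {K : Surf V} {p : V → E3} {Φ : Finset Aff}
  {op : V → V → V → V}

/-- an outer vertex has all its triangles in facet planes -/
theorem out_fac {v u w : V} (h : K.Outer p Φ v) (ht : ({v, u, w} : Finset V) ∈ K.tri) :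
    Fac p Φ v u w := by
  obtain ⟨φ, h0, h1⟩ := h _ ht (by simp)
  exact ⟨φ, h0, h1 v (by simp), h1 u (by simp), h1 w (by simp)⟩

theorem flag_out1 (hop : IsOpp K op) {v u w : V} (h : Flag K p Φ op v u w) :
    ¬ K.Outer p Φ v := by
  intro h'
  exact h.2 ⟨out_fac h' h.1, out_fac h' (hop v u w h.1).1⟩

theorem flag_out2 (hop : IsOpp K op) {v u w : V} (h : Flag K p Φ op v u w) :
    ¬ K.Outer p Φ u := flag_out1 hop (h.swap hop)

theorem nf_out {v u w : V} (h : Nf K p Φ v u w) : ¬ K.Outer p Φ v := fun h' =>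
  h.2 (out_fac h' h.1)

theorem tri_two {t : Finset V} (ht : t ∈ K.tri) {v u : V} (hv : v ∈ t) (hu : u ∈ t)
    (hne : v ≠ u) : ∃ z, t = {v, u, z} := by
  obtain ⟨a, b, hab⟩ := tri_cases ht hv
  subst hab
  simp only [Finset.mem_insert, Finset.mem_singleton] at hu
  rcases hu with h | h | h
  · exact absurd h.symm hne
  · subst h
    exact ⟨b, rfl⟩
  · subst h
    exact ⟨a, by rw [Finset.pair_comm]⟩

theorem pos_mem {v a b c : V} {x : V → ℝ} (h : InT a b c x) (hv : 0 < x v) :
    v ∈ ({a, b, c} : Finset V) := by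
  by_contra h'
  rw [h.2.2 v h'] at hv
  exact lt_irrefl _ hv

theorem cont_coord (v : V) : Continuous (fun y : K.body => y.1 v) :=
  (continuous_apply v).comp continuous_subtype_val

/-- the triangle of every point near `x` contains the support of `x` -/
theorem near_supp (x : K.body) : ∀ᶠ y : K.body in 𝓝 x, ∀ v, 0 < x.1 v → 0 < y.1 v := by
  rw [Filter.eventually_all]
  intro v
  by_cases h : 0 < x.1 v
  · have := (cont_coord (K := K) v).continuousAt.eventually (lt_mem_nhds (a := (0 : ℝ)) h)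
    filter_upwards [this] with y hy _ using hy
  · exact Filter.Eventually.of_forall fun y h' => absurd h' h

theorem near_farr {ρ : ℝ} (hρ : 0 < ρ) (x : K.body)
    (hx : ∀ v, ¬ K.Outer p Φ v → x.1 v ≤ 1 - ρ) :
    ∀ᶠ y : K.body in 𝓝 x, Farr K p Φ ρ y.1 := by
  have : ∀ᶠ y : K.body in 𝓝 x, ∀ v, ¬ K.Outer p Φ v → y.1 v ≤ 1 - ρ / 2 := by
    rw [Filter.eventually_all]
    intro v
    by_cases h : K.Outer p Φ v
    · exact Filter.Eventually.of_forall fun y h' => absurd h h'
    · have h1 : x.1 v < 1 - ρ / 2 := by linarith [hx v h]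
      have := (cont_coord (K := K) v).continuousAt.eventually (gt_mem_nhds h1)
      filter_upwards [this] with y hy _ using le_of_lt hy
  exact this

theorem near_lt {f g : (V → ℝ) → ℝ} (hf : Continuous f) (hg : Continuous g) (x : K.body)
    (h : f x.1 < g x.1) : ∀ᶠ y : K.body in 𝓝 x, f y.1 < g y.1 :=
  ContinuousAt.eventually_lt ((hf.comp continuous_subtype_val).continuousAt)
    ((hg.comp continuous_subtype_val).continuousAt) h

/-- three coordinates -/
theorem all_pos {d ρ : ℝ} (hd : 0 < d) (hρ : 0 < ρ) {a b c : ℝ} (ha : 0 ≤ a) (hb : 0 ≤ b)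
    (hc : 0 ≤ c) (hs : a + b + c = 1) (h1 : d * min a b ≤ c) (h2 : d * min b c ≤ a)
    (h3 : d * min c a ≤ b) (ha1 : a ≤ 1 - ρ) (hb1 : b ≤ 1 - ρ) (hc1 : c ≤ 1 - ρ) : 0 < a := by
  by_contra h
  have ha0 : a = 0 := le_antisymm (not_lt.1 h) ha
  subst ha0
  have h4 : min b c ≤ 0 := by
    by_contra h'
    exact absurd h2 (not_le.2 (mul_pos hd (not_le.1 h')))
  rcases min_le_iff.1 h4 with h5 | h5 <;> linarith

end GPOS_

open GPOS_ in
theorem gpos_proof : Stmt_GPOS := by
  intro V _ _ K p Φ op d ρ hop hd _ hρ _ x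
  by_cases c1 : ∃ v, ¬ K.Outer p Φ v ∧ 1 - ρ < x.1 v
  · exact Or.inl c1
  right
  have hx : ∀ v, ¬ K.Outer p Φ v → x.1 v ≤ 1 - ρ := by
    intro v hv
    by_contra h
    exact c1 ⟨v, hv, not_le.1 h⟩
  have hfarr := near_farr hρ x hx
  have hfx : Farr K p Φ ρ x.1 := hfarr.self_of_nhds
  have hsupp := near_supp x
  have nn : ∀ v, 0 ≤ x.1 v := x.2.1
  have cc : ∀ v : V, Continuous (fun z : V → ℝ => z v) := fun v => continuous_apply v
  by_cases c2 : ∃ v u w, InT v u w x.1 ∧ Flag K p Φ op v u w ∧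
      x.1 w < d * min (x.1 v) (x.1 u)
  · left
    obtain ⟨v, u, w, hI, hF, hlt⟩ := c2
    refine ⟨v, u, w, ⟨hF, hfx, hI, hlt.le⟩, ?_⟩
    have hmin : 0 < min (x.1 v) (x.1 u) := by
      by_contra h
      have h1 : d * min (x.1 v) (x.1 u) ≤ 0 :=
        mul_nonpos_of_nonneg_of_nonpos hd.le (not_lt.1 h)
      linarith [nn w]
    have hv : 0 < x.1 v := (lt_min_iff.1 hmin).1
    have hu : 0 < x.1 u := (lt_min_iff.1 hmin).2
    obtain ⟨o1, o2, o3, o4, o5⟩ := hop v u w hF.1
    obtain ⟨n1, n2, n3⟩ := tri_ne hF.1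
    obtain ⟨-, m2, m3⟩ := tri_ne o1
    have hz : x.1 (op v u w) = 0 := hI.zero m2.symm m3.symm o2
    have cm : Continuous (fun z : V → ℝ => d * min (z v) (z u)) :=
      continuous_const.mul ((cc v).min (cc u))
    have e1 := near_lt (cc w) cm x hlt
    have e2 := near_lt (cc (op v u w)) cm x (by rw [hz]; exact mul_pos hd hmin)
    filter_upwards [hfarr, hsupp, e1, e2] with y y1 y2 y3 y4
    obtain ⟨a, b, c, ht, hJ⟩ := body_InT y.2
    obtain ⟨z, hz'⟩ := tri_two ht (pos_mem hJ (y2 v hv)) (pos_mem hJ (y2 u hu)) n1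
    have hJ' : InT v u z y.1 := by
      refine ⟨hJ.1, hJ.2.1, fun t h => hJ.2.2 t ?_⟩
      rw [hz']
      exact h
    rw [hz'] at ht
    rcases o5 z ht with h | h
    · subst h
      exact Or.inl ⟨hF, y1, hJ', y3.le⟩
    · subst h
      exact Or.inr ⟨hF.opp hop, y1, hJ', y4.le⟩
  right
  have hn2 : ∀ v u w, InT v u w x.1 → Flag K p Φ op v u w →
      d * min (x.1 v) (x.1 u) ≤ x.1 w := by
    intro v u w h1 h2
    by_contra h
    exact c2 ⟨v, u, w, h1, h2, not_le.1 h⟩
  by_cases c3 : ∃ v u w, Nf K p Φ v u w ∧ InT v u w x.1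
  · left
    obtain ⟨v, u, w, hN, hI⟩ := c3
    obtain ⟨n1, n2, n3⟩ := tri_ne hN.1
    have hs := hI.sum n1 n2 n3
    have b1 := hn2 v u w hI hN.flag
    have b2 := hn2 u w v hI.cyc hN.cyc.flag
    have b3 := hn2 w v u hI.cyc.cyc hN.cyc.cyc.flag
    have ov := hx v (nf_out hN)
    have ou := hx u (nf_out hN.cyc)
    have ow := hx w (nf_out hN.cyc.cyc)
    have pv : 0 < x.1 v := all_pos hd hρ (nn v) (nn u) (nn w) hs b1 b2 b3 ov ou ow
    have pu : 0 < x.1 u :=
      all_pos hd hρ (nn u) (nn w) (nn v) (by linarith) b2 b3 b1 ou ow ov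
    have pw : 0 < x.1 w :=
      all_pos hd hρ (nn w) (nn v) (nn u) (by linarith) b3 b1 b2 ow ov ou
    have st : ∀ a b c : V, 0 < x.1 a → 0 < x.1 b → d * min (x.1 a) (x.1 b) ≤ x.1 c →
        d / 2 * min (x.1 a) (x.1 b) < x.1 c := by
      intro a b c h1 h2 h3
      have h4 : 0 < d * min (x.1 a) (x.1 b) := mul_pos hd (lt_min h1 h2)
      linarith
    have cm : ∀ a b : V, Continuous (fun z : V → ℝ => d / 2 * min (z a) (z b)) := fun a b =>
      continuous_const.mul ((cc a).min (cc b))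
    have e1 := near_lt (cm v u) (cc w) x (st v u w pv pu b1)
    have e2 := near_lt (cm u w) (cc v) x (st u w v pu pw b2)
    have e3 := near_lt (cm w v) (cc u) x (st w v u pw pv b3)
    have fin : ∀ y : K.body, Farr K p Φ ρ y.1 → (∀ v, 0 < x.1 v → 0 < y.1 v) →
        d / 2 * min (y.1 v) (y.1 u) < y.1 w → d / 2 * min (y.1 u) (y.1 w) < y.1 v →
        d / 2 * min (y.1 w) (y.1 v) < y.1 u → y.1 ∈ rFace K p Φ d ρ v u w := by
      intro y y1 y2 y3 y4 y5
      obtain ⟨a, b, c, ht, hJ⟩ := body_InT y.2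
      have hsub : ({v, u, w} : Finset V) ⊆ {a, b, c} := by
        intro t h
        simp only [Finset.mem_insert, Finset.mem_singleton] at h
        rcases h with h | h | h
        · subst h
          exact pos_mem hJ (y2 _ pv)
        · subst h
          exact pos_mem hJ (y2 _ pu)
        · subst h
          exact pos_mem hJ (y2 _ pw)
      have heq : ({v, u, w} : Finset V) = {a, b, c} :=
        Finset.eq_of_subset_of_card_le hsub (by rw [K.card3 _ ht, K.card3 _ hN.1])
      have hJ' : InT v u w y.1 := by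
        refine ⟨hJ.1, hJ.2.1, fun t h => hJ.2.2 t ?_⟩
        rw [← heq]
        exact h
      exact ⟨hN, y1, hJ', y3.le, y4.le, y5.le⟩
    refine ⟨v, u, w, fin x hfx (fun _ h => h) (st v u w pv pu b1) (st u w v pu pw b2)
      (st w v u pw pv b3), ?_⟩
    filter_upwards [hfarr, hsupp, e1, e2, e3] with y y1 y2 y3 y4 y5
    exact fin y y1 y2 y3 y4 y5
  right
  have hft : ∀ v u w, ({v, u, w} : Finset V) ∈ K.tri → InT v u w x.1 → Ft K p Φ v u w := by
    intro v u w ht hI
    rcases nf_or_ft (p := p) (Φ := Φ) ht with h | h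
    · exact absurd ⟨v, u, w, h, hI⟩ c3
    · exact h
  have key : ∀ᶠ y : K.body in 𝓝 x, ∀ a b c, InT a b c x.1 → Flag K p Φ op a b c →
      d / 2 * min (y.1 a) (y.1 b) ≤ y.1 c := by
    rw [Filter.eventually_all]
    intro a
    rw [Filter.eventually_all]
    intro b
    rw [Filter.eventually_all]
    intro c
    by_cases h : InT a b c x.1 ∧ Flag K p Φ op a b c
    · obtain ⟨hI, hF⟩ := h
      obtain ⟨n1, n2, n3⟩ := tri_ne hF.1
      have hs := hI.sum n1 n2 n3
      have hb := hn2 a b c hI hF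
      have hlt : d / 2 * min (x.1 a) (x.1 b) < x.1 c := by
        rcases (le_min (nn a) (nn b)).lt_or_eq with h0 | h0
        · have h4 : 0 < d * min (x.1 a) (x.1 b) := mul_pos hd h0
          linarith
        · rw [← h0, mul_zero]
          refine lt_of_le_of_ne (nn c) ?_
          intro hc
          have ha := hx a (flag_out1 hop hF)
          have hb' := hx b (flag_out2 hop hF)
          rcases min_le_iff.1 h0.ge with h5 | h5
          · linarith [nn a]
          · linarith [nn b]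
      have cm : Continuous (fun z : V → ℝ => d / 2 * min (z a) (z b)) :=
        continuous_const.mul ((cc a).min (cc b))
      filter_upwards [near_lt cm (cc c) x hlt] with y hy _ _ using hy.le
    · exact Filter.Eventually.of_forall fun y h1 h2 => absurd ⟨h1, h2⟩ h
  filter_upwards [hfarr, hsupp, key] with y y1 y2 y3
  obtain ⟨a, b, c, ht, hJ⟩ := body_InT y.2
  have hI : InT a b c x.1 := by
    refine ⟨x.2.1, x.2.2.1, fun t h => ?_⟩
    by_contra h'
    have h1 : 0 < x.1 t := lt_of_le_of_ne (nn t) (Ne.symm h')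
    exact h (pos_mem hJ (y2 t h1))
  exact ⟨a, b, c, ⟨hft a b c ht hI, y1, hJ, fun h => y3 a b c hI h,
    fun h => y3 b c a hI.cyc h, fun h => y3 c a b hI.cyc.cyc h⟩, hI⟩

end Pool.Agent.TSR
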