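import Pool.Agent.TSR.GDefs
import Pool.Agent.TSR.Base

/-!
# TSR: GREL, the pieces of the global resolution are compatible
-/

set_option autoImplicit false

namespace Pool.Agent.TSR

open Set Filter Topology Pool.Agent.TSM

namespace GREL_

theorem perm3 {V : Type} {P : V → V → V → Prop} (sw : ∀ a b c, P a b c → P b a c)
    (cy : ∀ a b c, P a b c → P b c a) {a b c v u w : V} (hab : a ≠ b) (hac : a ≠ c)
    (hbc : b ≠ c) (ha : a = v ∨ a = u ∨ a = w) (hb : b = v ∨ b = u ∨ b = w)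
    (hc : c = v ∨ c = u ∨ c = w) (h : P a b c) : P v u w := by
  rcases ha with rfl | rfl | rfl <;> rcases hb with rfl | rfl | rfl <;>
    rcases hc with rfl | rfl | rfl <;>
    first
      | exact absurd rfl hab
      | exact absurd rfl hac
      | exact absurd rfl hbc
      | exact h
      | exact sw _ _ _ h
      | exact cy _ _ _ h
      | exact cy _ _ _ (cy _ _ _ h)
      | exact sw _ _ _ (cy _ _ _ h)
      | exact cy _ _ _ (sw _ _ _ h)

theorem perm2 {V : Type} {P : V → V → V → Prop} (sw : ∀ a b c, P a b c → P b a c)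
    (cy : ∀ a b c, P a b c → P b c a) {a b c v u : V} (hvu : v ≠ u)
    (hv : v = a ∨ v = b ∨ v = c) (hu : u = a ∨ u = b ∨ u = c) (h : P a b c) :
    ∃ w, P v u w := by
  rcases hv with rfl | rfl | rfl <;> rcases hu with rfl | rfl | rfl <;>
    first
      | exact absurd rfl hvu
      | exact ⟨_, h⟩
      | exact ⟨_, sw _ _ _ h⟩
      | exact ⟨_, cy _ _ _ h⟩
      | exact ⟨_, cy _ _ _ (cy _ _ _ h)⟩
      | exact ⟨_, sw _ _ _ (cy _ _ _ h)⟩
      | exact ⟨_, cy _ _ _ (sw _ _ _ h)⟩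

section
variable {V : Type} [Fintype V] [DecidableEq V] {K : Surf V} {p : V → E3} {Φ : Finset Aff}
  {op : V → V → V → V} {d ρ : ℝ} {x : V → ℝ}

theorem flag_out (hop : IsOpp K op) {v u w : V} (h : Flag K p Φ op v u w) :
    ¬ K.Outer p Φ v := by
  intro ho
  obtain ⟨h1, -, -, -, -⟩ := hop v u w h.1
  apply h.2
  constructor
  · obtain ⟨φ, h0, h2⟩ := ho _ h.1 (by simp)
    exact ⟨φ, h0, h2 _ (by simp), h2 _ (by simp), h2 _ (by simp)⟩
  · obtain ⟨φ, h0, h2⟩ := ho _ h1 (by simp)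
    exact ⟨φ, h0, h2 _ (by simp), h2 _ (by simp), h2 _ (by simp)⟩

theorem inT_mem {v u w y : V} (h : InT v u w x) (hy : x y ≠ 0) : y = v ∨ y = u ∨ y = w := by
  by_contra hn
  push Not at hn
  exact hy (h.zero hn.1 hn.2.1 hn.2.2)

theorem edge_swap (hop : IsOpp K op) {v u w : V} (h : x ∈ rEdge K p Φ op d ρ v u w) :
    x ∈ rEdge K p Φ op d ρ u v w := by
  obtain ⟨h1, h2, h3, h4⟩ := h
  exact ⟨h1.swap hop, h2, h3.swap, by rwa [min_comm]⟩

theorem face_swap {v u w : V} (h : x ∈ rFace K p Φ d ρ v u w) :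
    x ∈ rFace K p Φ d ρ u v w := by
  obtain ⟨h1, h2, h3, h4, h5, h6⟩ := h
  exact ⟨h1.swap, h2, h3.swap, by rwa [min_comm], by rwa [min_comm], by rwa [min_comm]⟩

theorem face_cyc {v u w : V} (h : x ∈ rFace K p Φ d ρ v u w) :
    x ∈ rFace K p Φ d ρ u w v := by
  obtain ⟨h1, h2, h3, h4, h5, h6⟩ := h
  exact ⟨h1.cyc, h2, h3.cyc, h5, h6, h4⟩

theorem fact_swap (hop : IsOpp K op) {v u w : V} (h : x ∈ rFact K p Φ op d ρ v u w) :
    x ∈ rFact K p Φ op d ρ u v w := by
  obtain ⟨h1, h2, h3, h4, h5, h6⟩ := h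
  refine ⟨h1.swap, h2, h3.swap, fun h => ?_, fun h => ?_, fun h => ?_⟩
  · rw [min_comm]; exact h4 (h.swap hop)
  · rw [min_comm]; exact h6 (h.swap hop)
  · rw [min_comm]; exact h5 (h.swap hop)

theorem fact_cyc {v u w : V} (h : x ∈ rFact K p Φ op d ρ v u w) :
    x ∈ rFact K p Φ op d ρ u w v := by
  obtain ⟨h1, h2, h3, h4, h5, h6⟩ := h
  exact ⟨h1.cyc, h2, h3.cyc, h5, h6, h4⟩

theorem edge_pos (hop : IsOpp K op) (hρ : 0 < ρ) {v u w : V}
    (h : x ∈ rEdge K p Φ op d ρ v u w) : 0 < x v := by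
  obtain ⟨h1, h2, h3, h4⟩ := h
  have nn := h3.1
  obtain ⟨n1, n2, n3⟩ := tri_ne h1.1
  have hs := h3.sum n1 n2 n3
  rcases (nn v).lt_or_eq with h5 | h5
  · exact h5
  · exfalso
    have h6 : min (x v) (x u) = 0 := by
      rw [← h5]; exact min_eq_left (nn u)
    rw [h6, mul_zero] at h4
    have h7 := h2 u (flag_out hop (h1.swap hop))
    have := nn w
    linarith

theorem face_pos (hd : 0 < d) (hρ : 0 < ρ) (hop : IsOpp K op) {v u w : V}
    (h : x ∈ rFace K p Φ d ρ v u w) : 0 < x v := by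
  obtain ⟨h1, h2, h3, h4, h5, h6⟩ := h
  have nn := h3.1
  obtain ⟨n1, n2, n3⟩ := tri_ne h1.1
  have hs := h3.sum n1 n2 n3
  have hu : ¬ K.Outer p Φ u := flag_out hop (h1.swap.flag (op := op))
  have hw : ¬ K.Outer p Φ w := flag_out hop (h1.cyc.cyc.flag (op := op))
  rcases (nn v).lt_or_eq with h7 | h7
  · exact h7
  · exfalso
    have a1 := h2 u hu
    have a2 := h2 w hw
    have h8 : 0 < min (x u) (x w) := by
      apply lt_min <;> linarith
    have : 0 < d / 2 * min (x u) (x w) := by positivity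
    linarith


end

end GREL_

open GREL_

theorem grel_proof : Stmt_GREL := by
  intro V _ _ K p Φ op d ρ ε Dc De Df hop hP x hx
  have hd := hP.d0
  have hd1 := hP.d1
  have hρ := hP.r0
  have hρ1 := hP.r1
  have nn : ∀ y, 0 ≤ x y := hx.1
  have s1 : ∑ y, x y = 1 := hx.2.1
  have two : ∀ y z, y ≠ z → x y + x z ≤ 1 := by
    intro y z hyz
    rw [← s1, ← Finset.sum_pair hyz]
    exact Finset.sum_le_sum_of_subset_of_nonneg (Finset.subset_univ _) fun i _ _ => nn i
  have le1 : ∀ y, x y ≤ 1 := by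
    intro y
    rw [← s1]
    exact Finset.single_le_sum (fun i _ => nn i) (Finset.mem_univ y)
  -- pairs
  have cc : ∀ v v', x ∈ rCore K p Φ ρ v → x ∈ rCore K p Φ ρ v' → Dc v x = Dc v' x := by
    intro v v' h h'
    by_cases hv : v = v'
    · rw [hv]
    · have := two v v' hv
      have h1 := h.2.2
      have h2 := h'.2.2
      exfalso; linarith
  have ce : ∀ v a b c, x ∈ rCore K p Φ ρ v → x ∈ rEdge K p Φ op d ρ a b c →
      Dc v x = De a b c x := by
    intro v a b c h h'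
    have h1 := h.2.2
    rcases inT_mem h'.2.2.1 (y := v) (by intro h0; linarith) with rfl | rfl | rfl
    · exact (hP.ce _ _ _ x h' h1).symm
    · rw [← hP.es _ _ _ x h']
      exact (hP.ce _ _ _ x (edge_swap hop h') h1).symm
    · exfalso
      have h2 := h'.2.2.2
      have h3 : min (x a) (x b) ≤ 1 := (min_le_left _ _).trans (le1 a)
      have h4 : 0 ≤ min (x a) (x b) := le_min (nn a) (nn b)
      nlinarith
  have cf : ∀ v a b c, x ∈ rCore K p Φ ρ v → x ∈ rFace K p Φ d ρ a b c →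
      Dc v x = Df a b c x := by
    intro v a b c h h'
    have h1 := h.2.2
    rcases inT_mem h'.2.2.1 (y := v) (by intro h0; linarith) with rfl | rfl | rfl
    · exact (hP.cf _ _ _ x h' h1).symm
    · rw [← (hP.fs _ _ _ x h').1]
      exact (hP.cf _ _ _ x (face_swap h') h1).symm
    · rw [← (hP.fs _ _ _ x h').2, ← (hP.fs _ _ _ x (face_cyc h')).2]
      exact (hP.cf _ _ _ x (face_cyc (face_cyc h')) h1).symm
  have ct : ∀ v a b c, x ∈ rCore K p Φ ρ v → x ∈ rFact K p Φ op d ρ a b c →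
      Dc v x = lin p x := by
    intro v a b c h h'
    have h1 := h.2.2
    rcases inT_mem h'.2.2.1 (y := v) (by intro h0; linarith) with rfl | rfl | rfl
    · exact hP.ct _ _ _ x h' h.1 h1
    · exact hP.ct _ _ _ x (fact_cyc h') h.1 h1
    · exact hP.ct _ _ _ x (fact_cyc (fact_cyc h')) h.1 h1
  have ee0 : ∀ v u w w', x ∈ rEdge K p Φ op d ρ v u w → x ∈ rEdge K p Φ op d ρ v u w' →
      De v u w x = De v u w' x := by
    intro v u w w' h h'
    obtain ⟨-, h2, -, -, h5⟩ := hop v u w h.1.1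
    rcases h5 w' h'.1.1 with rfl | rfl
    · rfl
    · have n := tri_ne h.1.1
      have h0 : x w = 0 := h'.2.2.1.zero n.2.1.symm n.2.2.symm h2.symm
      exact (hP.eo v u w x h h0).symm
  -- an edge region and another edge region which contains the opposite vertex
  have bad : ∀ v u w u' w', x ∈ rEdge K p Φ op d ρ v u w → x ∈ rEdge K p Φ op d ρ w u' w' →
      False := by
    intro v u w u' w' h h'
    have pv := edge_pos hop hρ h
    have pu := edge_pos hop hρ (edge_swap hop h)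
    have pw := edge_pos hop hρ h'
    have pu' := edge_pos hop hρ (edge_swap hop h')
    have n := tri_ne h.1.1
    have n' := tri_ne h'.1.1
    have i1 : x w ≤ d * x v :=
      h.2.2.2.trans (mul_le_mul_of_nonneg_left (min_le_left _ _) hd.le)
    have i2 : x w ≤ d * x u :=
      h.2.2.2.trans (mul_le_mul_of_nonneg_left (min_le_right _ _) hd.le)
    have i3 : x w' ≤ d * x w :=
      h'.2.2.2.trans (mul_le_mul_of_nonneg_left (min_le_left _ _) hd.le)
    have key : ∀ z, 0 < x z → x w ≤ d * x z → z = w' → False := by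
      intro z hz hwz hzw
      rw [← hzw] at i3
      nlinarith
    -- `u'` is `v` or `u`, the other is `w'`
    rcases inT_mem h'.2.2.1 (y := v) pv.ne' with e | e | e
    · exact n.2.1 e
    · rcases inT_mem h'.2.2.1 (y := u) pu.ne' with e' | e' | e'
      · exact n.2.2 e'
      · exact n.1 (e.trans e'.symm)
      · exact key u pu i2 e'
    · exact key v pv i1 e
  have ee : ∀ v u w v' u' w', x ∈ rEdge K p Φ op d ρ v u w →
      x ∈ rEdge K p Φ op d ρ v' u' w' → De v u w x = De v' u' w' x := by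
    intro v u w v' u' w' h h'
    have pv' := edge_pos hop hρ h'
    have pu' := edge_pos hop hρ (edge_swap hop h')
    have n' := tri_ne h'.1.1
    rcases inT_mem h.2.2.1 (y := v') pv'.ne' with e | e | e
    · rcases inT_mem h.2.2.1 (y := u') pu'.ne' with e' | e' | e'
      · exact absurd (e.trans e'.symm) n'.1
      · subst e; subst e'
        exact ee0 _ _ _ _ h h'
      · subst e'
        exact (bad _ _ _ _ _ h (edge_swap hop h')).elim
    · rcases inT_mem h.2.2.1 (y := u') pu'.ne' with e' | e' | e'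
      · subst e; subst e'
        rw [← hP.es _ _ _ x h]
        exact ee0 _ _ _ _ (edge_swap hop h) h'
      · exact absurd (e.trans e'.symm) n'.1
      · subst e'
        exact (bad _ _ _ _ _ h (edge_swap hop h')).elim
    · subst e
      exact (bad _ _ _ _ _ h h').elim
  -- faces
  have fperm : ∀ a b c v u w, x ∈ rFace K p Φ d ρ a b c → InT v u w x →
      x ∈ rFace K p Φ d ρ v u w ∧ Df v u w x = Df a b c x := by
    intro a b c v u w h hI
    have n := tri_ne h.1.1
    have pa := face_pos hd hρ hop h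
    have pb := face_pos hd hρ hop (face_swap h)
    have pc := face_pos hd hρ hop (face_cyc (face_cyc h))
    refine perm3 (P := fun v u w => x ∈ rFace K p Φ d ρ v u w ∧ Df v u w x = Df a b c x)
      ?_ ?_ n.1 n.2.1 n.2.2 (inT_mem hI pa.ne') (inT_mem hI pb.ne') (inT_mem hI pc.ne') ⟨h, rfl⟩
    · intro a' b' c' h'
      exact ⟨face_swap h'.1, (hP.fs _ _ _ x h'.1).1.trans h'.2⟩
    · intro a' b' c' h'
      exact ⟨face_cyc h'.1, (hP.fs _ _ _ x h'.1).2.trans h'.2⟩
  have ef : ∀ v u w a b c, x ∈ rEdge K p Φ op d ρ v u w → x ∈ rFace K p Φ d ρ a b c →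
      De v u w x = Df a b c x := by
    intro v u w a b c h h'
    obtain ⟨h1, h2⟩ := fperm a b c v u w h' h.2.2.1
    rw [← h2]
    exact hP.ef _ _ _ x h h1
  have et : ∀ v u w a b c, x ∈ rEdge K p Φ op d ρ v u w → x ∈ rFact K p Φ op d ρ a b c →
      De v u w x = lin p x := by
    intro v u w a b c h h'
    have pv := edge_pos hop hρ h
    have pu := edge_pos hop hρ (edge_swap hop h)
    have n := tri_ne h.1.1
    obtain ⟨w', h1⟩ := perm2 (P := fun v u w => x ∈ rFact K p Φ op d ρ v u w)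
      (fun _ _ _ h => fact_swap hop h) (fun _ _ _ h => fact_cyc h) n.1
      (inT_mem h'.2.2.1 pv.ne') (inT_mem h'.2.2.1 pu.ne') h'
    obtain ⟨-, -, -, -, h5⟩ := hop v u w h.1.1
    rcases h5 w' h1.1.1 with rfl | rfl
    · exact hP.et _ _ _ x h h1
    · exfalso
      obtain ⟨o1, o2, -, -, -⟩ := hop v u w h.1.1
      have n' := tri_ne o1
      have h0 : x (op v u w) = 0 := h.2.2.1.zero n'.2.1.symm n'.2.2.symm o2
      have h2 := h1.2.2.2.1 (h.1.opp hop)
      rw [h0] at h2
      have h3 : 0 < min (x v) (x u) := lt_min pv pu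
      have : 0 < d / 2 * min (x v) (x u) := by positivity
      linarith
  have ft : ∀ v u w a b c, x ∈ rFace K p Φ d ρ v u w → x ∈ rFact K p Φ op d ρ a b c →
      Df v u w x = lin p x := by
    intro v u w a b c h h'
    exact absurd h'.1.2 (fperm v u w a b c h h'.2.2.1).1.1.2
  -- assembly
  by_cases hex : ∃ q, (∃ v, x ∈ rCore K p Φ ρ v ∧ q = Dc v x) ∨
      (∃ v u w, x ∈ rEdge K p Φ op d ρ v u w ∧ q = De v u w x) ∨
      (∃ v u w, x ∈ rFace K p Φ d ρ v u w ∧ q = Df v u w x) ∨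
      (∃ v u w, x ∈ rFact K p Φ op d ρ v u w ∧ q = lin p x)
  · obtain ⟨q, hq⟩ := hex
    refine ⟨q, ?_, ?_, ?_, ?_⟩
    · intro v' h'
      rcases hq with ⟨v, h, rfl⟩ | ⟨v, u, w, h, rfl⟩ | ⟨v, u, w, h, rfl⟩ | ⟨v, u, w, h, rfl⟩
      · exact cc _ _ h h'
      · exact (ce _ _ _ _ h' h).symm
      · exact (cf _ _ _ _ h' h).symm
      · exact (ct _ _ _ _ h' h).symm
    · intro v' u' w' h'
      rcases hq with ⟨v, h, rfl⟩ | ⟨v, u, w, h, rfl⟩ | ⟨v, u, w, h, rfl⟩ | ⟨v, u, w, h, rfl⟩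
      · exact ce _ _ _ _ h h'
      · exact ee _ _ _ _ _ _ h h'
      · exact (ef _ _ _ _ _ _ h' h).symm
      · exact (et _ _ _ _ _ _ h' h).symm
    · intro v' u' w' h'
      rcases hq with ⟨v, h, rfl⟩ | ⟨v, u, w, h, rfl⟩ | ⟨v, u, w, h, rfl⟩ | ⟨v, u, w, h, rfl⟩
      · exact cf _ _ _ _ h h'
      · exact ef _ _ _ _ _ _ h h'
      · exact (fperm _ _ _ _ _ _ h h'.2.2.1).2.symm
      · exact (ft _ _ _ _ _ _ h' h).symm
    · intro v' u' w' h'
      rcases hq with ⟨v, h, rfl⟩ | ⟨v, u, w, h, rfl⟩ | ⟨v, u, w, h, rfl⟩ | ⟨v, u, w, h, rfl⟩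
      · exact ct _ _ _ _ h h'
      · exact et _ _ _ _ _ _ h h'
      · exact ft _ _ _ _ _ _ h h'
      · rfl
  · push Not at hex
    refine ⟨0, ?_, ?_, ?_, ?_⟩
    · intro v h
      exact absurd rfl ((hex (Dc v x)).1 v h)
    · intro v u w h
      exact absurd rfl ((hex (De v u w x)).2.1 v u w h)
    · intro v u w h
      exact absurd rfl ((hex (Df v u w x)).2.2.1 v u w h)
    · intro v u w h
      exact absurd rfl ((hex (lin p x)).2.2.2 v u w h)

end Pool.Agent.TSR
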