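import Pool.Agent.TSR.GDefs
import Pool.Agent.TSR.Base

/-!
# TSR: R-GLUE, second part: constants, planes, the system of pieces
-/

set_option autoImplicit false

namespace Pool.Agent.TSR

open Set Filter Topology Pool.Agent.TSM

variable {V : Type} [Fintype V] [DecidableEq V]

/-- the edge function of the flag `v u w` -/
noncomputable def FEg (p : V → E3) (op : V → V → V → V) {κ : V → Type}
    (X : (v : V) → V → Finset (κ v)) (τ : V → V → ℝ) (P : V → V → V → Aff)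
    (B : (v : V) → κ v → Aff) (v u w : V) (y : E3) : ℝ :=
  FE (AE p op P v u w) (AE p op P v u (op v u w)) (X v u) (fun n => τ v u • B v n)
    (X u v) (fun n => τ u v • B u n) y

/-- everything which is fixed before the real planes are chosen -/
structure LB (K : Surf V) (p : V → E3) (Φ : Finset Aff) (op : V → V → V → V) (d c C ε' : ℝ)
    {κ : V → Type} (X : (v : V) → V → Finset (κ v)) (τ : V → V → ℝ) (N₀ : (v : V) → κ v → E3)
    (o : V → V → V → ℝ) (oN : (v : V) → κ v → ℝ) (η R M : V → ℝ) : Prop where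
  d0 : 0 < d
  d1 : d < 1 / 4
  c0 : 0 < c
  C0 : 0 < C
  e0 : 0 < ε'
  e1 : ε' ≤ 1
  e2 : ε' < d / 2
  geo : ∀ v u w, Flag K p Φ op v u w →
    EGeo (p v) (p u) (p w) (p (op v u w)) (nE p op v u w) (nE p op v u (op v u w)) c C
  tau : ∀ v u w, Flag K p Φ op v u w → τ v u = 1 ∨ τ v u = -1
  half : ∀ v u w, Flag K p Φ op v u w →
    EHalf (p v) (p u) (p w) (p (op v u w)) (nE p op v u w) (nE p op v u (op v u w)) ε' c C
      (X v u) (fun n => τ v u • N₀ v n) ∧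
    EHalf (p u) (p v) (p w) (p (op v u w)) (nE p op v u w) (nE p op v u (op v u w)) ε' c C
      (X u v) (fun n => τ u v • N₀ u n)
  eta0 : ∀ v, 0 < η v
  R0 : ∀ v, 0 < R v
  oa : ∀ v u w, o v w u = - o v u w
  core : ∀ v, ¬ K.Outer p Φ v → ∀ r : ℝ, 0 < r → ∀ (P : V → V → Aff) (B : κ v → Aff),
    NearV K p Φ v (X v) (N₀ v) (o v) (oN v) (η v) r P B →
      ∃ G : E3 → E3, CoreMap K p Φ op d v (X v) (τ v) (R v) (M v) r P B G

/-- `η'`-near and generic planes -/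
structure Pln (K : Surf V) (p : V → E3) (Φ : Finset Aff) (op : V → V → V → V)
    {κ : V → Type} (X : (v : V) → V → Finset (κ v)) (τ : V → V → ℝ) (N₀ : (v : V) → κ v → E3)
    (η' : ℝ) (P : V → V → V → Aff) (B : (v : V) → κ v → Aff) : Prop where
  anti : ∀ v u w, P v w u = - P v u w
  cyc : ∀ v u w, P u w v = P v u w
  ft : ∀ v u w, Ft K p Φ v u w → P v u w = P0 p v u w
  near : ∀ v u w, ({v, u, w} : Finset V) ∈ K.tri → NearP (p v) (n0 p v u w) η' (P v u w)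
  en : ∀ v u w, Flag K p Φ op v u w →
    ENear (p v) (p u) (nE p op v u w) (nE p op v u (op v u w)) η' (AE p op P v u w)
      (AE p op P v u (op v u w)) (X v u) (fun n => τ v u • N₀ v n) (fun n => τ v u • B v n)
      (X u v) (fun n => τ u v • N₀ u n) (fun n => τ u v • B u n)
  eg : ∀ v u w, Flag K p Φ op v u w →
    EGen (AE p op P v u w) (AE p op P v u (op v u w)) (X v u) (fun n => τ v u • B v n)
      (X u v) (fun n => τ u v • B u n)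

/-- all planes at the flag `v u w` have slope at least `c` along the direction of the edge -/
structure Slp (p : V → E3) (op : V → V → V → V) {κ : V → Type}
    (X : (v : V) → V → Finset (κ v)) (τ : V → V → ℝ) (P : V → V → V → Aff)
    (B : (v : V) → κ v → Aff) (c : ℝ) (v u w : V) : Prop where
  c0 : 0 < c
  ne : (X v u).Nonempty
  ne' : (X u v).Nonempty
  A : c ≤ (inner ℝ (AE p op P v u w).1 (eE p v u w (op v u w)) : ℝ)
  A' : c ≤ (inner ℝ (AE p op P v u (op v u w)).1 (eE p v u w (op v u w)) : ℝ)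
  hB : ∀ n ∈ X v u, c ≤ (inner ℝ (τ v u • B v n).1 (eE p v u w (op v u w)) : ℝ)
  hB' : ∀ n ∈ X u v, c ≤ (inner ℝ (τ u v • B u n).1 (eE p v u w (op v u w)) : ℝ)

/-- all facts about the planes and the core maps which are needed for the pieces -/
structure Sys (K : Surf V) (p : V → E3) (Φ : Finset Aff) (op : V → V → V → V) (d ρ ε : ℝ)
    {κ : V → Type} (X : (v : V) → V → Finset (κ v)) (τ : V → V → ℝ) (P : V → V → V → Aff)
    (B : (v : V) → κ v → Aff) (G : V → E3 → E3) : Prop where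
  d0 : 0 < d
  d1 : d < 1 / 4
  r0 : 0 < ρ
  r1 : ρ < 1 / 4
  ee : 0 < ε
  anti : ∀ v u w, P v w u = - P v u w
  cyc : ∀ v u w, P u w v = P v u w
  ft : ∀ v u w, Ft K p Φ v u w → P v u w = P0 p v u w
  nz : ∀ v u w, ({v, u, w} : Finset V) ∈ K.tri → (P v u w).1 ≠ 0
  cc : ∀ v, ¬ K.Outer p Φ v → ContinuousOn (fun x => G v (lin p x)) (K.star v)
  cg : ∀ v, ¬ K.Outer p Φ v → ∀ x : K.body, 0 < x.1 v →
    Good (fun x' : K.body => G v (K.map p x')) x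
  ch : ∀ v, ¬ K.Outer p Φ v → ∀ x ∈ K.star v, 1 - ρ ≤ x v →
    G v (lin p x) ∈ hull Φ ∧ OneF Φ (G v (lin p x)) ∧ ‖G v (lin p x) - lin p x‖ < ε
  ce : ∀ v u w, ∀ x ∈ rEdge K p Φ op d ρ v u w, 1 - ρ ≤ x v →
    ∃ s : ℝ, G v (lin p x) = lin p x - s • eE p v u w (op v u w) ∧
      FEg p op X τ P B v u w (G v (lin p x)) = 0
  cf : ∀ v u w, ∀ x ∈ rFace K p Φ d ρ v u w, 1 - ρ ≤ x v →
    ∃ s : ℝ, G v (lin p x) = lin p x - s • bT p op d v u w x ∧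
      ev (P v u w) (G v (lin p x)) = 0
  ct : ∀ v u w, ∀ x ∈ rFact K p Φ op d ρ v u w, ¬ K.Outer p Φ v → 1 - ρ ≤ x v →
    G v (lin p x) = lin p x
  sl : ∀ v u w, Flag K p Φ op v u w → ∃ c : ℝ, Slp p op X τ P B c v u w
  fc : ∀ v u w, ∀ x ∈ rEdge K p Φ op d ρ v u w, d / 2 * min (x v) (x u) ≤ x w → ∀ s : ℝ,
    ev (AE p op P v u w) (lin p x - s • eE p v u w (op v u w)) = 0 →
    FEg p op X τ P B v u w (lin p x - s • eE p v u w (op v u w)) = 0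
  gm : ∀ v u w, ∀ x ∈ rEdge K p Φ op d ρ v u w, ∀ s : ℝ,
    FEg p op X τ P B v u w (lin p x - s • eE p v u w (op v u w)) = 0 →
    ∃ f g h : Aff, Indep f g h ∧ ∃ r > 0,
      ∀ z ∈ Metric.ball (lin p x - s • eE p v u w (op v u w)) r,
        FEg p op X τ P B v u w z = 0 → G3 f g h z = 0
  eh : ∀ v u w, ∀ x ∈ rEdge K p Φ op d ρ v u w, ∀ s : ℝ,
    FEg p op X τ P B v u w (lin p x - s • eE p v u w (op v u w)) = 0 →
    (lin p x - s • eE p v u w (op v u w)) ∈ hull Φ ∧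
    OneF Φ (lin p x - s • eE p v u w (op v u w)) ∧ ‖s • eE p v u w (op v u w)‖ < ε
  fe : ∀ v u w, ∀ x ∈ rFace K p Φ d ρ v u w, ∃ s : ℝ,
    ev (P v u w) (lin p x - s • bT p op d v u w x) = 0
  fu : ∀ v u w, ∀ x ∈ rFace K p Φ d ρ v u w, ∀ s t : ℝ,
    ev (P v u w) (lin p x - s • bT p op d v u w x) = 0 →
    ev (P v u w) (lin p x - t • bT p op d v u w x) = 0 → s = t
  fh : ∀ v u w, ∀ x ∈ rFace K p Φ d ρ v u w, ∀ s : ℝ,
    ev (P v u w) (lin p x - s • bT p op d v u w x) = 0 →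
    (lin p x - s • bT p op d v u w x) ∈ hull Φ ∧
    OneF Φ (lin p x - s • bT p op d v u w x) ∧ ‖s • bT p op d v u w x‖ < ε
  fi : ∀ v u w, ∀ x ∈ rFace K p Φ d ρ v u w, ∀ x' ∈ rFace K p Φ d ρ v u w, ∀ s s' : ℝ,
    ev (P v u w) (lin p x - s • bT p op d v u w x) = 0 →
    ev (P v u w) (lin p x' - s' • bT p op d v u w x') = 0 →
    lin p x - s • bT p op d v u w x = lin p x' - s' • bT p op d v u w x' → x = x'
  fk : ∀ v u w, ∀ D : (V → ℝ) → E3, (∀ x ∈ rFace K p Φ d ρ v u w, ∃ s : ℝ,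
    D x = lin p x - s • bT p op d v u w x ∧ ev (P v u w) (D x) = 0) →
    ContinuousOn D (rFace K p Φ d ρ v u w)

/-! ### statements -/

/-- LBX (uses VTX, EGE, BTS, FLG): the constants and the data of the vertices exist. -/
def Stmt_LBX : Prop := ∀ (V : Type) [Fintype V] [DecidableEq V] (K : Surf V) (p : V → E3)
  (Φ : Finset Aff) (op : V → V → V → V), K.Framed p Φ → IsOpp K op →
  ∃ d c C : ℝ, 0 < d ∧ d < 1 / 4 ∧ 0 < c ∧ 0 < C ∧ ∀ᶠ ε' in 𝓝[>] (0 : ℝ),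
    ∃ (κ : V → Type) (X : (v : V) → V → Finset (κ v)) (τ : V → V → ℝ)
      (N₀ : (v : V) → κ v → E3) (o : V → V → V → ℝ) (oN : (v : V) → κ v → ℝ) (η R M : V → ℝ),
      LB K p Φ op d c C ε' X τ N₀ o oN η R M

/-- PLA (uses PLN, GEN, TAI, FLG, BTS): near and generic planes exist. -/
def Stmt_PLA : Prop := ∀ (V : Type) [Fintype V] [DecidableEq V] (K : Surf V) (p : V → E3)
  (Φ : Finset Aff) (op : V → V → V → V), K.Framed p Φ → IsOpp K op →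
  ∀ (d c C ε' : ℝ) (κ : V → Type) (X : (v : V) → V → Finset (κ v)) (τ : V → V → ℝ)
    (N₀ : (v : V) → κ v → E3) (o : V → V → V → ℝ) (oN : (v : V) → κ v → ℝ) (η R M : V → ℝ),
  LB K p Φ op d c C ε' X τ N₀ o oN η R M → ∀ η' : ℝ, 0 < η' → ∀ᶠ r in 𝓝[>] (0 : ℝ),
  ∃ (P : V → V → V → Aff) (B : (v : V) → κ v → Aff), Pln K p Φ op X τ N₀ η' P B ∧
    ∀ v, ¬ K.Outer p Φ v → NearV K p Φ v (X v) (N₀ v) (o v) (oN v) (η v) r (P v) (B v)

/-- SBD (uses EBD, EFU, SSL): bound of the displacement in the edge zone; `Q` is independent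
of `ε'`. -/
def Stmt_SBD : Prop := ∀ (V : Type) [Fintype V] [DecidableEq V] (K : Surf V) (p : V → E3)
  (Φ : Finset Aff) (op : V → V → V → V), K.Framed p Φ → IsOpp K op → ∀ d c C : ℝ,
  ∃ Q : ℝ, 0 < Q ∧
  ∀ (ε' : ℝ) (κ : V → Type) (X : (v : V) → V → Finset (κ v)) (τ : V → V → ℝ)
    (N₀ : (v : V) → κ v → E3) (o : V → V → V → ℝ) (oN : (v : V) → κ v → ℝ) (η R M : V → ℝ),
  LB K p Φ op d c C ε' X τ N₀ o oN η R M → ∀ᶠ η' in 𝓝[>] (0 : ℝ),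
  ∀ (P : V → V → V → Aff) (B : (v : V) → κ v → Aff), Pln K p Φ op X τ N₀ η' P B →
  ∀ v u w, Flag K p Φ op v u w → ∀ x, InT v u w x → ∀ s : ℝ,
    FEg p op X τ P B v u w (lin p x - s • eE p v u w (op v u w)) = 0 →
    ‖s • eE p v u w (op v u w)‖ ≤ Q * (ε' * min (x v) (x u) + η')

/-- SSL: slopes. -/
def Stmt_SSL : Prop := ∀ (V : Type) [Fintype V] [DecidableEq V] (K : Surf V) (p : V → E3)
  (Φ : Finset Aff) (op : V → V → V → V), K.Framed p Φ → IsOpp K op →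
  ∀ (d c C ε' : ℝ) (κ : V → Type) (X : (v : V) → V → Finset (κ v)) (τ : V → V → ℝ)
    (N₀ : (v : V) → κ v → E3) (o : V → V → V → ℝ) (oN : (v : V) → κ v → ℝ) (η R M : V → ℝ),
  LB K p Φ op d c C ε' X τ N₀ o oN η R M → ∀ᶠ η' in 𝓝[>] (0 : ℝ),
  ∀ (P : V → V → V → Aff) (B : (v : V) → κ v → Aff), Pln K p Φ op X τ N₀ η' P B →
  ∀ v u w, Flag K p Φ op v u w → Slp p op X τ P B (c / 2) v u w

/-- SFC (uses EFC): edge zone against face zone. -/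
def Stmt_SFC : Prop := ∀ (V : Type) [Fintype V] [DecidableEq V] (K : Surf V) (p : V → E3)
  (Φ : Finset Aff) (op : V → V → V → V), K.Framed p Φ → IsOpp K op →
  ∀ (d c C ε' : ℝ) (κ : V → Type) (X : (v : V) → V → Finset (κ v)) (τ : V → V → ℝ)
    (N₀ : (v : V) → κ v → E3) (o : V → V → V → ℝ) (oN : (v : V) → κ v → ℝ) (η R M : V → ℝ),
  LB K p Φ op d c C ε' X τ N₀ o oN η R M → ∀ ρ : ℝ, 0 < ρ → ∀ᶠ η' in 𝓝[>] (0 : ℝ),
  ∀ (P : V → V → V → Aff) (B : (v : V) → κ v → Aff), Pln K p Φ op X τ N₀ η' P B →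
  ∀ v u w, ∀ x ∈ rEdge K p Φ op d ρ v u w, d / 2 * min (x v) (x u) ≤ x w → ∀ s : ℝ,
    ev (AE p op P v u w) (lin p x - s • eE p v u w (op v u w)) = 0 →
    FEg p op X τ P B v u w (lin p x - s • eE p v u w (op v u w)) = 0

/-- SAN (uses EAN): edge zone against core. -/
def Stmt_SAN : Prop := ∀ (V : Type) [Fintype V] [DecidableEq V] (K : Surf V) (p : V → E3)
  (Φ : Finset Aff) (op : V → V → V → V), K.Framed p Φ → IsOpp K op →
  ∀ (d c C ε' : ℝ) (κ : V → Type) (X : (v : V) → V → Finset (κ v)) (τ : V → V → ℝ)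
    (N₀ : (v : V) → κ v → E3) (o : V → V → V → ℝ) (oN : (v : V) → κ v → ℝ) (η R M : V → ℝ),
  LB K p Φ op d c C ε' X τ N₀ o oN η R M → ∀ᶠ ρ in 𝓝[>] (0 : ℝ), ∀ᶠ η' in 𝓝[>] (0 : ℝ),
  ∀ (P : V → V → V → Aff) (B : (v : V) → κ v → Aff), Pln K p Φ op X τ N₀ η' P B →
  ∀ v u w, Flag K p Φ op v u w → ∀ x, InT v u w x → 1 - ρ ≤ x v → ∀ (s : ℝ) (y : E3),
    y = lin p x - s • eE p v u w (op v u w) →
    0 ≤ sg p op v u w * ev (P v u w) y →
    0 ≤ sg p op v u (op v u w) * ev (P v u (op v u w)) y →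
    (∀ n ∈ X v u, 0 ≤ τ v u * ev (B v n) y) →
    (ev (P v u w) y = 0 ∨ ev (P v u (op v u w)) y = 0 ∨ ∃ n ∈ X v u, ev (B v n) y = 0) →
    FEg p op X τ P B v u w y = 0

/-- SGM (uses EGM): germs in the edge zone. -/
def Stmt_SGM : Prop := ∀ (V : Type) [Fintype V] [DecidableEq V] (K : Surf V) (p : V → E3)
  (Φ : Finset Aff) (op : V → V → V → V), K.Framed p Φ → IsOpp K op →
  ∀ (d c C ε' : ℝ) (κ : V → Type) (X : (v : V) → V → Finset (κ v)) (τ : V → V → ℝ)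
    (N₀ : (v : V) → κ v → E3) (o : V → V → V → ℝ) (oN : (v : V) → κ v → ℝ) (η R M : V → ℝ),
  LB K p Φ op d c C ε' X τ N₀ o oN η R M → ∀ ρ : ℝ, 0 < ρ → ∀ᶠ η' in 𝓝[>] (0 : ℝ),
  ∀ (P : V → V → V → Aff) (B : (v : V) → κ v → Aff), Pln K p Φ op X τ N₀ η' P B →
  ∀ v u w, ∀ x ∈ rEdge K p Φ op d ρ v u w, ∀ s : ℝ,
    FEg p op X τ P B v u w (lin p x - s • eE p v u w (op v u w)) = 0 →
    ∃ f g h : Aff, Indep f g h ∧ ∃ r > 0,
      ∀ z ∈ Metric.ball (lin p x - s • eE p v u w (op v u w)) r,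
        FEg p op X τ P B v u w z = 0 → G3 f g h z = 0

/-- SEH (uses POC): values of the edge map in the hull; `δ` is the constant of HUL. -/
def Stmt_SEH : Prop := ∀ (V : Type) [Fintype V] [DecidableEq V] (K : Surf V) (p : V → E3)
  (Φ : Finset Aff) (op : V → V → V → V), K.Framed p Φ → IsOpp K op → ∀ δ : ℝ, 0 < δ →
  (∀ v u w, Flag K p Φ op v u w → ∀ x, InT v u w x → 0 < min (x v) (x u) →
      ∀ q : E3, ‖q - lin p x‖ ≤ δ * min (x v) (x u) →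
      (∀ φ ∈ Φ, ev φ (p v) = 0 → ev φ (p u) = 0 → ev φ q ≤ 0) → q ∈ hull Φ ∧ OneF Φ q) →
  ∀ (κ : V → Type) (X : (v : V) → V → Finset (κ v)) (τ : V → V → ℝ)
    (P : V → V → V → Aff) (B : (v : V) → κ v → Aff) (d ρ : ℝ), 0 < d → d < 1 / 4 → 0 < ρ →
  (∀ v u w, Ft K p Φ v u w → P v u w = P0 p v u w) →
  ∀ v u w, ∀ x ∈ rEdge K p Φ op d ρ v u w, ρ / 4 ≤ min (x v) (x u) ∧ ∀ s : ℝ,
    FEg p op X τ P B v u w (lin p x - s • eE p v u w (op v u w)) = 0 →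
    ‖s • eE p v u w (op v u w)‖ ≤ δ * min (x v) (x u) →
    (lin p x - s • eE p v u w (op v u w)) ∈ hull Φ ∧
    OneF Φ (lin p x - s • eE p v u w (op v u w))

/-- SFA (uses FCE, BTP): the face maps; `δ` is the constant of HUL. -/
def Stmt_SFA : Prop := ∀ (V : Type) [Fintype V] [DecidableEq V] (K : Surf V) (p : V → E3)
  (Φ : Finset Aff) (op : V → V → V → V), K.Framed p Φ → IsOpp K op → ∀ δ : ℝ, 0 < δ →
  (∀ v u w, Nf K p Φ v u w → ∀ x, InT v u w x → 0 < min (x v) (min (x u) (x w)) →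
      ∀ q : E3, ‖q - lin p x‖ ≤ δ * min (x v) (min (x u) (x w)) → q ∈ hull Φ ∧ OneF Φ q) →
  ∀ d ρ ε : ℝ, 0 < d → d < 1 / 4 → 0 < ρ → ρ < 1 / 4 → 0 < ε → ∀ᶠ η' in 𝓝[>] (0 : ℝ),
  ∀ (P : V → V → V → Aff), (∀ v u w, Nf K p Φ v u w → NearP (p v) (n0 p v u w) η' (P v u w)) →
  (∀ v u w, ∀ x ∈ rFace K p Φ d ρ v u w, ∃ s : ℝ,
    ev (P v u w) (lin p x - s • bT p op d v u w x) = 0) ∧
  (∀ v u w, ∀ x ∈ rFace K p Φ d ρ v u w, ∀ s t : ℝ,
    ev (P v u w) (lin p x - s • bT p op d v u w x) = 0 →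
    ev (P v u w) (lin p x - t • bT p op d v u w x) = 0 → s = t) ∧
  (∀ v u w, ∀ x ∈ rFace K p Φ d ρ v u w, ∀ s : ℝ,
    ev (P v u w) (lin p x - s • bT p op d v u w x) = 0 →
    (lin p x - s • bT p op d v u w x) ∈ hull Φ ∧
    OneF Φ (lin p x - s • bT p op d v u w x) ∧ ‖s • bT p op d v u w x‖ < ε) ∧
  (∀ v u w, ∀ x ∈ rFace K p Φ d ρ v u w, ∀ x' ∈ rFace K p Φ d ρ v u w, ∀ s s' : ℝ,
    ev (P v u w) (lin p x - s • bT p op d v u w x) = 0 →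
    ev (P v u w) (lin p x' - s' • bT p op d v u w x') = 0 →
    lin p x - s • bT p op d v u w x = lin p x' - s' • bT p op d v u w x' → x = x') ∧
  (∀ v u w, ∀ D : (V → ℝ) → E3, (∀ x ∈ rFace K p Φ d ρ v u w, ∃ s : ℝ,
    D x = lin p x - s • bT p op d v u w x ∧ ev (P v u w) (D x) = 0) →
    ContinuousOn D (rFace K p Φ d ρ v u w))

/-- SCO (uses TAI): sizes at the cores. -/
def Stmt_SCO : Prop := ∀ (V : Type) [Fintype V] [DecidableEq V] (K : Surf V) (p : V → E3)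
  (Φ : Finset Aff) (op : V → V → V → V), K.Framed p Φ → ∀ (d ε : ℝ) (δ R M : V → ℝ),
  0 < ε → (∀ v, 0 < δ v) → (∀ v, 0 < R v) → ∀ᶠ ρ in 𝓝[>] (0 : ℝ), ∀ᶠ r in 𝓝[>] (0 : ℝ),
  ∀ (v : V) (κ : Type) (X : V → Finset κ) (τ : V → ℝ) (P : V → V → Aff) (B : κ → Aff)
    (G : E3 → E3), CoreMap K p Φ op d v X τ (R v) (M v) r P B G →
  (∀ x ∈ K.star v, 1 - ρ ≤ x v →
    ‖G (lin p x) - p v‖ ≤ δ v ∧ ‖G (lin p x) - lin p x‖ < ε) ∧
  (∀ x ∈ K.star v, x v ≤ 1 - ρ / 2 → R v * r ≤ ‖lin p x - p v‖)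

/-- SYE (uses EFU, EIJ, BTS): the edge maps. -/
def Stmt_SYE : Prop := ∀ (V : Type) [Fintype V] [DecidableEq V] (K : Surf V) (p : V → E3)
  (Φ : Finset Aff) (op : V → V → V → V), K.Framed p Φ → IsOpp K op →
  ∀ (d ρ ε : ℝ) (κ : V → Type) (X : (v : V) → V → Finset (κ v)) (τ : V → V → ℝ)
    (P : V → V → V → Aff) (B : (v : V) → κ v → Aff) (G : V → E3 → E3),
  Sys K p Φ op d ρ ε X τ P B G → ∀ De : V → V → V → (V → ℝ) → E3,
  (∀ v u w, ∀ x ∈ rEdge K p Φ op d ρ v u w, ∃ s : ℝ,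
    De v u w x = lin p x - s • eE p v u w (op v u w) ∧
    FEg p op X τ P B v u w (De v u w x) = 0) →
  (∀ v u w, ContinuousOn (De v u w) (rEdge K p Φ op d ρ v u w)) ∧
  (∀ v u w, ∀ x ∈ rEdge K p Φ op d ρ v u w, De u v w x = De v u w x) ∧
  (∀ v u w, ∀ x ∈ rEdge K p Φ op d ρ v u w, x w = 0 → De v u (op v u w) x = De v u w x) ∧
  (∀ v u w, ∀ x ∈ rEdge K p Φ op d ρ v u w, 1 - ρ ≤ x v → De v u w x = G v (lin p x)) ∧
  (∀ v u w, ∀ x ∈ rEdge K p Φ op d ρ v u w, x ∈ rFact K p Φ op d ρ v u w →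
    De v u w x = lin p x) ∧
  (∀ v u w, ∀ x ∈ rEdge K p Φ op d ρ v u w, ∃ a b c : Aff, Indep a b c ∧
    ∀ᶠ y in 𝓝 x, (y ∈ rEdge K p Φ op d ρ v u w → G3 a b c (De v u w y) = 0) ∧
      (y ∈ rEdge K p Φ op d ρ v u (op v u w) → G3 a b c (De v u (op v u w) y) = 0)) ∧
  (∀ v u w, ∀ x ∈ rEdge K p Φ op d ρ v u w,
    (∀ y ∈ rEdge K p Φ op d ρ v u w, De v u w x = De v u w y → x = y) ∧
    (∀ y ∈ rEdge K p Φ op d ρ v u (op v u w), De v u w x = De v u (op v u w) y → x = y)) ∧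
  (∀ v u w, ∀ x ∈ rEdge K p Φ op d ρ v u w,
    De v u w x ∈ hull Φ ∧ OneF Φ (De v u w x) ∧ ‖De v u w x - lin p x‖ < ε)

/-- SYF (uses BTS, FGer): the face maps. -/
def Stmt_SYF : Prop := ∀ (V : Type) [Fintype V] [DecidableEq V] (K : Surf V) (p : V → E3)
  (Φ : Finset Aff) (op : V → V → V → V), K.Framed p Φ → IsOpp K op →
  ∀ (d ρ ε : ℝ) (κ : V → Type) (X : (v : V) → V → Finset (κ v)) (τ : V → V → ℝ)
    (P : V → V → V → Aff) (B : (v : V) → κ v → Aff) (G : V → E3 → E3),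
  Sys K p Φ op d ρ ε X τ P B G → ∀ Df : V → V → V → (V → ℝ) → E3,
  (∀ v u w, ∀ x ∈ rFace K p Φ d ρ v u w, ∃ s : ℝ,
    Df v u w x = lin p x - s • bT p op d v u w x ∧ ev (P v u w) (Df v u w x) = 0) →
  (∀ v u w, ContinuousOn (Df v u w) (rFace K p Φ d ρ v u w)) ∧
  (∀ v u w, ∀ x ∈ rFace K p Φ d ρ v u w,
    Df u v w x = Df v u w x ∧ Df u w v x = Df v u w x) ∧
  (∀ v u w, ∀ x ∈ rFace K p Φ d ρ v u w, 1 - ρ ≤ x v → Df v u w x = G v (lin p x)) ∧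
  (∀ v u w, ∀ x ∈ rFace K p Φ d ρ v u w, ∃ a b c : Aff, Indep a b c ∧
    ∀ᶠ y in 𝓝 x, y ∈ rFace K p Φ d ρ v u w → G3 a b c (Df v u w y) = 0) ∧
  (∀ v u w, ∀ x ∈ rFace K p Φ d ρ v u w, ∀ y ∈ rFace K p Φ d ρ v u w,
    Df v u w x = Df v u w y → x = y) ∧
  (∀ v u w, ∀ x ∈ rFace K p Φ d ρ v u w,
    Df v u w x ∈ hull Φ ∧ OneF Φ (Df v u w x) ∧ ‖Df v u w x - lin p x‖ < ε)

end Pool.Agent.TSR
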