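import Pool.Agent.TSR.GDefs
import Pool.Agent.TSR.Base

/-!
# TSR: module HUL: margins of the facet planes
-/

set_option autoImplicit false

namespace Pool.Agent.TSR

open Set Filter Topology Pool.Agent.TSM

namespace HUL_

theorem gap {ι : Type} [Finite ι] (f : ι → ℝ) : ∃ g : ℝ, 0 < g ∧ ∀ i, f i < 0 → f i ≤ -g := by
  classical
  haveI := Fintype.ofFinite ι
  by_cases h : (Finset.univ.filter (fun i => f i < 0)).Nonempty
  · obtain ⟨i, hi, hm⟩ := Finset.exists_max_image _ f h
    have hi' : f i < 0 := (Finset.mem_filter.1 hi).2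
    refine ⟨- f i, by linarith, fun j hj => ?_⟩
    have := hm j (Finset.mem_filter.2 ⟨Finset.mem_univ _, hj⟩)
    linarith
  · refine ⟨1, one_pos, fun j hj => ?_⟩
    exact absurd ⟨j, Finset.mem_filter.2 ⟨Finset.mem_univ _, hj⟩⟩ h

variable {V : Type} [Fintype V] [DecidableEq V]

theorem gap2 (p : V → E3) (Φ : Finset Aff) : ∃ g : ℝ, 0 < g ∧ ∀ v, ∀ φ ∈ Φ, ev φ (p v) < 0 →
    ev φ (p v) ≤ -g := by
  obtain ⟨g, hg, h⟩ := gap (fun i : V × {φ // φ ∈ Φ} => ev i.2.1 (p i.1))
  exact ⟨g, hg, fun v φ hφ => h (v, ⟨φ, hφ⟩)⟩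

theorem ev_near {φ : Aff} (h : ‖φ.1‖ = 1) (q y : E3) : ev φ q ≤ ev φ y + ‖q - y‖ := by
  have h1 := ev_sub φ q y
  have h2 := abs_real_inner_le_norm φ.1 (q - y)
  rw [h, one_mul] at h2
  have h3 := le_abs_self (inner ℝ φ.1 (q - y) : ℝ)
  linarith

theorem ev_lin {v u w : V} {x : V → ℝ} (p : V → E3) (φ : Aff) (h : InT v u w x) (h1 : v ≠ u)
    (h2 : v ≠ w) (h3 : u ≠ w) :
    ev φ (lin p x) = x v * ev φ (p v) + x u * ev φ (p u) + x w * ev φ (p w) := by
  rw [h.lin h1 h2 h3]
  have hs := h.sum h1 h2 h3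
  unfold ev
  rw [inner_add_right, inner_add_right, inner_smul_right, inner_smul_right, inner_sub_right,
    inner_sub_right]
  have : x v = 1 - x u - x w := by linarith
  rw [this]
  ring

theorem uniq {K : Surf V} {p : V → E3} {Φ : Finset Aff} (hF : K.Framed p Φ) {v : V}
    (hv : ¬ K.Outer p Φ v) {φ ψ : Aff} (hφ : φ ∈ Φ) (hψ : ψ ∈ Φ) (h1 : ev φ (p v) = 0)
    (h2 : ev ψ (p v) = 0) : φ = ψ := by
  rcases hF.kinds v with h | h | h
  · exact absurd h hv
  · have := h.1 φ hφ
    linarith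
  · obtain ⟨χ, hχ, -, h3, -⟩ := h
    have e1 : φ = χ := by
      by_contra hne
      have := h3 φ hφ hne
      linarith
    have e2 : ψ = χ := by
      by_contra hne
      have := h3 ψ hψ hne
      linarith
    rw [e1, e2]

theorem flag_not {K : Surf V} {p : V → E3} {Φ : Finset Aff} {op : V → V → V → V}
    (hop : IsOpp K op) {v u w : V} (h : Flag K p Φ op v u w) : ¬ K.Outer p Φ v := by
  intro ho
  refine h.2 ⟨?_, ?_⟩
  · obtain ⟨φ, hφ, h1⟩ := ho _ h.1 (by simp)
    exact ⟨φ, hφ, h1 v (by simp), h1 u (by simp), h1 w (by simp)⟩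
  · obtain ⟨h2, -⟩ := hop v u w h.1
    obtain ⟨φ, hφ, h1⟩ := ho _ h2 (by simp)
    exact ⟨φ, hφ, h1 v (by simp), h1 u (by simp), h1 _ (by simp)⟩

end HUL_

open HUL_ in
theorem hul_proof : Stmt_HUL := by
  intro V _ _ K p Φ op hF hop
  obtain ⟨g, hg, hgap⟩ := gap2 p Φ
  refine ⟨?_, g / 2, by linarith, ?_, ?_⟩
  · intro v hv
    refine ⟨g / 2, by linarith, fun q hq hz => ?_⟩
    have key : ∀ φ ∈ Φ, ev φ (p v) ≠ 0 → ev φ q < 0 := by
      intro φ hφ hne
      have h1 : ev φ (p v) < 0 := lt_of_le_of_ne (hF.mem v φ hφ) hne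
      have h2 := hgap v φ hφ h1
      have h3 := ev_near (hF.unit φ hφ) q (p v)
      linarith
    refine ⟨fun φ hφ => ?_, fun φ hφ ψ hψ h1 h2 => ?_⟩
    · by_cases h0 : ev φ (p v) = 0
      · exact hz φ hφ h0
      · exact (key φ hφ h0).le
    · apply uniq hF hv hφ hψ
      · by_contra h0
        have := key φ hφ h0
        linarith
      · by_contra h0
        have := key ψ hψ h0
        linarith
  · intro v u w hfl x hx hm q hq hz
    obtain ⟨n1, n2, n3⟩ := tri_ne hfl.1
    have hx0 := hx.1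
    set m := min (x v) (x u) with hm'
    have hmv : m ≤ x v := min_le_left _ _
    have hmu : m ≤ x u := min_le_right _ _
    have key : ∀ φ ∈ Φ, ¬ (ev φ (p v) = 0 ∧ ev φ (p u) = 0) → ev φ q < 0 := by
      intro φ hφ hne
      have e := ev_lin p φ hx n1 n2 n3
      have h3 := ev_near (hF.unit φ hφ) q (lin p x)
      have kv := hF.mem v φ hφ
      have ku := hF.mem u φ hφ
      have kw := hF.mem w φ hφ
      have a1 := mul_nonpos_of_nonneg_of_nonpos (hx0 v) kv
      have a2 := mul_nonpos_of_nonneg_of_nonpos (hx0 u) ku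
      have a3 := mul_nonpos_of_nonneg_of_nonpos (hx0 w) kw
      have hlin : ev φ (lin p x) ≤ - (g * m) := by
        by_cases h0 : ev φ (p v) = 0
        · have h1 : ev φ (p u) < 0 := lt_of_le_of_ne ku (fun h => hne ⟨h0, h⟩)
          have h2 := hgap u φ hφ h1
          have h4 : x u * ev φ (p u) ≤ m * (-g) := by nlinarith
          linarith
        · have h1 : ev φ (p v) < 0 := lt_of_le_of_ne kv h0
          have h2 := hgap v φ hφ h1
          have h4 : x v * ev φ (p v) ≤ m * (-g) := by nlinarith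
          linarith
      have h5 : 0 < g * m := mul_pos hg hm
      have h6 : g / 2 * m = g * m / 2 := by ring
      linarith
    refine ⟨fun φ hφ => ?_, fun φ hφ ψ hψ h1 h2 => ?_⟩
    · by_cases h0 : ev φ (p v) = 0 ∧ ev φ (p u) = 0
      · exact hz φ hφ h0.1 h0.2
      · exact (key φ hφ h0).le
    · apply uniq hF (flag_not hop hfl) hφ hψ
      · by_contra h0
        have := key φ hφ (fun h => h0 h.1)
        linarith
      · by_contra h0
        have := key ψ hψ (fun h => h0 h.1)
        linarith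
  · intro v u w hnf x hx hm q hq
    obtain ⟨n1, n2, n3⟩ := tri_ne hnf.1
    have hx0 := hx.1
    set m := min (x v) (min (x u) (x w)) with hm'
    have hmv : m ≤ x v := min_le_left _ _
    have hmu : m ≤ x u := (min_le_right _ _).trans (min_le_left _ _)
    have hmw : m ≤ x w := (min_le_right _ _).trans (min_le_right _ _)
    have key : ∀ φ ∈ Φ, ev φ q < 0 := by
      intro φ hφ
      have e := ev_lin p φ hx n1 n2 n3
      have h3 := ev_near (hF.unit φ hφ) q (lin p x)
      have kv := hF.mem v φ hφ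
      have ku := hF.mem u φ hφ
      have kw := hF.mem w φ hφ
      have a1 := mul_nonpos_of_nonneg_of_nonpos (hx0 v) kv
      have a2 := mul_nonpos_of_nonneg_of_nonpos (hx0 u) ku
      have a3 := mul_nonpos_of_nonneg_of_nonpos (hx0 w) kw
      have hlin : ev φ (lin p x) ≤ - (g * m) := by
        by_cases h0 : ev φ (p v) = 0
        · by_cases h0' : ev φ (p u) = 0
          · have h1 : ev φ (p w) < 0 := lt_of_le_of_ne kw (fun h => hnf.2 ⟨φ, hφ, h0, h0', h⟩)
            have h2 := hgap w φ hφ h1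
            have h4 : x w * ev φ (p w) ≤ m * (-g) := by nlinarith
            linarith
          · have h1 : ev φ (p u) < 0 := lt_of_le_of_ne ku h0'
            have h2 := hgap u φ hφ h1
            have h4 : x u * ev φ (p u) ≤ m * (-g) := by nlinarith
            linarith
        · have h1 : ev φ (p v) < 0 := lt_of_le_of_ne kv h0
          have h2 := hgap v φ hφ h1
          have h4 : x v * ev φ (p v) ≤ m * (-g) := by nlinarith
          linarith
      have h5 : 0 < g * m := mul_pos hg hm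
      have h6 : g / 2 * m = g * m / 2 := by ring
      linarith
    refine ⟨fun φ hφ => (key φ hφ).le, fun φ hφ ψ hψ h1 h2 => ?_⟩
    have := key φ hφ
    linarith

end Pool.Agent.TSR
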