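import Pool.Agent.TSR.HDefs

/-!
# TSR: module LBX: the constants and the data of the vertices exist
-/

set_option autoImplicit false

namespace Pool.Agent.TSR

open Set Filter Topology Pool.Agent.TSM

namespace LBX_

theorem low {ι : Type} [Finite ι] (f : ι → ℝ) (h : ∀ i, 0 < f i) :
    ∃ c : ℝ, 0 < c ∧ ∀ i, c ≤ f i := by
  rcases isEmpty_or_nonempty ι with h0 | h0
  · exact ⟨1, one_pos, fun i => h0.elim i⟩
  · obtain ⟨i, hi⟩ := Finite.exists_min f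
    exact ⟨f i, h i, hi⟩

theorem upp {ι : Type} [Finite ι] (f : ι → ℝ) : ∃ C : ℝ, 0 < C ∧ ∀ i, f i ≤ C := by
  rcases isEmpty_or_nonempty ι with h0 | h0
  · exact ⟨1, one_pos, fun i => h0.elim i⟩
  · obtain ⟨i, hi⟩ := Finite.exists_max f
    exact ⟨max (f i) 1, lt_of_lt_of_le one_pos (le_max_right _ _),
      fun j => (hi j).trans (le_max_left _ _)⟩

theorem EGeo.mono {a a' b b' ν ν' : E3} {c C c' C' : ℝ} (h : EGeo a a' b b' ν ν' c C)
    (h0 : 0 < c') (h1 : c' ≤ c) (h2 : C ≤ C') : EGeo a a' b b' ν ν' c' C' where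
  ind := h.ind
  ka := h.ka
  kb := h.kb
  kb' := h.kb'
  la := h.la
  lb' := h.lb'
  lb := h.lb
  c0 := h0
  ck := h1.trans h.ck
  cl := h1.trans h.cl
  nk := h.nk.trans h2
  nl := h.nl.trans h2

theorem EHalf.mono {ι : Type} {a a' b b' ν ν' : E3} {ε' c C c' C' : ℝ} {X : Finset ι}
    {N : ι → E3} (h : EHalf a a' b b' ν ν' ε' c C X N) (h1 : c' ≤ c) (h2 : C ≤ C') :
    EHalf a a' b b' ν ν' ε' c' C' X N where
  ne := h.ne
  n1 := h.n1
  n2 := h.n2
  n3 := fun n hn => ⟨h1.trans (h.n3 n hn).1, (h.n3 n hn).2.trans h2⟩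
  n4 := h.n4

end LBX_

open LBX_ in
theorem lbx_proof (hVTX : Stmt_VTX) (hEGE : Stmt_EGE) (hBTS : Stmt_BTS) (hFLG : Stmt_FLG) :
    Stmt_LBX := by
  intro V _ _ K p Φ op hF hop
  obtain ⟨d₀, hd₀, hV⟩ := hVTX V K p Φ op hF hop
  obtain ⟨cE, CE, hcE, hE⟩ := hEGE V K p Φ op hF hop
  have hflag := (hFLG V K p Φ op hF hop).2
  have hdm : 0 < min d₀ (1 / 4) := lt_min hd₀ (by norm_num)
  obtain ⟨d, hd⟩ : ∃ d : ℝ, d = min d₀ (1 / 4) / 2 := ⟨_, rfl⟩
  have hd0 : 0 < d := by rw [hd]; linarith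
  have hd1 : d < d₀ := by
    have := min_le_left d₀ (1 / 4); rw [hd]; linarith
  have hd2 : d < 1 / 4 := by
    have := min_le_right d₀ (1 / 4); rw [hd]; linarith
  have hVd := hV d hd0 hd1
  -- constants of the vertices
  have hcon : ∀ v, ∃ c C ε₀ : ℝ, 0 < c ∧ 0 < ε₀ ∧ (¬ K.Outer p Φ v → ∀ ε' : ℝ, 0 < ε' → ε' < ε₀ →
    ∃ (κ : Type) (X : V → Finset κ) (τ : V → ℝ) (N₀ : κ → E3),
      (∀ u w, Flag K p Φ op v u w → (τ u = 1 ∨ τ u = -1) ∧
        EHalf (p v) (p u) (p w) (p (op v u w)) (nE p op v u w) (nE p op v u (op v u w)) ε' c C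
          (X u) (fun n => τ u • N₀ n)) ∧
      ∃ (o : V → V → ℝ) (oN : κ → ℝ) (η R M : ℝ), 0 < η ∧ 0 < R ∧ (∀ u w, o w u = - o u w) ∧
        ∀ (r : ℝ), 0 < r → ∀ (P : V → V → Aff) (B : κ → Aff),
        NearV K p Φ v X N₀ o oN η r P B → ∃ G : E3 → E3, CoreMap K p Φ op d v X τ R M r P B G) := by
    intro v
    by_cases hv : K.Outer p Φ v
    · exact ⟨1, 1, 1, one_pos, one_pos, fun h => absurd hv h⟩
    · obtain ⟨c, C, ε₀, h1, h2, h3⟩ := hVd v hv
      exact ⟨c, C, ε₀, h1, h2, fun _ => h3⟩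
  choose cV CV eV₀ hc0 he0 hdat using hcon
  obtain ⟨c1, hc1, hc1'⟩ := low cV hc0
  obtain ⟨C1, hC1, hC1'⟩ := upp CV
  obtain ⟨e1, he1, he1'⟩ := low eV₀ he0
  refine ⟨d, min cE c1, max CE C1, hd0, hd2, lt_min hcE hc1, lt_of_lt_of_le hC1 (le_max_right _ _),
    ?_⟩
  have he2 : 0 < min e1 (min 1 (d / 2)) := lt_min he1 (lt_min one_pos (by linarith))
  filter_upwards [Ioo_mem_nhdsGT he2] with ε' hε'
  obtain ⟨hp, hlt⟩ := hε'
  have hlt1 : ε' < e1 := lt_of_lt_of_le hlt (min_le_left _ _)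
  have hlt2 : ε' < 1 := lt_of_lt_of_le hlt ((min_le_right _ _).trans (min_le_left _ _))
  have hlt3 : ε' < d / 2 := lt_of_lt_of_le hlt ((min_le_right _ _).trans (min_le_right _ _))
  have hall : ∀ v, ∃ (κ : Type) (X : V → Finset κ) (τ : V → ℝ) (N₀ : κ → E3)
      (o : V → V → ℝ) (oN : κ → ℝ) (η R M : ℝ),
      (∀ u w, Flag K p Φ op v u w → (τ u = 1 ∨ τ u = -1) ∧
        EHalf (p v) (p u) (p w) (p (op v u w)) (nE p op v u w) (nE p op v u (op v u w)) ε'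
          (cV v) (CV v) (X u) (fun n => τ u • N₀ n)) ∧
      0 < η ∧ 0 < R ∧ (∀ u w, o w u = - o u w) ∧
        (¬ K.Outer p Φ v → ∀ (r : ℝ), 0 < r → ∀ (P : V → V → Aff) (B : κ → Aff),
        NearV K p Φ v X N₀ o oN η r P B →
          ∃ G : E3 → E3, CoreMap K p Φ op d v X τ R M r P B G) := by
    intro v
    by_cases hv : K.Outer p Φ v
    · refine ⟨Empty, fun _ => ∅, fun _ => 1, fun _ => 0, fun _ _ => 0, fun _ => 0, 1, 1, 0, ?_,
        one_pos, one_pos, by intros; simp, fun h => absurd hv h⟩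
      intro u w hfl
      exact absurd hv (hflag v u w hfl).1
    · obtain ⟨κ, X, τ, N₀, h1, o, oN, η, R, M, h2, h3, h4, h5⟩ :=
        hdat v hv ε' hp (lt_of_lt_of_le hlt1 (he1' v))
      exact ⟨κ, X, τ, N₀, o, oN, η, R, M, h1, h2, h3, h4, fun _ => h5⟩
  choose κ X τ N₀ o oN η R M hhalf hη hR ho hcore using hall
  refine ⟨κ, X, τ, N₀, o, oN, η, R, M, ?_⟩
  exact {
    d0 := hd0
    d1 := hd2
    c0 := lt_min hcE hc1
    C0 := lt_of_lt_of_le hC1 (le_max_right _ _)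
    e0 := hp
    e1 := hlt2.le
    e2 := hlt3
    geo := fun v u w hfl => EGeo.mono (hE v u w hfl) (lt_min hcE hc1) (min_le_left _ _)
      (le_max_left _ _)
    tau := fun v u w hfl => (hhalf v u w hfl).1
    half := by
      intro v u w hfl
      obtain ⟨-, hfl2, hfl3, -⟩ := hflag v u w hfl
      obtain ⟨-, -, e3, -, -⟩ := hop v u w hfl.1
      have q1 := (hhalf v u w hfl).2
      have q2 := (hhalf u v w hfl3).2
      obtain ⟨-, -, b1, -⟩ := hBTS V K p op hop v u w hfl.1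
      obtain ⟨-, -, b2, -⟩ := hBTS V K p op hop v u (op v u w) hfl2.1
      rw [e3, b1, b2] at q2
      refine ⟨EHalf.mono q1 ?_ ?_, EHalf.mono q2 ?_ ?_⟩
      · exact (min_le_right _ _).trans (hc1' v)
      · exact (hC1' v).trans (le_max_right _ _)
      · exact (min_le_right _ _).trans (hc1' u)
      · exact (hC1' u).trans (le_max_right _ _)
    eta0 := hη
    R0 := hR
    oa := fun v u w => ho v u w
    core := fun v hv r hr P B hN => hcore v hv r hr P B hN }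

end Pool.Agent.TSR
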