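import Pool.Agent.TSR.TStmts

/-!
# TSR, OPP: opposite vertices
-/

set_option autoImplicit false

namespace Pool.Agent.TSR

open Set Filter Topology Pool.Agent.TSM

namespace OPP_

variable {V : Type} [Fintype V] [DecidableEq V]

theorem dist3 (K : Surf V) {v u w : V} (h : ({v, u, w} : Finset V) ∈ K.tri) :
    v ≠ u ∧ v ≠ w ∧ u ≠ w := by
  have h3 := K.card3 _ h
  refine ⟨?_, ?_, ?_⟩
  · rintro rfl
    rw [Finset.insert_eq_of_mem (Finset.mem_insert_self _ _)] at h3
    have := Finset.card_le_two (a := v) (b := w)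
    omega
  · rintro rfl
    rw [Finset.insert_eq_of_mem (by simp)] at h3
    have := Finset.card_le_two (a := u) (b := v)
    omega
  · rintro rfl
    rw [Finset.insert_eq_of_mem (s := {u}) (by simp)] at h3
    have := Finset.card_le_two (a := v) (b := u)
    omega

theorem two (K : Surf V) {v u w : V} (h : ({v, u, w} : Finset V) ∈ K.tri) :
    ∃ a b : V, a ≠ b ∧ ∀ x, (({v, u, x} : Finset V) ∈ K.tri ↔ (x = a ∨ x = b)) := by
  obtain ⟨n, c, hn, hinj, hcv, hc⟩ := K.link v
  obtain ⟨hvu, hvw, huw⟩ := dist3 K h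
  have hu : ∃ j, u = c j := by
    obtain ⟨i, hi⟩ := (hc {v, u, w}).1 ⟨h, by simp⟩
    have h1 : u ∈ ({v, c i, c (i + 1)} : Finset V) := by rw [← hi]; simp
    simp only [Finset.mem_insert, Finset.mem_singleton] at h1
    rcases h1 with h1 | h1 | h1
    · exact absurd h1.symm hvu
    · exact ⟨i, h1⟩
    · exact ⟨i + 1, h1⟩
  obtain ⟨j, rfl⟩ := hu
  have h2 : (j + 1 : ZMod n) ≠ j - 1 := by
    intro h3
    have h4 : ((2 : ℕ) : ZMod n) = 0 := by
      have h5 : (j + 1 : ZMod n) - (j - 1) = 0 := by rw [h3, sub_self]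
      have h6 : (j + 1 : ZMod n) - (j - 1) = 2 := by ring
      rw [h6] at h5
      exact_mod_cast h5
    rw [ZMod.natCast_eq_zero_iff] at h4
    have := Nat.le_of_dvd (by norm_num) h4
    omega
  refine ⟨c (j + 1), c (j - 1), fun h3 => h2 (hinj h3), ?_⟩
  intro x
  constructor
  · intro hx
    obtain ⟨k, hk⟩ := (hc {v, c j, x}).1 ⟨hx, by simp⟩
    obtain ⟨hvj, hvx, hjx⟩ := dist3 K hx
    have h3 : c j ∈ ({v, c k, c (k + 1)} : Finset V) := by rw [← hk]; simp
    have h4 : x ∈ ({v, c k, c (k + 1)} : Finset V) := by rw [← hk]; simp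
    simp only [Finset.mem_insert, Finset.mem_singleton] at h3 h4
    rcases h3 with h3 | h3 | h3
    · exact absurd h3 (hcv j)
    · have h5 : j = k := hinj h3
      subst h5
      rcases h4 with h4 | h4 | h4
      · exact absurd h4.symm hvx
      · exact absurd h4.symm hjx
      · left; exact h4
    · have h5 : j = k + 1 := hinj h3
      have h6 : k = j - 1 := by rw [h5]; ring
      rcases h4 with h4 | h4 | h4
      · exact absurd h4.symm hvx
      · right; rw [h4, h6]
      · exact absurd (h3.trans h4.symm) hjx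
  · rintro (rfl | rfl)
    · exact ((hc _).2 ⟨j, rfl⟩).1
    · have h3 := ((hc {v, c (j - 1), c (j - 1 + 1)}).2 ⟨j - 1, rfl⟩).1
      rw [sub_add_cancel] at h3
      have h4 : ({v, c j, c (j - 1)} : Finset V) = {v, c (j - 1), c j} := by
        rw [Finset.pair_comm (c j)]
      rw [h4]
      exact h3

end OPP_

open OPP_ in
theorem OPP_proof : Stmt_OPP := by
  classical
  intro V _ _ K
  let op : V → V → V → V := fun v u w =>
    if h : ∃ x, ({v, u, x} : Finset V) ∈ K.tri ∧ x ≠ w then h.choose else w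
  have key : ∀ v u w, ({v, u, w} : Finset V) ∈ K.tri →
      ({v, u, op v u w} : Finset V) ∈ K.tri ∧ op v u w ≠ w ∧
        ∀ x, ({v, u, x} : Finset V) ∈ K.tri → x = w ∨ x = op v u w := by
    intro v u w h
    obtain ⟨a, b, hab, hx⟩ := two K h
    have hex : ∃ x, ({v, u, x} : Finset V) ∈ K.tri ∧ x ≠ w := by
      rcases (hx w).1 h with h1 | h1
      · exact ⟨b, (hx b).2 (Or.inr rfl), by rw [h1]; exact hab.symm⟩
      · exact ⟨a, (hx a).2 (Or.inl rfl), by rw [h1]; exact hab⟩
    have hop : op v u w = hex.choose := dif_pos hex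
    have h1 : ({v, u, op v u w} : Finset V) ∈ K.tri := by rw [hop]; exact hex.choose_spec.1
    have h2 : op v u w ≠ w := by rw [hop]; exact hex.choose_spec.2
    refine ⟨h1, h2, ?_⟩
    intro x hxt
    have h3 := (hx x).1 hxt
    have h4 := (hx _).1 h1
    have h5 := (hx w).1 h
    rcases h3 with h3 | h3 <;> rcases h4 with h4 | h4 <;> rcases h5 with h5 | h5
    · left; rw [h3, h5]
    · right; rw [h3, h4]
    · left; rw [h3, h5]
    · exact absurd (h4.trans h5.symm) h2
    · exact absurd (h4.trans h5.symm) h2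
    · left; rw [h3, h5]
    · right; rw [h3, h4]
    · left; rw [h3, h5]
  have comm : ∀ v u x : V, ({v, u, x} : Finset V) = {u, v, x} := fun v u x =>
    Finset.insert_comm v u {x}
  refine ⟨op, ?_⟩
  intro v u w h
  obtain ⟨h1, h2, h3⟩ := key v u w h
  have h' : ({u, v, w} : Finset V) ∈ K.tri := by rw [← comm]; exact h
  obtain ⟨k1, k2, -⟩ := key u v w h'
  obtain ⟨l1, l2, -⟩ := key v u (op v u w) h1
  refine ⟨h1, h2, ?_, ?_, h3⟩
  · rw [← comm] at k1
    rcases h3 _ k1 with h4 | h4
    · exact absurd h4 k2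
    · exact h4
  · rcases h3 _ l1 with h4 | h4
    · exact h4
    · exact absurd h4 l2

end Pool.Agent.TSR
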