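import Pool.Agent.TSR.HDefs

/-!
# TSR: module PLA: near and generic planes exist
-/

set_option autoImplicit false

namespace Pool.Agent.TSR

open Set Filter Topology Pool.Agent.TSM

namespace PLA_

theorem small (a b : ℝ) (hb : 0 < b) : ∀ᶠ r in 𝓝[>] (0 : ℝ), a * r < b := by
  have h : Tendsto (fun r : ℝ => a * r) (𝓝[>] 0) (𝓝 (a * 0)) :=
    ((continuous_const.mul continuous_id).continuousAt.tendsto).mono_left nhdsWithin_le_nhds
  exact h.eventually_lt_const (by simpa using hb)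

theorem det_smul (a b c : ℝ) (x y z : E3) :
    det3 (a • x) (b • y) (c • z) = a * b * c * det3 x y z := by
  simp only [det3, PiLp.smul_apply, smul_eq_mul]; ring

theorem det_ne {a b c : ℝ} {x y z : E3} (ha : a ≠ 0) (hb : b ≠ 0) (hc : c ≠ 0)
    (h : det3 x y z ≠ 0) : det3 (a • x) (b • y) (c • z) ≠ 0 := by
  rw [det_smul]
  exact mul_ne_zero (mul_ne_zero (mul_ne_zero ha hb) hc) h

theorem ev0 {t : ℝ} (ht : t ≠ 0) {Z : Aff} {y : E3} (h : ev (t • Z) y = 0) : ev Z y = 0 := by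
  rw [ev_smul] at h
  exact (mul_eq_zero.1 h).resolve_left ht

theorem ev1 {t : ℝ} (ht : t ≠ 0) {Z : Aff} {y : E3} (h : ev Z y ≠ 0) : ev (t • Z) y ≠ 0 := by
  rw [ev_smul]
  exact mul_ne_zero ht h

theorem ev_diff (Z W : Aff) (q : E3) {δ : ℝ} (h1 : ‖Z.1 - W.1‖ < δ) (h2 : |Z.2 - W.2| < δ) :
    |ev Z q - ev W q| ≤ δ * (1 + ‖q‖) := by
  have e : ev Z q - ev W q = (inner ℝ (Z.1 - W.1) q : ℝ) - (Z.2 - W.2) := by
    unfold ev; rw [inner_sub_left]; ring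
  rw [e]
  have h3 := abs_real_inner_le_norm (Z.1 - W.1) q
  have h4 : ‖Z.1 - W.1‖ * ‖q‖ ≤ δ * ‖q‖ := mul_le_mul_of_nonneg_right h1.le (norm_nonneg _)
  have h5 := abs_sub (inner ℝ (Z.1 - W.1) q : ℝ) (Z.2 - W.2)
  calc |(inner ℝ (Z.1 - W.1) q : ℝ) - (Z.2 - W.2)|
      ≤ |(inner ℝ (Z.1 - W.1) q : ℝ)| + |Z.2 - W.2| := h5
    _ ≤ δ * ‖q‖ + δ := by linarith
    _ = δ * (1 + ‖q‖) := by ring

theorem near_smul {a ν : E3} {η : ℝ} {A : Aff} {t : ℝ} (ht : |t| = 1) (h : NearP a ν η A) :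
    NearP a (t • ν) η (t • A) := by
  refine ⟨?_, ?_⟩
  · have : (t • A).1 - t • ν = t • (A.1 - ν) := by rw [smul_sub]; rfl
    rw [this, norm_smul, Real.norm_eq_abs, ht, one_mul]; exact h.1
  · rw [ev_smul, abs_mul, ht, one_mul]; exact h.2

theorem abs_one {t : ℝ} (h : t = 1 ∨ t = -1) : |t| = 1 := by
  rcases h with h | h <;> rw [h] <;> simp

theorem ne_zero {t : ℝ} (h : |t| = 1) : t ≠ 0 := by
  rintro rfl
  simp at h

variable {V : Type} [Fintype V] [DecidableEq V]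

theorem sg_one {p : V → E3} {op : V → V → V → V} {v u w : V} (h : Dl p v u w (op v u w) ≠ 0) :
    |sg p op v u w| = 1 := by
  unfold sg
  rcases lt_or_gt_of_ne h with h' | h'
  · rw [Real.sign_of_neg h']; simp
  · rw [Real.sign_of_pos h']; simp

open Classical in
theorem main {K : Surf V} {p : V → E3} {Φ : Finset Aff} {op : V → V → V → V}
    (hop : IsOpp K op)
    (hflag : ∀ v u w, Flag K p Φ op v u w → ¬ K.Outer p Φ v ∧ Flag K p Φ op v u (op v u w) ∧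
      Flag K p Φ op u v w ∧ Dl p v u w (op v u w) ≠ 0)
    {d c C ε' : ℝ} {κ : V → Type} {X : (v : V) → V → Finset (κ v)} {τ : V → V → ℝ}
    {N₀ : (v : V) → κ v → E3} {o : V → V → V → ℝ} {oN : (v : V) → κ v → ℝ} {η R M : V → ℝ}
    (hLB : LB K p Φ op d c C ε' X τ N₀ o oN η R M) {η' : ℝ}
    {r CP δ : ℝ} (hr : 0 < r) (hr1 : r ≤ 1) (hη' : 0 < η')
    (P : V → V → V → Aff) (hanti : ∀ v u w, P v w u = - P v u w)
    (hcyc : ∀ v u w, P u w v = P v u w)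
    (hP : ∀ v u w, ({v, u, w} : Finset V) ∈ K.tri →
      ev (P v u w) (p v) = - (r * if Nf K p Φ v u w then o v u w else 0) ∧
      ‖(P v u w).1 - n0 p v u w‖ ≤ CP * r ∧ (Ft K p Φ v u w → P v u w = P0 p v u w))
    (c1 : ∀ v, CP * r < η v) (c2 : CP * r < η')
    (c3 : ∀ v u w : V, |(if Nf K p Φ v u w then o v u w else 0)| * r < η')
    (c4 : ∀ v u, ∀ n ∈ X v u, |oN v n| * r < η' / 2)
    (hδ : 0 < δ) (d1 : ∀ v, (1 + ‖p v‖) * δ < r * η v) (d2 : ∀ v, (1 + ‖p v‖) * δ < η' / 2)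
    (S : Finset (Σ v, κ v)) (hS : ∀ v u, ∀ n ∈ X v u, (⟨v, n⟩ : Σ v, κ v) ∈ S)
    (𝒜 : Finset Aff) (h𝒜 : ∀ v u w, ({v, u, w} : Finset V) ∈ K.tri → P v u w ∈ 𝒜)
    (Z : (Σ v, κ v) → Aff)
    (hZ : ∀ i : Σ v, κ v, ‖(Z i).1 - N₀ i.1 i.2‖ < δ ∧
      |(Z i).2 - ((inner ℝ (N₀ i.1 i.2) (p i.1) : ℝ) + r * oN i.1 i.2)| < δ)
    (g2 : ∀ i ∈ S, ∀ j ∈ S, i ≠ j → ∀ A ∈ 𝒜, det3 A.1 (Z i).1 (Z j).1 ≠ 0)
    (g3 : ∀ i ∈ S, ∀ j ∈ S, ∀ k ∈ S, i ≠ j → i ≠ k → j ≠ k → det3 (Z i).1 (Z j).1 (Z k).1 ≠ 0 ∧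
      (∀ y : E3, ev (Z i) y = 0 → ev (Z j) y = 0 → ev (Z k) y = 0 → ∀ A ∈ 𝒜, ev A y ≠ 0) ∧
      ∀ l ∈ S, l ≠ i → l ≠ j → l ≠ k → ∀ y : E3, ev (Z i) y = 0 → ev (Z j) y = 0 →
        ev (Z k) y = 0 → ev (Z l) y ≠ 0) :
    Pln K p Φ op X τ N₀ η' P (fun v n => Z ⟨v, n⟩) ∧
    ∀ v, ¬ K.Outer p Φ v →
      NearV K p Φ v (X v) (N₀ v) (o v) (oN v) (η v) r (P v) (fun n => Z ⟨v, n⟩) := by
  -- values of the chamfer planes
  have hZv : ∀ (v : V) (n : κ v), |ev (Z ⟨v, n⟩) (p v) + r * oN v n| ≤ (1 + ‖p v‖) * δ := by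
    intro v n
    have h := ev_diff (Z ⟨v, n⟩)
      ((N₀ v n, (inner ℝ (N₀ v n) (p v) : ℝ) + r * oN v n) : Aff) (p v) (hZ ⟨v, n⟩).1
      (hZ ⟨v, n⟩).2
    have e : ev ((N₀ v n, (inner ℝ (N₀ v n) (p v) : ℝ) + r * oN v n) : Aff) (p v) =
        - (r * oN v n) := by
      unfold ev; simp only; ring
    rw [e, sub_neg_eq_add, mul_comm δ] at h
    exact h
  have nearP : ∀ v u w, ({v, u, w} : Finset V) ∈ K.tri →
      NearP (p v) (n0 p v u w) η' (P v u w) := by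
    intro v u w ht
    obtain ⟨h1, h2, -⟩ := hP v u w ht
    refine ⟨h2.trans c2.le, ?_⟩
    rw [h1, abs_neg, abs_mul, abs_of_pos hr, mul_comm]
    exact (c3 v u w).le
  have nearB : ∀ v u, ∀ n ∈ X v u, NearP (p v) (N₀ v n) η' (Z ⟨v, n⟩) := by
    intro v u n hn
    have k1 := d2 v
    have k2 : δ ≤ (1 + ‖p v‖) * δ := by nlinarith [norm_nonneg (p v)]
    refine ⟨((hZ ⟨v, n⟩).1.le).trans (by linarith), ?_⟩
    have h1 := hZv v n
    have h2 := c4 v u n hn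
    have h3 : |r * oN v n| < η' / 2 := by rw [abs_mul, abs_of_pos hr, mul_comm]; exact h2
    have h4 : |ev (Z ⟨v, n⟩) (p v)| ≤ |ev (Z ⟨v, n⟩) (p v) + r * oN v n| + |r * oN v n| := by
      have := abs_sub (ev (Z ⟨v, n⟩) (p v) + r * oN v n) (r * oN v n)
      rwa [add_sub_cancel_right] at this
    linarith
  refine ⟨?_, ?_⟩
  · exact {
      anti := hanti
      cyc := hcyc
      ft := fun v u w hft => (hP v u w hft.1).2.2 hft
      near := nearP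
      en := by
        intro v u w hfl
        obtain ⟨-, hfl2, hfl3, hDl⟩ := hflag v u w hfl
        obtain ⟨-, -, -, hDl2⟩ := hflag v u _ hfl2
        refine ⟨?_, ?_, ?_, ?_⟩
        · exact near_smul (sg_one hDl) (nearP v u w hfl.1)
        · exact near_smul (sg_one hDl2) (nearP v u _ hfl2.1)
        · intro n hn
          exact near_smul (abs_one (hLB.tau v u w hfl)) (nearB v u n hn)
        · intro n hn
          exact near_smul (abs_one (hLB.tau u v w hfl3)) (nearB u v n hn)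
      eg := by
        intro v u w hfl
        obtain ⟨-, hfl2, hfl3, hDl⟩ := hflag v u w hfl
        obtain ⟨-, -, -, hDl2⟩ := hflag v u _ hfl2
        have s1 : sg p op v u w ≠ 0 := ne_zero (sg_one hDl)
        have s2 : sg p op v u (op v u w) ≠ 0 := ne_zero (sg_one hDl2)
        have t1 : τ v u ≠ 0 := ne_zero (abs_one (hLB.tau v u w hfl))
        have t2 : τ u v ≠ 0 := ne_zero (abs_one (hLB.tau u v w hfl3))
        have hvu : v ≠ u := (tri_ne hfl.1).1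
        have iv : ∀ (n : κ v) (n' : κ u), (⟨v, n⟩ : Σ v, κ v) ≠ ⟨u, n'⟩ := by
          intro n n' h
          exact hvu (congrArg Sigma.fst h)
        have ii : ∀ (v : V) (n m : κ v), n ≠ m → (⟨v, n⟩ : Σ v, κ v) ≠ ⟨v, m⟩ := by
          intro v n m hnm h
          exact hnm (eq_of_heq (Sigma.mk.inj_iff.1 h).2)
        have a1 := h𝒜 v u w hfl.1
        have a2 := h𝒜 v u _ hfl2.1
        refine ⟨?_, ?_, ?_, ?_, ?_, ?_⟩
        · intro n hn n' hn'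
          exact ⟨det_ne s1 t1 t2 (g2 _ (hS v u n hn) _ (hS u v n' hn') (iv n n') _ a1),
            det_ne s2 t1 t2 (g2 _ (hS v u n hn) _ (hS u v n' hn') (iv n n') _ a2)⟩
        · intro n hn m hm hnm n' hn'
          exact det_ne t1 t1 t2 (g3 _ (hS v u n hn) _ (hS v u m hm) _ (hS u v n' hn')
            (ii v n m hnm) (iv n n') (iv m n')).1
        · intro n hn n' hn' m' hm' hnm
          exact det_ne t1 t2 t2 (g3 _ (hS v u n hn) _ (hS u v n' hn') _ (hS u v m' hm')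
            (iv n n') (iv n m') (ii u n' m' hnm)).1
        · intro n hn m hm hnm n' hn' y y1 y2 y3
          have := (g3 _ (hS v u n hn) _ (hS v u m hm) _ (hS u v n' hn')
            (ii v n m hnm) (iv n n') (iv m n')).2.1 y (ev0 t1 y1) (ev0 t1 y2) (ev0 t2 y3)
          exact ⟨ev1 s1 (this _ a1), ev1 s2 (this _ a2)⟩
        · intro n hn n' hn' m' hm' hnm y y1 y2 y3
          have := (g3 _ (hS v u n hn) _ (hS u v n' hn') _ (hS u v m' hm')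
            (iv n n') (iv n m') (ii u n' m' hnm)).2.1 y (ev0 t1 y1) (ev0 t2 y2) (ev0 t2 y3)
          exact ⟨ev1 s1 (this _ a1), ev1 s2 (this _ a2)⟩
        · intro n hn m hm hnm n' hn' m' hm' hnm' y y1 y2 y3
          exact ev1 t2 ((g3 _ (hS v u n hn) _ (hS v u m hm) _ (hS u v n' hn')
            (ii v n m hnm) (iv n n') (iv m n')).2.2 _ (hS u v m' hm') (iv n m').symm
            (iv m m').symm (ii u n' m' hnm').symm y (ev0 t1 y1) (ev0 t1 y2) (ev0 t2 y3)) }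
  · intro v hv
    refine ⟨fun u w => hanti v u w, ?_, ?_, ?_⟩
    · intro u w hnf
      obtain ⟨h1, h2, -⟩ := hP v u w hnf.1
      rw [if_pos hnf] at h1
      exact ⟨lt_of_le_of_lt h2 (c1 v), h1⟩
    · intro u w hft
      exact (hP v u w hft.1).2.2 hft
    · intro u n hn
      have k1 := d1 v
      have k2 : δ ≤ (1 + ‖p v‖) * δ := by nlinarith [norm_nonneg (p v)]
      have k3 : r * η v ≤ η v := by nlinarith [hLB.eta0 v]
      refine ⟨lt_of_lt_of_le (hZ ⟨v, n⟩).1 (by linarith), lt_of_le_of_lt (hZv v n) k1⟩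

end PLA_

open PLA_ in
open Classical in
theorem pla_proof (hPLN : Stmt_PLN) (hGEN : Stmt_GEN) (hTAI : Stmt_TAI) (hFLG : Stmt_FLG)
    (_ : Stmt_BTS) : Stmt_PLA := by
  intro V _ _ K p Φ op hF hop d c C ε' κ X τ N₀ o oN η R M hLB η' hη'
  have hflag := (hFLG V K p Φ op hF hop).2
  have hnfs : ∀ v u w, Nf K p Φ v w u ↔ Nf K p Φ v u w := fun v u w =>
    ⟨fun h => h.anti, fun h => h.anti⟩
  obtain ⟨CP, hCP, hP⟩ := hPLN V K p hF.emb
    (fun v u w => if Nf K p Φ v u w then o v u w else 0) (by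
      intro v u w
      by_cases h : Nf K p Φ v u w
      · simp only [if_pos h, if_pos ((hnfs v u w).2 h), hLB.oa v u w]
      · simp only [if_neg h, if_neg (fun h' => h ((hnfs v u w).1 h')), neg_zero])
  have e1 : ∀ᶠ r in 𝓝[>] (0 : ℝ), ∀ v, CP * r < η v :=
    eventually_all.2 fun v => small _ _ (hLB.eta0 v)
  have e2 : ∀ᶠ r in 𝓝[>] (0 : ℝ), CP * r < η' := small _ _ hη'
  have e3 : ∀ᶠ r in 𝓝[>] (0 : ℝ), ∀ v u w : V,
      |(if Nf K p Φ v u w then o v u w else 0)| * r < η' :=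
    eventually_all.2 fun v => eventually_all.2 fun u => eventually_all.2 fun w => small _ _ hη'
  have e4 : ∀ᶠ r in 𝓝[>] (0 : ℝ), ∀ v u, ∀ n ∈ X v u, |oN v n| * r < η' / 2 :=
    eventually_all.2 fun v => eventually_all.2 fun u =>
      (Finset.eventually_all (X v u)).2 fun n _ => small _ _ (by linarith)
  have e5 : ∀ᶠ r in 𝓝[>] (0 : ℝ), ∀ v u w : V, ({v, u, w} : Finset V) ∈ K.tri →
      CP * r < ‖n0 p v u w‖ := by
    refine eventually_all.2 fun v => eventually_all.2 fun u => eventually_all.2 fun w => ?_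
    by_cases ht : ({v, u, w} : Finset V) ∈ K.tri
    · filter_upwards [small CP _ (norm_pos_iff.2 (hTAI V K p hF.emb v u w ht).2.2.2)] with r hr _
      exact hr
    · exact Eventually.of_forall fun r h => absurd h ht
  filter_upwards [e1, e2, e3, e4, e5, Ioo_mem_nhdsGT (one_pos : (0 : ℝ) < 1)]
    with r c1 c2 c3 c4 c5 hr
  obtain ⟨P, hanti, hcyc, hPt⟩ := hP r hr.1 hr.2.le
  -- the tolerance
  obtain ⟨δ, ⟨d1, d2⟩, hδ⟩ : ∃ δ : ℝ, ((∀ v, (1 + ‖p v‖) * δ < r * η v) ∧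
      ∀ v, (1 + ‖p v‖) * δ < η' / 2) ∧ 0 < δ := by
    have f1 : ∀ᶠ δ in 𝓝[>] (0 : ℝ), ∀ v, (1 + ‖p v‖) * δ < r * η v :=
      eventually_all.2 fun v => small _ _ (mul_pos hr.1 (hLB.eta0 v))
    have f2 : ∀ᶠ δ in 𝓝[>] (0 : ℝ), ∀ v, (1 + ‖p v‖) * δ < η' / 2 :=
      eventually_all.2 fun v => small _ _ (by linarith)
    have f3 : ∀ᶠ δ in 𝓝[>] (0 : ℝ), (0 : ℝ) < δ := self_mem_nhdsWithin
    exact ((f1.and f2).and f3).exists
  obtain ⟨S, hS⟩ : ∃ S : Finset (Σ v, κ v), ∀ v u, ∀ n ∈ X v u, (⟨v, n⟩ : Σ v, κ v) ∈ S := by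
    refine ⟨Finset.univ.sigma fun v => Finset.univ.biUnion (X v), fun v u n hn => ?_⟩
    rw [Finset.mem_sigma]
    exact ⟨Finset.mem_univ _, Finset.mem_biUnion.2 ⟨u, Finset.mem_univ _, hn⟩⟩
  obtain ⟨𝒜, h𝒜, h𝒜'⟩ : ∃ 𝒜 : Finset Aff, (∀ v u w, ({v, u, w} : Finset V) ∈ K.tri →
      P v u w ∈ 𝒜) ∧ ∀ A ∈ 𝒜, ∃ v u w, ({v, u, w} : Finset V) ∈ K.tri ∧ A = P v u w := by
    refine ⟨((Finset.univ : Finset (V × V × V)).filter
      (fun t => ({t.1, t.2.1, t.2.2} : Finset V) ∈ K.tri)).image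
      (fun t => P t.1 t.2.1 t.2.2), ?_, ?_⟩
    · intro v u w ht
      exact Finset.mem_image.2 ⟨(v, u, w), Finset.mem_filter.2 ⟨Finset.mem_univ _, ht⟩, rfl⟩
    · intro A hA
      obtain ⟨t, ht, rfl⟩ := Finset.mem_image.1 hA
      exact ⟨_, _, _, (Finset.mem_filter.1 ht).2, rfl⟩
  have h𝒜0 : ∀ A ∈ 𝒜, A.1 ≠ 0 := by
    intro A hA h0
    obtain ⟨v, u, w, ht, rfl⟩ := h𝒜' A hA
    have h1 := (hPt v u w ht).2.1
    rw [h0, zero_sub, norm_neg] at h1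
    have := c5 v u w ht
    linarith
  obtain ⟨Z, hZ, g2, g3⟩ := hGEN (Σ v, κ v) S 𝒜 h𝒜0
    (fun i => (N₀ i.1 i.2, (inner ℝ (N₀ i.1 i.2) (p i.1) : ℝ) + r * oN i.1 i.2)) δ hδ
  refine ⟨P, fun v n => Z ⟨v, n⟩, ?_⟩
  refine main hop hflag hLB hr.1 hr.2.le hη' P hanti hcyc ?_ c1 c2 c3 c4 hδ d1 d2 S hS 𝒜 h𝒜 Z hZ
    g2 g3
  intro v u w ht
  obtain ⟨h1, h2, h3⟩ := hPt v u w ht
  refine ⟨h1, h2, fun hft => h3 ?_ ?_ ?_⟩
  · exact if_neg fun h => h.2 hft.2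
  · exact if_neg fun h => h.2 hft.cyc.2
  · exact if_neg fun h => h.2 hft.cyc.cyc.2

end Pool.Agent.TSR
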