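import Pool.Agent.TSR.Base

/-!
# TSR: PLN, the face planes with prescribed values at the vertices
-/

set_option autoImplicit false

namespace Pool.Agent.TSR

open Set Filter Topology Pool.Agent.TSM Pool.Agent.TSC

namespace PLN_

variable {V : Type}

/-- gradient of the barycentric coordinate of `v` in the triangle `v u w` -/
noncomputable def gr (p : V → E3) (v u w : V) : E3 :=
  (‖n0 p v u w‖ ^ 2)⁻¹ • crs (n0 p v u w) (p w - p u)

/-- barycentric coordinate of `v` in the triangle `v u w` as an affine function -/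
noncomputable def la (p : V → E3) (v u w : V) : Aff :=
  (gr p v u w, (inner ℝ (gr p v u w) (p u) : ℝ))

theorem gr_anti (p : V → E3) (v u w : V) : gr p v w u = gr p v u w := by
  unfold gr
  rw [n0_anti, norm_neg]
  have e : p u - p w = (-1 : ℝ) • (p w - p u) := by module
  have e2 : -n0 p v u w = (-1 : ℝ) • n0 p v u w := by module
  rw [e, e2, crs_smul_left, crs_smul_right, smul_smul]
  norm_num

theorem inn_gr_wu (p : V → E3) (v u w : V) : (inner ℝ (gr p v u w) (p w - p u) : ℝ) = 0 := by
  unfold gr
  rw [real_inner_smul_left, inner_crs, det3_self23, mul_zero]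

theorem inn_gr_vu (p : V → E3) (v u w : V) (h : n0 p v u w ≠ 0) :
    (inner ℝ (gr p v u w) (p v - p u) : ℝ) = 1 := by
  unfold gr
  have e : crs (p w - p u) (p v - p u) = n0 p v u w := by
    rw [← n0_cyc]; rfl
  rw [real_inner_smul_left, inner_crs, ← inner_crs', e, real_inner_self_eq_norm_sq]
  have : ‖n0 p v u w‖ ≠ 0 := norm_ne_zero_iff.2 h
  field_simp

theorem la_anti (p : V → E3) (v u w : V) : la p v w u = la p v u w := by
  unfold la
  rw [gr_anti]
  have h := inn_gr_wu p v u w
  rw [inner_sub_right] at h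
  congr 1
  linarith

theorem ev_la_v (p : V → E3) (v u w : V) (h : n0 p v u w ≠ 0) : ev (la p v u w) (p v) = 1 := by
  have := inn_gr_vu p v u w h
  rw [inner_sub_right] at this
  exact this

theorem ev_la_u (p : V → E3) (v u w : V) : ev (la p v u w) (p u) = 0 := by
  unfold ev la
  simp

theorem ev_la_w (p : V → E3) (v u w : V) : ev (la p v u w) (p w) = 0 := by
  have := inn_gr_wu p v u w
  rw [inner_sub_right] at this
  exact this

/-- the plane -/
noncomputable def Pn (p : V → E3) (o : V → V → V → ℝ) (r : ℝ) (v u w : V) : Aff :=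
  P0 p v u w - r • (o v u w • la p v u w + o u w v • la p u w v + o w v u • la p w v u)

theorem Pn_anti (p : V → E3) (o : V → V → V → ℝ) (ho : ∀ v u w, o v w u = - o v u w) (r : ℝ)
    (v u w : V) : Pn p o r v w u = - Pn p o r v u w := by
  unfold Pn
  rw [P0_anti, la_anti p v u w, la_anti p w v u, la_anti p u w v, ho v u w, ho w v u, ho u w v]
  module

theorem Pn_cyc (p : V → E3) (o : V → V → V → ℝ) (r : ℝ)
    (v u w : V) : Pn p o r u w v = Pn p o r v u w := by
  unfold Pn
  rw [P0_cyc]
  module

theorem ev_add' (Z Z' : Aff) (x : E3) : ev (Z + Z') x = ev Z x + ev Z' x := by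
  unfold ev
  simp only [Prod.fst_add, Prod.snd_add]
  rw [inner_add_left]; ring

theorem ev_sub' (Z Z' : Aff) (x : E3) : ev (Z - Z') x = ev Z x - ev Z' x := by
  unfold ev
  simp only [Prod.fst_sub, Prod.snd_sub]
  rw [inner_sub_left]; ring

end PLN_

open PLN_ in
/-- PLN: the face planes with prescribed values at the vertices. -/
theorem PLN_proof (hT : Stmt_TAI) : Stmt_PLN := by
  intro V _ _ K p hK o ho
  set F : V → V → V → ℝ := fun v u w => |o v u w| * ‖gr p v u w‖ with hF
  have hF0 : ∀ v u w, 0 ≤ F v u w := fun v u w => by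
    simp only [hF]; positivity
  set S : ℝ := ∑ v, ∑ u, ∑ w, F v u w with hS
  have hle : ∀ v u w, F v u w ≤ S := by
    intro v u w
    have h1 : F v u w ≤ ∑ w, F v u w :=
      Finset.single_le_sum (f := fun w => F v u w) (fun w _ => hF0 v u w) (Finset.mem_univ w)
    have h2 : ∑ w, F v u w ≤ ∑ u, ∑ w, F v u w :=
      Finset.single_le_sum (f := fun u => ∑ w, F v u w)
        (fun u _ => Finset.sum_nonneg fun w _ => hF0 v u w) (Finset.mem_univ u)
    have h3 : ∑ u, ∑ w, F v u w ≤ S :=
      Finset.single_le_sum (f := fun v => ∑ u, ∑ w, F v u w)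
        (fun v _ => Finset.sum_nonneg fun u _ => Finset.sum_nonneg fun w _ => hF0 v u w)
        (Finset.mem_univ v)
    linarith
  have hS0 : 0 ≤ S :=
    Finset.sum_nonneg fun v _ => Finset.sum_nonneg fun u _ => Finset.sum_nonneg fun w _ => hF0 v u w
  refine ⟨1 + 3 * S, by linarith, fun r hr hr1 => ⟨Pn p o r, Pn_anti p o ho r, Pn_cyc p o r, ?_⟩⟩
  intro v u w ht
  obtain ⟨-, -, -, hn⟩ := hT V K p hK v u w ht
  refine ⟨?_, ?_, ?_⟩
  · unfold Pn
    rw [ev_sub', ev_smul, ev_add', ev_add', ev_smul, ev_smul, ev_smul, ev_la_v p v u w hn,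
      ev_la_w p u w v, ev_la_u p w v u, ev_P0, sub_self, inner_zero_right]
    ring
  · have e : (Pn p o r v u w).1 - n0 p v u w =
        -(r • (o v u w • gr p v u w + o u w v • gr p u w v + o w v u • gr p w v u)) := by
      unfold Pn P0 la
      simp only [Prod.fst_sub, Prod.smul_fst, Prod.fst_add]
      abel
    rw [e, norm_neg, norm_smul, Real.norm_eq_abs, abs_of_pos hr]
    have h1 : ‖o v u w • gr p v u w + o u w v • gr p u w v + o w v u • gr p w v u‖ ≤
        F v u w + F u w v + F w v u := by
      refine (norm_add_le _ _).trans ?_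
      refine add_le_add ((norm_add_le _ _).trans (add_le_add ?_ ?_)) ?_
      · rw [norm_smul, Real.norm_eq_abs]
      · rw [norm_smul, Real.norm_eq_abs]
      · rw [norm_smul, Real.norm_eq_abs]
    have h2 := hle v u w
    have h3 := hle u w v
    have h4 := hle w v u
    have h5 : ‖o v u w • gr p v u w + o u w v • gr p u w v + o w v u • gr p w v u‖ ≤
        1 + 3 * S := by linarith
    calc r * ‖o v u w • gr p v u w + o u w v • gr p u w v + o w v u • gr p w v u‖
        ≤ r * (1 + 3 * S) := mul_le_mul_of_nonneg_left h5 hr.le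
      _ = (1 + 3 * S) * r := mul_comm _ _
  · intro h1 h2 h3
    unfold Pn
    rw [h1, h2, h3]
    simp

end Pool.Agent.TSR
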