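import Pool.Agent.TSR.HDefs

set_option autoImplicit false

namespace Pool.Agent.TSR

open Set Filter Topology Pool.Agent.TSM

theorem san_proof (hEAN : Stmt_EAN) : Stmt_SAN := by
  intro V _ _ K p Φ op hf hop d c C ε' κ X τ N₀ o oN η R M hL
  have key : ∀ v u w, ∃ ρ₁ η₀ : ℝ, 0 < ρ₁ ∧ 0 < η₀ ∧ (Flag K p Φ op v u w →
      ∀ η' : ℝ, 0 < η' → η' < η₀ →
      ∀ (A A' : Aff) (B : κ v → Aff) (B' : κ u → Aff),
      ENear (p v) (p u) (nE p op v u w) (nE p op v u (op v u w)) η' A A' (X v u)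
        (fun n => τ v u • N₀ v n) B (X u v) (fun n => τ u v • N₀ u n) B' →
      ∀ l m : ℝ, 0 ≤ l → 0 ≤ m → l + m ≤ ρ₁ → ∀ s : ℝ,
      (∀ y : E3, y = p v + l • (p u - p v) + m • (p w - p v) -
          s • eV (p v) (p u) (p w) (p (op v u w)) →
        0 ≤ ev A y → 0 ≤ ev A' y → (∀ n ∈ X v u, 0 ≤ ev (B n) y) →
        (ev A y = 0 ∨ ev A' y = 0 ∨ ∃ n ∈ X v u, ev (B n) y = 0) →
        FE A A' (X v u) B (X u v) B' y = 0)) := by
    intro v u w
    by_cases hfl : Flag K p Φ op v u w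
    · obtain ⟨hh1, hh2⟩ := hL.half v u w hfl
      obtain ⟨ρ₁, η₀, h1, h2, h3⟩ := hEAN (κ v) (κ u) (p v) (p u) (p w) (p (op v u w))
        (nE p op v u w) (nE p op v u (op v u w)) c C ε' (X v u) (fun n => τ v u • N₀ v n)
        (X u v) (fun n => τ u v • N₀ u n) (hL.geo v u w hfl) hL.e0 hh1 hh2
      exact ⟨ρ₁, η₀, h1, h2, fun _ => h3⟩
    · exact ⟨1, 1, one_pos, one_pos, fun h => absurd h hfl⟩
  choose ρ₁ η₀ hρ hη H using key
  have e1 : ∀ᶠ ρ in 𝓝[>] (0 : ℝ), ∀ v u w, ρ < ρ₁ v u w := by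
    rw [eventually_all]; intro v
    rw [eventually_all]; intro u
    rw [eventually_all]; intro w
    filter_upwards [Ioo_mem_nhdsGT (hρ v u w)] with t ht
    exact ht.2
  have e2 : ∀ᶠ η' in 𝓝[>] (0 : ℝ), ∀ v u w, η' < η₀ v u w := by
    rw [eventually_all]; intro v
    rw [eventually_all]; intro u
    rw [eventually_all]; intro w
    filter_upwards [Ioo_mem_nhdsGT (hη v u w)] with t ht
    exact ht.2
  filter_upwards [e1] with ρ hρ'
  filter_upwards [e2, self_mem_nhdsWithin] with η' hη' hη0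
  intro P B hP v u w hfl x hin hx s y hy h1 h2 h3 h4
  obtain ⟨n1, n2, n3⟩ := tri_ne hfl.1
  have hs := hin.sum n1 n2 n3
  have hsg : ∀ {a : ℝ}, a = 0 → ∀ t : ℝ, t * a = 0 := fun h t => by rw [h, mul_zero]
  unfold FEg
  apply H v u w hfl η' hη0 (hη' v u w) _ _ _ _ (hP.en v u w hfl) (x u) (x w) (hin.1 u) (hin.1 w)
    (by have := hρ' v u w; linarith) s y
  · rw [hy, hin.lin n1 n2 n3]; rfl
  · unfold AE; rw [ev_smul]; exact h1
  · unfold AE; rw [ev_smul]; exact h2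
  · intro n hn; rw [ev_smul]; exact h3 n hn
  · rcases h4 with h | h | ⟨n, hn, h⟩
    · left; unfold AE; rw [ev_smul, h, mul_zero]
    · right; left; unfold AE; rw [ev_smul, h, mul_zero]
    · right; right; exact ⟨n, hn, by rw [ev_smul, h, mul_zero]⟩

end Pool.Agent.TSR
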