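import Pool.Agent.TSR.HDefs

/-!
# TSR: SBD, bound of the displacement in the edge zone
-/

set_option autoImplicit false

namespace Pool.Agent.TSR

open Set Filter Topology Pool.Agent.TSM

theorem sbd_proof (hEBD : Stmt_EBD) (hEFU : Stmt_EFU) (hSSL : Stmt_SSL) : Stmt_SBD := by
  classical
  intro V _ _ K p Φ op hF hop d c C
  have hK : ∀ v u w : V, ∃ k : ℝ, 0 < k ∧
      (EGeo (p v) (p u) (p w) (p (op v u w)) (nE p op v u w) (nE p op v u (op v u w)) c C →
      ∀ (ι ι' : Type) (X : Finset ι) (N : ι → E3) (X' : Finset ι') (N' : ι' → E3)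
      (ε' : ℝ), 0 < ε' → ε' ≤ 1 →
      EHalf (p v) (p u) (p w) (p (op v u w)) (nE p op v u w) (nE p op v u (op v u w)) ε' c C X N →
      EHalf (p u) (p v) (p w) (p (op v u w)) (nE p op v u w) (nE p op v u (op v u w)) ε' c C
        X' N' →
      ∀ (η : ℝ), 0 < η → η ≤ 1 → ∀ (A A' : Aff) (B : ι → Aff) (B' : ι' → Aff),
      ENear (p v) (p u) (nE p op v u w) (nE p op v u (op v u w)) η A A' X N B X' N' B' →
      ∀ l m : ℝ, 0 ≤ l → 0 ≤ m → l + m ≤ 1 →
      |FE A A' X B X' B' (p v + l • (p u - p v) + m • (p w - p v))| ≤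
        k * (ε' * min l (1 - l - m) + η)) := by
    intro v u w
    by_cases h : EGeo (p v) (p u) (p w) (p (op v u w)) (nE p op v u w)
        (nE p op v u (op v u w)) c C
    · obtain ⟨k, hk, h1⟩ := hEBD _ _ _ _ _ _ _ _ h
      exact ⟨k, hk, fun _ => h1⟩
    · exact ⟨1, one_pos, fun h' => absurd h' h⟩
  choose k hk hk2 using hK
  let q : V → V → V → ℝ := fun v u w => |2 * k v u w * ‖eE p v u w (op v u w)‖ / c|
  have hq0 : ∀ v u w, 0 ≤ q v u w := fun v u w => abs_nonneg _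
  refine ⟨1 + ∑ v, ∑ u, ∑ w, q v u w, ?_, ?_⟩
  · have : 0 ≤ ∑ v, ∑ u, ∑ w, q v u w :=
      Finset.sum_nonneg fun v _ => Finset.sum_nonneg fun u _ => Finset.sum_nonneg fun w _ =>
        hq0 v u w
    linarith
  intro ε' κ X τ N₀ o oN η R M hL
  have h1 := hSSL V K p Φ op hF hop d c C ε' κ X τ N₀ o oN η R M hL
  have h2 : ∀ᶠ η' in 𝓝[>] (0 : ℝ), 0 < η' ∧ η' ≤ 1 := by
    have : Ioc (0 : ℝ) 1 ∈ 𝓝[>] (0 : ℝ) := Ioc_mem_nhdsGT one_pos
    exact this
  filter_upwards [h1, h2] with η' h3 h4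
  intro P B hP v u w hfl x hx s hs
  have hS := h3 P B hP v u w hfl
  have hc : 0 < c := hL.c0
  obtain ⟨n1, n2, n3⟩ := tri_ne hfl.1
  have hlin := hx.lin (p := p) n1 n2 n3
  have hsum := hx.sum n1 n2 n3
  have nn := hx.1
  have hE := (hEFU (κ v) (κ u) (AE p op P v u w) (AE p op P v u (op v u w)) (X v u)
    (fun n => τ v u • B v n) (X u v) (fun n => τ u v • B u n) (eE p v u w (op v u w)) (c / 2)
    hS.c0 hS.ne hS.ne' hS.A hS.A' hS.hB hS.hB').2.2.2.1 (lin p x) s hs
  have hB := hk2 v u w (hL.geo v u w hfl) (κ v) (κ u) (X v u) (fun n => τ v u • N₀ v n)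
    (X u v) (fun n => τ u v • N₀ u n) ε' hL.e0 hL.e1 (hL.half v u w hfl).1
    (hL.half v u w hfl).2 η' h4.1 h4.2 (AE p op P v u w) (AE p op P v u (op v u w))
    (fun n => τ v u • B v n) (fun n => τ u v • B u n) (hP.en v u w hfl) (x u) (x w) (nn u)
    (nn w) (by linarith [nn v])
  rw [← hlin] at hB
  have e1 : 1 - x u - x w = x v := by linarith
  rw [e1, min_comm] at hB
  set m := ε' * min (x v) (x u) + η' with hm
  have hm0 : 0 ≤ m := by
    have : 0 ≤ min (x v) (x u) := le_min (nn v) (nn u)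
    have := mul_nonneg hL.e0.le this
    linarith [h4.1]
  have h5 : c / 2 * |s| ≤ k v u w * m := hE.trans hB
  have h6 : q v u w ≤ ∑ v, ∑ u, ∑ w, q v u w := by
    calc q v u w ≤ ∑ w, q v u w :=
          Finset.single_le_sum (f := fun w => q v u w) (fun i _ => hq0 v u i)
            (Finset.mem_univ w)
      _ ≤ ∑ u, ∑ w, q v u w :=
          Finset.single_le_sum (f := fun u => ∑ w, q v u w)
            (fun i _ => Finset.sum_nonneg fun w _ => hq0 v i w) (Finset.mem_univ u)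
      _ ≤ ∑ v, ∑ u, ∑ w, q v u w :=
          Finset.single_le_sum (f := fun v => ∑ u, ∑ w, q v u w)
            (fun i _ => Finset.sum_nonneg fun u _ => Finset.sum_nonneg fun w _ => hq0 i u w)
            (Finset.mem_univ v)
  have h7 : q v u w = 2 * k v u w * ‖eE p v u w (op v u w)‖ / c :=
    abs_of_nonneg (div_nonneg (mul_nonneg (mul_nonneg two_pos.le (hk v u w).le)
      (norm_nonneg _)) hc.le)
  have h8 : |s| ≤ 2 * k v u w * m / c := by
    rw [le_div_iff₀ hc]
    linarith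
  calc ‖s • eE p v u w (op v u w)‖ = |s| * ‖eE p v u w (op v u w)‖ := by
        rw [norm_smul, Real.norm_eq_abs]
    _ ≤ 2 * k v u w * m / c * ‖eE p v u w (op v u w)‖ :=
        mul_le_mul_of_nonneg_right h8 (norm_nonneg _)
    _ = q v u w * m := by rw [h7]; ring
    _ ≤ (1 + ∑ v, ∑ u, ∑ w, q v u w) * m := by
        apply mul_le_mul_of_nonneg_right _ hm0
        linarith

end Pool.Agent.TSR
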