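import Pool.Agent.TSR.HDefs

/-!
# TSR: SCO, sizes at the cores
-/

set_option autoImplicit false

namespace Pool.Agent.TSR

open Set Filter Topology Pool.Agent.TSM Pool.Agent.TSC

namespace SCO_

theorem fin_min {ι : Type} (J : Finset ι) (P : ι → ℝ → Prop)
    (mono : ∀ i η η', η' ≤ η → P i η → P i η') (h : ∀ i ∈ J, ∃ η, 0 < η ∧ P i η) :
    ∃ η, 0 < η ∧ ∀ i ∈ J, P i η := by
  classical
  induction J using Finset.induction_on with
  | empty => exact ⟨1, one_pos, by simp⟩
  | insert a s ha ih =>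
    obtain ⟨η1, h1, h2⟩ := ih fun i hi => h i (Finset.mem_insert_of_mem hi)
    obtain ⟨η2, h3, h4⟩ := h a (Finset.mem_insert_self a s)
    refine ⟨min η1 η2, lt_min h1 h3, fun i hi => ?_⟩
    rcases Finset.mem_insert.1 hi with rfl | hi
    · exact mono _ _ _ (min_le_right _ _) h4
    · exact mono _ _ _ (min_le_left _ _) (h2 i hi)

/-- lower bound of the norm on a nondegenerate cone -/
theorem lower (q q' : E3) (h : crs q q' ≠ 0) : ∃ k : ℝ, 0 < k ∧ ∀ a b : ℝ, 0 ≤ a → 0 ≤ b →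
    k * (a + b) ≤ ‖a • q + b • q'‖ := by
  set n : E3 := crs q q' with hn
  have hn0 : 0 < (inner ℝ n n : ℝ) := real_inner_self_pos.2 h
  have hnn : (inner ℝ n n : ℝ) = det3 n q q' := inner_crs' n q q'
  set Q : ℝ := ‖crs q' n‖ + ‖crs n q‖ + 1 with hQ
  have hQ0 : 0 < Q := by positivity
  refine ⟨(inner ℝ n n : ℝ) / Q, by positivity, fun a b ha hb => ?_⟩
  have e1 : (inner ℝ (crs q' n) (a • q + b • q') : ℝ) = a * inner ℝ n n := by
    rw [inner_crs, hnn]
    simp only [det3, PiLp.add_apply, PiLp.smul_apply, smul_eq_mul]; ring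
  have e2 : (inner ℝ (crs n q) (a • q + b • q') : ℝ) = b * inner ℝ n n := by
    rw [inner_crs, hnn]
    simp only [det3, PiLp.add_apply, PiLp.smul_apply, smul_eq_mul]; ring
  have f1 := real_inner_le_norm (crs q' n) (a • q + b • q')
  have f2 := real_inner_le_norm (crs n q) (a • q + b • q')
  rw [div_mul_eq_mul_div, div_le_iff₀ hQ0, hQ]
  have := norm_nonneg (a • q + b • q')
  nlinarith

theorem ev_lt {c : ℝ} (hc : 0 < c) : ∀ᶠ ρ in 𝓝[>] (0 : ℝ), 0 < ρ ∧ ρ < c := by
  filter_upwards [Ioo_mem_nhdsGT hc] with ρ hρ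
  exact ⟨hρ.1, hρ.2⟩

end SCO_

theorem sco_proof (h1 : Stmt_TAI) : Stmt_SCO := by
  classical
  intro V _ _ K p Φ op hF d ε δ R M hε hδ hR
  have tai := h1 V K p hF.emb
  -- the lower bound
  obtain ⟨k, hk, Hk⟩ := SCO_.fin_min (Finset.univ : Finset (V × V × V))
    (fun t k => ({t.1, t.2.1, t.2.2} : Finset V) ∈ K.tri → ∀ a b : ℝ, 0 ≤ a → 0 ≤ b →
      k * (a + b) ≤ ‖a • (p t.2.1 - p t.1) + b • (p t.2.2 - p t.1)‖)
    (fun t k k' hle hh ht a b ha hb =>
      (mul_le_mul_of_nonneg_right hle (by linarith)).trans (hh ht a b ha hb))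
    (fun t _ => by
      by_cases ht : ({t.1, t.2.1, t.2.2} : Finset V) ∈ K.tri
      · obtain ⟨k, hk, hh⟩ := SCO_.lower (p t.2.1 - p t.1) (p t.2.2 - p t.1)
          (tai _ _ _ ht).2.2.2
        exact ⟨k, hk, fun _ => hh⟩
      · exact ⟨1, one_pos, fun h => absurd h ht⟩)
  -- the upper bound
  set Dm : ℝ := ∑ a : V, ∑ b : V, ‖p a - p b‖ with hDm
  have hDm0 : 0 ≤ Dm := Finset.sum_nonneg fun a _ => Finset.sum_nonneg fun b _ => norm_nonneg _
  have hDle : ∀ a b : V, ‖p a - p b‖ ≤ Dm := by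
    intro a b
    have s1 : ‖p a - p b‖ ≤ ∑ b : V, ‖p a - p b‖ :=
      Finset.single_le_sum (f := fun b => ‖p a - p b‖) (fun _ _ => norm_nonneg _)
        (Finset.mem_univ b)
    have s2 : ∑ b : V, ‖p a - p b‖ ≤ Dm :=
      Finset.single_le_sum (f := fun a => ∑ b : V, ‖p a - p b‖)
        (fun _ _ => Finset.sum_nonneg fun _ _ => norm_nonneg _) (Finset.mem_univ a)
    exact s1.trans s2
  have bounds : ∀ v : V, ∀ x ∈ K.star v, ‖lin p x - p v‖ ≤ (1 - x v) * Dm ∧
      k * (1 - x v) ≤ ‖lin p x - p v‖ := by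
    intro v x hx
    obtain ⟨u, w, ht, hI⟩ := star_InT hx
    obtain ⟨n1, n2, n3, -⟩ := tai v u w ht
    have hs := hI.sum n1 n2 n3
    have hl := hI.lin (p := p) n1 n2 n3
    have hd : lin p x - p v = x u • (p u - p v) + x w • (p w - p v) := by
      rw [hl]; abel
    have hxu := hI.1 u
    have hxw := hI.1 w
    rw [hd]
    constructor
    · calc ‖x u • (p u - p v) + x w • (p w - p v)‖ ≤ ‖x u • (p u - p v)‖ + ‖x w • (p w - p v)‖ :=
            norm_add_le _ _
        _ = x u * ‖p u - p v‖ + x w * ‖p w - p v‖ := by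
          rw [norm_smul, norm_smul, Real.norm_of_nonneg hxu, Real.norm_of_nonneg hxw]
        _ ≤ x u * Dm + x w * Dm := add_le_add (mul_le_mul_of_nonneg_left (hDle _ _) hxu)
            (mul_le_mul_of_nonneg_left (hDle _ _) hxw)
        _ = (1 - x v) * Dm := by
          have : 1 - x v = x u + x w := by linarith
          rw [this]; ring
    · have h5 := Hk (v, u, w) (Finset.mem_univ _) ht (x u) (x w) hxu hxw
      have : 1 - x v = x u + x w := by linarith
      rw [this]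
      exact h5
  -- choice of ρ
  have E1 : ∀ᶠ ρ in 𝓝[>] (0 : ℝ), ∀ v : V, (|M v| + 1) * (1 + Dm) * ρ < min ε (δ v) := by
    rw [Filter.eventually_all]
    intro v
    have hc : 0 < min ε (δ v) / ((|M v| + 1) * (1 + Dm)) :=
      div_pos (lt_min hε (hδ v)) (by positivity)
    filter_upwards [SCO_.ev_lt hc] with ρ hρ
    have h3 := hρ.2
    rw [lt_div_iff₀ (by positivity)] at h3
    linarith
  filter_upwards [E1, SCO_.ev_lt one_pos] with ρ hρ1 hρ2
  obtain ⟨hρ0, -⟩ := hρ2
  have E2 : ∀ᶠ r in 𝓝[>] (0 : ℝ), ∀ v : V, R v * r < k * ρ / 2 := by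
    rw [Filter.eventually_all]
    intro v
    have hRv := hR v
    have hc : 0 < k * ρ / 2 / R v := by positivity
    filter_upwards [SCO_.ev_lt hc] with r hr
    have h3 := hr.2
    rw [lt_div_iff₀ hRv] at h3
    linarith
  filter_upwards [E2, SCO_.ev_lt hρ0] with r hr1 hr2
  intro v κ X τ P B G hG
  constructor
  · intro x hx hxv
    obtain ⟨b1, -⟩ := bounds v x hx
    have b2 : ‖lin p x - p v‖ ≤ ρ * Dm :=
      b1.trans (mul_le_mul_of_nonneg_right (by linarith) hDm0)
    have b3 : ‖G (lin p x) - lin p x‖ ≤ |M v| * (1 + Dm) * ρ := by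
      refine (hG.bd x hx).trans ?_
      have t1 : 0 ≤ r + ‖lin p x - p v‖ := by
        have := norm_nonneg (lin p x - p v)
        linarith [hr2.1]
      have t2 : r + ‖lin p x - p v‖ ≤ (1 + Dm) * ρ := by
        have := hr2.2
        linarith
      calc M v * (r + ‖lin p x - p v‖) ≤ |M v| * (r + ‖lin p x - p v‖) :=
            mul_le_mul_of_nonneg_right (le_abs_self _) t1
        _ ≤ |M v| * ((1 + Dm) * ρ) := mul_le_mul_of_nonneg_left t2 (abs_nonneg _)
        _ = |M v| * (1 + Dm) * ρ := by ring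
    have h4 := hρ1 v
    have h5 : (|M v| + 1) * (1 + Dm) * ρ = |M v| * (1 + Dm) * ρ + ρ + ρ * Dm := by ring
    have h6 := min_le_left ε (δ v)
    have h7 := min_le_right ε (δ v)
    have h8 : 0 ≤ ρ * Dm := by positivity
    constructor
    · have h9 : ‖G (lin p x) - p v‖ ≤ ‖G (lin p x) - lin p x‖ + ‖lin p x - p v‖ := by
        have := norm_add_le (G (lin p x) - lin p x) (lin p x - p v)
        rwa [sub_add_sub_cancel] at this
      linarith
    · linarith
  · intro x hx hxv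
    obtain ⟨-, b1⟩ := bounds v x hx
    have h2 : k * (ρ / 2) ≤ k * (1 - x v) := mul_le_mul_of_nonneg_left (by linarith) hk.le
    have h3 := hr1 v
    linarith

end Pool.Agent.TSR
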