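import Pool.Agent.TSR.HDefs

set_option autoImplicit false

namespace Pool.Agent.TSR

open Set Filter Topology Pool.Agent.TSM

namespace SEH_

variable {V : Type} [Fintype V] [DecidableEq V] {K : Surf V} {p : V → E3} {Φ : Finset Aff}
  {op : V → V → V → V}

theorem flag_not_outer {v u w : V} (hop : IsOpp K op) (h : Flag K p Φ op v u w) :
    ¬ K.Outer p Φ v := by
  intro ho
  apply h.2
  constructor
  · obtain ⟨φ, h1, h2⟩ := ho _ h.1 (by simp)
    exact ⟨φ, h1, h2 v (by simp), h2 u (by simp), h2 w (by simp)⟩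
  · obtain ⟨φ, h1, h2⟩ := ho _ (hop v u w h.1).1 (by simp)
    exact ⟨φ, h1, h2 v (by simp), h2 u (by simp), h2 _ (by simp)⟩

theorem min_ge {d ρ : ℝ} (hop : IsOpp K op) (hd : 0 < d) (hd1 : d < 1 / 4) (hρ : 0 < ρ)
    {v u w : V} {x : V → ℝ} (hx : x ∈ rEdge K p Φ op d ρ v u w) :
    ρ / 4 ≤ min (x v) (x u) := by
  obtain ⟨hfl, hfar, hin, hle⟩ := hx
  have a1 := hfar v (flag_not_outer hop hfl)
  have a2 := hfar u (flag_not_outer hop (hfl.swap hop))
  obtain ⟨n1, n2, n3⟩ := tri_ne hfl.1
  have hs := hin.sum n1 n2 n3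
  have hv := hin.1 v
  have hu := hin.1 u
  rcases le_total (x v) (x u) with h | h
  · rw [min_eq_left h] at hle ⊢
    nlinarith
  · rw [min_eq_right h] at hle ⊢
    nlinarith

end SEH_

open SEH_

theorem seh_proof (hPOC : Stmt_POC) : Stmt_SEH := by
  intro V _ _ K p Φ op hf hop δ hδ hul κ X τ P B d ρ hd hd1 hρ hft v u w x hx
  have hm := min_ge hop hd hd1 hρ hx
  refine ⟨hm, fun s hs hn => ?_⟩
  obtain ⟨hfl, hfar, hin, hle⟩ := hx
  apply hul v u w hfl x hin (by linarith)
  · rw [sub_sub_cancel_left, norm_neg]; exact hn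
  · intro φ hφ h1 h2
    have hA : 0 ≤ ev (AE p op P v u w) (lin p x - s • eE p v u w (op v u w)) := by
      have := min_le_left (ev (AE p op P v u w) (lin p x - s • eE p v u w (op v u w)))
        (ev (AE p op P v u (op v u w)) (lin p x - s • eE p v u w (op v u w)))
      have h3 : FEg p op X τ P B v u w (lin p x - s • eE p v u w (op v u w)) ≤
        min (ev (AE p op P v u w) (lin p x - s • eE p v u w (op v u w)))
          (ev (AE p op P v u (op v u w)) (lin p x - s • eE p v u w (op v u w))) :=
        min_le_left _ _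
      linarith
    have hA' : 0 ≤ ev (AE p op P v u (op v u w)) (lin p x - s • eE p v u w (op v u w)) := by
      have := min_le_right (ev (AE p op P v u w) (lin p x - s • eE p v u w (op v u w)))
        (ev (AE p op P v u (op v u w)) (lin p x - s • eE p v u w (op v u w)))
      have h3 : FEg p op X τ P B v u w (lin p x - s • eE p v u w (op v u w)) ≤
        min (ev (AE p op P v u w) (lin p x - s • eE p v u w (op v u w)))
          (ev (AE p op P v u (op v u w)) (lin p x - s • eE p v u w (op v u w))) :=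
        min_le_left _ _
      linarith
    unfold AE at hA hA'
    rw [ev_smul] at hA hA'
    rcases hPOC V K p Φ op hf hop v u w hfl φ hφ h1 h2 with ⟨h3, h4⟩ | ⟨h3, h4⟩
    · apply h4
      rw [hft v u w h3] at hA
      exact hA
    · apply h4
      rw [hft v u _ h3] at hA'
      exact hA'

end Pool.Agent.TSR
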