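import Pool.Agent.TSR.HDefs

/-!
# TSR: SFA, the face maps
-/

set_option autoImplicit false

namespace Pool.Agent.TSR

open Set Filter Topology Pool.Agent.TSM

namespace SFA_

theorem low {a b c d ρ : ℝ} (hs : a + b + c = 1) (ha : a ≤ 1 - ρ / 2)
    (hb : b ≤ 1 - ρ / 2) (hd0 : 0 < d) (hd1 : d < 1 / 4) (hρ : 0 < ρ)
    (h : d / 2 * min a b ≤ c) : d * ρ / 8 ≤ c := by
  by_contra hc
  push Not at hc
  have h1 : d * ρ / 8 < ρ / 32 := by
    have : d * ρ < 1 / 4 * ρ := mul_lt_mul_of_pos_right hd1 hρ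
    linarith
  have h2 : d / 2 * min a b < d / 2 * (ρ / 4) := by
    have : d / 2 * (ρ / 4) = d * ρ / 8 := by ring
    rw [this]; linarith
  have h3 : min a b < ρ / 4 := lt_of_mul_lt_mul_left h2 (by linarith)
  rcases min_lt_iff.1 h3 with h4 | h4
  · linarith
  · linarith

variable {V : Type} [Fintype V] [DecidableEq V]

theorem nf_not_outer {K : Surf V} {p : V → E3} {Φ : Finset Aff} {v u w : V}
    (h : Nf K p Φ v u w) : ¬ K.Outer p Φ v := by
  intro ho
  obtain ⟨φ, hφ, hh⟩ := ho _ h.1 (by simp)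
  exact h.2 ⟨φ, hφ, hh v (by simp), hh u (by simp), hh w (by simp)⟩

theorem far_le {K : Surf V} {p : V → E3} {Φ : Finset Aff} {d ρ : ℝ} (hρ : ρ < 1 / 4)
    {v u w : V} {x : V → ℝ} (hx : x ∈ rFace K p Φ d ρ v u w) (y : V) : x y ≤ 1 - ρ / 2 := by
  obtain ⟨hnf, hfar, hT, -⟩ := hx
  by_cases h1 : y = v
  · rw [h1]; exact hfar v (nf_not_outer hnf)
  by_cases h2 : y = u
  · rw [h2]; exact hfar u (nf_not_outer hnf.swap)
  by_cases h3 : y = w
  · rw [h3]; exact hfar w (nf_not_outer hnf.cyc.cyc)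
  rw [hT.zero h1 h2 h3]; linarith

theorem coords {K : Surf V} {p : V → E3} {Φ : Finset Aff} {d ρ : ℝ} (hd0 : 0 < d)
    (hd1 : d < 1 / 4) (hρ0 : 0 < ρ) (hρ : ρ < 1 / 4)
    {v u w : V} {x : V → ℝ} (hx : x ∈ rFace K p Φ d ρ v u w) :
    d * ρ / 8 ≤ min (x v) (min (x u) (x w)) := by
  have hf := far_le hρ hx
  obtain ⟨hnf, hfar, hT, h1, h2, h3⟩ := hx
  obtain ⟨n1, n2, n3⟩ := tri_ne hnf.1
  have hs := hT.sum n1 n2 n3
  have e1 : d * ρ / 8 ≤ x w := low hs (hf v) (hf u) hd0 hd1 hρ0 h1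
  have e2 : d * ρ / 8 ≤ x v := low (by linarith) (hf u) (hf w) hd0 hd1 hρ0 h2
  have e3 : d * ρ / 8 ≤ x u := low (by linarith) (hf w) (hf v) hd0 hd1 hρ0 h3
  exact le_min e2 (le_min e3 e1)

end SFA_

open SFA_

theorem sfa_proof (hF : Stmt_FCE) (hB : Stmt_BTP) : Stmt_SFA := by
  intro V _ _ K p Φ op hfr hop δ hδ hH d ρ ε hd0 hd1 hρ0 hρ1 hε
  obtain ⟨Q, η₀, hQ, hη₀, hfce⟩ := hF V K p Φ op hfr hop d (ρ / 2) hd0 hd1.le (by linarith)
  obtain ⟨c, C, hc, hC, hbtp⟩ := hB V K p Φ op hfr hop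
  have hk : 0 < d * ρ / 8 := by positivity
  have hQC : 0 < Q * C := mul_pos hQ hC
  have hη₁ : 0 < min η₀ (min (δ * (d * ρ / 8) / (Q * C)) (ε / (Q * C))) := by
    refine lt_min hη₀ (lt_min ?_ ?_)
    · positivity
    · positivity
  filter_upwards [Ioo_mem_nhdsGT hη₁] with η' hη' P hP
  obtain ⟨hη'0, hη'1⟩ := hη'
  have l0 : η' < η₀ := lt_of_lt_of_le hη'1 (min_le_left _ _)
  have l1 : η' * (Q * C) < δ * (d * ρ / 8) := by
    have : η' < δ * (d * ρ / 8) / (Q * C) :=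
      lt_of_lt_of_le hη'1 ((min_le_right _ _).trans (min_le_left _ _))
    rwa [lt_div_iff₀ hQC] at this
  have l2 : η' * (Q * C) < ε := by
    have : η' < ε / (Q * C) :=
      lt_of_lt_of_le hη'1 ((min_le_right _ _).trans (min_le_right _ _))
    rwa [lt_div_iff₀ hQC] at this
  refine ⟨?_, ?_, ?_, ?_, ?_⟩
  · intro v u w x hx
    exact (hfce v u w hx.1 (P v u w) η' hη'0 l0 (hP v u w hx.1)).2.1 x hx.2.2.1
  · intro v u w x hx
    exact (hfce v u w hx.1 (P v u w) η' hη'0 l0 (hP v u w hx.1)).2.2.1 x hx.2.2.1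
  · intro v u w x hx s hs
    have hfs := (hfce v u w hx.1 (P v u w) η' hη'0 l0 (hP v u w hx.1)).2.2.2.1 x hx.2.2.1 s hs
    have hbt := (hbtp d hd0 hd1.le v u w hx.1 x hx.2.2.1).2
    have hn : ‖s • bT p op d v u w x‖ ≤ η' * (Q * C) := by
      rw [norm_smul, Real.norm_eq_abs]
      calc |s| * ‖bT p op d v u w x‖ ≤ (Q * η') * C :=
            mul_le_mul hfs hbt (norm_nonneg _) (by positivity)
        _ = η' * (Q * C) := by ring
    have hco := coords hd0 hd1 hρ0 hρ1 hx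
    have hq := hH v u w hx.1 x hx.2.2.1 (lt_of_lt_of_le hk hco)
      (lin p x - s • bT p op d v u w x) (by
        have : lin p x - s • bT p op d v u w x - lin p x = -(s • bT p op d v u w x) := by abel
        rw [this, norm_neg]
        calc ‖s • bT p op d v u w x‖ ≤ η' * (Q * C) := hn
          _ ≤ δ * (d * ρ / 8) := l1.le
          _ ≤ δ * min (x v) (min (x u) (x w)) := mul_le_mul_of_nonneg_left hco hδ.le)
    exact ⟨hq.1, hq.2, lt_of_le_of_lt hn l2⟩
  · intro v u w x hx x' hx' s s' hs hs' heq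
    refine (hfce v u w hx.1 (P v u w) η' hη'0 l0 (hP v u w hx.1)).2.2.2.2.1 x x' hx.2.2.1
      hx'.2.2.1 (far_le hρ1 hx) (far_le hρ1 hx') s s' hs hs' heq
  · intro v u w D hD
    classical
    by_cases hnf : Nf K p Φ v u w
    · have hf := hfce v u w hnf (P v u w) η' hη'0 l0 (hP v u w hnf)
      choose s0 hs0 using fun x : {x : V → ℝ // InT v u w x} => hf.2.1 x.1 x.2
      let D' : (V → ℝ) → E3 := fun x =>
        if x ∈ rFace K p Φ d ρ v u w then D x
        else if h : InT v u w x then lin p x - s0 ⟨x, h⟩ • bT p op d v u w x else 0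
      have hD' : ∀ x, InT v u w x → (∀ y, x y ≤ 1 - ρ / 2) → ∃ s : ℝ,
          D' x = lin p x - s • bT p op d v u w x ∧ ev (P v u w) (D' x) = 0 := by
        intro x hx _
        by_cases h1 : x ∈ rFace K p Φ d ρ v u w
        · obtain ⟨s, h2, h3⟩ := hD x h1
          have e : D' x = D x := if_pos h1
          exact ⟨s, by rw [e, h2], by rw [e, h3]⟩
        · have e : D' x = lin p x - s0 ⟨x, hx⟩ • bT p op d v u w x := by
            simp only [D']
            rw [if_neg h1, dif_pos hx]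
          exact ⟨_, e, by rw [e]; exact hs0 ⟨x, hx⟩⟩
      have hcont := hf.2.2.2.2.2 D' hD'
      have hsub : rFace K p Φ d ρ v u w ⊆ {x | InT v u w x ∧ ∀ y, x y ≤ 1 - ρ / 2} :=
        fun x hx => ⟨hx.2.2.1, far_le hρ1 hx⟩
      refine (hcont.mono hsub).congr ?_
      intro x hx
      exact (if_pos hx).symm
    · have hem : rFace K p Φ d ρ v u w = ∅ := by
        apply Set.eq_empty_of_forall_notMem
        intro x hx
        exact hnf hx.1
      rw [hem]
      exact continuousOn_empty D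

end Pool.Agent.TSR
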