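import Pool.Agent.TSR.HDefs

/-!
# TSR: edge zone against face zone
-/

set_option autoImplicit false

namespace Pool.Agent.TSR

open Set Filter Topology Pool.Agent.TSM

namespace SFC_

variable {V : Type} [Fintype V] [DecidableEq V] {K : Surf V} {p : V → E3} {Φ : Finset Aff}
  {op : V → V → V → V}

theorem not_outer (hop : IsOpp K op) {v u w : V} (h : Flag K p Φ op v u w) :
    ¬ K.Outer p Φ v := by
  intro ho
  obtain ⟨h1, -, -, -, -⟩ := hop v u w h.1
  apply h.2
  constructor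
  · obtain ⟨φ, hφ, h2⟩ := ho _ h.1 (by simp)
    exact ⟨φ, hφ, h2 v (by simp), h2 u (by simp), h2 w (by simp)⟩
  · obtain ⟨φ, hφ, h2⟩ := ho _ h1 (by simp)
    exact ⟨φ, hφ, h2 v (by simp), h2 u (by simp), h2 _ (by simp)⟩

theorem bounds (hop : IsOpp K op) {d ρ : ℝ} (hd : 0 < d) (hd1 : d < 1 / 4) {v u w : V}
    {x : V → ℝ} (hx : x ∈ rEdge K p Φ op d ρ v u w) :
    ρ / 4 ≤ x v ∧ ρ / 4 ≤ x u ∧ 0 ≤ x w ∧ x v + x u + x w = 1 := by
  obtain ⟨hF, hfar, hT, hw⟩ := hx
  obtain ⟨n1, n2, n3⟩ := tri_ne hF.1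
  have hs := hT.sum n1 n2 n3
  have f1 := hfar v (not_outer hop hF)
  have f2 := hfar u (not_outer hop (hF.swap hop))
  have g1 := hT.1 v
  have g2 := hT.1 u
  have g3 := hT.1 w
  have m1 : d * min (x v) (x u) ≤ d * x v := mul_le_mul_of_nonneg_left (min_le_left _ _) hd.le
  have m2 : d * min (x v) (x u) ≤ d * x u := mul_le_mul_of_nonneg_left (min_le_right _ _) hd.le
  refine ⟨?_, ?_, g3, hs⟩
  · nlinarith
  · nlinarith

end SFC_

theorem sfc_proof (hE : Stmt_EFC) : Stmt_SFC := by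
  intro V _ _ K p Φ op hfr hop d c C ε' κ X τ N₀ o oN η R M hL ρ hρ
  have key : ∀ v u w, ∀ᶠ η' in 𝓝[>] (0 : ℝ), Flag K p Φ op v u w →
      ∀ (P : V → V → V → Aff) (B : (v : V) → κ v → Aff), Pln K p Φ op X τ N₀ η' P B →
      ∀ x ∈ rEdge K p Φ op d ρ v u w, d / 2 * min (x v) (x u) ≤ x w → ∀ s : ℝ,
      ev (AE p op P v u w) (lin p x - s • eE p v u w (op v u w)) = 0 →
      FEg p op X τ P B v u w (lin p x - s • eE p v u w (op v u w)) = 0 := by
    intro v u w
    by_cases hF : Flag K p Φ op v u w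
    · obtain ⟨H1, H2⟩ := hL.half v u w hF
      obtain ⟨η₀, hη₀, H3⟩ := hE (κ v) (κ u) (p v) (p u) (p w) (p (op v u w)) (nE p op v u w)
        (nE p op v u (op v u w)) c C ε' (X v u) (fun n => τ v u • N₀ v n) (X u v)
        (fun n => τ u v • N₀ u n) (hL.geo v u w hF) hL.e0 H1 H2 (ρ / 4) (d / 2) (by linarith)
        hL.e2
      filter_upwards [Ioo_mem_nhdsGT hη₀] with η' hη' _ P B hP x hx hxw s hs
      obtain ⟨b1, b2, b3, b4⟩ := SFC_.bounds hop hL.d0 hL.d1 hx
      obtain ⟨n1, n2, n3⟩ := tri_ne hF.1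
      have hlin := hx.2.2.1.lin (p := p) n1 n2 n3
      have e1 : 1 - x u - x w = x v := by linarith
      have H4 := H3 η' hη'.1 hη'.2 _ _ _ _ (hP.en v u w hF) (x u) (x w) b2 b3 (by rw [e1]; exact b1)
        (by rw [e1, min_comm]; exact hxw) s
      rw [← hlin] at H4
      exact H4 hs
    · exact Filter.Eventually.of_forall fun η' h => absurd h hF
  have key2 := Filter.eventually_all.2 fun v => Filter.eventually_all.2 fun u =>
    Filter.eventually_all.2 fun w => key v u w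
  filter_upwards [key2] with η' h P B hP v u w x hx
  exact h v u w hx.1 P B hP x hx

end Pool.Agent.TSR
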