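import Pool.Agent.TSR.SFC

/-!
# TSR: germs in the edge zone
-/

set_option autoImplicit false

namespace Pool.Agent.TSR

open Set Filter Topology Pool.Agent.TSM

theorem sgm_proof (hE : Stmt_EGM) : Stmt_SGM := by
  intro V _ _ K p Φ op hfr hop d c C ε' κ X τ N₀ o oN η R M hL ρ hρ
  have key : ∀ v u w, ∀ᶠ η' in 𝓝[>] (0 : ℝ), Flag K p Φ op v u w →
      ∀ (P : V → V → V → Aff) (B : (v : V) → κ v → Aff), Pln K p Φ op X τ N₀ η' P B →
      ∀ x ∈ rEdge K p Φ op d ρ v u w, ∀ s : ℝ,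
      FEg p op X τ P B v u w (lin p x - s • eE p v u w (op v u w)) = 0 →
      ∃ f g h : Aff, Indep f g h ∧ ∃ r > 0,
      ∀ z ∈ Metric.ball (lin p x - s • eE p v u w (op v u w)) r,
        FEg p op X τ P B v u w z = 0 → G3 f g h z = 0 := by
    intro v u w
    by_cases hF : Flag K p Φ op v u w
    · obtain ⟨H1, H2⟩ := hL.half v u w hF
      obtain ⟨η₀, hη₀, H3⟩ := hE (κ v) (κ u) (p v) (p u) (p w) (p (op v u w)) (nE p op v u w)
        (nE p op v u (op v u w)) c C ε' (X v u) (fun n => τ v u • N₀ v n) (X u v)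
        (fun n => τ u v • N₀ u n) (hL.geo v u w hF) hL.e0 H1 H2 (ρ / 4) (by linarith)
      filter_upwards [Ioo_mem_nhdsGT hη₀] with η' hη' _ P B hP x hx s hs
      obtain ⟨b1, b2, b3, b4⟩ := SFC_.bounds hop hL.d0 hL.d1 hx
      obtain ⟨n1, n2, n3⟩ := tri_ne hF.1
      have hlin := hx.2.2.1.lin (p := p) n1 n2 n3
      have e1 : 1 - x u - x w = x v := by linarith
      exact H3 η' hη'.1 hη'.2 _ _ _ _ (hP.en v u w hF) (hP.eg v u w hF) (x u) (x w) s b2 b3
        (by rw [e1]; exact b1) _ (by rw [← hlin]; rfl) hs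
    · exact Filter.Eventually.of_forall fun η' h => absurd h hF
  have key2 := Filter.eventually_all.2 fun v => Filter.eventually_all.2 fun u =>
    Filter.eventually_all.2 fun w => key v u w
  filter_upwards [key2] with η' h P B hP v u w x hx
  exact h v u w hx.1 P B hP x hx

end Pool.Agent.TSR
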