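import Pool.Agent.TSR.HDefs

/-!
# TSR: SYE, the edge maps
-/

set_option autoImplicit false

namespace Pool.Agent.TSR

open Set Filter Topology Pool.Agent.TSM

namespace SYE_

variable {V : Type} [Fintype V] [DecidableEq V] {K : Surf V} {p : V → E3} {Φ : Finset Aff}
  {op : V → V → V → V} {d ρ ε : ℝ} {κ : V → Type} {X : (v : V) → V → Finset (κ v)}
  {τ : V → V → ℝ} {P : V → V → V → Aff} {B : (v : V) → κ v → Aff} {G : V → E3 → E3}

theorem closed_rEdge (v u w : V) : IsClosed (rEdge K p Φ op d ρ v u w) := by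
  have cc : ∀ v : V, Continuous (fun z : V → ℝ => z v) := fun v => continuous_apply v
  by_cases hF : Flag K p Φ op v u w
  · have h1 : IsClosed {x : V → ℝ | Farr K p Φ ρ x} := by
      have : {x : V → ℝ | Farr K p Φ ρ x} = ⋂ a : V, {x : V → ℝ | ¬ K.Outer p Φ a →
          x a ≤ 1 - ρ / 2} := by
        ext x
        simp only [Farr, Set.mem_iInter, Set.mem_ofPred_eq]
      rw [this]
      refine isClosed_iInter fun a => ?_
      by_cases ha : K.Outer p Φ a
      · simp [ha]
      · simp only [ha, not_false_eq_true, true_implies]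
        exact isClosed_le (cc a) continuous_const
    have h2 : IsClosed {x : V → ℝ | InT v u w x} := by
      have : {x : V → ℝ | InT v u w x} = (⋂ a : V, {x : V → ℝ | 0 ≤ x a}) ∩
          ({x : V → ℝ | ∑ y, x y = 1} ∩ ⋂ a : V, {x : V → ℝ | a ∉ ({v, u, w} : Finset V) →
            x a = 0}) := by
        ext x
        simp only [InT, Set.mem_iInter, Set.mem_ofPred_eq, Set.mem_inter_iff]
      rw [this]
      refine (isClosed_iInter fun a => isClosed_le continuous_const (cc a)).inter
        (IsClosed.inter ?_ (isClosed_iInter fun a => ?_))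
      · exact isClosed_eq (continuous_finsetSum _ fun a _ => cc a) continuous_const
      · by_cases ha : a ∈ ({v, u, w} : Finset V)
        · simp [ha]
        · simp only [ha, not_false_eq_true, true_implies]
          exact isClosed_eq (cc a) continuous_const
    have h3 : IsClosed {x : V → ℝ | x w ≤ d * min (x v) (x u)} :=
      isClosed_le (cc w) (continuous_const.mul ((cc v).min (cc u)))
    have : rEdge K p Φ op d ρ v u w = {x : V → ℝ | Farr K p Φ ρ x} ∩
        ({x : V → ℝ | InT v u w x} ∩ {x : V → ℝ | x w ≤ d * min (x v) (x u)}) := by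
      ext x
      simp only [rEdge, Set.mem_ofPred_eq, Set.mem_inter_iff, hF, true_and]
    rw [this]
    exact h1.inter (h2.inter h3)
  · have : rEdge K p Φ op d ρ v u w = ∅ := by
      ext x
      simp only [rEdge, Set.mem_ofPred_eq, hF, false_and, Set.mem_empty_iff_false]
    rw [this]
    exact isClosed_empty

/-- swapped region -/
theorem rEdge_swap (hop : IsOpp K op) {v u w : V} {x : V → ℝ}
    (h : x ∈ rEdge K p Φ op d ρ v u w) : x ∈ rEdge K p Φ op d ρ u v w := by
  obtain ⟨h1, h2, h3, h4⟩ := h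
  exact ⟨h1.swap hop, h2, h3.swap, by rw [min_comm]; exact h4⟩

theorem rEdge_opp (hop : IsOpp K op) (hd : 0 < d) {v u w : V} {x : V → ℝ}
    (h : x ∈ rEdge K p Φ op d ρ v u w) (hx : x w = 0) :
    x ∈ rEdge K p Φ op d ρ v u (op v u w) := by
  obtain ⟨h1, h2, h3, h4⟩ := h
  obtain ⟨o1, o2, o3, o4, o5⟩ := hop v u w h1.1
  obtain ⟨n1, n2, n3⟩ := tri_ne o1
  have hz : x (op v u w) = 0 := h3.zero n2.symm n3.symm o2
  refine ⟨h1.opp hop, h2, ⟨h3.1, h3.2.1, ?_⟩, ?_⟩
  · intro y hy
    by_cases hyw : y = w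
    · rw [hyw]
      exact hx
    · simp only [Finset.mem_insert, Finset.mem_singleton, not_or] at hy
      exact h3.zero hy.1 hy.2.1 hyw
  · rw [hz]
    exact mul_nonneg hd.le (le_min (h3.1 v) (h3.1 u))

theorem AE_swap (h3 : Stmt_BTS) (hop : IsOpp K op) (anti : ∀ v u w, P v w u = - P v u w)
    (cyc : ∀ v u w, P u w v = P v u w) {v u w : V} (ht : ({v, u, w} : Finset V) ∈ K.tri) :
    AE p op P u v w = AE p op P v u w := by
  have hs := (h3 V K p op hop v u w ht).2.1
  have hP : P u v w = - P v u w := by rw [anti u w v, cyc]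
  unfold AE
  rw [hs, hP, neg_smul_neg]

theorem FEg_swap (h3 : Stmt_BTS) (hop : IsOpp K op) (anti : ∀ v u w, P v w u = - P v u w)
    (cyc : ∀ v u w, P u w v = P v u w) {v u w : V} (ht : ({v, u, w} : Finset V) ∈ K.tri)
    (y : E3) : FEg p op X τ P B u v w y = FEg p op X τ P B v u w y := by
  obtain ⟨o1, o2, o3, o4, o5⟩ := hop v u w ht
  unfold FEg FE
  rw [o3, AE_swap h3 hop anti cyc ht, AE_swap h3 hop anti cyc o1]
  congr 1
  exact max_comm _ _

theorem FEg_opp (hop : IsOpp K op) {v u w : V} (ht : ({v, u, w} : Finset V) ∈ K.tri)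
    (y : E3) : FEg p op X τ P B v u (op v u w) y = FEg p op X τ P B v u w y := by
  obtain ⟨o1, o2, o3, o4, o5⟩ := hop v u w ht
  unfold FEg FE
  rw [o4]
  congr 1
  exact min_comm _ _

omit [DecidableEq V] in
theorem cont_lin (p : V → E3) : Continuous (lin p) := by
  unfold lin
  exact continuous_finsetSum _ fun v _ => (continuous_apply v).smul continuous_const

end SYE_

open SYE_ in
theorem sye_proof (h1 : Stmt_EFU) (h2 : Stmt_EIJ) (h3 : Stmt_BTS) : Stmt_SYE := by
  intro V _ _ K p Φ op hK hop d ρ ε κ X τ P B G hS De hDe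
  have hd := hS.d0
  -- uniqueness
  have uniq : ∀ v u w, Flag K p Φ op v u w → ∀ (y : E3) (s t : ℝ),
      FEg p op X τ P B v u w (y - s • eE p v u w (op v u w)) = 0 →
      FEg p op X τ P B v u w (y - t • eE p v u w (op v u w)) = 0 → s = t := by
    intro v u w hF
    obtain ⟨c, hc⟩ := hS.sl v u w hF
    exact (h1 _ _ _ _ _ _ _ _ _ c hc.c0 hc.ne hc.ne' hc.A hc.A' hc.hB hc.hB').2.2.1
  have cont : ∀ v u w, ContinuousOn (De v u w) (rEdge K p Φ op d ρ v u w) := by
    intro v u w
    by_cases hF : Flag K p Φ op v u w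
    · obtain ⟨c, hc⟩ := hS.sl v u w hF
      have h6 := (h1 _ _ _ _ _ _ _ _ _ c hc.c0 hc.ne hc.ne' hc.A hc.A' hc.hB hc.hB').2.2.2.2.2
      choose s hs using hDe v u w
      classical
      obtain ⟨s', hs'⟩ : ∃ s' : (V → ℝ) → ℝ, s' = fun x =>
        if h : x ∈ rEdge K p Φ op d ρ v u w then s x h else 0 := ⟨_, rfl⟩
      have hss : ∀ x, ∀ h : x ∈ rEdge K p Φ op d ρ v u w, s' x = s x h := by
        intro x h
        rw [hs']
        simp only [h, dif_pos]
      have h7 := h6 (V → ℝ) (rEdge K p Φ op d ρ v u w) (lin p) s' (cont_lin p).continuousOn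
        (by
          intro x hx
          have h8 := (hs x hx).2
          rw [(hs x hx).1] at h8
          rw [hss x hx]
          exact h8)
      have h9 : ContinuousOn (fun x => lin p x - s' x • eE p v u w (op v u w))
          (rEdge K p Φ op d ρ v u w) :=
        (cont_lin p).continuousOn.sub (h7.smul continuousOn_const)
      refine h9.congr ?_
      intro x hx
      rw [(hs x hx).1, ← hss x hx]
    · have : rEdge K p Φ op d ρ v u w = ∅ := by
        ext x
        simp only [rEdge, Set.mem_ofPred_eq, hF, false_and, Set.mem_empty_iff_false]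
      rw [this]
      exact continuousOn_empty _
  have sym : ∀ v u w, ∀ x ∈ rEdge K p Φ op d ρ v u w, De u v w x = De v u w x := by
    intro v u w x hx
    have ht := hx.1.1
    obtain ⟨s, hs1, hs2⟩ := hDe v u w x hx
    obtain ⟨t, ht1, ht2⟩ := hDe u v w x (rEdge_swap hop hx)
    rw [FEg_swap h3 hop hS.anti hS.cyc ht, ht1, (h3 V K p op hop v u w ht).2.2.2.1] at ht2
    rw [hs1] at hs2
    have := uniq v u w hx.1 _ _ _ hs2 ht2
    rw [hs1, ht1, (h3 V K p op hop v u w ht).2.2.2.1, this]
  -- the equation on the opposite region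
  have oeq : ∀ v u w, ({v, u, w} : Finset V) ∈ K.tri →
      ∀ y ∈ rEdge K p Φ op d ρ v u (op v u w), ∃ s : ℝ,
      De v u (op v u w) y = lin p y - s • eE p v u w (op v u w) ∧
      FEg p op X τ P B v u w (De v u (op v u w) y) = 0 := by
    intro v u w ht y hy
    obtain ⟨t, ht1, ht2⟩ := hDe v u (op v u w) y hy
    refine ⟨t, ?_, ?_⟩
    · rw [ht1, (hop v u w ht).2.2.2.1, (h3 V K p op hop v u w ht).2.2.2.2]
    · rw [← FEg_opp hop ht]
      exact ht2
  have opz : ∀ v u w, ∀ x ∈ rEdge K p Φ op d ρ v u w, x w = 0 →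
      De v u (op v u w) x = De v u w x := by
    intro v u w x hx hw
    have ht := hx.1.1
    obtain ⟨s, hs1, hs2⟩ := hDe v u w x hx
    obtain ⟨t, ht1, ht2⟩ := oeq v u w ht x (rEdge_opp hop hd hx hw)
    rw [ht1] at ht2
    rw [hs1] at hs2
    rw [hs1, ht1, uniq v u w hx.1 _ _ _ hs2 ht2]
  refine ⟨cont, sym, opz, ?_, ?_, ?_, ?_, ?_⟩
  · intro v u w x hx h
    obtain ⟨s, hs1, hs2⟩ := hDe v u w x hx
    obtain ⟨t, ht1, ht2⟩ := hS.ce v u w x hx h
    rw [ht1] at ht2
    rw [hs1] at hs2
    rw [hs1, ht1, uniq v u w hx.1 _ _ _ hs2 ht2]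
  · intro v u w x hx hf
    obtain ⟨n1, n2, n3⟩ := tri_ne hx.1.1
    have e1 : ev (AE p op P v u w) (lin p x - (0 : ℝ) • eE p v u w (op v u w)) = 0 := by
      unfold AE
      rw [ev_smul, hS.ft v u w hf.1, zero_smul, sub_zero, ev_P0, hf.2.2.1.lin n1 n2 n3]
      have : p v + x u • (p u - p v) + x w • (p w - p v) - p v =
          x u • (p u - p v) + x w • (p w - p v) := by abel
      rw [this, inner_add_right, inner_smul_right, inner_smul_right, inn_n0_u, inn_n0_w]
      ring
    have e2 := hS.fc v u w x hx (hf.2.2.2.1 hx.1) 0 e1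
    obtain ⟨s, hs1, hs2⟩ := hDe v u w x hx
    rw [hs1] at hs2
    rw [hs1, uniq v u w hx.1 _ _ _ hs2 e2, zero_smul, sub_zero]
  · intro v u w x hx
    have ht := hx.1.1
    obtain ⟨s, hs1, hs2⟩ := hDe v u w x hx
    have hs2' := hs2
    rw [hs1] at hs2'
    obtain ⟨f, g, h, hI, r, hr, hz⟩ := hS.gm v u w x hx s hs2'
    rw [← hs1] at hz
    refine ⟨f, g, h, hI, ?_⟩
    have ev1 : ∀ᶠ y in 𝓝 x, y ∈ rEdge K p Φ op d ρ v u w → G3 f g h (De v u w y) = 0 := by
      have := (cont v u w x hx) (Metric.ball_mem_nhds (De v u w x) hr)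
      rw [Filter.mem_map, mem_nhdsWithin_iff_eventually] at this
      filter_upwards [this] with y hy hy2
      exact hz _ (hy hy2) (hDe v u w y hy2).choose_spec.2
    have ev2 : ∀ᶠ y in 𝓝 x, y ∈ rEdge K p Φ op d ρ v u (op v u w) →
        G3 f g h (De v u (op v u w) y) = 0 := by
      by_cases hx2 : x ∈ rEdge K p Φ op d ρ v u (op v u w)
      · have hw : x w = 0 := by
          obtain ⟨o1, o2, o3, o4, o5⟩ := hop v u w ht
          obtain ⟨m1, m2, m3⟩ := tri_ne ht
          exact hx2.2.2.1.zero m2.symm m3.symm o2.symm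
        have heq := opz v u w x hx hw
        have := (cont v u (op v u w) x hx2) (by
          rw [heq]
          exact Metric.ball_mem_nhds (De v u w x) hr)
        rw [Filter.mem_map, mem_nhdsWithin_iff_eventually] at this
        filter_upwards [this] with y hy hy2
        exact hz _ (hy hy2) (oeq v u w ht y hy2).choose_spec.2
      · have : ∀ᶠ y in 𝓝 x, y ∉ rEdge K p Φ op d ρ v u (op v u w) :=
          (closed_rEdge v u (op v u w)).isOpen_compl.mem_nhds hx2
        filter_upwards [this] with y hy hy2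
        exact absurd hy2 hy
    exact ev1.and ev2
  · intro v u w x hx
    obtain ⟨s, hs1, hs2⟩ := hDe v u w x hx
    refine ⟨?_, ?_⟩
    · intro y hy he
      obtain ⟨t, ht1, ht2⟩ := hDe v u w y hy
      rw [hs1, ht1] at he
      exact h2 V K p Φ op hK hop v u w hx.1 x y (Or.inl hx.2.2.1) (Or.inl hy.2.2.1) s t he
    · intro y hy he
      obtain ⟨t, ht1, ht2⟩ := oeq v u w hx.1.1 y hy
      rw [hs1, ht1] at he
      exact h2 V K p Φ op hK hop v u w hx.1 x y (Or.inl hx.2.2.1) (Or.inr hy.2.2.1) s t he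
  · intro v u w x hx
    obtain ⟨s, hs1, hs2⟩ := hDe v u w x hx
    rw [hs1] at hs2
    obtain ⟨a1, a2, a3⟩ := hS.eh v u w x hx s hs2
    rw [hs1]
    refine ⟨a1, a2, ?_⟩
    rw [show lin p x - s • eE p v u w (op v u w) - lin p x = -(s • eE p v u w (op v u w)) by abel,
      norm_neg]
    exact a3

end Pool.Agent.TSR
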