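import Pool.Agent.TSR.HDefs
import Pool.Agent.TSM.VStmts

/-!
# TSR: module SYF: the face maps
-/

set_option autoImplicit false

namespace Pool.Agent.TSR

open Set Filter Topology Pool.Agent.TSM

namespace SYF_

variable {V : Type} [Fintype V] [DecidableEq V] {K : Surf V} {p : V → E3} {Φ : Finset Aff}

theorem rFace_swap {d ρ : ℝ} {v u w : V} {x : V → ℝ} (h : x ∈ rFace K p Φ d ρ v u w) :
    x ∈ rFace K p Φ d ρ u v w := by
  obtain ⟨h1, h2, h3, h4, h5, h6⟩ := h
  refine ⟨h1.swap, h2, h3.swap, ?_, ?_, ?_⟩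
  · rw [min_comm]; exact h4
  · rw [min_comm]; exact h6
  · rw [min_comm]; exact h5

theorem rFace_cyc {d ρ : ℝ} {v u w : V} {x : V → ℝ} (h : x ∈ rFace K p Φ d ρ v u w) :
    x ∈ rFace K p Φ d ρ u w v := by
  obtain ⟨h1, h2, h3, h4, h5, h6⟩ := h
  exact ⟨h1.cyc, h2, h3.cyc, h5, h6, h4⟩

end SYF_

open SYF_ in
/-- SYF: the face maps. -/
theorem syf_proof (hbts : Stmt_BTS) (hger : Stmt_FGer) : Stmt_SYF := by
  intro V _ _ K p Φ op hF hop d ρ ε κ X τ P B G hS Df hDf
  have hcont : ∀ v u w, ContinuousOn (Df v u w) (rFace K p Φ d ρ v u w) :=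
    fun v u w => hS.fk v u w (Df v u w) (hDf v u w)
  have huniq : ∀ v u w, ∀ x ∈ rFace K p Φ d ρ v u w, ∀ (q : E3) (s : ℝ),
      q = lin p x - s • bT p op d v u w x → ev (P v u w) q = 0 → q = Df v u w x := by
    intro v u w x hx q s hq he
    obtain ⟨t, ht, ht0⟩ := hDf v u w x hx
    rw [ht] at ht0
    rw [hq] at he
    have hst := hS.fu v u w x hx s t he ht0
    rw [hq, ht, hst]
  refine ⟨hcont, ?_, ?_, ?_, ?_, ?_⟩
  · intro v u w x hx
    have htri := hx.1.1
    obtain ⟨hb1, -⟩ := hbts V K p op hop v u w htri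
    obtain ⟨hb2, -⟩ := hbts V K p op hop u w v (tri_cyc htri)
    have hbc : bT p op d u w v x = bT p op d v u w x := (hb1 d x).2
    have hbs : bT p op d u v w x = - bT p op d v u w x := by
      rw [(hb2 d x).1, hbc]
    have hPc : P u w v = P v u w := hS.cyc v u w
    have hPs : P u v w = - P v u w := by
      rw [hS.anti u w v, hPc]
    refine ⟨?_, ?_⟩
    · obtain ⟨s, hs, hs0⟩ := hDf u v w x (rFace_swap hx)
      refine huniq v u w x hx _ (-s) ?_ ?_
      · rw [hs, hbs, smul_neg, neg_smul]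
      · rw [hPs, ev_neg, neg_eq_zero] at hs0
        exact hs0
    · obtain ⟨s, hs, hs0⟩ := hDf u w v x (rFace_cyc hx)
      refine huniq v u w x hx _ s ?_ ?_
      · rw [hs, hbc]
      · rw [hPc] at hs0
        exact hs0
  · intro v u w x hx hxv
    obtain ⟨s, hs, hs0⟩ := hS.cf v u w x hx hxv
    exact (huniq v u w x hx _ s hs hs0).symm
  · intro v u w x hx
    obtain ⟨s, hs, hs0⟩ := hDf v u w x hx
    obtain ⟨a, b, c, hI, r, hr, hball⟩ := hger.2 (P v u w) (Df v u w x) (hS.nz v u w hx.1.1) hs0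
    refine ⟨a, b, c, hI, ?_⟩
    have h1 : ∀ᶠ y in 𝓝[rFace K p Φ d ρ v u w] x, Df v u w y ∈ Metric.ball (Df v u w x) r :=
      (hcont v u w x hx).eventually (Metric.ball_mem_nhds _ hr)
    rw [eventually_nhdsWithin_iff] at h1
    filter_upwards [h1] with y hy hyr
    obtain ⟨t, -, ht0⟩ := hDf v u w y hyr
    exact hball _ (hy hyr) ht0
  · intro v u w x hx y hy hxy
    obtain ⟨s, hs, hs0⟩ := hDf v u w x hx
    obtain ⟨t, ht, ht0⟩ := hDf v u w y hy
    rw [hs] at hs0
    rw [ht] at ht0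
    rw [hs, ht] at hxy
    exact hS.fi v u w x hx y hy s t hs0 ht0 hxy
  · intro v u w x hx
    obtain ⟨s, hs, hs0⟩ := hDf v u w x hx
    rw [hs] at hs0
    obtain ⟨h1, h2, h3⟩ := hS.fh v u w x hx s hs0
    rw [hs]
    refine ⟨h1, h2, ?_⟩
    have : lin p x - s • bT p op d v u w x - lin p x = -(s • bT p op d v u w x) := by abel
    rw [this, norm_neg]
    exact h3

end Pool.Agent.TSR
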