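import Pool.Agent.TSX.VTXClosed
import Pool.Agent.TSX.VCO
import Pool.Agent.TSR.ASMR
import Pool.Agent.TSR.BTE
import Pool.Agent.TSR.BTL
import Pool.Agent.TSR.BTP
import Pool.Agent.TSR.BTS
import Pool.Agent.TSR.EAN
import Pool.Agent.TSR.EBD
import Pool.Agent.TSR.EFC
import Pool.Agent.TSR.EFU
import Pool.Agent.TSR.EGE
import Pool.Agent.TSR.EGM
import Pool.Agent.TSR.EIJ
import Pool.Agent.TSR.FCE
import Pool.Agent.TSR.FLG
import Pool.Agent.TSR.GCON
import Pool.Agent.TSR.GCOV
import Pool.Agent.TSR.GEN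
import Pool.Agent.TSR.GEX
import Pool.Agent.TSR.GGA
import Pool.Agent.TSR.GGB
import Pool.Agent.TSR.GLU
import Pool.Agent.TSR.GPOS
import Pool.Agent.TSR.GREL
import Pool.Agent.TSR.HUL
import Pool.Agent.TSR.LBX
import Pool.Agent.TSR.OPP
import Pool.Agent.TSR.PLA
import Pool.Agent.TSR.PLN
import Pool.Agent.TSR.SAN
import Pool.Agent.TSR.SBD
import Pool.Agent.TSR.SCO
import Pool.Agent.TSR.SEH
import Pool.Agent.TSR.SFA
import Pool.Agent.TSR.SFC
import Pool.Agent.TSR.SGM
import Pool.Agent.TSR.SSL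
import Pool.Agent.TSR.SYE
import Pool.Agent.TSR.SYF
import Pool.Agent.TSR.TAI

/-!
# TSR: Part R closed (from POC)
-/

set_option autoImplicit false

namespace Pool.Agent.TSR

open Pool.Agent.TSM

/-- the vertex theorem -/
theorem vtx : Stmt_VTX := Pool.Agent.TSX.vtx_of_vco Pool.Agent.TSX.vco_proof

theorem flg : Stmt_FLG := FLG_proof TAI_proof

theorem btp : Stmt_BTP := btp_proof flg

theorem glu : Stmt_GLU :=
  glu_proof gcov_proof grel_proof (gcon_proof gcov_proof) gpos_proof gga_proof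
    (ggb_proof fger_proof) gex_proof

theorem stmtR_of_poc (hPOC : Stmt_POC) : Stmt_R :=
  stmtR_of OPP_proof TAI_proof flg hul_proof
    (lbx_proof vtx (EGE_proof flg) BTS_proof flg)
    (pla_proof (PLN_proof TAI_proof) GEN_proof TAI_proof flg BTS_proof)
    (sbd_proof EBD_proof EFU_proof ssl_proof) ssl_proof (sfc_proof EFC_proof)
    (san_proof EAN_proof) (sgm_proof EGM_proof) (seh_proof hPOC)
    (sfa_proof (FCE_proof TAI_proof btp BTL_proof) btp) (sco_proof TAI_proof)
    EFU_proof bte_proof (sye_proof EFU_proof (eij_proof flg) BTS_proof)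
    (syf_proof BTS_proof fger_proof) glu

end Pool.Agent.TSR
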