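import Pool.Agent.TSR.HDefs

set_option autoImplicit false

namespace Pool.Agent.TSR

open Set Filter Topology Pool.Agent.TSM

namespace SSL_

theorem slope {A N e : E3} {c η' E : ℝ} (h1 : ‖A - N‖ ≤ η') (h2 : c ≤ (inner ℝ N e : ℝ))
    (h3 : ‖e‖ ≤ E) (h0 : 0 ≤ η') (h4 : η' * E ≤ c / 2) : c / 2 ≤ (inner ℝ A e : ℝ) := by
  have h5 : (inner ℝ A e : ℝ) = inner ℝ N e + inner ℝ (A - N) e := by
    rw [← inner_add_left]; congr 1; abel
  have h6 := abs_real_inner_le_norm (A - N) e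
  have h7 : ‖A - N‖ * ‖e‖ ≤ η' * E := mul_le_mul h1 h3 (norm_nonneg _) h0
  have h8 := neg_abs_le (inner ℝ (A - N) e : ℝ)
  linarith

end SSL_

open SSL_

theorem ssl_proof : Stmt_SSL := by
  intro V _ _ K p Φ op hf hop d c C ε' κ X τ N₀ o oN η R M hL
  have hE : ∃ E : ℝ, 0 < E ∧ ∀ v u w, ‖eE p v u w (op v u w)‖ ≤ E := by
    refine ⟨1 + ∑ v, ∑ u, ∑ w, ‖eE p v u w (op v u w)‖, ?_, ?_⟩
    · have : 0 ≤ ∑ v, ∑ u, ∑ w, ‖eE p v u w (op v u w)‖ :=
        Finset.sum_nonneg fun v _ => Finset.sum_nonneg fun u _ => Finset.sum_nonneg fun w _ =>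
          norm_nonneg _
      linarith
    · intro v u w
      have a1 : ‖eE p v u w (op v u w)‖ ≤ ∑ w, ‖eE p v u w (op v u w)‖ :=
        Finset.single_le_sum (f := fun w => ‖eE p v u w (op v u w)‖)
          (fun _ _ => norm_nonneg _) (Finset.mem_univ w)
      have a2 : ∑ w, ‖eE p v u w (op v u w)‖ ≤ ∑ u, ∑ w, ‖eE p v u w (op v u w)‖ :=
        Finset.single_le_sum (f := fun u => ∑ w, ‖eE p v u w (op v u w)‖)
          (fun _ _ => Finset.sum_nonneg fun _ _ => norm_nonneg _) (Finset.mem_univ u)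
      have a3 : ∑ u, ∑ w, ‖eE p v u w (op v u w)‖ ≤ ∑ v, ∑ u, ∑ w, ‖eE p v u w (op v u w)‖ :=
        Finset.single_le_sum (f := fun v => ∑ u, ∑ w, ‖eE p v u w (op v u w)‖)
          (fun _ _ => Finset.sum_nonneg fun _ _ => Finset.sum_nonneg fun _ _ => norm_nonneg _)
          (Finset.mem_univ v)
      linarith
  obtain ⟨E, hE0, hE⟩ := hE
  have hc := hL.c0
  filter_upwards [Ioo_mem_nhdsGT (show (0 : ℝ) < c / (2 * E) by positivity)] with η' hη'
  intro P B hP v u w hfl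
  have hη0 : 0 ≤ η' := hη'.1.le
  have hη1 : η' * E ≤ c / 2 := by
    have := hη'.2.le
    rw [le_div_iff₀ (by positivity)] at this
    nlinarith
  have hen := hP.en v u w hfl
  obtain ⟨hh1, hh2⟩ := hL.half v u w hfl
  have hg := hL.geo v u w hfl
  have he := hE v u w
  have e1 : eV (p v) (p u) (p w) (p (op v u w)) = eE p v u w (op v u w) := rfl
  have e2 : eV (p u) (p v) (p w) (p (op v u w)) = eE p v u w (op v u w) := by
    unfold eV eE; abel
  refine ⟨half_pos hc, hh1.ne, hh2.ne, ?_, ?_, ?_, ?_⟩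
  · exact slope hen.A.1 (by rw [← e1]; exact hg.ck) he hη0 hη1
  · exact slope hen.A'.1 (by rw [← e1]; exact hg.cl) he hη0 hη1
  · intro n hn
    exact slope (hen.B n hn).1 (by rw [← e1]; exact (hh1.n3 n hn).1) he hη0 hη1
  · intro n hn
    exact slope (hen.B' n hn).1 (by rw [← e2]; exact (hh2.n3 n hn).1) he hη0 hη1

end Pool.Agent.TSR
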