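import Pool.Agent.TSR.ASMR
import Pool.Agent.TSR.GLU
import Pool.Agent.TSR.OPP
import Pool.Agent.TSR.TAI
import Pool.Agent.TSR.FLG
import Pool.Agent.TSR.HUL
import Pool.Agent.TSR.LBX
import Pool.Agent.TSR.PLA
import Pool.Agent.TSR.PLN
import Pool.Agent.TSR.GEN
import Pool.Agent.TSR.SBD
import Pool.Agent.TSR.EBD
import Pool.Agent.TSR.SSL
import Pool.Agent.TSR.SFC
import Pool.Agent.TSR.EFC
import Pool.Agent.TSR.SAN
import Pool.Agent.TSR.EAN
import Pool.Agent.TSR.SGM
import Pool.Agent.TSR.EGM
import Pool.Agent.TSR.SEH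
import Pool.Agent.TSR.SFA
import Pool.Agent.TSR.FCE
import Pool.Agent.TSR.BTP
import Pool.Agent.TSR.BTL
import Pool.Agent.TSR.BTS
import Pool.Agent.TSR.BTE
import Pool.Agent.TSR.SCO
import Pool.Agent.TSR.EFU
import Pool.Agent.TSR.EGE
import Pool.Agent.TSR.EIJ
import Pool.Agent.TSR.SYE
import Pool.Agent.TSR.SYF
import Pool.Agent.TSR.GCOV
import Pool.Agent.TSR.GREL
import Pool.Agent.TSR.GCON
import Pool.Agent.TSR.GPOS
import Pool.Agent.TSR.GGA
import Pool.Agent.TSR.GGB
import Pool.Agent.TSR.GEX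
import Pool.Agent.TSM.FGER

/-!
# TSR: Part R of the tight smoothing theorem from the vertex theorem VTX
-/

set_option autoImplicit false

namespace Pool.Agent.TSR

open Pool.Agent.TSM

theorem glu_final : Stmt_GLU :=
  glu_proof gcov_proof grel_proof (gcon_proof gcov_proof) gpos_proof gga_proof
    (ggb_proof fger_proof) gex_proof

theorem flg_final : Stmt_FLG := FLG_proof TAI_proof

theorem btp_final : Stmt_BTP := btp_proof flg_final

/-- Part R from the vertex theorem (and POC). -/
theorem r_of_poc (hPOC : Stmt_POC) (hVTX : Stmt_VTX) : Stmt_R :=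
  stmtR_of OPP_proof TAI_proof flg_final hul_proof
    (lbx_proof hVTX (EGE_proof flg_final) BTS_proof flg_final)
    (pla_proof (PLN_proof TAI_proof) GEN_proof TAI_proof flg_final BTS_proof)
    (sbd_proof EBD_proof EFU_proof ssl_proof) ssl_proof (sfc_proof EFC_proof)
    (san_proof EAN_proof) (sgm_proof EGM_proof) (seh_proof hPOC)
    (sfa_proof (FCE_proof TAI_proof btp_final BTL_proof) btp_final) (sco_proof TAI_proof)
    EFU_proof bte_proof (sye_proof EFU_proof (eij_proof flg_final) BTS_proof)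
    (syf_proof BTS_proof fger_proof) glu_final

end Pool.Agent.TSR
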