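import Pool.Agent.TSR.VStmt

/-!
# TSR: R-FAR, exact statements: triangles, direction field, face equation, planes
-/

set_option autoImplicit false

namespace Pool.Agent.TSR

open Set Filter Topology Pool.Agent.TSM

/-- OPP: existence of the function `op`. -/
def Stmt_OPP : Prop := ∀ (V : Type) [Fintype V] [DecidableEq V] (K : Surf V),
  ∃ op : V → V → V → V, IsOpp K op

/-- TAI: triangles are not degenerate. -/
def Stmt_TAI : Prop := ∀ (V : Type) [Fintype V] [DecidableEq V] (K : Surf V) (p : V → E3),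
  K.EmbStars p → ∀ v u w, ({v, u, w} : Finset V) ∈ K.tri →
    v ≠ u ∧ v ≠ w ∧ u ≠ w ∧ n0 p v u w ≠ 0

/-- FLG: geometry of the flags. -/
def Stmt_FLG : Prop := ∀ (V : Type) [Fintype V] [DecidableEq V] (K : Surf V) (p : V → E3)
  (Φ : Finset Aff) (op : V → V → V → V), K.Framed p Φ → IsOpp K op →
  (∀ v u w, Nf K p Φ v u w → ¬ K.Outer p Φ v ∧ Flag K p Φ op v u w) ∧
  (∀ v u w, Flag K p Φ op v u w → ¬ K.Outer p Φ v ∧ Flag K p Φ op v u (op v u w) ∧
    Flag K p Φ op u v w ∧ Dl p v u w (op v u w) ≠ 0)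

/-- EGE (uses FLG): `EGeo` for all flags. -/
def Stmt_EGE : Prop := ∀ (V : Type) [Fintype V] [DecidableEq V] (K : Surf V) (p : V → E3)
  (Φ : Finset Aff) (op : V → V → V → V), K.Framed p Φ → IsOpp K op →
  ∃ c C : ℝ, 0 < c ∧ ∀ v u w, Flag K p Φ op v u w →
    EGeo (p v) (p u) (p w) (p (op v u w)) (nE p op v u w) (nE p op v u (op v u w)) c C

/-- BTP (uses FLG): positivity of the direction field. -/
def Stmt_BTP : Prop := ∀ (V : Type) [Fintype V] [DecidableEq V] (K : Surf V) (p : V → E3)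
  (Φ : Finset Aff) (op : V → V → V → V), K.Framed p Φ → IsOpp K op →
  ∃ c C : ℝ, 0 < c ∧ 0 < C ∧ ∀ d : ℝ, 0 < d → d ≤ 1 / 4 → ∀ v u w, Nf K p Φ v u w →
    ∀ x, InT v u w x → c ≤ (inner ℝ (n0 p v u w) (bT p op d v u w x) : ℝ) ∧
      ‖bT p op d v u w x‖ ≤ C

/-- BTS: symmetries of the direction field and of the orientations. -/
def Stmt_BTS : Prop := ∀ (V : Type) [Fintype V] [DecidableEq V] (K : Surf V) (p : V → E3)
  (op : V → V → V → V), IsOpp K op → ∀ v u w, ({v, u, w} : Finset V) ∈ K.tri →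
  (∀ (d : ℝ) (x : V → ℝ), bT p op d v w u x = - bT p op d v u w x ∧
    bT p op d u w v x = bT p op d v u w x) ∧
  sg p op u v w = - sg p op v u w ∧ nE p op u v w = nE p op v u w ∧
  eE p u v w (op u v w) = eE p v u w (op v u w) ∧
  eE p v u (op v u w) w = eE p v u w (op v u w)

/-- BTE: the direction field near an edge. -/
def Stmt_BTE : Prop := ∀ (V : Type) [Fintype V] [DecidableEq V] (p : V → E3)
  (op : V → V → V → V) (d : ℝ), 0 < d → d ≤ 1 / 4 → ∀ v u w (x : V → ℝ), (∀ y, 0 ≤ x y) →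
  0 < x v → 0 < x u → x w ≤ d * x v → x w ≤ d * x u →
  bT p op d v u w x = sg p op v u w • eE p v u w (op v u w)

/-- BTV: the direction field near a vertex. -/
def Stmt_BTV : Prop := ∀ (V : Type) [Fintype V] [DecidableEq V] (p : V → E3)
  (op : V → V → V → V) (d : ℝ), 0 < d → d ≤ 1 / 4 → ∀ v u w (x : V → ℝ), v ≠ u → v ≠ w →
  u ≠ w → InT v u w x → 1 / 2 ≤ x v → bT p op d v u w x = n0 p v u w +
    cutf d (x w) (x u) • (sg p op v u w • eE p v u w (op v u w) - n0 p v u w) +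
    cutf d (x u) (x w) • (sg p op w v u • eE p w v u (op w v u) - n0 p v u w)

/-- BTL: Lipschitz bound of the direction field away from the vertices. -/
def Stmt_BTL : Prop := ∀ (V : Type) [Fintype V] [DecidableEq V] (p : V → E3)
  (op : V → V → V → V) (d ρ : ℝ), 0 < d → d ≤ 1 / 4 → 0 < ρ → ∃ L : ℝ, 0 < L ∧
  ∀ v u w (x x' : V → ℝ), v ≠ u → v ≠ w → u ≠ w → InT v u w x → InT v u w x' →
  (∀ y, x y ≤ 1 - ρ) → (∀ y, x' y ≤ 1 - ρ) →
  ‖bT p op d v u w x - bT p op d v u w x'‖ ≤ L * ‖x - x'‖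

/-- FCE (uses TAI, BTP, BTL): the face equation. -/
def Stmt_FCE : Prop := ∀ (V : Type) [Fintype V] [DecidableEq V] (K : Surf V) (p : V → E3)
  (Φ : Finset Aff) (op : V → V → V → V), K.Framed p Φ → IsOpp K op → ∀ d ρ : ℝ, 0 < d →
  d ≤ 1 / 4 → 0 < ρ → ∃ Q η₀ : ℝ, 0 < Q ∧ 0 < η₀ ∧ ∀ v u w, Nf K p Φ v u w → ∀ (P : Aff) (η : ℝ),
  0 < η → η < η₀ → NearP (p v) (n0 p v u w) η P →
  (∀ x, InT v u w x → 0 < (inner ℝ P.1 (bT p op d v u w x) : ℝ)) ∧
  (∀ x, InT v u w x → ∃ s : ℝ, ev P (lin p x - s • bT p op d v u w x) = 0) ∧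
  (∀ x, InT v u w x → ∀ s t : ℝ, ev P (lin p x - s • bT p op d v u w x) = 0 →
    ev P (lin p x - t • bT p op d v u w x) = 0 → s = t) ∧
  (∀ x, InT v u w x → ∀ s : ℝ, ev P (lin p x - s • bT p op d v u w x) = 0 → |s| ≤ Q * η) ∧
  (∀ x x', InT v u w x → InT v u w x' → (∀ y, x y ≤ 1 - ρ) → (∀ y, x' y ≤ 1 - ρ) →
    ∀ s s' : ℝ, ev P (lin p x - s • bT p op d v u w x) = 0 →
    ev P (lin p x' - s' • bT p op d v u w x') = 0 →
    lin p x - s • bT p op d v u w x = lin p x' - s' • bT p op d v u w x' → x = x') ∧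
  ∀ D : (V → ℝ) → E3, (∀ x, InT v u w x → (∀ y, x y ≤ 1 - ρ) → ∃ s : ℝ,
    D x = lin p x - s • bT p op d v u w x ∧ ev P (D x) = 0) →
    ContinuousOn D {x | InT v u w x ∧ ∀ y, x y ≤ 1 - ρ}

/-- PLN: the face planes with prescribed values at the vertices. -/
def Stmt_PLN : Prop := ∀ (V : Type) [Fintype V] [DecidableEq V] (K : Surf V) (p : V → E3),
  K.EmbStars p → ∀ o : V → V → V → ℝ, (∀ v u w, o v w u = - o v u w) → ∃ C : ℝ, 0 < C ∧
  ∀ r : ℝ, 0 < r → r ≤ 1 → ∃ P : V → V → V → Aff,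
    (∀ v u w, P v w u = - P v u w) ∧ (∀ v u w, P u w v = P v u w) ∧
    ∀ v u w, ({v, u, w} : Finset V) ∈ K.tri → ev (P v u w) (p v) = - (r * o v u w) ∧
      ‖(P v u w).1 - n0 p v u w‖ ≤ C * r ∧
      (o v u w = 0 → o u w v = 0 → o w v u = 0 → P v u w = P0 p v u w)

/-- PFC: the facet side of an active edge. -/
def Stmt_PFC : Prop := ∀ (V : Type) [Fintype V] [DecidableEq V] (K : Surf V) (p : V → E3)
  (Φ : Finset Aff) (op : V → V → V → V), K.Framed p Φ → IsOpp K op → ∀ v u w, ∀ φ ∈ Φ,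
  ev φ (p v) = 0 → ev φ (p u) = 0 → ev φ (p w) = 0 → Flag K p Φ op v u w →
  ∃ t : ℝ, 0 < t ∧ ∀ y : E3, ev (sg p op v u w • P0 p v u w) y = - (t * ev φ y)

/-- EIJ: the projection along the direction of an edge is injective on its two triangles. -/
def Stmt_EIJ : Prop := ∀ (V : Type) [Fintype V] [DecidableEq V] (K : Surf V) (p : V → E3)
  (Φ : Finset Aff) (op : V → V → V → V), K.Framed p Φ → IsOpp K op → ∀ v u w,
  Flag K p Φ op v u w → ∀ x x' : V → ℝ, (InT v u w x ∨ InT v u (op v u w) x) →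
  (InT v u w x' ∨ InT v u (op v u w) x') → ∀ s s' : ℝ,
  lin p x - s • eE p v u w (op v u w) = lin p x' - s' • eE p v u w (op v u w) → x = x'

end Pool.Agent.TSR
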