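import Pool.Agent.TSR.EStmts

/-!
# TSR: the vertex theorem VTX: interface between the polygons of the vertices and the gluing
-/

set_option autoImplicit false

namespace Pool.Agent.TSR

open Set Filter Topology Pool.Agent.TSM

variable {V : Type} [Fintype V] [DecidableEq V]

/-- normal of the triangle `v u w` oriented by its edge `v u` -/
noncomputable def nE (p : V → E3) (op : V → V → V → V) (v u w : V) : E3 :=
  sg p op v u w • n0 p v u w

/-- the core map `G` of the vertex `v` at the scale `r` with face planes `P u w` (plane of the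
oriented triangle `v u w`) and chamfer planes `B n` (not oriented; `τ u • B n` is oriented by the
edge `v u`) -/
structure CoreMap (K : Surf V) (p : V → E3) (Φ : Finset Aff) (op : V → V → V → V) (d : ℝ) (v : V)
    {κ : Type} (X : V → Finset κ) (τ : V → ℝ) (R M r : ℝ) (P : V → V → Aff) (B : κ → Aff)
    (G : E3 → E3) : Prop where
  cont : ContinuousOn (fun x => G (lin p x)) (K.star v)
  good : ∀ x : K.body, 0 < x.1 v → Good (fun x' : K.body => G (K.map p x')) x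
  bd : ∀ x ∈ K.star v, ‖G (lin p x) - lin p x‖ ≤ M * (r + ‖lin p x - p v‖)
  half : ∀ φ ∈ Φ, ev φ (p v) = 0 → ∀ x ∈ K.star v, ev φ (G (lin p x)) ≤ 0
  edge : ∀ u w, Flag K p Φ op v u w → ∀ x, InT v u w x → 1 / 2 ≤ x v →
    R * r ≤ ‖lin p x - p v‖ → x w ≤ d * x u →
    ∃ s : ℝ, G (lin p x) = lin p x - s • eE p v u w (op v u w) ∧
      0 ≤ sg p op v u w * ev (P u w) (G (lin p x)) ∧
      0 ≤ sg p op v u (op v u w) * ev (P u (op v u w)) (G (lin p x)) ∧
      (∀ n ∈ X u, 0 ≤ τ u * ev (B n) (G (lin p x))) ∧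
      (ev (P u w) (G (lin p x)) = 0 ∨ ev (P u (op v u w)) (G (lin p x)) = 0 ∨
        ∃ n ∈ X u, ev (B n) (G (lin p x)) = 0)
  face : ∀ u w, Nf K p Φ v u w → ∀ x, InT v u w x → 1 / 2 ≤ x v →
    R * r ≤ ‖lin p x - p v‖ → d / 2 * x u ≤ x w → d / 2 * x w ≤ x u →
    (∃ s : ℝ, G (lin p x) = lin p x - s • bT p op d v u w x) ∧ ev (P u w) (G (lin p x)) = 0
  fact : ∀ u w, Ft K p Φ v u w → ∀ x, InT v u w x → 1 / 2 ≤ x v →
    R * r ≤ ‖lin p x - p v‖ → (Flag K p Φ op v u w → d / 2 * x u ≤ x w) →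
    (Flag K p Φ op v w u → d / 2 * x w ≤ x u) → G (lin p x) = lin p x

/-- the planes at the vertex `v` are near to the prescribed ones -/
structure NearV (K : Surf V) (p : V → E3) (Φ : Finset Aff) (v : V)
    {κ : Type} (X : V → Finset κ) (N₀ : κ → E3) (o : V → V → ℝ) (oN : κ → ℝ) (η r : ℝ)
    (P : V → V → Aff) (B : κ → Aff) : Prop where
  anti : ∀ u w, P w u = - P u w
  nf : ∀ u w, Nf K p Φ v u w → ‖(P u w).1 - n0 p v u w‖ < η ∧ ev (P u w) (p v) = - (r * o u w)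
  ft : ∀ u w, Ft K p Φ v u w → P u w = P0 p v u w
  ch : ∀ u, ∀ n ∈ X u, ‖(B n).1 - N₀ n‖ < η ∧ |ev (B n) (p v) + r * oN n| < r * η

/-- VTX (from VM2): everything about one vertex. -/
def Stmt_VTX : Prop :=
  ∀ (V : Type) [Fintype V] [DecidableEq V] (K : Surf V) (p : V → E3) (Φ : Finset Aff)
    (op : V → V → V → V), K.Framed p Φ → IsOpp K op → ∃ d₀ : ℝ, 0 < d₀ ∧ ∀ d : ℝ, 0 < d →
    d < d₀ → ∀ v, ¬ K.Outer p Φ v → ∃ c C ε₀ : ℝ, 0 < c ∧ 0 < ε₀ ∧ ∀ ε' : ℝ, 0 < ε' → ε' < ε₀ →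
    ∃ (κ : Type) (X : V → Finset κ) (τ : V → ℝ) (N₀ : κ → E3),
      (∀ u w, Flag K p Φ op v u w → (τ u = 1 ∨ τ u = -1) ∧
        EHalf (p v) (p u) (p w) (p (op v u w)) (nE p op v u w) (nE p op v u (op v u w)) ε' c C
          (X u) (fun n => τ u • N₀ n)) ∧
      ∃ (o : V → V → ℝ) (oN : κ → ℝ) (η R M : ℝ), 0 < η ∧ 0 < R ∧ (∀ u w, o w u = - o u w) ∧
        ∀ (r : ℝ), 0 < r → ∀ (P : V → V → Aff) (B : κ → Aff),
        NearV K p Φ v X N₀ o oN η r P B → ∃ G : E3 → E3, CoreMap K p Φ op d v X τ R M r P B G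

end Pool.Agent.TSR
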